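import Pool.Agent.Lib.MP_a0c355_lc.B12.FiltP
import Pool.Agent.Lib.MP_a0c355_lc.Dim

/-! # The dimension of `F_p[T] / KKp P ⊤ m` (general `p` version of `../Dim.lean`) -/

set_option autoImplicit false

namespace Pool.Agent.MPa0c355.B12

open MonoidAlgebra Module
open scoped Pointwise

variable {T : Type*} [Group T]

theorem DimP_mem_span_single (p : ℕ) (a : MonoidAlgebra (ZMod p) T) :
    a ∈ Submodule.span (ZMod p)
      (Set.range fun y : T => (single y 1 : MonoidAlgebra (ZMod p) T)) := by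
  induction a using MonoidAlgebra.induction_on with
  | of y => exact Submodule.subset_span ⟨y, rfl⟩
  | add a b ha hb => exact add_mem ha hb
  | smul c a ha => exact Submodule.smul_mem _ _ ha

theorem DimP_ddp_mul_mem (p : ℕ) (P : ℕ → Subgroup T) (H : Subgroup T) {a v : ℕ} {y : T}
    (hy : y ∈ H) (hv : y ∈ P v) {k : MonoidAlgebra (ZMod p) T} (hk : k ∈ KKp p P H a) :
    ddp p y * k ∈ KKp p P H (a + v) := by
  induction hk using Submodule.span_induction with
  | mem u hu =>
    obtain ⟨l, h1, h2, rfl⟩ := hu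
    refine Submodule.subset_span ⟨(y, v) :: l, ?_, ?_, ?_⟩
    · intro q hq
      rcases List.mem_cons.1 hq with rfl | hq
      · exact ⟨hy, hv⟩
      · exact h1 q hq
    · rw [List.map_cons, List.sum_cons]
      change a + v ≤ v + _
      omega
    · rw [List.map_cons, List.prod_cons]
  | zero => rw [mul_zero]; exact zero_mem _
  | add a b _ _ ha hb => rw [mul_add]; exact add_mem ha hb
  | smul c a _ ha => rw [mul_smul_comm]; exact Submodule.smul_mem _ _ ha

/-- `A = F·1 + ∑ (s-1) A`. -/
theorem DimP_top_le_one_add (p : ℕ) (S : Finset T) (hS : Subgroup.closure (S : Set T) = ⊤) :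
    (⊤ : Submodule (ZMod p) (MonoidAlgebra (ZMod p) T)) ≤
      1 ⊔ Submodule.span (ZMod p) (ddp p '' (S : Set T)) * ⊤ := by
  set D := Submodule.span (ZMod p) (ddp p '' (S : Set T)) with hD
  have hmul : ∀ u ∈ D * (⊤ : Submodule (ZMod p) (MonoidAlgebra (ZMod p) T)), ∀ v,
      u * v ∈ D * ⊤ := by
    intro u hu v
    have := Submodule.mul_mem_mul hu (Submodule.mem_top (x := v))
    rw [mul_assoc] at this
    have h : D * ((⊤ : Submodule (ZMod p) (MonoidAlgebra (ZMod p) T)) * ⊤) ≤ D * ⊤ :=
      mul_le_mul' le_rfl le_top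
    exact h this
  have hdd : ∀ y : T, ddp p y ∈ D * (⊤ : Submodule (ZMod p) (MonoidAlgebra (ZMod p) T)) := by
    intro y
    have hy : y ∈ Subgroup.closure (S : Set T) := by rw [hS]; trivial
    induction hy using Subgroup.closure_induction with
    | mem y hy =>
      have := Submodule.mul_mem_mul (Submodule.subset_span ⟨y, hy, rfl⟩ : ddp p y ∈ D)
        (Submodule.mem_top (x := (1 : MonoidAlgebra (ZMod p) T)))
      rwa [mul_one] at this
    | one =>
      rw [ddp, ← MonoidAlgebra.one_def, sub_self]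
      exact zero_mem _
    | mul x y _ _ hx hy =>
      have e : ddp p (x * y) = ddp p x * single y 1 + ddp p y := by
        have : (single x 1 * single y 1 : MonoidAlgebra (ZMod p) T) = single (x*y) 1 := by
          rw [single_mul_single, mul_one]
        simp only [ddp, ← this]; noncomm_ring
      rw [e]; exact add_mem (hmul _ hx _) hy
    | inv x _ hx =>
      have e : ddp p x⁻¹ = -(ddp p x * single x⁻¹ 1) := by
        have : (single x 1 * single x⁻¹ 1 : MonoidAlgebra (ZMod p) T) = 1 := by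
          rw [single_mul_single, mul_one, mul_inv_cancel, MonoidAlgebra.one_def]
        simp only [ddp, sub_mul, this]; noncomm_ring
      rw [e]; exact neg_mem (hmul _ hx _)
  intro a _
  refine Submodule.span_le.2 ?_ (DimP_mem_span_single p a)
  rintro _ ⟨y, rfl⟩
  have e : (single y 1 : MonoidAlgebra (ZMod p) T) = 1 + ddp p y := by rw [ddp]; abel
  change single y 1 ∈ _
  rw [e]
  exact add_mem (Submodule.mem_sup_left (Submodule.one_le.1 le_rfl))
    (Submodule.mem_sup_right (hdd y))

theorem DimP_top_le_pow (p : ℕ) (S : Finset T) (hS : Subgroup.closure (S : Set T) = ⊤) (k : ℕ) :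
    (⊤ : Submodule (ZMod p) (MonoidAlgebra (ZMod p) T)) ≤
      (1 ⊔ Submodule.span (ZMod p) (ddp p '' (S : Set T))) ^ k ⊔
      Submodule.span (ZMod p) (ddp p '' (S : Set T)) ^ k * ⊤ := by
  set D := Submodule.span (ZMod p) (ddp p '' (S : Set T)) with hD
  induction k with
  | zero => simp
  | succ k ih =>
    refine ih.trans (sup_le ?_ ?_)
    · refine le_sup_of_le_left ?_
      rw [pow_succ]
      calc (1 ⊔ D) ^ k = (1 ⊔ D) ^ k * 1 := (mul_one _).symm
        _ ≤ _ := mul_le_mul' le_rfl le_sup_left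
    · calc D ^ k * ⊤ ≤ D ^ k * (1 ⊔ D * ⊤) := mul_le_mul' le_rfl (DimP_top_le_one_add p S hS)
        _ = D ^ k ⊔ D ^ k * (D * ⊤) := by rw [Submodule.mul_sup, mul_one]
        _ ≤ _ := by
          refine sup_le_sup ?_ ?_
          · calc D ^ k ≤ (1 ⊔ D) ^ k := pow_le_pow_left' le_sup_right k
              _ = (1 ⊔ D) ^ k * 1 := (mul_one _).symm
              _ ≤ (1 ⊔ D) ^ k * (1 ⊔ D) := mul_le_mul' le_rfl le_sup_left
              _ = _ := (pow_succ _ _).symm
          · rw [← mul_assoc, ← pow_succ]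

theorem DimP_pow_mul_top_le (p : ℕ) (P : ℕ → Subgroup T) (hP0 : P 0 = ⊤) (hP1 : P 1 = ⊤)
    (S : Finset T) (k : ℕ) :
    Submodule.span (ZMod p) (ddp p '' (S : Set T)) ^ k * ⊤ ≤ KKp p P ⊤ k := by
  have htop : ∀ a : MonoidAlgebra (ZMod p) T, a ∈ KKp p P ⊤ 0 := by
    intro a
    refine Submodule.span_le.2 ?_ (DimP_mem_span_single p a)
    rintro _ ⟨y, rfl⟩
    have h1 : (1 : MonoidAlgebra (ZMod p) T) ∈ KKp p P ⊤ 0 :=
      Submodule.subset_span ⟨[], by simp, by simp, by simp⟩
    have h2 := DimP_ddp_mul_mem p P ⊤ (Subgroup.mem_top y) (v := 0) (by rw [hP0]; trivial) h1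
    have e : (single y 1 : MonoidAlgebra (ZMod p) T) = ddp p y * 1 + 1 := by
      rw [ddp, mul_one, sub_add_cancel]
    change single y 1 ∈ _
    rw [e]
    exact add_mem h2 h1
  induction k with
  | zero => intro a _; exact htop a
  | succ k ih =>
    rw [pow_succ', mul_assoc]
    refine Submodule.mul_le.2 fun d hd u hu => ?_
    have hu' := ih hu
    induction hd using Submodule.span_induction with
    | mem d hd =>
      obtain ⟨y, _, rfl⟩ := hd
      exact DimP_ddp_mul_mem p P ⊤ (Subgroup.mem_top y) (by rw [hP1]; trivial) hu'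
    | zero => rw [zero_mul]; exact zero_mem _
    | add a b _ _ ha hb => rw [add_mul]; exact add_mem ha hb
    | smul c a _ ha => rw [smul_mul_assoc]; exact Submodule.smul_mem _ _ ha

/-- As `finrank_quot_le` in `../Dim.lean` (`exists_gen` there does not depend on `p` and may be
used). -/
theorem finrank_quot_le_p (p : ℕ) [Fact p.Prime] [Finite T] (P : ℕ → Subgroup T) (hP0 : P 0 = ⊤)
    (hP1 : P 1 = ⊤) (m n : ℕ) (hn : Nat.card T ≤ 2 ^ n) :
    finrank (ZMod p) (MonoidAlgebra (ZMod p) T ⧸ KKp p P ⊤ m) ≤ (n + 1) ^ m := by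
  classical
  obtain ⟨S, hS, hcard⟩ := exists_gen (T := T)
  have hSn : S.card ≤ n := (Nat.pow_le_pow_iff_right (by norm_num)).1 (hcard.trans hn)
  let Fs : Finset (MonoidAlgebra (ZMod p) T) := insert 1 (S.image (ddp p))
  have hFs : (1 : Submodule (ZMod p) (MonoidAlgebra (ZMod p) T)) ⊔
      Submodule.span (ZMod p) (ddp p '' (S : Set T)) = Submodule.span (ZMod p) (Fs : Set _) := by
    simp only [Fs, Finset.coe_insert, Finset.coe_image]
    rw [Submodule.span_insert, Submodule.one_eq_span]
  have hFcard : Fs.card ≤ n + 1 :=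
    (Finset.card_insert_le _ _).trans (Nat.add_le_add_right (Finset.card_image_le.trans hSn) 1)
  let U := Submodule.span (ZMod p) (Fs : Set (MonoidAlgebra (ZMod p) T)) ^ m
  have hU : U = Submodule.span (ZMod p) ((Fs ^ m : Finset _) : Set _) := by
    simp only [U]; rw [Submodule.span_pow, ← Finset.coe_pow]
  have hUfin : finrank (ZMod p) U ≤ (n+1)^m := by
    rw [hU]
    exact (finrank_span_finset_le_card (R := ZMod p) (Fs ^ m)).trans
      (Finset.card_pow_le.trans (Nat.pow_le_pow_left hFcard m))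
  have htop : (⊤ : Submodule (ZMod p) (MonoidAlgebra (ZMod p) T)) ≤ U ⊔ KKp p P ⊤ m := by
    have h := DimP_top_le_pow p S hS m
    rw [hFs] at h
    exact h.trans (sup_le_sup le_rfl (DimP_pow_mul_top_le p P hP0 hP1 S m))
  have hfinU : Module.Finite (ZMod p) U := by
    rw [hU]; exact FiniteDimensional.span_finset (ZMod p) (Fs ^ m)
  let q : U →ₗ[ZMod p] (MonoidAlgebra (ZMod p) T ⧸ KKp p P ⊤ m) :=
    (KKp p P ⊤ m).mkQ.comp U.subtype
  have hq : Function.Surjective q := by
    intro v
    obtain ⟨a, rfl⟩ := (KKp p P ⊤ m).mkQ_surjective v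
    obtain ⟨u, hu, k, hk, hak⟩ := Submodule.mem_sup.1 (htop (Submodule.mem_top (x := a)))
    refine ⟨⟨u, hu⟩, ?_⟩
    change (KKp p P ⊤ m).mkQ u = (KKp p P ⊤ m).mkQ a
    rw [← hak, map_add]
    have : (KKp p P ⊤ m).mkQ k = 0 := by
      rw [Submodule.mkQ_apply]; exact (Submodule.Quotient.mk_eq_zero _).2 hk
    rw [this, add_zero]
  exact (LinearMap.finrank_le_finrank_of_surjective hq).trans hUfin

theorem finite_quot_p (p : ℕ) [Fact p.Prime] [Finite T] (P : ℕ → Subgroup T) (m : ℕ) :
    Module.Finite (ZMod p) (MonoidAlgebra (ZMod p) T ⧸ KKp p P ⊤ m) := by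
  have : Module.Finite (ZMod p) (MonoidAlgebra (ZMod p) T) := by
    refine ⟨?_⟩
    have h : (⊤ : Submodule (ZMod p) (MonoidAlgebra (ZMod p) T))
        = Submodule.span (ZMod p) (Set.range fun y : T => single y 1) :=
      (eq_top_iff.2 fun a _ => DimP_mem_span_single p a).symm
    rw [h]
    exact Submodule.fg_span (Set.finite_range _)
  infer_instance

end Pool.Agent.MPa0c355.B12
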