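import Pool.Agent.Lib.MP_a0c355_lc.Support

/-! # The density lemma for word functions of any length -/

set_option autoImplicit false

namespace Pool.Agent.MPa0c355.B12

open Module Matrix
open scoped Pointwise

/-- As `word_density` in `../Support.lean`, where the exponent is 3: the entries of
`(L * R x) ^ d` lie in `coefSpan R ^ d` (`EntriesIn`, induction on `d`; for `d = 0` the entries are
constants and `coefSpan R ^ 0 = 1`), then `support_bound`, `coefSpan_pow_trans`,
`finrank_coefSpan_pow`. -/
theorem word_density_pow {G K ι : Type*} [Group G] [Finite G] [Field K] [Fintype ι]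
    [DecidableEq ι] (R : G →* Matrix ι ι K) (L : Matrix ι ι K) (v0 : ι → K) (lam : ι → K) (c : K)
    (d : ℕ) (F : G → K) (hF : ∀ x, F x = lam ⬝ᵥ (((L * R x) ^ d) *ᵥ v0) + c) (hne : F ≠ 0) :
    Nat.card G ≤ (Fintype.card ι ^ 2 + 1) ^ d * Nat.card {x // F x ≠ 0} := by
  have h1 : EntriesIn (coefSpan R) fun x => L * R x :=
    EntriesIn.const_mul L fun i j => coef_mem R i j
  have h3 : ∀ n : ℕ, EntriesIn (coefSpan R ^ n) fun x => (L * R x) ^ n := by
    intro n
    induction n with
    | zero =>
      intro i j
      have e : (fun x : G => ((L * R x) ^ 0) i j) = (1 : Matrix ι ι K) i j • (1 : G → K) := by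
        funext x
        rw [pow_zero, Pi.smul_apply, Pi.one_apply, smul_eq_mul, mul_one]
      rw [e, pow_zero]
      exact Submodule.smul_mem _ _ (Submodule.one_le.1 le_rfl)
    | succ n ih =>
      intro i j
      have e := (ih.mul h1) i j
      simp only [← pow_succ] at e
      exact e
  have hone : ∀ n : ℕ, (1 : G → K) ∈ coefSpan R ^ n := by
    intro n
    induction n with
    | zero =>
      rw [pow_zero]
      exact (Submodule.one_le.1 le_rfl)
    | succ n ih =>
      have e := Submodule.mul_mem_mul ih (one_mem_coefSpan R)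
      rwa [one_mul, ← pow_succ] at e
  have hmem : F ∈ coefSpan R ^ d := by
    have e : F = (∑ i, ∑ j, (lam i * v0 j) • fun x => ((L * R x) ^ d) i j)
        + c • (1 : G → K) := by
      funext x
      rw [hF x]
      simp only [dotProduct, Matrix.mulVec, Pi.add_apply, Finset.sum_apply, Pi.smul_apply,
        smul_eq_mul, Pi.one_apply, mul_one, Finset.mul_sum]
      congr 1
      refine Finset.sum_congr rfl fun i _ => Finset.sum_congr rfl fun j _ => ?_
      ring
    rw [e]
    exact add_mem (Submodule.sum_mem _ fun i _ => Submodule.sum_mem _ fun j _ =>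
      Submodule.smul_mem _ _ (h3 d i j)) (Submodule.smul_mem _ _ (hone d))
  refine (support_bound (coefSpan R ^ d) (fun F hF a => coefSpan_pow_trans R d F hF a)
    hmem hne).trans ?_
  exact Nat.mul_le_mul_right _ (finrank_coefSpan_pow R d)

end Pool.Agent.MPa0c355.B12
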