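import Pool.Agent.Lib.MP_a0c355_lc.B12.FiltQ
import Pool.Agent.Lib.MP_a0c355_lc.B12.DimP
import Pool.Agent.Lib.MP_a0c355_lc.B12.WordD

/-! # The abstract density lemma, words of length `d`, prime `p` -/

set_option autoImplicit false

namespace Pool.Agent.MPa0c355.B12

open MonoidAlgebra Module Matrix

/-- the word `t · c_x(t) · ... · c_x^(d-1)(t)` -/
def nw {G T : Type*} [Group G] [Group T] (c : G →* MulAut T) (t : T) (x : G) : ℕ → T
  | 0 => 1
  | d + 1 => t * c x (nw c t x d)

/-- As `abs_density` in `../AbsDensity.lean`: `A = F_p[T]`, `K = KKp p P ⊤ m`, `C x` the operator of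
`c x` on `A ⧸ K`, `L` the left multiplication by `t`; `(L C x)^d` applied to the class of `1` is the
class of `nw c t x d` (induction on `d`).  With `z = nw c t x0 d` choose a functional `lam` which is
not `0` at the class of `z - 1` (`not_mem_KKp`) and put
`F x = lam (class of nw c t x d) - lam (class of 1)`: `F x ≠ 0` implies `nw c t x d ≠ 1`, and
`F x0 ≠ 0`.  `word_density_pow`. -/
theorem abs_density_p (p : ℕ) [Fact p.Prime] {G T : Type*} [Group G] [Finite G] [Group T]
    [Finite T] (hT : IsPGroup p T) (c : G →* MulAut T) (P : ℕ → Subgroup T) (hP0 : P 0 = ⊤)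
    (hP1 : P 1 = ⊤) (hanti : Antitone P)
    (hcomm : ∀ i j x y, x ∈ P i → y ∈ P j → x⁻¹ * y⁻¹ * x * y ∈ P (i+j))
    (hpow : ∀ i x, x ∈ P i → x ^ p ∈ P (p*i)) {m : ℕ} (hm : P m = ⊥)
    (hinv : ∀ g i y, y ∈ P i → c g y ∈ P i) (t : T) (d : ℕ) (x0 : G)
    (h1 : nw c t x0 d ≠ 1) (h2 : nw c t x0 d ^ p = 1) {n : ℕ} (hn : Nat.card T ≤ 2 ^ n) :
    Nat.card G ≤ (((n + 1) ^ m) ^ 2 + 1) ^ d * Nat.card {x // nw c t x d ≠ 1} := by
  classical
  let A := MonoidAlgebra (ZMod p) T
  let K : Submodule (ZMod p) A := KKp p P ⊤ m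
  have hfin : Module.Finite (ZMod p) (A ⧸ K) := finite_quot_p p P m
  -- conjugation on the group algebra
  let φ : G →* (A ≃ₐ[ZMod p] A) := (MonoidAlgebra.domCongrAut (R := ZMod p) (A := ZMod p)).comp c
  have hφs : ∀ g y, φ g (single y 1) = single (c g y) 1 := by
    intro g y
    change MonoidAlgebra.domCongr (ZMod p) (ZMod p) (c g) (single y 1) = _
    rw [MonoidAlgebra.domCongr_single]
  have hφd : ∀ g y, φ g (ddp p y) = ddp p (c g y) := by
    intro g y
    rw [ddp, map_sub, hφs, map_one, ddp]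
  have hφK : ∀ g, K ≤ K.comap (φ g).toLinearMap := by
    intro g
    refine Submodule.span_le.2 ?_
    rintro _ ⟨l, h1, h2, rfl⟩
    change φ g _ ∈ K
    rw [map_list_prod, List.map_map]
    refine Submodule.subset_span ⟨l.map fun q => (c g q.1, q.2), ?_, ?_, ?_⟩
    · intro q hq
      obtain ⟨r, hr, rfl⟩ := List.mem_map.1 hq
      exact ⟨Subgroup.mem_top _, hinv g _ _ (h1 r hr).2⟩
    · rw [List.map_map]
      exact h2
    · rw [List.map_map]
      congr 1
      refine List.map_congr_left fun q _ => ?_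
      exact hφd g q.1
  let C : G →* Module.End (ZMod p) (A ⧸ K) :=
    { toFun := fun g => K.mapQ K (φ g).toLinearMap (hφK g)
      map_one' := by
        refine LinearMap.ext fun v => ?_
        obtain ⟨a, rfl⟩ := K.mkQ_surjective v
        change K.mapQ K (φ 1).toLinearMap (hφK 1) (K.mkQ a) = K.mkQ a
        rw [Submodule.mkQ_apply, Submodule.mapQ_apply]
        congr 1
        change (φ 1) a = a
        rw [map_one]; rfl
      map_mul' := fun g h => by
        refine LinearMap.ext fun v => ?_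
        obtain ⟨a, rfl⟩ := K.mkQ_surjective v
        change K.mapQ K (φ (g * h)).toLinearMap (hφK (g*h)) (K.mkQ a) =
          K.mapQ K (φ g).toLinearMap (hφK g) (K.mapQ K (φ h).toLinearMap (hφK h) (K.mkQ a))
        rw [Submodule.mkQ_apply, Submodule.mapQ_apply, Submodule.mapQ_apply, Submodule.mapQ_apply]
        congr 1
        change (φ (g * h)) a = φ g (φ h a)
        rw [map_mul]; rfl }
  have hC : ∀ g y, C g (K.mkQ (single y 1)) = K.mkQ (single (c g y) 1) := by
    intro g y
    change K.mapQ K (φ g).toLinearMap (hφK g) (K.mkQ (single y 1)) = _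
    rw [Submodule.mkQ_apply, Submodule.mapQ_apply]
    change K.mkQ (φ g (single y 1)) = _
    rw [hφs]
  have hLK : K ≤ K.comap (LinearMap.mulLeft (ZMod p) (single t 1 : A)) :=
    fun k hk => KKp_single_mul_mem p P hP0 ⊤ (Subgroup.mem_top t) hk
  let L : Module.End (ZMod p) (A ⧸ K) := K.mapQ K (LinearMap.mulLeft (ZMod p) (single t 1 : A)) hLK
  have hL : ∀ y, L (K.mkQ (single y 1)) = K.mkQ (single (t * y) 1) := by
    intro y
    change K.mapQ K (LinearMap.mulLeft (ZMod p) (single t 1 : A)) hLK (K.mkQ (single y 1)) = _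
    rw [Submodule.mkQ_apply, Submodule.mapQ_apply]
    change K.mkQ (single t 1 * single y 1) = _
    rw [single_mul_single, mul_one]
  -- the powers of `L C x`
  have hLC : ∀ x k, ((L * C x) ^ k) (K.mkQ (single 1 1)) = K.mkQ (single (nw c t x k) 1) := by
    intro x k
    induction k with
    | zero => rfl
    | succ k ih =>
      rw [pow_succ']
      change L (C x (((L * C x) ^ k) (K.mkQ (single 1 1)))) = _
      rw [ih, hC, hL]
      rfl
  -- the linear functional
  have hzK : K.mkQ (ddp p (nw c t x0 d)) ≠ 0 := by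
    rw [Submodule.mkQ_apply, Ne, Submodule.Quotient.mk_eq_zero]
    exact not_mem_KKp p hT P hP0 hanti hcomm hpow hm h1 h2
  obtain ⟨lam, hlam⟩ : ∃ lam : Module.Dual (ZMod p) (A ⧸ K),
      lam (K.mkQ (ddp p (nw c t x0 d))) ≠ 0 := by
    by_contra hcon
    push Not at hcon
    exact hzK ((Module.forall_dual_apply_eq_zero_iff (ZMod p) _).1 hcon)
  let F : G → ZMod p := fun x => lam (K.mkQ (single (nw c t x d) 1))
    - lam (K.mkQ (single 1 1))
  have hF : ∀ x, F x ≠ 0 → nw c t x d ≠ 1 := by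
    intro x h3 h4
    apply h3
    simp only [F, h4, sub_self]
  have hF0 : F x0 ≠ 0 := by
    change lam (K.mkQ (single (nw c t x0 d) 1)) - lam (K.mkQ (single 1 1)) ≠ 0
    rw [← map_sub, ← map_sub, ← MonoidAlgebra.one_def]
    exact hlam
  let b := Module.finBasis (ZMod p) (A ⧸ K)
  let e := LinearMap.toMatrixAlgEquiv b
  let R : G →* Matrix (Fin (finrank (ZMod p) (A ⧸ K))) (Fin (finrank (ZMod p) (A ⧸ K))) (ZMod p) :=
    (e : _ →* _).comp C
  have hR : ∀ x, R x = e (C x) := fun x => rfl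
  have hlamv : ∀ v : A ⧸ K, (fun i => lam (b i)) ⬝ᵥ (b.repr v : _ → ZMod p) = lam v := by
    intro v
    conv_rhs => rw [← b.sum_repr v]
    rw [map_sum, dotProduct]
    refine Finset.sum_congr rfl fun i _ => ?_
    rw [map_smul, smul_eq_mul, mul_comm]
  have key := word_density_pow R (e L) (b.repr (K.mkQ (single 1 1))) (fun i => lam (b i))
    (- lam (K.mkQ (single 1 1))) d F (by
      intro x
      have h1 : (e L * R x) ^ d = e ((L * C x) ^ d) := by
        rw [hR, map_pow, map_mul]
      rw [h1]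
      have h2 : (e ((L * C x) ^ d)) *ᵥ (b.repr (K.mkQ (single 1 1)) : _ → ZMod p)
          = b.repr (((L * C x) ^ d) (K.mkQ (single 1 1))) :=
        LinearMap.toMatrix_mulVec_repr b b _ _
      rw [h2, hlamv, hLC, ← sub_eq_add_neg]) (by
      intro h
      exact hF0 (by rw [h]; rfl))
  have hcard : Nat.card {x // F x ≠ 0} ≤ Nat.card {x // nw c t x d ≠ 1} :=
    Nat.card_le_card_of_injective
      (fun y : {x // F x ≠ 0} => (⟨y.1, hF y.1 y.2⟩ : {x // nw c t x d ≠ 1}))
      fun y z hyz => Subtype.ext (Subtype.mk.inj hyz)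
  rw [Fintype.card_fin] at key
  refine key.trans (Nat.mul_le_mul ?_ hcard)
  have hD := finrank_quot_le_p p P hP0 hP1 m n hn
  gcongr

end Pool.Agent.MPa0c355.B12
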