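import Mathlib

/-! # The 3-part of `|GL(b, 2)|` -/

set_option autoImplicit false

namespace Pool.Agent.MPa0c355.B12

theorem Val3_step (j : ℕ) (hj : j ≠ 0) : padicValNat 3 (2 ^ j - 1) ≤ 1 + padicValNat 3 j := by
  have : Fact (Nat.Prime 3) := ⟨Nat.prime_three⟩
  rcases Nat.even_or_odd' j with ⟨m, rfl | rfl⟩
  · have hm : m ≠ 0 := by
      rintro rfl
      exact hj rfl
    have h := padicValNat.pow_sub_pow (p := 3) (x := 4) (y := 1) (by decide) (by norm_num)
      (by norm_num) (by norm_num) hm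
    rw [one_pow] at h
    have h4 : padicValNat 3 (4 - 1) = 1 := by
      have : (4 - 1 : ℕ) = 3 ^ 1 := by norm_num
      rw [this, padicValNat.prime_pow]
    have h5 : (2 : ℕ) ^ (2 * m) = 4 ^ m := by rw [pow_mul]; norm_num
    rw [h5, h, h4, padicValNat.mul (by norm_num) hm]
    omega
  · have h1 : ¬ 3 ∣ 2 ^ (2 * m + 1) - 1 := by
      have h3 : 2 ^ (2 * m + 1) % 3 = 2 := by
        rw [pow_succ, pow_mul, Nat.mul_mod, Nat.pow_mod]
        norm_num
      have h5 := Nat.one_le_pow (2 * m + 1) 2 (by norm_num)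
      generalize 2 ^ (2 * m + 1) = y at h3 h5 ⊢
      omega
    rw [padicValNat.eq_zero_of_not_dvd h1]
    omega

theorem Val3_prod (w : ℕ) : ∏ i ∈ Finset.range w, (2 ^ (i + 1) - 1) ≠ 0 ∧
    padicValNat 3 (∏ i ∈ Finset.range w, (2 ^ (i + 1) - 1)) ≤ w + padicValNat 3 w.factorial := by
  have : Fact (Nat.Prime 3) := ⟨Nat.prime_three⟩
  induction w with
  | zero => simp
  | succ w ih =>
    have h1 : 2 ^ (w + 1) - 1 ≠ 0 := by
      have := Nat.one_lt_pow (Nat.succ_ne_zero w) (show 1 < 2 by norm_num)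
      omega
    rw [Finset.prod_range_succ]
    refine ⟨mul_ne_zero ih.1 h1, ?_⟩
    rw [padicValNat.mul ih.1 h1, Nat.factorial_succ,
      padicValNat.mul (show w + 1 ≠ 0 by omega) (Nat.factorial_ne_zero w)]
    have h2 := Val3_step (w + 1) (Nat.succ_ne_zero w)
    have h3 := ih.2
    omega

/-- The product of the `q^w - q^i`. -/
theorem Val3_split (q w : ℕ) : ∏ i ∈ Finset.range w, (q ^ w - q ^ i) =
    (∏ i ∈ Finset.range w, q ^ i) * ∏ i ∈ Finset.range w, (q ^ (i + 1) - 1) := by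
  rw [← Finset.prod_range_reflect (fun i => q ^ (i + 1) - 1), ← Finset.prod_mul_distrib]
  refine Finset.prod_congr rfl fun i hi => ?_
  rw [Finset.mem_range] at hi
  rw [Nat.mul_sub, mul_one, ← pow_add]
  congr 2
  omega

/-- `v_3(2^b - 2^i) = v_3(2^(b-i) - 1)`, which is 0 for `b - i` odd and `1 + v_3((b-i)/2)` for `b - i`
even (lifting the exponent for `4^j - 1`), so at most `1 + v_3(b-i)`; `∑ v_3(j) = v_3(b!) ≤ b/2`;
only the even `b - i` contribute, so the 3-part is at most `3^(b/2 + b/2) ≤ 3^b`. The bound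
`8^b` is enough (`v ≤ ∑ (1 + v_3(j)) ≤ 3b/2` and `3^(3b/2) ≤ 8^b` because `27 ≤ 64`). -/
theorem three_part_le (b c : ℕ) (h : 3 ^ c ∣ ∏ i ∈ Finset.range b, (2 ^ b - 2 ^ i)) :
    3 ^ c ≤ 8 ^ b := by
  have : Fact (Nat.Prime 3) := ⟨Nat.prime_three⟩
  rw [Val3_split] at h
  have hco : Nat.Coprime (3 ^ c) (∏ i ∈ Finset.range b, 2 ^ i) :=
    Nat.Coprime.prod_right fun i _ => Nat.Coprime.pow _ _ (by norm_num)
  have h1 := hco.dvd_of_dvd_mul_left h
  obtain ⟨h2, h3⟩ := Val3_prod b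
  rw [padicValNat_dvd_iff_le h2] at h1
  have h4 := sub_one_mul_padicValNat_factorial (p := 3) b
  have h5 : 2 * padicValNat 3 b.factorial ≤ b := by
    have : (3 - 1) * padicValNat 3 b.factorial ≤ b := by rw [h4]; exact Nat.sub_le _ _
    omega
  have h6 : (3 ^ c) ^ 2 ≤ (8 ^ b) ^ 2 := by
    calc (3 ^ c) ^ 2 = 3 ^ (2 * c) := by rw [← pow_mul, mul_comm]
      _ ≤ 3 ^ (3 * b) := Nat.pow_le_pow_right (by norm_num) (by omega)
      _ = 27 ^ b := by rw [pow_mul]; norm_num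
      _ ≤ 64 ^ b := Nat.pow_le_pow_left (by norm_num) b
      _ = (8 ^ b) ^ 2 := by rw [← pow_mul, mul_comm b 2, pow_mul]; norm_num
  exact (Nat.pow_le_pow_iff_left (by norm_num)).1 h6

end Pool.Agent.MPa0c355.B12
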