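import Pool.Agent.Lib.MP_a0c355_lc.B12.Val2
import Pool.Agent.Lib.MP_a0c355_lc.B12.Val3

/-! # 2-groups acting on elementary abelian 3-groups, and conversely -/

set_option autoImplicit false

namespace Pool.Agent.MPa0c355.B12

/-- The automorphism group of an elementary abelian group is `GL(w, q)`: make `Additive W` a vector
space over `ZMod q` (`AddCommGroup.zmodModule`), choose a basis, `Matrix.card_GL_field` (or
`card_GL_field`). Only the divisibility is needed. -/
theorem card_mulAut (q : ℕ) [Fact q.Prime] (W : Type*) [CommGroup W] [Finite W]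
    (hW : ∀ x : W, x ^ q = 1) :
    ∃ w : ℕ, Nat.card W = q ^ w ∧
      Nat.card (MulAut W) = ∏ i ∈ Finset.range w, (q ^ w - q ^ i) := by
  classical
  let _ : Module (ZMod q) (Additive W) :=
    AddCommGroup.zmodModule (n := q) (fun x => hW x.toMul)
  have : Finite (Additive W) := ‹Finite W›
  have : Module.Finite (ZMod q) (Additive W) := Module.Finite.of_finite
  obtain ⟨w, hw⟩ : ∃ w, w = Module.finrank (ZMod q) (Additive W) := ⟨_, rfl⟩
  let b : Module.Basis (Fin w) (ZMod q) (Additive W) :=
    Module.finBasisOfFinrankEq (ZMod q) (Additive W) hw.symm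
  refine ⟨w, ?_, ?_⟩
  · have h1 : Nat.card (Additive W) = Nat.card (Fin w → ZMod q) :=
      Nat.card_congr b.equivFun.toEquiv
    rw [Nat.card_fun, Nat.card_zmod, Nat.card_fin] at h1
    exact h1
  · have e1 : MulAut W ≃ (Additive W ≃ₗ[ZMod q] Additive W) :=
      { toFun := fun f => (MulEquiv.toAdditive f).toLinearEquiv (fun c x => by
          exact ZMod.map_smul (MulEquiv.toAdditive f).toAddMonoidHom c x)
        invFun := fun f => MulEquiv.toAdditive.symm f.toAddEquiv
        left_inv := fun f => by ext x; rfl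
        right_inv := fun f => by ext x; rfl }
    have e2 : Nat.card (MulAut W) = Nat.card (GL (Fin w) (ZMod q)) :=
      Nat.card_congr (e1.trans ((LinearMap.GeneralLinearGroup.generalLinearEquiv (ZMod q)
        (Additive W)).symm.toEquiv.trans (Matrix.GeneralLinearGroup.toLin' b).symm.toEquiv))
    rw [e2, Matrix.card_GL_field, ZMod.card, Finset.prod_range]

/-- `|S| = 2^c` divides `|MulAut W|` (`Subgroup.card_dvd_of_injective`); `two_part_le`. -/
theorem card_two_le {S : Type*} [Group S] [Finite S] (hS : IsPGroup 2 S) (W : Type*) [CommGroup W]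
    [Finite W] (hW : ∀ x : W, x ^ 3 = 1) (φ : S →* MulAut W) (hφ : Function.Injective φ) :
    Nat.card S ≤ Nat.card W ^ 2 := by
  have : Fact (Nat.Prime 2) := ⟨Nat.prime_two⟩
  have : Fact (Nat.Prime 3) := ⟨Nat.prime_three⟩
  obtain ⟨c, hc⟩ := IsPGroup.iff_card.1 hS
  obtain ⟨w, hw, hA⟩ := card_mulAut 3 W hW
  have h1 : Nat.card S ∣ Nat.card (MulAut W) := Subgroup.card_dvd_of_injective φ hφ
  rw [hA, hc] at h1
  rw [hc, hw, ← pow_mul, mul_comm, pow_mul]
  exact two_part_le w c h1

theorem card_three_le {S : Type*} [Group S] [Finite S] (hS : IsPGroup 3 S) (W : Type*)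
    [CommGroup W] [Finite W] (hW : ∀ x : W, x ^ 2 = 1) (φ : S →* MulAut W)
    (hφ : Function.Injective φ) : Nat.card S ≤ Nat.card W ^ 3 := by
  have : Fact (Nat.Prime 2) := ⟨Nat.prime_two⟩
  have : Fact (Nat.Prime 3) := ⟨Nat.prime_three⟩
  obtain ⟨c, hc⟩ := IsPGroup.iff_card.1 hS
  obtain ⟨w, hw, hA⟩ := card_mulAut 2 W hW
  have h1 : Nat.card S ∣ Nat.card (MulAut W) := Subgroup.card_dvd_of_injective φ hφ
  rw [hA, hc] at h1
  rw [hc, hw, ← pow_mul, mul_comm, pow_mul]
  exact three_part_le w c h1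

end Pool.Agent.MPa0c355.B12
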