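import Pool.Agent.Lib.MP_a0c355_lc.B12.ProgB

/-! # Averages -/

set_option autoImplicit false

namespace Pool.Agent.MPa0c355.B12

open scoped ENNReal

variable {G : Type} [Group G] [Finite G]

omit [Finite G] in
theorem AvgB_conj_pow {t : G} (B' : Subgroup G) (hn : ∀ b ∈ B', t * b * t⁻¹ ∈ B') (n : ℕ) :
    ∀ b ∈ B', t ^ n * b * (t ^ n)⁻¹ ∈ B' := by
  induction n with
  | zero => intro b hb; simpa using hb
  | succ n ih =>
    intro b hb
    have h := ih _ (hn b hb)
    have e : t ^ (n + 1) * b * (t ^ (n + 1))⁻¹ = t ^ n * (t * b * t⁻¹) * (t ^ n)⁻¹ := by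
      rw [pow_succ, mul_inv_rev]
      group
    rw [e]
    exact h

omit [Finite G] in
theorem AvgB_conj_inv {t : G} (ht : t ^ 12 = 1) (B' : Subgroup G)
    (hn : ∀ b ∈ B', t * b * t⁻¹ ∈ B') (e : ℕ) :
    ∀ b ∈ B', (t ^ e)⁻¹ * b * t ^ e ∈ B' := by
  intro b hb
  have h1 : t ^ (11 * e) * t ^ e = 1 := by
    rw [← pow_add, show 11 * e + e = 12 * e by ring, pow_mul, ht, one_pow]
  have h2 : t ^ (11 * e) = (t ^ e)⁻¹ := eq_inv_of_mul_eq_one_left h1
  have h3 := AvgB_conj_pow B' hn (11 * e) b hb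
  rw [h2, inv_inv] at h3
  exact h3

theorem AvgB_avg_sum {ι : Type} (B : Subgroup G) (s : Finset ι) (F : ι → G → ℝ≥0∞) (w : G) :
    avg B (fun y => ∑ i ∈ s, F i y) w = ∑ i ∈ s, avg B (F i) w := by
  classical
  induction s using Finset.induction_on with
  | empty => simp [avg]
  | insert a s ha ih =>
    simp only [Finset.sum_insert ha]
    rw [avg_add, ih]

theorem AvgB_le (B : Subgroup G) (F : G → ℝ≥0∞) (M : ℝ≥0∞) (hF : ∀ x, F x ≤ M) (w : G) :
    avg B F w ≤ M := by
  have h : avg B F w ≤ avg B (fun _ => M) w := by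
    rw [avg, avg]
    exact mul_le_mul_right (ENNReal.tsum_le_tsum fun x => hF _) _
  rwa [avg_const] at h

/-- the sum of the 12 averages is `12` times the average over the larger group -/
theorem AvgB_sum12 {t : G} (ht : t ^ 12 = 1) (B' : Subgroup G) (hn : ∀ b ∈ B', t * b * t⁻¹ ∈ B')
    (F : G → ℝ≥0∞) (w : G) :
    ∑ e ∈ Finset.range 12, avg B' F (w * t ^ e)
      = 12 * avg (Subgroup.closure {t} ⊔ B') F w := by
  set B := Subgroup.closure {t} ⊔ B' with hB
  have htB : t ∈ B := Subgroup.mem_sup_left (Subgroup.subset_closure rfl)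
  have hle : B' ≤ B := le_sup_right
  set A : G → ℝ≥0∞ := avg B' F with hA
  let S : G → ℝ≥0∞ := fun y => ∑ e ∈ Finset.range 12, A (y * t ^ e)
  have hAb : ∀ b ∈ B', ∀ y, A (y * b) = A y := fun b hb y => avg_mul_mem F hb y
  have hAb2 : ∀ b ∈ B', ∀ (y : G) (e : ℕ), A (y * b * t ^ e) = A (y * t ^ e) := by
    intro b hb y e
    have h1 : y * b * t ^ e = y * t ^ e * ((t ^ e)⁻¹ * b * t ^ e) := by group
    rw [h1]
    exact hAb _ (AvgB_conj_inv ht B' hn e b hb) _
  let P : Subgroup G :=
    { carrier := {x | ∀ y, S (y * x) = S y}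
      one_mem' := by intro y; rw [mul_one]
      mul_mem' := by
        intro a b ha hb y
        rw [← mul_assoc, hb, ha]
      inv_mem' := by
        intro a ha y
        rw [← ha (y * a⁻¹), inv_mul_cancel_right] }
  have hP : B ≤ P := by
    rw [hB, sup_le_iff, Subgroup.closure_le, Set.singleton_subset_iff]
    constructor
    · intro y
      change ∑ e ∈ Finset.range 12, A (y * t * t ^ e) = ∑ e ∈ Finset.range 12, A (y * t ^ e)
      have e1 : ∀ e, A (y * t * t ^ e) = A (y * t ^ (e + 1)) := by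
        intro e
        rw [mul_assoc, ← pow_succ']
      simp only [e1]
      rw [Finset.sum_range_succ, Finset.sum_range_succ' (fun e => A (y * t ^ e)) 11]
      rw [show (11 : ℕ) + 1 = 12 from rfl, ht, pow_zero]
    · intro b hb y
      change ∑ e ∈ Finset.range 12, A (y * b * t ^ e) = ∑ e ∈ Finset.range 12, A (y * t ^ e)
      exact Finset.sum_congr rfl fun e _ => hAb2 b hb y e
  have h1 : avg B S w = S w := by
    have : avg B S w = avg B (fun _ => S w) w := by
      rw [avg, avg]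
      congr 1
      exact tsum_congr fun x => hP x.2 w
    rw [this, avg_const]
  have h2 : avg B S w = 12 * avg B F w := by
    have e1 : ∀ e, avg B (fun y => A (y * t ^ e)) w = avg B F w :=
      fun e => avg_avg hle F (pow_mem htB e) w
    change avg B (fun y => ∑ e ∈ Finset.range 12, A (y * t ^ e)) w = _
    rw [AvgB_avg_sum]
    simp only [e1]
    rw [Finset.sum_const, Finset.card_range, nsmul_eq_mul]
    norm_num
  change S w = _
  rw [← h1, h2]

/-- As `avg_step` in `../Avg.lean` (there `t^4 = 1` and `B'` is normal in `G`; only that `t` normalises `B'` is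
used: `S y = ∑_{e<12} A (y t^e)` is invariant under `y ↦ y t` and `y ↦ y b`, `b ∈ B'`). -/
theorem avg_step12 {t : G} (ht : t ^ 12 = 1) (B' : Subgroup G) (hn : ∀ b ∈ B', t * b * t⁻¹ ∈ B')
    (F : G → ℝ≥0∞) (w : G) :
    (∑ e ∈ Finset.range 12, avg B' F (w * t ^ e)) / 12
      = avg (Subgroup.closure {t} ⊔ B') F w := by
  rw [AvgB_sum12 ht B' hn, mul_comm, ENNReal.mul_div_cancel_right (by norm_num) (by norm_num)]

theorem AvgB_sum_period (f : ℕ → ℝ≥0∞) (hf : ∀ e, f (e + 12) = f e) (q : ℕ) :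
    ∑ e ∈ Finset.range (12 * q), f e = q * ∑ e ∈ Finset.range 12, f e := by
  have hfq : ∀ q e, f (12 * q + e) = f e := by
    intro q
    induction q with
    | zero => intro e; simp
    | succ q ih =>
      intro e
      rw [show 12 * (q + 1) + e = (12 * q + e) + 12 by ring, hf, ih]
  induction q with
  | zero => simp
  | succ q ih =>
    rw [show 12 * (q + 1) = 12 * q + 12 by ring, Finset.sum_range_add, ih]
    simp only [hfq]
    push_cast
    ring

/-- `2^r = 12 q + s`, `s < 12`: the first `12 q` values of `e` are uniform modulo 12, so their sum is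
`12 q avg (⟨t⟩ B') F w`; the other `s` terms are at most `M` each. -/
theorem avg_near {t : G} (ht : t ^ 12 = 1) (B' : Subgroup G) (hn : ∀ b ∈ B', t * b * t⁻¹ ∈ B')
    (F : G → ℝ≥0∞) (M : ℝ≥0∞) (hF : ∀ x, F x ≤ M) (r : ℕ) (w : G) :
    (∑ e ∈ Finset.range (2 ^ r), avg B' F (w * t ^ e)) / 2 ^ r
      ≤ avg (Subgroup.closure {t} ⊔ B') F w + 12 / 2 ^ r * M := by
  set a := avg (Subgroup.closure {t} ⊔ B') F w with ha
  set q := 2 ^ r / 12 with hq
  set s := 2 ^ r % 12 with hs
  have hqs : 12 * q + s = 2 ^ r := Nat.div_add_mod _ _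
  have hs12 : s ≤ 12 := (Nat.mod_lt _ (by norm_num)).le
  have hle : 12 * q ≤ 2 ^ r := by omega
  have hper : ∀ e, avg B' F (w * t ^ (e + 12)) = avg B' F (w * t ^ e) := by
    intro e
    rw [pow_add, ht, mul_one]
  have hsum : ∑ e ∈ Finset.range (2 ^ r), avg B' F (w * t ^ e) ≤ (12 * q : ℕ) * a + 12 * M := by
    rw [← hqs, Finset.sum_range_add]
    refine add_le_add ?_ ?_
    · rw [AvgB_sum_period (fun e => avg B' F (w * t ^ e)) hper, AvgB_sum12 ht B' hn, ← ha]
      refine le_of_eq ?_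
      push_cast
      ring
    · calc ∑ e ∈ Finset.range s, avg B' F (w * t ^ (12 * q + e))
          ≤ ∑ _e ∈ Finset.range s, M := Finset.sum_le_sum fun e _ => AvgB_le B' F M hF _
        _ = s * M := by rw [Finset.sum_const, Finset.card_range, nsmul_eq_mul]
        _ ≤ 12 * M := mul_le_mul_left (by exact_mod_cast hs12) _
  have h2 : (2 ^ r : ℝ≥0∞) ≠ 0 := by positivity
  have h2t : (2 ^ r : ℝ≥0∞) ≠ ⊤ := ENNReal.pow_ne_top (by norm_num)
  refine (ENNReal.div_le_div_right hsum _).trans ?_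
  rw [ENNReal.add_div]
  refine add_le_add ?_ ?_
  · refine ENNReal.div_le_of_le_mul ?_
    rw [mul_comm]
    refine mul_le_mul_right ?_ a
    exact_mod_cast hle
  · refine le_of_eq ?_
    rw [ENNReal.mul_div_right_comm]

end Pool.Agent.MPa0c355.B12
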