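import Pool.Agent.Lib.MP_a0c355_lc.B12.ProgB

/-! # One new cell, second kind: a conjugate -/

set_option autoImplicit false

namespace Pool.Agent.MPa0c355.B12

open scoped ENNReal commutatorElement

variable {G : Type} [Group G] {N : ℕ}

/-- the effect of `conjCmd` -/
lemma bodyD_conj (f : St G → ℝ≥0∞) (τ : St G) (x : ℝ≥0∞)
    (hx : ∀ τ' : St G, (∀ i j, τ'.mem 0 i j = if i = τ.nv 0 + 1 ∧ j = τ.nv 1 then
      τ.mem 1 0 0 * τ.mem 1 0 1 * (τ.mem 1 0 0)⁻¹ else τ.mem 0 i j) →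
      τ'.nv = τ.nv → f τ' ≤ x) :
    W N conjCmd f τ ≤ x := by
  rw [conjCmd, W_seq, W_ginv, W_seq, W_gmul, W_gmul]
  refine hx _ ?_ rfl
  intro i j
  simp [St.put, St.get, sc, tn, Expr.eval, St.tick]

open Classical in
/-- the second random subproduct and the conjugation -/
lemma bodyD_snd (D' Hs : Subgroup G) (σ τ : St G) (hτ : Fr 0 σ τ)
    (hrow' : ∀ a < 40 * (N + 2), σ.mem 0 (σ.nv 0 + 1) a ∈ D')
    (f : St G → ℝ≥0∞) (c1 c2 : ℝ≥0∞) (hc : c2 ≤ c1)
    (hf : ∀ ρ, FrB σ ρ → ∀ h ∈ D', ρ.mem 0 (σ.nv 0 + 1) (σ.nv 1) =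
      τ.mem 1 0 0 * h * (τ.mem 1 0 0)⁻¹ → f ρ ≤ if h ∈ Hs then c1 else c2) :
    W N (.seq (subB 1 rn) conjCmd) f τ ≤
      if ∃ a < 40 * (N + 2), σ.mem 0 (σ.nv 0 + 1) a ∉ Hs then (c1 + c2) / 2 else c1 := by
  rw [W_seq]
  have h0 : ∀ i j, τ.mem 0 i j = σ.mem 0 i j := fun i j => hτ.mem 0 i j (by simp)
  have hn0 : τ.nv 0 = σ.nv 0 := hτ.nv 0 (by norm_num)
  have hrow : ∀ a, τ.mem 0 (rn.eval N τ.nv) a = σ.mem 0 (σ.nv 0 + 1) a := by
    intro a
    rw [h0, rn, Expr.eval, Expr.eval, Expr.eval, hn0]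
  have key := sub_ruleB (N := N) 1 rn rowOK_rn Hs D' c1 c2 hc τ
    (fun a ha => by rw [hrow]; exact hrow' a ha) (fun τ => W N conjCmd f τ) (by
      intro ρ hρ hρb
      refine bodyD_conj f ρ _ ?_
      intro ρ' h1 h2
      have hmem0 : ∀ i j, ρ.mem 0 i j = σ.mem 0 i j :=
        fun i j => (hρ.mem 0 i j (by simp)).trans (h0 i j)
      have hu' : ρ.mem 1 0 0 = τ.mem 1 0 0 := hρ.mem 1 0 0 (by simp)
      have hnv0 : ρ.nv 0 = σ.nv 0 := (hρ.nv 0 (by norm_num)).trans (hτ.nv 0 (by norm_num))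
      have hnv1 : ρ.nv 1 = σ.nv 1 := (hρ.nv 1 (by norm_num)).trans (hτ.nv 1 (by norm_num))
      have hFr : FrB σ ρ' := by
        constructor
        · intro i j h
          rw [h1, hnv0, hnv1, if_neg h, hmem0]
        · intro x hx
          rw [h2]
          exact (hρ.nv x hx).trans (hτ.nv x hx)
      exact hf ρ' hFr (ρ.mem 1 0 1) hρb (by rw [h1, hnv0, hnv1, if_pos ⟨rfl, rfl⟩, hu']))
  refine key.trans (le_of_eq ?_)
  simp only [hrow]

/-- the commutator subgroup is normal -/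
lemma bodyD_mem (D : Subgroup G) {u h : G} (hu : u ∈ D) (hh : h ∈ ⁅D, D⁆) :
    u * h * u⁻¹ ∈ ⁅D, D⁆ := by
  have hD : ⁅D, D⁆ ≤ D := Subgroup.commutator_le.2 fun a ha b hb => by
    rw [commutatorElement_def]
    exact mul_mem (mul_mem (mul_mem ha hb) (inv_mem ha)) (inv_mem hb)
  have h1 : ⁅u, h⁆ ∈ ⁅D, D⁆ := Subgroup.commutator_mem_commutator hu (hD hh)
  have h2 : u * h * u⁻¹ = ⁅u, h⁆ * h := by
    rw [commutatorElement_def, inv_mul_cancel_right]
  rw [h2]
  exact mul_mem h1 hh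

lemma bodyD_arith (e c : ℝ≥0∞) :
    ((e + c) + ((e + c) + (e + c / 2)) / 2) / 2 = e + c * (7 / 8) := by
  have h2 : (2 : ℝ≥0∞) * 2⁻¹ = 1 := ENNReal.mul_inv_cancel (by norm_num) (by norm_num)
  have h8 : (8 : ℝ≥0∞)⁻¹ = 2⁻¹ * 2⁻¹ * 2⁻¹ := by
    have h : (8 : ℝ≥0∞) = 2 * 2 * 2 := by norm_num
    rw [h, ENNReal.mul_inv (Or.inl (by norm_num)) (Or.inl (by norm_num)),
      ENNReal.mul_inv (Or.inl (by norm_num)) (Or.inl (by norm_num))]
  simp only [div_eq_mul_inv, h8]
  generalize (2 : ℝ≥0∞)⁻¹ = t at h2 ⊢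
  have h3 : t + t * t + t * t * t = 7 * (t * t * t) := by
    calc t + t * t + t * t * t = t * (2 * t) * (2 * t) + t * t * (2 * t) + t * t * t := by
          rw [h2, mul_one, mul_one, mul_one]
      _ = 7 * (t * t * t) := by ring
  have h4 : e * t + e * (2 * t) * t = e := by
    calc e * t + e * (2 * t) * t = e * t + e * t := by rw [h2, mul_one]
      _ = e * (2 * t) := by ring
      _ = e := by rw [h2, mul_one]
  calc (e + c + (e + c + (e + c * t)) * t) * t
      = (e * t + e * (2 * t) * t) + c * (t + t * t + t * t * t) := by ring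
    _ = e + c * (7 * (t * t * t)) := by rw [h3, h4]

/-- `v` (scratch cell 0) is a subproduct of row `i`, `h` (scratch cell 1) a subproduct of row `i + 1`; the new
cell is `v h v⁻¹`, `v ∈ D`, `h ∈ ⁅D, D⁆`, so it is in `⁅D, D⁆`.  `sub_ruleB` with `Hs = ⊤`. -/
theorem bodyD_supp (D : Subgroup G) (σ : St G)
    (hrow : ∀ a < 40 * (N + 2), σ.mem 0 (σ.nv 0) a ∈ D)
    (hrow' : ∀ a < 40 * (N + 2), σ.mem 0 (σ.nv 0 + 1) a ∈ ⁅D, D⁆) (f : St G → ℝ≥0∞) (c : ℝ≥0∞)
    (hf : ∀ τ, FrB σ τ → τ.mem 0 (σ.nv 0 + 1) (σ.nv 1) ∈ ⁅D, D⁆ → f τ ≤ c) :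
    W N bodyD f σ ≤ c := by
  classical
  rw [bodyD, W_seq]
  have hhalf : ∀ c : ℝ≥0∞, (c + c) / 2 = c := by
    intro c
    rw [← two_mul, mul_comm, ENNReal.mul_div_cancel_right (by norm_num) (by norm_num)]
  refine (sub_ruleB (N := N) 0 (.var 0) rowOK_var0 ⊤ D c c le_rfl σ hrow _ ?_).trans ?_
  · intro τ hτ hτb
    rw [if_pos (Subgroup.mem_top _)]
    refine (bodyD_snd ⁅D, D⁆ ⊤ σ τ hτ hrow' f c c le_rfl ?_).trans ?_
    · intro ρ hρ h hh hρh
      rw [if_pos (Subgroup.mem_top _)]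
      refine hf ρ hρ ?_
      rw [hρh]
      exact bodyD_mem D hτb hh
    · split_ifs
      · exact (hhalf c).le
      · exact le_rfl
  · split_ifs
    · exact (hhalf c).le
    · exact le_rfl

open Classical in
/-- Some element of `D` does not normalise `H`.  First subproduct `v`: `Hs` = the normaliser of `H`, not all
cells of row `i` are in it.  Second subproduct `h` of row `i + 1`: `Hs = {h | v h v⁻¹ ∈ H}`; if `v` does not
normalise `H` then not all cells of row `i + 1` are in it (`H` is finite and generated by them).  So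
`v h v⁻¹ ∉ H` with probability at least 1/4. -/
theorem bodyD_rule [Finite G] (D H : Subgroup G) (σ : St G)
    (hgen : gen N (σ.mem 0 (σ.nv 0)) = D) (hgen' : gen N (σ.mem 0 (σ.nv 0 + 1)) = H)
    (hH : H ≤ ⁅D, D⁆) (hn : ∃ u ∈ D, ∃ h ∈ H, u * h * u⁻¹ ∉ H)
    (f : St G → ℝ≥0∞) (c e : ℝ≥0∞)
    (hf : ∀ τ, FrB σ τ → τ.mem 0 (σ.nv 0 + 1) (σ.nv 1) ∈ ⁅D, D⁆ →
      f τ ≤ if τ.mem 0 (σ.nv 0 + 1) (σ.nv 1) ∈ H then e + c else e + c / 2) :
    W N bodyD f σ ≤ e + c * (7 / 8) := by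
  have hrow : ∀ a < 40 * (N + 2), σ.mem 0 (σ.nv 0) a ∈ D := by
    intro a ha
    rw [← hgen]
    exact Subgroup.subset_closure ⟨a, ha, rfl⟩
  have hrow' : ∀ a < 40 * (N + 2), σ.mem 0 (σ.nv 0 + 1) a ∈ H := by
    intro a ha
    rw [← hgen']
    exact Subgroup.subset_closure ⟨a, ha, rfl⟩
  have hhalf : c / 2 ≤ c := ENNReal.half_le_self
  have hc2 : e + c / 2 ≤ e + c := by gcongr
  have hc1 : ((e + c) + (e + c / 2)) / 2 ≤ e + c := by
    refine (ENNReal.div_le_div_right (add_le_add le_rfl hc2) 2).trans (le_of_eq ?_)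
    rw [← two_mul, mul_comm, ENNReal.mul_div_cancel_right (by norm_num) (by norm_num)]
  rw [bodyD, W_seq]
  refine (sub_ruleB (N := N) 0 (.var 0) rowOK_var0 (Subgroup.normalizer H) D (e + c)
    (((e + c) + (e + c / 2)) / 2) hc1 σ hrow _ ?_).trans ?_
  · intro τ hτ hτb
    set u := τ.mem 1 0 0 with hu
    let Hs : Subgroup G := H.comap (MulAut.conj u).toMonoidHom
    have hHs : ∀ h, h ∈ Hs ↔ u * h * u⁻¹ ∈ H := fun h => Iff.rfl
    refine (bodyD_snd H Hs σ τ hτ hrow' f (e + c) (e + c / 2) hc2 ?_).trans ?_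
    · intro ρ hρ h hh hρh
      have h1 : ρ.mem 0 (σ.nv 0 + 1) (σ.nv 1) ∈ ⁅D, D⁆ := by
        rw [hρh]
        exact bodyD_mem D hτb (hH hh)
      refine (hf ρ hρ h1).trans (le_of_eq ?_)
      rw [hρh]
      simp only [hHs]
      rfl
    · by_cases hun : u ∈ Subgroup.normalizer (H : Set G)
      · rw [if_pos hun]
        split_ifs
        · exact hc1
        · exact le_rfl
      · rw [if_neg hun, if_pos]
        by_contra hcon
        push Not at hcon
        apply hun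
        have hle : H ≤ Hs := by
          rw [← hgen', gen, Subgroup.closure_le]
          rintro g ⟨a, ha, rfl⟩
          exact hcon a ha
        have hcard : Nat.card Hs = Nat.card H :=
          Nat.card_congr ((Subgroup.equivMapOfInjective Hs (MulAut.conj u).toMonoidHom
            (MulAut.conj u).injective).toEquiv.trans (Equiv.setCongr (by
              ext g
              constructor
              · rintro ⟨h, hh, rfl⟩
                exact hh
              · intro hg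
                refine ⟨(MulAut.conj u).symm g, ?_, ?_⟩
                · change (MulAut.conj u) ((MulAut.conj u).symm g) ∈ H
                  rwa [MulEquiv.apply_symm_apply]
                · exact (MulAut.conj u).apply_symm_apply g)))
        have heq : H = Hs := Subgroup.eq_of_le_of_card_ge hle hcard.le
        rw [Subgroup.mem_normalizer_iff]
        intro h
        constructor
        · intro hh
          exact hle hh
        · intro hh
          rw [heq]
          exact hh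
  · rw [if_pos, bodyD_arith]
    by_contra hcon
    push Not at hcon
    obtain ⟨u, hu, h, hh, hne⟩ := hn
    have hle : D ≤ Subgroup.normalizer (H : Set G) := by
      rw [← hgen, gen, Subgroup.closure_le]
      rintro g ⟨a, ha, rfl⟩
      exact hcon a ha
    exact hne ((Subgroup.mem_normalizer_iff.1 (hle hu) h).1 hh)

end Pool.Agent.MPa0c355.B12
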