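import Pool.Agent.Lib.MP_a0c355_lc.B12.BodyC
import Pool.Agent.Lib.MP_a0c355_lc.B12.BodyD

/-! # One new cell -/

set_option autoImplicit false

namespace Pool.Agent.MPa0c355.B12

open scoped ENNReal commutatorElement

variable {G : Type} [Group G] {N : ℕ}

/-- the coin between the two kinds -/
theorem bodyB_coin (σ : St G) (f : St G → ℝ≥0∞) (x y : ℝ≥0∞)
    (hx : ∀ τ : St G, τ.mem = σ.mem → τ.nv = σ.nv → W N bodyC f τ ≤ x)
    (hy : ∀ τ : St G, τ.mem = σ.mem → τ.nv = σ.nv → W N bodyD f τ ≤ y) :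
    W N bodyB f σ ≤ (x + y) / 2 := by
  rw [bodyB, W_seq, W_coin]
  simp only [W_ite]
  refine ENNReal.div_le_div_right (add_le_add ?_ ?_) 2
  · rw [if_pos (by simp [St.setb, St.tick])]
    exact hx _ rfl rfl
  · rw [if_neg (by simp [St.setb, St.tick])]
    exact hy _ rfl rfl

omit [Group G] in
/-- `FrB` only sees the memory and the counters -/
theorem bodyB_fr {σ τ ρ : St G} (hm : τ.mem = σ.mem) (hn : τ.nv = σ.nv) (h : FrB τ ρ) :
    FrB σ ρ := by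
  constructor
  · intro i j hij
    rw [← hm]
    exact h.mem i j (by rw [hn]; exact hij)
  · intro x hx
    rw [← hn]
    exact h.nv x hx

/-- `W_seq`, `W_coin`, `W_ite`, `bodyC_supp`, `bodyD_supp`. -/
theorem bodyB_supp (D : Subgroup G) (σ : St G)
    (hrow : ∀ a < 40 * (N + 2), σ.mem 0 (σ.nv 0) a ∈ D)
    (hrow' : ∀ a < 40 * (N + 2), σ.mem 0 (σ.nv 0 + 1) a ∈ ⁅D, D⁆) (f : St G → ℝ≥0∞) (c : ℝ≥0∞)
    (hf : ∀ τ, FrB σ τ → τ.mem 0 (σ.nv 0 + 1) (σ.nv 1) ∈ ⁅D, D⁆ → f τ ≤ c) :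
    W N bodyB f σ ≤ c := by
  refine (bodyB_coin σ f c c ?_ ?_).trans (bodyC_half c).le
  · intro τ hm hn
    refine bodyC_supp D τ (by rw [hm, hn]; exact hrow) f c ?_
    intro ρ hρ h
    exact hf ρ (bodyB_fr hm hn hρ) (by rw [← hn]; exact h)
  · intro τ hm hn
    refine bodyD_supp D τ (by rw [hm, hn]; exact hrow) (by rw [hm, hn]; exact hrow') f c ?_
    intro ρ hρ h
    exact hf ρ (bodyB_fr hm hn hρ) (by rw [← hn]; exact h)

theorem bodyB_fifteen (c : ℝ≥0∞) : (c + c * (7 / 8)) / 2 = c * (15 / 16) := by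
  have h78 : (7 : ℝ≥0∞) / 8 ≠ ⊤ := ENNReal.div_ne_top (by norm_num) (by norm_num)
  have h : c + c * (7 / 8) = c * (1 + 7 / 8) := by rw [mul_add, mul_one]
  rw [h, mul_div_assoc]
  congr 1
  rw [← ENNReal.toReal_eq_toReal_iff' (ENNReal.div_ne_top
    (ENNReal.add_ne_top.2 ⟨by norm_num, h78⟩) (by norm_num))
    (ENNReal.div_ne_top (by norm_num) (by norm_num))]
  rw [ENNReal.toReal_div, ENNReal.toReal_add (by norm_num) h78]
  simp only [ENNReal.toReal_div, ENNReal.toReal_ofNat, ENNReal.toReal_one]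
  norm_num

open Classical in
/-- If `⁅D, D⁆ ≤ H` use `bodyB_supp`.  Otherwise one of the two kinds gives `e + c 7/8` (according to whether
`D` normalises `H`), the other one at most `e + c`; `((e + c) + (e + c 7/8)) / 2 = e + c 15/16`. -/
theorem bodyB_rule [Finite G] (D H : Subgroup G) (σ : St G)
    (hgen : gen N (σ.mem 0 (σ.nv 0)) = D) (hgen' : gen N (σ.mem 0 (σ.nv 0 + 1)) = H)
    (hH : H ≤ ⁅D, D⁆) (f : St G → ℝ≥0∞) (c e : ℝ≥0∞)
    (hf : ∀ τ, FrB σ τ → τ.mem 0 (σ.nv 0 + 1) (σ.nv 1) ∈ ⁅D, D⁆ →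
      f τ ≤ if τ.mem 0 (σ.nv 0 + 1) (σ.nv 1) ∈ H then e + c else e + c / 2) :
    W N bodyB f σ ≤ if ⁅D, D⁆ ≤ H then e + c else e + c * (15 / 16) := by
  have hrow : ∀ a < 40 * (N + 2), σ.mem 0 (σ.nv 0) a ∈ D := by
    intro a ha
    rw [← hgen]
    exact Subgroup.subset_closure ⟨a, ha, rfl⟩
  have hrow' : ∀ a < 40 * (N + 2), σ.mem 0 (σ.nv 0 + 1) a ∈ ⁅D, D⁆ := by
    intro a ha
    apply hH
    rw [← hgen']
    exact Subgroup.subset_closure ⟨a, ha, rfl⟩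
  have hf' : ∀ τ, FrB σ τ → τ.mem 0 (σ.nv 0 + 1) (σ.nv 1) ∈ ⁅D, D⁆ → f τ ≤ e + c := by
    intro τ hτ h
    refine (hf τ hτ h).trans ?_
    split_ifs
    · exact le_rfl
    · exact add_le_add le_rfl ENNReal.half_le_self
  by_cases hDH : ⁅D, D⁆ ≤ H
  · rw [if_pos hDH]
    exact bodyB_supp D σ hrow hrow' f (e + c) hf'
  rw [if_neg hDH]
  by_cases hn : ∀ u ∈ D, ∀ h ∈ H, u * h * u⁻¹ ∈ H
  · refine (bodyB_coin σ f (e + c * (7 / 8)) (e + c) ?_ ?_).trans ?_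
    · intro τ hm hnv
      refine bodyC_rule D H τ (by rw [hm, hnv]; exact hgen) hn hDH f c e ?_
      intro ρ hρ h
      rw [hnv] at h ⊢
      exact hf ρ (bodyB_fr hm hnv hρ) h
    · intro τ hm hnv
      refine bodyD_supp D τ (by rw [hm, hnv]; exact hrow) (by rw [hm, hnv]; exact hrow') f _ ?_
      intro ρ hρ h
      exact hf' ρ (bodyB_fr hm hnv hρ) (by rw [← hnv]; exact h)
    · rw [bodyC_avg, add_comm (c * (7 / 8)) c, bodyB_fifteen]
  · push Not at hn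
    refine (bodyB_coin σ f (e + c) (e + c * (7 / 8)) ?_ ?_).trans ?_
    · intro τ hm hnv
      refine bodyC_supp D τ (by rw [hm, hnv]; exact hrow) f _ ?_
      intro ρ hρ h
      exact hf' ρ (bodyB_fr hm hnv hρ) (by rw [← hnv]; exact h)
    · intro τ hm hnv
      refine bodyD_rule D H τ (by rw [hm, hnv]; exact hgen) (by rw [hm, hnv]; exact hgen') hH hn
        f c e ?_
      intro ρ hρ h
      rw [hnv] at h ⊢
      exact hf ρ (bodyB_fr hm hnv hρ) h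
    · rw [bodyC_avg, bodyB_fifteen]

end Pool.Agent.MPa0c355.B12
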