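import Pool.Agent.Lib.MP_a0c355_lc.B12.ProgB

/-! # One new cell, first kind: a commutator of two random subproducts -/

set_option autoImplicit false

namespace Pool.Agent.MPa0c355.B12

open scoped ENNReal commutatorElement

variable {G : Type} [Group G] {N : ℕ}

/-- The elements of `D` whose commutators with all elements of `D` are in `H`. -/
def bodyC_cenD (D H : Subgroup G) (hn : ∀ u ∈ D, ∀ h ∈ H, u * h * u⁻¹ ∈ H) : Subgroup G where
  carrier := {u | u ∈ D ∧ ∀ v ∈ D, u * v * u⁻¹ * v⁻¹ ∈ H}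
  one_mem' := by
    refine ⟨one_mem D, fun v _ => ?_⟩
    have h1 : (1 : G) * v * 1⁻¹ * v⁻¹ = 1 := by group
    rw [h1]
    exact one_mem H
  mul_mem' := by
    rintro u1 u2 ⟨h1, h2⟩ ⟨h3, h4⟩
    refine ⟨mul_mem h1 h3, fun v hv => ?_⟩
    have h5 : u1 * u2 * v * (u1 * u2)⁻¹ * v⁻¹ =
        (u1 * (u2 * v * u2⁻¹ * v⁻¹) * u1⁻¹) * (u1 * v * u1⁻¹ * v⁻¹) := by group
    rw [h5]
    exact mul_mem (hn u1 h1 _ (h4 v hv)) (h2 v hv)
  inv_mem' := by
    rintro u ⟨h1, h2⟩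
    refine ⟨inv_mem h1, fun v hv => ?_⟩
    have h5 : u⁻¹ * v * u⁻¹⁻¹ * v⁻¹ = u⁻¹ * (u * v * u⁻¹ * v⁻¹)⁻¹ * u⁻¹⁻¹ := by group
    rw [h5]
    exact hn u⁻¹ (inv_mem h1) _ (inv_mem (h2 v hv))

/-- The elements of `D` whose commutators with `u` are in `H`. -/
def bodyC_cenU (D H : Subgroup G) (hn : ∀ u ∈ D, ∀ h ∈ H, u * h * u⁻¹ ∈ H) (u : G) :
    Subgroup G where
  carrier := {v | v ∈ D ∧ u * v * u⁻¹ * v⁻¹ ∈ H}
  one_mem' := by
    refine ⟨one_mem D, ?_⟩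
    have h1 : u * (1 : G) * u⁻¹ * 1⁻¹ = 1 := by group
    rw [h1]
    exact one_mem H
  mul_mem' := by
    rintro v1 v2 ⟨h1, h2⟩ ⟨h3, h4⟩
    refine ⟨mul_mem h1 h3, ?_⟩
    have h5 : u * (v1 * v2) * u⁻¹ * (v1 * v2)⁻¹ =
        (u * v1 * u⁻¹ * v1⁻¹) * (v1 * (u * v2 * u⁻¹ * v2⁻¹) * v1⁻¹) := by group
    rw [h5]
    exact mul_mem h2 (hn v1 h1 _ h4)
  inv_mem' := by
    rintro v ⟨h1, h2⟩
    refine ⟨inv_mem h1, ?_⟩
    have h5 : u * v⁻¹ * u⁻¹ * v⁻¹⁻¹ = v⁻¹ * (u * v * u⁻¹ * v⁻¹)⁻¹ * v⁻¹⁻¹ := by group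
    rw [h5]
    exact hn v⁻¹ (inv_mem h1) _ (inv_mem h2)

open Classical in
/-- the second random subproduct and the commutator -/
theorem bodyC_second (D Hs : Subgroup G) (c1 c2 : ℝ≥0∞) (hc : c2 ≤ c1) (σ τ : St G)
    (hτ : Fr 0 σ τ) (hrow : ∀ a < 40 * (N + 2), σ.mem 0 (σ.nv 0) a ∈ D)
    (f : St G → ℝ≥0∞)
    (hf : ∀ ρ, FrB σ ρ → ∀ v ∈ D, ρ.mem 0 (σ.nv 0 + 1) (σ.nv 1) =
      τ.mem 1 0 0 * v * (τ.mem 1 0 0)⁻¹ * v⁻¹ → f ρ ≤ if v ∈ Hs then c1 else c2) :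
    W N (.seq (subB 1 (.var 0)) commCmd) f τ ≤
      if ∃ a < 40 * (N + 2), σ.mem 0 (σ.nv 0) a ∉ Hs then (c1 + c2) / 2 else c1 := by
  rw [W_seq]
  have h0 : ∀ i j, τ.mem 0 i j = σ.mem 0 i j := fun i j => hτ.mem 0 i j (by simp)
  have hn0 : τ.nv 0 = σ.nv 0 := hτ.nv 0 (by norm_num)
  have hrow' : ∀ a, τ.mem 0 ((Expr.var 0).eval N τ.nv) a = σ.mem 0 (σ.nv 0) a := by
    intro a
    change τ.mem 0 (τ.nv 0) a = _
    rw [hn0, h0]
  have key := sub_ruleB (N := N) 1 (.var 0) rowOK_var0 Hs D c1 c2 hc τ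
    (fun a ha => by rw [hrow']; exact hrow a ha) (fun τ => W N commCmd f τ) (by
      intro ρ hρ hρb
      refine W_comm f ρ _ ?_
      intro ρ' h1 h2
      have hmem0 : ∀ i j, ρ.mem 0 i j = σ.mem 0 i j := fun i j => (hρ.mem 0 i j (by simp)).trans (h0 i j)
      have hu' : ρ.mem 1 0 0 = τ.mem 1 0 0 := hρ.mem 1 0 0 (by simp)
      have hnv0 : ρ.nv 0 = σ.nv 0 := (hρ.nv 0 (by norm_num)).trans hn0
      have hnv1 : ρ.nv 1 = σ.nv 1 := (hρ.nv 1 (by norm_num)).trans (hτ.nv 1 (by norm_num))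
      have hFr : FrB σ ρ' := by
        constructor
        · intro i j h
          rw [h1, hnv0, hnv1, if_neg h, hmem0]
        · intro x hx
          rw [h2]
          exact (hρ.nv x hx).trans (hτ.nv x hx)
      have hv : ρ'.mem 0 (σ.nv 0 + 1) (σ.nv 1) =
          τ.mem 1 0 0 * ρ.mem 1 0 1 * (τ.mem 1 0 0)⁻¹ * (ρ.mem 1 0 1)⁻¹ := by
        rw [h1, hnv0, hnv1, if_pos ⟨rfl, rfl⟩, hu']
      exact hf ρ' hFr _ hρb hv)
  refine key.trans (le_of_eq ?_)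
  simp only [hrow']

theorem bodyC_half (c : ℝ≥0∞) : (c + c) / 2 = c := by
  rw [← two_mul, mul_comm, ENNReal.mul_div_cancel_right (by norm_num) (by norm_num)]

theorem bodyC_avg (e x y : ℝ≥0∞) : (e + x + (e + y)) / 2 = e + (x + y) / 2 := by
  have h1 : e + x + (e + y) = (e + e) + (x + y) := by ring
  rw [h1, ENNReal.add_div, bodyC_half]

theorem bodyC_seven (c : ℝ≥0∞) : (c + c * (3 / 4)) / 2 = c * (7 / 8) := by
  have h34 : (3 : ℝ≥0∞) / 4 ≠ ⊤ := ENNReal.div_ne_top (by norm_num) (by norm_num)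
  have h : c + c * (3 / 4) = c * (1 + 3 / 4) := by rw [mul_add, mul_one]
  rw [h, mul_div_assoc]
  congr 1
  rw [← ENNReal.toReal_eq_toReal_iff' (ENNReal.div_ne_top
    (ENNReal.add_ne_top.2 ⟨by norm_num, h34⟩) (by norm_num))
    (ENNReal.div_ne_top (by norm_num) (by norm_num))]
  rw [ENNReal.toReal_div, ENNReal.toReal_add (by norm_num) h34]
  simp only [ENNReal.toReal_div, ENNReal.toReal_ofNat, ENNReal.toReal_one]
  norm_num

/-- As in `bodyA_rule` of `../PhaseA.lean`, with `sub_ruleB` for `Hs = ⊤`, `Hb = D`, `c1 = c2 = c`, twice;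
the new cell is `u v u⁻¹ v⁻¹` with `u, v ∈ D` (`W_comm` of `../PhaseA.lean` describes `commCmd`; it may be
imported, or repeat it). -/
theorem bodyC_supp (D : Subgroup G) (σ : St G)
    (hrow : ∀ a < 40 * (N + 2), σ.mem 0 (σ.nv 0) a ∈ D) (f : St G → ℝ≥0∞) (c : ℝ≥0∞)
    (hf : ∀ τ, FrB σ τ → τ.mem 0 (σ.nv 0 + 1) (σ.nv 1) ∈ ⁅D, D⁆ → f τ ≤ c) :
    W N bodyC f σ ≤ c := by
  classical
  rw [bodyC, W_seq]
  refine (sub_ruleB (N := N) 0 (.var 0) rowOK_var0 ⊤ D c c le_rfl σ hrow _ ?_).trans ?_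
  · intro τ hτ hτb
    rw [if_pos (Subgroup.mem_top _)]
    refine (bodyC_second D ⊤ c c le_rfl σ τ hτ hrow f ?_).trans ?_
    · intro ρ hρ v hv hval
      rw [if_pos (Subgroup.mem_top _)]
      refine hf ρ hρ ?_
      rw [hval]
      exact Subgroup.commutator_mem_commutator hτb hv
    · rw [bodyC_half, ite_self]
  · rw [bodyC_half, ite_self]

open Classical in
/-- `D` normalises `H` and `⁅D, D⁆ ≰ H`.  First subproduct `u`: `Hs = {u ∈ D | ∀ v ∈ D, u v u⁻¹ v⁻¹ ∈ H}`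
(a subgroup, as `D` normalises `H`), not all cells of the row are in it (otherwise `D ≤ Hs` by `hgen`).
Second subproduct `v`: `Hs = {v ∈ D | u v u⁻¹ v⁻¹ ∈ H}`.  So the new cell is outside `H` with
probability at least 1/4: `W ≤ (e + c) 3/4 + (e + c/2) 1/4 = e + c 7/8`. -/
theorem bodyC_rule (D H : Subgroup G) (σ : St G)
    (hgen : gen N (σ.mem 0 (σ.nv 0)) = D) (hn : ∀ u ∈ D, ∀ h ∈ H, u * h * u⁻¹ ∈ H)
    (hne : ¬ ⁅D, D⁆ ≤ H) (f : St G → ℝ≥0∞) (c e : ℝ≥0∞)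
    (hf : ∀ τ, FrB σ τ → τ.mem 0 (σ.nv 0 + 1) (σ.nv 1) ∈ ⁅D, D⁆ →
      f τ ≤ if τ.mem 0 (σ.nv 0 + 1) (σ.nv 1) ∈ H then e + c else e + c / 2) :
    W N bodyC f σ ≤ e + c * (7 / 8) := by
  have hrow : ∀ a < 40 * (N + 2), σ.mem 0 (σ.nv 0) a ∈ D := by
    intro a ha
    rw [← hgen]
    exact Subgroup.subset_closure ⟨a, ha, rfl⟩
  have hle : ∀ Hs : Subgroup G, (∀ a < 40 * (N + 2), σ.mem 0 (σ.nv 0) a ∈ Hs) → D ≤ Hs := by
    intro Hs h
    rw [← hgen, gen, Subgroup.closure_le]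
    rintro g ⟨a, ha, rfl⟩
    exact h a ha
  have hc34 : c * (3 / 4) ≤ c := by
    rw [← three_quarter]
    calc (c + c / 2) / 2 ≤ (c + c) / 2 := ENNReal.div_le_div_right (add_le_add le_rfl ENNReal.half_le_self) 2
      _ = c := bodyC_half c
  rw [bodyC, W_seq]
  refine (sub_ruleB (N := N) 0 (.var 0) rowOK_var0 (bodyC_cenD D H hn) D (e + c)
    (e + c * (3 / 4)) (add_le_add le_rfl hc34) σ hrow _ ?_).trans ?_
  · intro τ hτ hτb
    refine (bodyC_second D (bodyC_cenU D H hn (τ.mem 1 0 0)) (e + c) (e + c / 2)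
      (add_le_add le_rfl ENNReal.half_le_self) σ τ hτ hrow f ?_).trans ?_
    · intro ρ hρ v hv hval
      have h1 := hf ρ hρ (by rw [hval]; exact Subgroup.commutator_mem_commutator hτb hv)
      refine h1.trans (le_of_eq ?_)
      refine if_congr ?_ rfl rfl
      rw [hval]
      exact ⟨fun h => ⟨hv, h⟩, fun h => h.2⟩
    · by_cases hu : τ.mem 1 0 0 ∈ bodyC_cenD D H hn
      · rw [if_pos hu]
        split_ifs
        · rw [bodyC_avg, three_quarter]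
          exact add_le_add le_rfl hc34
        · exact le_rfl
      · rw [if_neg hu, if_pos, bodyC_avg, three_quarter]
        by_contra hcon
        push Not at hcon
        apply hu
        have h2 := hle _ hcon
        exact ⟨hτb, fun v hv => (h2 hv).2⟩
  · refine le_of_eq ?_
    have h1 : ∃ a < 40 * (N + 2), σ.mem 0 ((Expr.var 0).eval N σ.nv) a ∉ bodyC_cenD D H hn := by
      by_contra hcon
      push Not at hcon
      apply hne
      have h2 := hle _ hcon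
      rw [Subgroup.commutator_le]
      intro u hu v hv
      exact (h2 hu).2 v hv
    rw [if_pos h1, bodyC_avg, bodyC_seven]

end Pool.Agent.MPa0c355.B12
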