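import Pool.Agent.Lib.MP_a0c355_lc.B12.FitA

/-! # The centraliser of `O_p` -/

set_option autoImplicit false

namespace Pool.Agent.MPa0c355.B12

open scoped commutatorElement

/-- the derived series of a normal subgroup, as subgroups of the group -/
def FitSub_D {B : Type*} [Group B] (C : Subgroup B) : ℕ → Subgroup B
  | 0 => C
  | n + 1 => ⁅FitSub_D C n, FitSub_D C n⁆

theorem FitSub_D_normal {B : Type*} [Group B] (C : Subgroup B) (hC : C.Normal) (n : ℕ) :
    (FitSub_D C n).Normal := by
  induction n with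
  | zero => exact hC
  | succ n ih => exact Subgroup.commutator_normal _ _

theorem FitSub_D_le {B : Type*} [Group B] (C : Subgroup B) (hC : C.Normal) (n : ℕ) :
    FitSub_D C n ≤ C := by
  induction n with
  | zero => exact le_refl _
  | succ n ih =>
    have := FitSub_D_normal C hC n
    exact (Subgroup.commutator_le_left _ _).trans ih

theorem FitSub_D_der {B : Type*} [Group B] (C : Subgroup B) (n : ℕ) :
    FitSub_D C n ≤ derivedSeries B n := by
  induction n with
  | zero => exact le_top
  | succ n ih =>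
    rw [derivedSeries_succ]
    exact Subgroup.commutator_mono ih ih

/-- a normal subgroup whose commutators are central in it is nilpotent -/
theorem FitSub_nilp {B : Type*} [Group B] (K : Subgroup B)
    (h : ∀ a ∈ K, ∀ b ∈ K, ∀ c ∈ K, ⁅a, b⁆ * c = c * ⁅a, b⁆) : Group.IsNilpotent K := by
  rw [Group.isNilpotent_iff]
  refine ⟨2, ?_⟩
  rw [eq_top_iff]
  intro a _
  show a ∈ Subgroup.upperCentralSeries K (1 + 1)
  rw [Subgroup.mem_upperCentralSeries_succ_iff]
  intro b
  rw [Subgroup.upperCentralSeries_one, Subgroup.mem_center_iff]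
  intro c
  apply Subtype.ext
  exact (h a a.2 b b.2 c c.2).symm

/-- `O_q(B) = 1` implies `C_B(O_p(B)) ≤ O_p(B)`, `{p, q} = {2, 3}`.  `R = O_p(B)`, `C` its centraliser, both
normal.  Suppose `C ≰ R`.  The group `C R / R` (normal in `B / R`, nontrivial) has a nontrivial
characteristic `r`-subgroup `K / R`, `r ∈ {2, 3}` (`Op_ne_bot`), normal in `B / R`; `r = p` would make `K` a
normal `p`-subgroup larger than `R`.  So `K / R` is a `q`-group; `K' = K ∩ C` is normal in `B` with
`K' / (K' ∩ R)` a `q`-group, and `K' ∩ R` is central in `K'` (a `p`-group).  A Sylow `q`-subgroup `Q` of `K'`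
satisfies `K' = Q (K' ∩ R)` with `K' ∩ R` central, so `Q` is normal in `K'`, hence characteristic, hence
normal in `B`, hence trivial.  So `K' ≤ R`, but `K = R K'` (Dedekind: `R ≤ K ≤ C R`). -/
theorem centralizer_Op_le {B : Type*} [Group B] [Finite B] (h : Is23 B) (p q : ℕ)
    (hpq : (p = 2 ∧ q = 3) ∨ (p = 3 ∧ q = 2)) (hq : Op q B = ⊥) :
    Subgroup.centralizer (Op p B : Set B) ≤ Op p B := by
  have hpp : p.Prime := by
    rcases hpq with ⟨rfl, rfl⟩ | ⟨rfl, rfl⟩
    · exact Nat.prime_two
    · exact Nat.prime_three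
  have hqp : q.Prime := by
    rcases hpq with ⟨rfl, rfl⟩ | ⟨rfl, rfl⟩
    · exact Nat.prime_three
    · exact Nat.prime_two
  have hfp : Fact p.Prime := ⟨hpp⟩
  have hfq : Fact q.Prime := ⟨hqp⟩
  obtain ⟨C, hCdef⟩ : ∃ C : Subgroup B, C = Subgroup.centralizer (Op p B : Set B) := ⟨_, rfl⟩
  have hC : C.Normal := by
    rw [hCdef]
    infer_instance
  rw [← hCdef]
  by_contra hcon
  have hsol : Group.IsSolvable B := h.solvable
  have hex : ∃ n, FitSub_D C n ≤ Op p B := by
    obtain ⟨n, hn⟩ := (Group.isSolvable_def B).1 hsol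
    refine ⟨n, ?_⟩
    have h1 := FitSub_D_der C n
    rw [hn] at h1
    exact h1.trans bot_le
  classical
  have hn := Nat.find_spec hex
  have hmin := fun k => Nat.find_min hex (m := k)
  rcases hk : Nat.find hex with _ | k
  · rw [hk] at hn
    exact hcon hn
  rw [hk] at hn
  have hK : ¬ FitSub_D C k ≤ Op p B := hmin k (by omega)
  have hKn := FitSub_D_normal C hC k
  have hKC := FitSub_D_le C hC k
  have hn' : ⁅FitSub_D C k, FitSub_D C k⁆ ≤ Op p B := hn
  obtain ⟨K, hKdef⟩ : ∃ K : Subgroup B, K = FitSub_D C k := ⟨_, rfl⟩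
  rw [← hKdef] at hK hKn hKC hn'
  have hnil : Group.IsNilpotent K := by
    apply FitSub_nilp
    intro a ha b hb c hc
    have h1 : ⁅a, b⁆ ∈ Op p B := hn' (Subgroup.commutator_mem_commutator ha hb)
    have h2 : c ∈ C := hKC hc
    rw [hCdef, Subgroup.mem_centralizer_iff] at h2
    exact h2 _ h1
  -- the Sylow `q`-subgroup of `K` is trivial
  have hSn : ∀ S : Sylow q K, (S : Subgroup K) = ⊥ := by
    intro S
    have h0 : ∀ (r : ℕ) (_ : Fact r.Prime) (P : Sylow r K), (P : Subgroup K).Normal :=
      ((Group.isNilpotent_of_finite_tfae (G := K)).out 0 3).1 hnil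
    have h1 : (S : Subgroup K).Normal := h0 q hfq S
    have h2 : (S : Subgroup K).Characteristic := Sylow.characteristic_of_normal S h1
    have h3 : ((S : Subgroup K).map K.subtype).Normal := by
      infer_instance
    have h4 : IsPGroup q ((S : Subgroup K).map K.subtype) := S.2.map _
    have h5 := le_Op h3 h4
    rw [hq, le_bot_iff, Subgroup.map_eq_bot_iff_of_injective _ K.subtype_injective] at h5
    exact h5
  -- so `K` is a `p`-group
  have hKp : IsPGroup p K := by
    have S : Sylow q K := default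
    have h1 := hSn S
    have h2 : ¬ q ∣ Nat.card K := by
      intro hd
      have h3 : q ∣ Nat.card (S : Subgroup K) := Sylow.dvd_card_of_dvd_card S hd
      rw [h1, Subgroup.card_bot] at h3
      exact hqp.one_lt.ne' (Nat.dvd_one.1 h3)
    obtain ⟨a, m, hb⟩ : ∃ a, ∃ m, ¬ p ∣ m ∧ Nat.card K = p ^ a * m :=
      Nat.exists_eq_pow_mul_and_not_dvd Nat.card_pos.ne' p hpp.one_lt.ne'
    have hm1 : m = 1 := by
      by_contra hne
      obtain ⟨r, hr, hd⟩ := Nat.exists_prime_and_dvd hne
      have hd' : r ∣ Nat.card K := by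
        rw [hb.2]
        exact hd.trans (Dvd.intro_left _ rfl)
      have hr' : r = p ∨ r = q := by
        have := h.subgroup K r hr hd'
        rcases hpq with ⟨rfl, rfl⟩ | ⟨rfl, rfl⟩
        · exact this
        · exact this.symm
      rcases hr' with rfl | rfl
      · exact hb.1 hd
      · exact h2 hd'
    apply IsPGroup.of_card (n := a)
    rw [hb.2, hm1, mul_one]
  exact hK (le_Op hKn hKp)

end Pool.Agent.MPa0c355.B12
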