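import Pool.Agent.Lib.MP_a0c355_lc.B12.ThreeOnTwo
import Pool.Agent.Lib.MP_a0c355_lc.B12.FitSub

/-! # The order of a `{2,3}`-group acting faithfully on an elementary abelian 3-group -/

set_option autoImplicit false

namespace Pool.Agent.MPa0c355.B12

/-- `n = 2^a 3^b` -/
theorem boundJ_fact (n : ℕ) (hn : n ≠ 0) (h : ∀ q : ℕ, q.Prime → q ∣ n → q = 2 ∨ q = 3) :
    n = 2 ^ n.factorization 2 * 3 ^ n.factorization 3 := by
  have hsub : n.factorization.support ⊆ ({2, 3} : Finset ℕ) := by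
    intro q hq
    rw [Nat.support_factorization, Nat.mem_primeFactors] at hq
    rcases h q hq.1 hq.2.1 with rfl | rfl <;> simp
  have h1 := Nat.prod_factorization_pow_eq_self hn
  rw [Finsupp.prod_of_support_subset _ hsub _ (fun i _ => pow_zero i)] at h1
  rw [Finset.prod_pair (by norm_num)] at h1
  exact h1.symm

/-- `|J| = |P| |S|` for Sylow subgroups; `|P| ≤ |W|^2` by `card_two_le`; `D = O_2(J) ≤ P` so
`|D| ≤ |W|^2`; `C_J(D) ≤ D` by `centralizer_Op_le` (`O_3(J) = 1`), so `S` acts faithfully on `D` and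
`|S| ≤ |D|^3 ≤ |W|^6` by `card_three_on_two`. -/
theorem bound_J {J : Type*} [Group J] [Finite J] (h23 : Is23 J) (hO3 : Op 3 J = ⊥) (W : Type*)
    [CommGroup W] [Finite W] (hW : ∀ x : W, x ^ 3 = 1) (φ : J →* MulAut W)
    (hφ : Function.Injective φ) : Nat.card J ≤ Nat.card W ^ 8 := by
  have f2 : Fact (Nat.Prime 2) := ⟨Nat.prime_two⟩
  have f3 : Fact (Nat.Prime 3) := ⟨Nat.prime_three⟩
  obtain ⟨P, hP⟩ := (Op_isPGroup (G := J) 2).exists_le_sylow
  let S : Sylow 3 J := default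
  have hJ := boundJ_fact (Nat.card J) Nat.card_pos.ne' h23
  have hP1 : Nat.card P = 2 ^ (Nat.card J).factorization 2 := P.card_eq_multiplicity
  have hS1 : Nat.card S = 3 ^ (Nat.card J).factorization 3 := S.card_eq_multiplicity
  have hP2 : Nat.card P ≤ Nat.card W ^ 2 := by
    refine card_two_le P.isPGroup' W hW (φ.comp (P : Subgroup J).subtype) ?_
    exact hφ.comp (Subgroup.subtype_injective _)
  have hD : Nat.card (Op 2 J) ≤ Nat.card W ^ 2 :=
    (Subgroup.card_le_of_le hP).trans hP2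
  have hS2 : Nat.card S ≤ Nat.card (Op 2 J) ^ 3 := by
    refine card_three_on_two (S : Subgroup J) (Op 2 J) S.isPGroup' (Op_isPGroup 2) ?_
    intro s hs hc
    have h1 : s ∈ Subgroup.centralizer (Op 2 J : Set J) := by
      rw [Subgroup.mem_centralizer_iff]
      intro b hb
      exact (hc b hb).symm
    have h2 := centralizer_Op_le h23 2 3 (Or.inl ⟨rfl, rfl⟩) hO3 h1
    have h3 := IsPGroup.disjoint_of_ne 2 3 (by norm_num) (Op 2 J) (S : Subgroup J)
      (Op_isPGroup 2) S.isPGroup'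
    exact Subgroup.disjoint_def.1 h3 h2 hs
  calc Nat.card J = Nat.card P * Nat.card S := by rw [hP1, hS1]; exact hJ
    _ ≤ Nat.card W ^ 2 * (Nat.card W ^ 2) ^ 3 :=
        Nat.mul_le_mul hP2 (hS2.trans (Nat.pow_le_pow_left hD 3))
    _ = Nat.card W ^ 8 := by ring

end Pool.Agent.MPa0c355.B12
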