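import Pool.Agent.Lib.MP_a0c355_lc.B12.Defs

/-! # Small orbits: definitions

Representations are homomorphisms `ρ : Q →* (V →ₗ[K] V)`; `K` is algebraically closed of
characteristic 2. -/

set_option autoImplicit false

namespace Pool.Agent.MPa0c355.B12

open Module

/-- the stabiliser of a vector -/
def stabV {K Q V : Type*} [Field K] [Group Q] [AddCommGroup V] [Module K V]
    (ρ : Q →* (V →ₗ[K] V)) (v : V) : Subgroup Q where
  carrier := {g | ρ g v = v}
  one_mem' := by
    show ρ 1 v = v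
    rw [map_one]; rfl
  mul_mem' := by
    intro a b ha hb
    show ρ (a * b) v = v
    rw [map_mul]
    show ρ a (ρ b v) = v
    rw [show ρ b v = v from hb]
    exact ha
  inv_mem' := by
    intro a ha
    show ρ a⁻¹ v = v
    conv_lhs => rw [← show ρ a v = v from ha]
    show (ρ a⁻¹ * ρ a) v = v
    rw [← map_mul, inv_mul_cancel, map_one]; rfl

/-- faithful, irreducible, and abelian normal 3-subgroups act by scalars -/
structure Prim {K B Y : Type*} [Field K] [Group B] [AddCommGroup Y] [Module K Y]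
    (σ : B →* (Y →ₗ[K] Y)) : Prop where
  faithful : ∀ g, σ g = 1 → g = 1
  irr : ∀ W : Submodule K Y, (∀ g, ∀ y ∈ W, σ g y ∈ W) → W = ⊥ ∨ W = ⊤
  scal : ∀ A : Subgroup B, A.Normal → IsPGroup 3 A → (∀ a ∈ A, ∀ b ∈ A, a * b = b * a) →
    ∀ a ∈ A, ∃ c : K, σ a = c • (1 : Y →ₗ[K] Y)

end Pool.Agent.MPa0c355.B12
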