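import Mathlib

/-! # MP_a0c355_lc, all d dividing 12: definitions

`Is23 G`: the order of the finite group `G` is `2^a 3^b`.  `Op p G` is the largest normal
`p`-subgroup.  `lamp p E` is the lower exponent-`p`-central series of `E` and `BL p E L` says that
it is trivial after `L` steps.  `Inv d V` consists of the `t ∈ V` with `(t x)^d = x^d` for all `x`.
`Mono d p G M V` is the situation of the induction step of the density theorem. -/

set_option autoImplicit false

namespace Pool.Agent.MPa0c355.B12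

open scoped commutatorElement

/-- the order is `2^a 3^b` -/
def Is23 (G : Type*) [Group G] : Prop :=
  ∀ q : ℕ, q.Prime → q ∣ Nat.card G → q = 2 ∨ q = 3

/-- `O_p(G)` -/
def Op (p : ℕ) (G : Type*) [Group G] : Subgroup G :=
  sSup {N : Subgroup G | N.Normal ∧ IsPGroup p N}

/-- the lower exponent-`p`-central series -/
def lamp (p : ℕ) (E : Type*) [Group E] : ℕ → Subgroup E
  | 0 => ⊤
  | i + 1 => ⁅lamp p E i, (⊤ : Subgroup E)⁆ ⊔ Subgroup.closure {y | ∃ a ∈ lamp p E i, y = a ^ p}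

/-- `E` has bounded length -/
def BL (p : ℕ) (E : Type*) [Group E] (L : ℕ) : Prop := lamp p E L = ⊥

/-- the elements `t` of `V` with `(t x)^d = x^d` for all `x` -/
def Inv {G : Type*} [Group G] (d : ℕ) (V : Subgroup G) : Subgroup G where
  carrier := {t | t ∈ V ∧ ∀ x : G, (t * x) ^ d = x ^ d}
  one_mem' := ⟨one_mem V, fun x => by rw [one_mul]⟩
  mul_mem' := by
    rintro a b ⟨ha, ha'⟩ ⟨hb, hb'⟩
    exact ⟨mul_mem ha hb, fun x => by rw [mul_assoc, ha', hb']⟩
  inv_mem' := by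
    rintro a ⟨ha, ha'⟩
    refine ⟨inv_mem ha, fun x => ?_⟩
    have h := ha' (a⁻¹ * x)
    rw [mul_inv_cancel_left] at h
    exact h.symm

/-- the stabiliser of the coset of `t` modulo the normal subgroup `T1` under conjugation -/
def stabC {G : Type*} [Group G] (T1 : Subgroup G) [hT : T1.Normal] (t : G) : Subgroup G where
  carrier := {g | g * t * g⁻¹ * t⁻¹ ∈ T1}
  one_mem' := by
    show 1 * t * 1⁻¹ * t⁻¹ ∈ T1
    rw [one_mul, inv_one, mul_one, mul_inv_cancel]
    exact one_mem T1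
  mul_mem' := by
    intro a b ha hb
    show a * b * t * (a * b)⁻¹ * t⁻¹ ∈ T1
    have e : a * b * t * (a * b)⁻¹ * t⁻¹ = a * (b * t * b⁻¹ * t⁻¹) * a⁻¹ * (a * t * a⁻¹ * t⁻¹) := by
      group
    rw [e]
    exact mul_mem (hT.conj_mem _ hb a) ha
  inv_mem' := by
    intro a ha
    show a⁻¹ * t * a⁻¹⁻¹ * t⁻¹ ∈ T1
    have e : a⁻¹ * t * a⁻¹⁻¹ * t⁻¹ = a⁻¹ * (a * t * a⁻¹ * t⁻¹)⁻¹ * a⁻¹⁻¹ := by group
    rw [e]
    exact hT.conj_mem _ (inv_mem ha) _

/-- the situation of the induction step: `M` is the unique minimal normal subgroup of `G`, `V` is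
the largest normal `p`-subgroup. -/
structure Mono (d p : ℕ) (G : Type*) [Group G] (M V : Subgroup G) : Prop where
  nM : M.Normal
  nV : V.Normal
  ne : M ≠ ⊥
  le : M ≤ V
  pV : IsPGroup p V
  maxV : ∀ N : Subgroup G, N.Normal → IsPGroup p N → N ≤ V
  central : ∀ m ∈ M, ∀ v ∈ V, m * v = v * m
  elem : ∀ m ∈ M, m ^ p = 1
  pow : ∀ x : G, x ^ d ∈ M
  min : ∀ N : Subgroup G, N.Normal → N ≠ ⊥ → M ≤ N

section basic

variable {G : Type*} [Group G]

instance Op_normal (p : ℕ) : (Op p G).Normal := by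
  refine ⟨fun n hn g => ?_⟩
  have h : Op p G ≤ (Op p G).comap (MulAut.conj g).toMonoidHom := by
    refine sSup_le ?_
    rintro N ⟨hN, hp⟩ x hx
    exact (le_sSup (show N ∈ {N : Subgroup G | N.Normal ∧ IsPGroup p N} from ⟨hN, hp⟩) :
      N ≤ Op p G) (hN.conj_mem x hx g)
  exact h hn

theorem Op_isPGroup (p : ℕ) : IsPGroup p (Op p G) :=
  Sylow.sSup_of_normal _ (fun _ h => h.2) (fun _ h => h.1)

theorem le_Op {p : ℕ} {N : Subgroup G} (hN : N.Normal) (h : IsPGroup p N) : N ≤ Op p G :=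
  le_sSup ⟨hN, h⟩

theorem mem_Inv {d : ℕ} {V : Subgroup G} {t : G} :
    t ∈ Inv d V ↔ t ∈ V ∧ ∀ x : G, (t * x) ^ d = x ^ d := Iff.rfl

theorem Inv_le (d : ℕ) (V : Subgroup G) : Inv d V ≤ V := fun _ h => h.1

instance Inv_normal (d : ℕ) (V : Subgroup G) [hV : V.Normal] : (Inv d V).Normal := by
  refine ⟨fun t ht g => ⟨hV.conj_mem t ht.1 g, fun x => ?_⟩⟩
  have h := ht.2 (g⁻¹ * x * g)
  have e1 : g * t * g⁻¹ * x = g * (t * (g⁻¹ * x * g)) * g⁻¹ := by group
  have e2 : x = g * (g⁻¹ * x * g) * g⁻¹ := by group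
  rw [e1, conj_pow, h]
  conv_rhs => rw [e2, conj_pow]

theorem mem_stabC {T1 : Subgroup G} [T1.Normal] {t g : G} :
    g ∈ stabC T1 t ↔ g * t * g⁻¹ * t⁻¹ ∈ T1 := Iff.rfl

theorem Is23.subgroup [Finite G] (h : Is23 G) (H : Subgroup G) : Is23 H :=
  fun q hq hd => h q hq (hd.trans (Subgroup.card_subgroup_dvd_card H))

theorem Is23.quotient [Finite G] (h : Is23 G) (N : Subgroup G) [N.Normal] : Is23 (G ⧸ N) :=
  fun q hq hd => h q hq (hd.trans (Subgroup.card_quotient_dvd_card N))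

theorem Is23.of_surjective {G' : Type*} [Group G'] (h : Is23 G) (f : G →* G')
    (hf : Function.Surjective f) : Is23 G' :=
  fun q hq hd => h q hq (hd.trans (Subgroup.card_dvd_of_surjective f hf))

theorem Is23.of_injective {G' : Type*} [Group G'] [Finite G'] (h : Is23 G') (f : G →* G')
    (hf : Function.Injective f) : Is23 G :=
  fun q hq hd => h q hq (hd.trans (Subgroup.card_dvd_of_injective f hf))

end basic

section lampbasic

variable {p : ℕ} {E : Type*} [Group E]

theorem lamp_zero : lamp p E 0 = ⊤ := rfl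

theorem lamp_comm_mem {i : ℕ} {a : E} (ha : a ∈ lamp p E i) (e : E) : ⁅a, e⁆ ∈ lamp p E (i + 1) :=
  Subgroup.mem_sup_left (Subgroup.commutator_mem_commutator ha (Subgroup.mem_top e))

theorem lamp_pow_mem {i : ℕ} {a : E} (ha : a ∈ lamp p E i) : a ^ p ∈ lamp p E (i + 1) :=
  Subgroup.mem_sup_right (Subgroup.subset_closure ⟨a, ha, rfl⟩)

/-- a bound for the series -/
theorem lamp_succ_le {i : ℕ} {K : Subgroup E} (h1 : ∀ a ∈ lamp p E i, ∀ e : E, ⁅a, e⁆ ∈ K)
    (h2 : ∀ a ∈ lamp p E i, a ^ p ∈ K) : lamp p E (i + 1) ≤ K := by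
  refine sup_le (Subgroup.commutator_le.2 fun a ha e _ => h1 a ha e) ((Subgroup.closure_le K).2 ?_)
  rintro _ ⟨a, ha, rfl⟩
  exact h2 a ha

/-- homomorphisms -/
theorem lamp_map {E' : Type*} [Group E'] (f : E →* E') (i : ℕ) {a : E} (ha : a ∈ lamp p E i) :
    f a ∈ lamp p E' i := by
  induction i generalizing a with
  | zero => exact Subgroup.mem_top _
  | succ i ih =>
    have h : lamp p E (i + 1) ≤ (lamp p E' (i + 1)).comap f := by
      refine lamp_succ_le ?_ ?_
      · intro b hb e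
        rw [Subgroup.mem_comap, map_commutatorElement]
        exact lamp_comm_mem (ih hb) _
      · intro b hb
        rw [Subgroup.mem_comap, map_pow]
        exact lamp_pow_mem (ih hb)
    exact h ha

instance lamp_normal (i : ℕ) : (lamp p E i).Normal := by
  refine ⟨fun n hn g => ?_⟩
  exact lamp_map (MulAut.conj g).toMonoidHom i hn

theorem lamp_succ_le_self (i : ℕ) : lamp p E (i + 1) ≤ lamp p E i := by
  refine lamp_succ_le ?_ ?_
  · intro a ha e
    rw [commutatorElement_def, mul_assoc, mul_assoc]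
    refine mul_mem ha ?_
    rw [← mul_assoc]
    exact (lamp_normal i).conj_mem _ (inv_mem ha) _
  · intro a ha
    exact pow_mem ha p

theorem lamp_antitone : Antitone (lamp p E) := antitone_nat_of_succ_le lamp_succ_le_self

/-- comparison with another series -/
theorem lamp_le_of_series (K : ℕ → Subgroup E) (h0 : K 0 = ⊤)
    (h1 : ∀ i, ∀ a ∈ K i, ∀ e : E, ⁅a, e⁆ ∈ K (i + 1)) (h2 : ∀ i, ∀ a ∈ K i, a ^ p ∈ K (i + 1))
    (i : ℕ) : lamp p E i ≤ K i := by
  induction i with
  | zero => rw [h0]; exact le_top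
  | succ i ih => exact lamp_succ_le (fun a ha e => h1 i a (ih ha) e) fun a ha => h2 i a (ih ha)

theorem BL.of_injective {E' : Type*} [Group E'] {L : ℕ} (h : BL p E' L) (f : E →* E')
    (hf : Function.Injective f) : BL p E L := by
  unfold BL at h ⊢
  rw [eq_bot_iff]
  intro a ha
  have h1 := lamp_map f L ha
  rw [h, Subgroup.mem_bot] at h1
  rw [Subgroup.mem_bot]
  exact hf (by rw [h1, map_one])

theorem BL.mono {L L' : ℕ} (h : BL p E L) (hL : L ≤ L') : BL p E L' := by
  unfold BL at h ⊢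
  rw [eq_bot_iff, ← h]
  exact lamp_antitone hL

end lampbasic

end Pool.Agent.MPa0c355.B12
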