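import Pool.Agent.Lib.MP_a0c355_lc.B12.FitA

/-! # The Frattini step -/

set_option autoImplicit false

namespace Pool.Agent.MPa0c355.B12

/-- counting the elements with a property of the image under a surjective homomorphism -/
theorem FrattStep_card {H Q : Type*} [Group H] [Group Q] (f : H →* Q)
    (hf : Function.Surjective f) (P : Q → Prop) :
    Nat.card {x : H // P (f x)} = Nat.card f.ker * Nat.card {c : Q // P c} := by
  choose s hs using hf
  rw [← Nat.card_prod]
  refine Nat.card_congr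
    { toFun := fun x => (⟨(s (f x.1))⁻¹ * x.1, ?_⟩, ⟨f x.1, x.2⟩)
      invFun := fun y => ⟨s y.2.1 * y.1.1, ?_⟩
      left_inv := ?_
      right_inv := ?_ }
  · rw [MonoidHom.mem_ker, map_mul, map_inv, hs, inv_mul_cancel]
  · rw [map_mul, hs, (MonoidHom.mem_ker).1 y.1.2, mul_one]
    exact y.2.2
  · intro x
    apply Subtype.ext
    exact mul_inv_cancel_left _ _
  · rintro ⟨⟨k, hk⟩, ⟨c, hc⟩⟩
    have h1 : f (s c * k) = c := by
      rw [map_mul, hs, (MonoidHom.mem_ker).1 hk, mul_one]
    apply Prod.ext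
    · apply Subtype.ext
      show (s (f (s c * k)))⁻¹ * (s c * k) = k
      rw [h1, inv_mul_cancel_left]
    · apply Subtype.ext
      exact h1

theorem FrattStep_card_top {H Q : Type*} [Group H] [Group Q] (f : H →* Q)
    (hf : Function.Surjective f) : Nat.card H = Nat.card f.ker * Nat.card Q := by
  have h1 := FrattStep_card f hf (fun _ => True)
  rw [Nat.card_congr (Equiv.subtypeUnivEquiv (fun _ => trivial)),
    Nat.card_congr (Equiv.subtypeUnivEquiv (fun _ => trivial))] at h1
  exact h1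

/-- a normal subgroup `U` with `U V / V` a `q`-group, and a Sylow `q`-subgroup of `U` -/
theorem FrattStep_dec {q : ℕ} [Fact q.Prime] {G : Type*} [Group G] [Finite G] (V U : Subgroup G)
    [V.Normal] (hU : IsPGroup q (U.map (QuotientGroup.mk' V))) (P : Sylow q U) (u : G)
    (hu : u ∈ U) : ∃ x ∈ (P : Subgroup U).map U.subtype, x⁻¹ * u ∈ V := by
  -- the quotient of `U`
  let f : U →* U.map (QuotientGroup.mk' V) := (QuotientGroup.mk' V).subgroupMap U
  have hf : Function.Surjective f := MonoidHom.subgroupMap_surjective _ _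
  have h2 : ((P.mapSurjective hf : Sylow q (U.map (QuotientGroup.mk' V))) :
      Subgroup (U.map (QuotientGroup.mk' V))) = ⊤ :=
    ((P.mapSurjective hf).is_maximal' (hU.to_subgroup ⊤) le_top).symm
  have h3 : f ⟨u, hu⟩ ∈ ((P.mapSurjective hf : Sylow q (U.map (QuotientGroup.mk' V))) :
      Subgroup (U.map (QuotientGroup.mk' V))) := by
    rw [h2]
    exact Subgroup.mem_top _
  rw [Sylow.coe_mapSurjective, Subgroup.mem_map] at h3
  obtain ⟨x, hx, hxu⟩ := h3
  have h4 : (QuotientGroup.mk' V) (x : G) = (QuotientGroup.mk' V) u := congrArg Subtype.val hxu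
  have h5 : (x : G)⁻¹ * u ∈ V := QuotientGroup.eq.1 h4
  exact ⟨x, ⟨x, hx, rfl⟩, h5⟩

theorem FrattStep_sup {q : ℕ} [Fact q.Prime] {G : Type*} [Group G] [Finite G] (V U : Subgroup G)
    [V.Normal] [U.Normal] (hU : IsPGroup q (U.map (QuotientGroup.mk' V))) (P : Sylow q U) :
    Subgroup.normalizer (((P : Subgroup U).map U.subtype : Subgroup G) : Set G) ⊔ V = ⊤ := by
  have h1 := P.normalizer_sup_eq_top
  rw [eq_top_iff, ← h1]
  refine sup_le le_sup_left ?_
  intro u hu
  obtain ⟨x, hx, h5⟩ := FrattStep_dec V U hU P u hu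
  have h6 : u = x * (x⁻¹ * u) := by rw [mul_inv_cancel_left]
  rw [h6]
  exact mul_mem (Subgroup.mem_sup_left (Subgroup.le_normalizer hx)) (Subgroup.mem_sup_right h5)

/-- the counting step: `L V = G` and the property `x ^ d ≠ 1` is constant on the cosets of `V` -/
theorem FrattStep_count {d : ℕ} {G : Type*} [Group G] [Finite G] (V L : Subgroup G)
    [hV : V.Normal] (hinv : V ≤ Inv d V) (hL : L ⊔ V = ⊤) :
    Nat.card G * Nat.card {x : L // x ^ d ≠ 1} =
      Nat.card L * Nat.card {x : G // x ^ d ≠ 1} := by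
  let P : G ⧸ V → Prop := fun c => ∃ x : G, (QuotientGroup.mk' V) x = c ∧ x ^ d ≠ 1
  have hP : ∀ x : G, P ((QuotientGroup.mk' V) x) ↔ x ^ d ≠ 1 := by
    intro x
    constructor
    · rintro ⟨y, hy, hyd⟩
      have h1 : y * x⁻¹ ∈ V := by
        have h2 : (QuotientGroup.mk' V) (y * x⁻¹) = 1 := by
          rw [map_mul, map_inv, hy, mul_inv_cancel]
        exact (QuotientGroup.eq_one_iff _).1 h2
      have h3 := (hinv h1).2 x
      rw [inv_mul_cancel_right] at h3
      rwa [h3] at hyd
    · intro h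
      exact ⟨x, rfl, h⟩
  have hf : Function.Surjective ((QuotientGroup.mk' V).comp L.subtype) := by
    intro c
    obtain ⟨g, rfl⟩ := QuotientGroup.mk'_surjective V c
    have hg : g ∈ L ⊔ V := by
      rw [hL]
      exact Subgroup.mem_top g
    obtain ⟨l, hl, v, hv, rfl⟩ := Subgroup.mem_sup_of_normal_right.1 hg
    refine ⟨⟨l, hl⟩, ?_⟩
    show (QuotientGroup.mk' V) l = (QuotientGroup.mk' V) (l * v)
    rw [map_mul, show (QuotientGroup.mk' V) v = 1 from (QuotientGroup.eq_one_iff v).2 hv, mul_one]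
  have h1 : Nat.card {x : L // x ^ d ≠ 1} =
      Nat.card ((QuotientGroup.mk' V).comp L.subtype).ker * Nat.card {c // P c} := by
    rw [← FrattStep_card _ hf P]
    refine Nat.card_congr (Equiv.subtypeEquivRight fun x => ?_)
    have h2 := hP (x : G)
    constructor
    · intro h
      exact h2.2 (fun h' => h (Subtype.ext h'))
    · intro h h'
      exact h2.1 h (congrArg Subtype.val h')
  have h2 : Nat.card {x : G // x ^ d ≠ 1} =
      Nat.card (QuotientGroup.mk' V).ker * Nat.card {c // P c} := by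
    rw [← FrattStep_card _ (QuotientGroup.mk'_surjective V) P]
    exact Nat.card_congr (Equiv.subtypeEquivRight fun x => (hP x).symm)
  rw [h1, h2, FrattStep_card_top _ hf, FrattStep_card_top _ (QuotientGroup.mk'_surjective V)]
  ring

/-- the quotient by the largest normal `p`-subgroup has no normal `p`-subgroup -/
theorem FrattStep_Op {p : ℕ} {G : Type*} [Group G] (V : Subgroup G) [V.Normal]
    (pV : IsPGroup p V) (maxV : ∀ N : Subgroup G, N.Normal → IsPGroup p N → N ≤ V) :
    Op p (G ⧸ V) = ⊥ := by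
  have h1 : IsPGroup p ((Op p (G ⧸ V)).comap (QuotientGroup.mk' V)) := by
    apply (Op_isPGroup (G := G ⧸ V) p).comap_of_ker_isPGroup
    rw [QuotientGroup.ker_mk']
    exact pV
  have h2 := maxV _ inferInstance h1
  rw [eq_bot_iff]
  intro c hc
  obtain ⟨g, rfl⟩ := QuotientGroup.mk'_surjective V c
  exact (QuotientGroup.eq_one_iff g).2 (h2 hc)

/-- `V ≠ ⊤`: otherwise `x ^ d = (x * 1) ^ d = 1`.  `G ⧸ V` has no normal `p`-subgroup `≠ ⊥` (its preimage
would be a normal `p`-subgroup of `G`, `hm.maxV`), so by `Op_ne_bot` it has a normal `q`-subgroup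
`≠ ⊥`, `{p, q} = {2, 3}`; let `U` be its preimage.  `Q` a Sylow `q`-subgroup of `U`: `U = V Q`.  Frattini
(`Sylow.normalizer_sup_eq_top`): `G = L U = L V` for the normaliser `L` of `Q` in `G`.  `L ≠ ⊤`:
otherwise `Q ≠ ⊥` is normal in `G`, so `M ≤ Q`, but `M ≠ ⊥` is a `p`-group and `Q` a `q`-group.  The
function `x ↦ x ^ d` is constant on the cosets `V x` (`hinv`), and `G / V = L / (L ∩ V)`; counting by
cosets: the number of `x ∈ G` with `x ^ d ≠ 1` is `|V| c`, where `c` is the number of good cosets, the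
number of `x ∈ L` is `|L ∩ V| c`, and `|G| |L ∩ V| = |L| |V|`. -/
theorem frattini_step {d p : ℕ} (hp : p = 2 ∨ p = 3) {G : Type*} [Group G] [Finite G]
    (h23 : Is23 G) {M V : Subgroup G} (hm : Mono d p G M V) (hinv : V ≤ Inv d V)
    (hex : ∃ x : G, x ^ d ≠ 1) :
    ∃ L : Subgroup G, L ≠ ⊤ ∧
      Nat.card G * Nat.card {x : L // x ^ d ≠ 1} = Nat.card L * Nat.card {x : G // x ^ d ≠ 1} := by
  have hVn := hm.nV
  have hMn := hm.nM
  have hVtop : V ≠ ⊤ := by
    intro h
    obtain ⟨x, hx⟩ := hex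
    have h1 : x ∈ Inv d V := hinv (by rw [h]; exact Subgroup.mem_top x)
    have h2 := h1.2 1
    rw [mul_one, one_pow] at h2
    exact hx h2
  have hnt : Nontrivial (G ⧸ V) := by
    rw [← not_subsingleton_iff_nontrivial]
    intro h
    exact hVtop (QuotientGroup.subgroup_eq_top_of_subsingleton V h)
  have hOp := FrattStep_Op V hm.pV hm.maxV
  obtain ⟨q, hqp, hqne, hq⟩ : ∃ q : ℕ, q.Prime ∧ q ≠ p ∧ Op q (G ⧸ V) ≠ ⊥ := by
    rcases hp with rfl | rfl
    · exact ⟨3, Nat.prime_three, by norm_num, (Op_ne_bot (h23.quotient V)).resolve_left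
        (fun h => h hOp)⟩
    · exact ⟨2, Nat.prime_two, by norm_num, (Op_ne_bot (h23.quotient V)).resolve_right
        (fun h => h hOp)⟩
  have hpp : p.Prime := by
    rcases hp with rfl | rfl
    · exact Nat.prime_two
    · exact Nat.prime_three
  have hfq : Fact q.Prime := ⟨hqp⟩
  obtain ⟨U, hUdef⟩ : ∃ U : Subgroup G, U = (Op q (G ⧸ V)).comap (QuotientGroup.mk' V) := ⟨_, rfl⟩
  have hUn : U.Normal := by
    rw [hUdef]
    infer_instance
  have hmap : U.map (QuotientGroup.mk' V) = Op q (G ⧸ V) := by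
    rw [hUdef]
    exact Subgroup.map_comap_eq_self_of_surjective (QuotientGroup.mk'_surjective V) _
  have hUp : IsPGroup q (U.map (QuotientGroup.mk' V)) := by
    rw [hmap]
    exact Op_isPGroup q
  have P : Sylow q U := default
  refine ⟨Subgroup.normalizer (((P : Subgroup U).map U.subtype : Subgroup G) : Set G), ?_,
    FrattStep_count V _ hinv (FrattStep_sup V U hUp P)⟩
  intro htop
  have hQn : ((P : Subgroup U).map U.subtype).Normal := Subgroup.normalizer_eq_top_iff.1 htop
  have hQne : (P : Subgroup U).map U.subtype ≠ ⊥ := by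
    intro h0
    apply hq
    rw [← hmap, Subgroup.map_eq_bot_iff, QuotientGroup.ker_mk']
    intro u hu
    obtain ⟨x, hx, h5⟩ := FrattStep_dec V U hUp P u hu
    rw [h0, Subgroup.mem_bot] at hx
    rwa [hx, inv_one, one_mul] at h5
  have hMQ := hm.min _ hQn hQne
  apply hm.ne
  rw [eq_bot_iff]
  intro m hmm
  obtain ⟨k, hk⟩ := (P.2.map U.subtype) ⟨m, hMQ hmm⟩
  have h1 : m ^ q ^ k = 1 := congrArg Subtype.val hk
  have h2 := hm.elem m hmm
  have h3 : orderOf m ∣ q ^ k := orderOf_dvd_of_pow_eq_one h1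
  have h4 : orderOf m ∣ p := orderOf_dvd_of_pow_eq_one h2
  have h5 : Nat.Coprime (q ^ k) p := ((Nat.coprime_primes hqp hpp).2 hqne).pow_left k
  have h6 : orderOf m = 1 := Nat.eq_one_of_dvd_coprimes h5 h3 h4
  rw [Subgroup.mem_bot]
  exact orderOf_eq_one_iff.1 h6

end Pool.Agent.MPa0c355.B12
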