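import Pool.Agent.Lib.MP_a0c355_lc.B12.FitA

/-! # The monolith -/

set_option autoImplicit false

namespace Pool.Agent.MPa0c355.B12

/-- A nontrivial normal subgroup of a `p`-group contains a central element. -/
theorem MonoEx_central {p : ℕ} [Fact p.Prime] {G : Type*} [Group G] [Finite G]
    (V M : Subgroup G) [hM : M.Normal] (hV : IsPGroup p V) (hMV : M ≤ V) (hne : M ≠ ⊥) :
    ∃ m ∈ M, m ≠ 1 ∧ ∀ v ∈ V, m * v = v * m := by
  let act : MulAction V M :=
    { smul := fun v m => ⟨(v : G) * m * (v : G)⁻¹, hM.conj_mem _ m.2 _⟩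
      one_smul := fun m => Subtype.ext (by
        show ((1 : V) : G) * m * ((1 : V) : G)⁻¹ = m
        rw [Subgroup.coe_one, one_mul, inv_one, mul_one])
      mul_smul := fun v w m => Subtype.ext (by
        show ((v * w : V) : G) * m * ((v * w : V) : G)⁻¹ = v * (w * m * (w : G)⁻¹) * (v : G)⁻¹
        rw [Subgroup.coe_mul, mul_inv_rev]
        group) }
  have hsmul : ∀ (v : V) (m : M), ((v • m : M) : G) = (v : G) * m * (v : G)⁻¹ := fun _ _ => rfl
  have hpM : IsPGroup p M := hV.of_injective (Subgroup.inclusion hMV)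
    (Subgroup.inclusion_injective hMV)
  have hdvd : p ∣ Nat.card M := by
    have hnt : Nontrivial M := (Subgroup.nontrivial_iff_ne_bot M).2 hne
    obtain ⟨n, hn, hc⟩ := hpM.nontrivial_iff_card.1 hnt
    rw [hc]
    exact dvd_pow_self p hn.ne'
  have h1 : (1 : M) ∈ MulAction.fixedPoints V M := by
    intro v
    apply Subtype.ext
    rw [hsmul, Subgroup.coe_one, mul_one, mul_inv_cancel]
  obtain ⟨b, hb, hb1⟩ := hV.exists_fixed_point_of_prime_dvd_card_of_fixed_point M hdvd h1
  refine ⟨b, b.2, fun h => hb1 (Subtype.ext h.symm), fun v hv => ?_⟩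
  have h2 := congrArg Subtype.val (hb ⟨v, hv⟩)
  rw [hsmul] at h2
  have h3 : v * (b : G) * v⁻¹ = b := h2
  calc (b : G) * v = v * (b : G) * v⁻¹ * v := by rw [h3]
    _ = v * b := by rw [inv_mul_cancel_right]

/-- `M` is the intersection of all normal subgroups `≠ ⊥` of `G`; it contains all `x ^ d`, so
`M ≠ ⊥`, and it is contained in every normal subgroup `≠ ⊥`.  `M` is abelian: `⁅M, M⁆` is normal in `G`
and smaller than `M` (`Is23.solvable`), so it is `⊥`.  Let `p` be a prime dividing `|M|` (2 or 3); the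
elements `m` of `M` with `m ^ p = 1` form a normal subgroup of `G` which is `≠ ⊥` (Cauchy), so it is
`M`.  `V = Op p G ≥ M`.  The elements of `M` which commute with all elements of `V` form a normal
subgroup of `G`, which is `≠ ⊥` because the `p`-group `V` acts by conjugation on the `p`-group `M` with a
fixed point `≠ 1`; so it is `M`. -/
theorem exists_mono {d : ℕ} {G : Type*} [Group G] [Finite G] (h23 : Is23 G)
    (hex : ∃ x : G, x ^ d ≠ 1)
    (hq : ∀ N : Subgroup G, N.Normal → N ≠ ⊥ → ∀ x : G, x ^ d ∈ N) :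
    ∃ (p : ℕ) (M V : Subgroup G), (p = 2 ∨ p = 3) ∧ Mono d p G M V := by
  obtain ⟨x0, hx0⟩ := hex
  have hsol : Group.IsSolvable G := h23.solvable
  obtain ⟨M, hMdef⟩ : ∃ M : Subgroup G, M = sInf {N : Subgroup G | N.Normal ∧ N ≠ ⊥} := ⟨_, rfl⟩
  have hmin : ∀ N : Subgroup G, N.Normal → N ≠ ⊥ → M ≤ N := by
    intro N hN hne
    rw [hMdef]
    exact sInf_le ⟨hN, hne⟩
  have hpow : ∀ x : G, x ^ d ∈ M := by
    intro x
    rw [hMdef, Subgroup.mem_sInf]
    rintro N ⟨hN, hne⟩
    exact hq N hN hne x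
  have hMn : M.Normal := by
    refine ⟨fun m hm g => ?_⟩
    rw [hMdef, Subgroup.mem_sInf] at hm ⊢
    intro N hN
    exact hN.1.conj_mem m (hm N hN) g
  have hne : M ≠ ⊥ := by
    intro h
    have h1 := hpow x0
    rw [h, Subgroup.mem_bot] at h1
    exact hx0 h1
  have hcomm : ∀ a ∈ M, ∀ b ∈ M, a * b = b * a := by
    have hlt := Group.IsSolvable.commutator_lt_of_ne_bot hne
    have h1 : ⁅M, M⁆ = ⊥ := by
      by_contra h
      exact absurd (hmin _ (Subgroup.commutator_normal M M) h) (not_le_of_gt hlt)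
    intro a ha b hb
    have h2 := Subgroup.commutator_mem_commutator ha hb
    rw [h1, Subgroup.mem_bot, commutatorElement_eq_one_iff_mul_comm] at h2
    exact h2
  have hcard : Nat.card M ≠ 1 := fun h => hne (Subgroup.card_eq_one.1 h)
  obtain ⟨p, hp, hd⟩ := Nat.exists_prime_and_dvd hcard
  have hp23 : p = 2 ∨ p = 3 := h23.subgroup M p hp hd
  have : Fact p.Prime := ⟨hp⟩
  have helem : ∀ m ∈ M, m ^ p = 1 := by
    let T : Subgroup G :=
      { carrier := {a | a ∈ M ∧ a ^ p = 1}
        one_mem' := ⟨one_mem M, one_pow p⟩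
        mul_mem' := by
          rintro a b ⟨ha, ha'⟩ ⟨hb, hb'⟩
          exact ⟨mul_mem ha hb, by
            rw [(show Commute a b from hcomm a ha b hb).mul_pow, ha', hb', one_mul]⟩
        inv_mem' := by
          rintro a ⟨ha, ha'⟩
          exact ⟨inv_mem ha, by rw [inv_pow, ha', inv_one]⟩ }
    have hT : T.Normal := by
      refine ⟨fun a ha g => ?_⟩
      exact ⟨hMn.conj_mem a ha.1 g, by rw [conj_pow, ha.2, mul_one, mul_inv_cancel]⟩
    have hTne : T ≠ ⊥ := by
      obtain ⟨x, hx⟩ := exists_prime_orderOf_dvd_card' (G := M) p hd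
      intro h
      have h1 : (x : G) ∈ T := ⟨x.2, by
        have h2 := pow_orderOf_eq_one x
        rw [hx] at h2
        exact congrArg Subtype.val h2⟩
      rw [h, Subgroup.mem_bot] at h1
      have h2 : x = 1 := Subtype.ext h1
      rw [h2, orderOf_one] at hx
      exact hp.one_lt.ne hx
    intro m hm
    exact (hmin T hT hTne hm).2
  have hMp : IsPGroup p M := by
    intro a
    refine ⟨1, ?_⟩
    rw [pow_one]
    exact Subtype.ext (helem a a.2)
  have hMV : M ≤ Op p G := le_Op hMn hMp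
  refine ⟨p, M, Op p G, hp23, ⟨hMn, Op_normal p, hne, hMV, Op_isPGroup p, fun N hN hNp =>
    le_Op hN hNp, ?_, helem, hpow, hmin⟩⟩
  let C : Subgroup G :=
    { carrier := {a | a ∈ M ∧ ∀ v ∈ Op p G, a * v = v * a}
      one_mem' := ⟨one_mem M, fun v _ => by rw [one_mul, mul_one]⟩
      mul_mem' := by
        rintro a b ⟨ha, ha'⟩ ⟨hb, hb'⟩
        exact ⟨mul_mem ha hb, fun v hv => by rw [mul_assoc, hb' v hv, ← mul_assoc, ha' v hv,
          mul_assoc]⟩
      inv_mem' := by
        rintro a ⟨ha, ha'⟩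
        exact ⟨inv_mem ha, fun v hv => ((show Commute a v from ha' v hv).inv_left).eq⟩ }
  have hC : C.Normal := by
    refine ⟨fun a ha g => ⟨hMn.conj_mem a ha.1 g, fun v hv => ?_⟩⟩
    have h1 := ha.2 (g⁻¹ * v * g) (by
      have h2 := (Op_normal (G := G) p).conj_mem v hv g⁻¹
      rwa [inv_inv] at h2)
    calc g * a * g⁻¹ * v = g * (a * (g⁻¹ * v * g)) * g⁻¹ := by group
      _ = v * (g * a * g⁻¹) := by
        rw [h1]
        group
  have hCne : C ≠ ⊥ := by
    obtain ⟨m, hm, hm1, hc⟩ := MonoEx_central (Op p G) M (Op_isPGroup p) hMV hne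
    intro h
    have h1 : m ∈ C := ⟨hm, hc⟩
    rw [h, Subgroup.mem_bot] at h1
    exact hm1 h1
  intro m hm v hv
  exact (hmin C hC hCne hm).2 v hv

end Pool.Agent.MPa0c355.B12
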