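import Pool.Agent.Lib.MP_a0c355_lc.B12.Defs

/-! # Densities of quotients and subgroups -/

set_option autoImplicit false

namespace Pool.Agent.MPa0c355.B12

/-- see `hfib` in the proof of `density` in `../Density.lean` -/
theorem quot_density {G : Type*} [Group G] [Finite G] (N : Subgroup G) [N.Normal] (d : ℕ) :
    Nat.card {q : G ⧸ N // q ^ d ≠ 1} * Nat.card N ≤ Nat.card {x : G // x ^ d ≠ 1} := by
  rw [← Nat.card_prod]
  have hmk : ∀ (q : G ⧸ N) (n : N), ((q.out * (n : G) : G) : G ⧸ N) = q := by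
    intro q n
    rw [QuotientGroup.mk_mul, (QuotientGroup.eq_one_iff (n : G)).2 n.2, mul_one]
    exact Quotient.out_eq' q
  refine Nat.card_le_card_of_injective
    (fun z : {q : G ⧸ N // q ^ d ≠ 1} × N =>
      (⟨(z.1 : G ⧸ N).out * (z.2 : G), fun h => z.1.2 ?_⟩ : {x : G // x ^ d ≠ 1})) ?_
  · have h1 := congrArg (fun x : G => (x : G ⧸ N)) h
    simp only [QuotientGroup.mk_pow, QuotientGroup.mk_one] at h1
    rw [hmk] at h1
    exact h1
  · rintro ⟨⟨q, hq⟩, n⟩ ⟨⟨q', hq'⟩, n'⟩ h
    have h0 : q.out * (n : G) = q'.out * (n' : G) := congrArg Subtype.val h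
    have h1 : q = q' := by
      rw [← hmk q n, h0, hmk]
    subst h1
    have h2 : n = n' := Subtype.ext (mul_left_cancel h0)
    rw [h2]

theorem sub_density {G : Type*} [Group G] [Finite G] (L : Subgroup G) (d : ℕ) :
    Nat.card {x : L // x ^ d ≠ 1} ≤ Nat.card {x : G // x ^ d ≠ 1} := by
  refine Nat.card_le_card_of_injective
    (fun z : {x : L // x ^ d ≠ 1} =>
      (⟨((z : L) : G), fun h => z.2 (Subtype.ext ?_)⟩ : {x : G // x ^ d ≠ 1})) ?_
  · rw [SubmonoidClass.coe_pow, h]; rfl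
  · intro a b h
    have h1 : ((a : L) : G) = ((b : L) : G) := by
      simpa only [Subtype.mk.injEq] using h
    exact Subtype.ext (Subtype.ext h1)

end Pool.Agent.MPa0c355.B12
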