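import Pool.Agent.Lib.MP_a0c355_lc.B12.Three

/-! # Groups of exponent three and central extensions have bounded length -/

set_option autoImplicit false

namespace Pool.Agent.MPa0c355.B12

open scoped commutatorElement

/-- `lamp 3 V 1` is generated by commutators, `lamp 3 V 2` by commutators `⁅y, v⁆`, `y ∈ lamp 3 V 1`,
and so on; elements `y` of `V` with `⁅⁅y, v⁆, w⁆ = 1` for all `v, w` form a subgroup (the second centre),
which contains all commutators by `three_class`, etc.  (Or: `lamp 3 V i = lowerCentralSeries i` in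
exponent 3 and `lowerCentralSeries 3 = ⊥` by `three_class`.) -/
theorem BL_three (V : Type*) [Group V] (h : ∀ x : V, x ^ 3 = 1) : BL 3 V 3 := by
  have h3 : ∀ x : V, x ∈ Subgroup.upperCentralSeries V 3 := by
    intro x
    rw [Subgroup.mem_upperCentralSeries_succ_iff]
    intro g
    rw [Subgroup.mem_upperCentralSeries_succ_iff]
    intro k
    rw [Subgroup.mem_upperCentralSeries_succ_iff]
    intro l
    rw [Subgroup.upperCentralSeries_zero, Subgroup.mem_bot]
    exact three_class h x g k l
  unfold BL
  rw [eq_bot_iff]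
  refine (lamp_le_of_series (p := 3) (E := V) (fun i => Subgroup.upperCentralSeries V (3 - i))
    ?_ ?_ ?_ 3).trans ?_
  · exact eq_top_iff.2 fun x _ => h3 x
  · intro i a ha e
    show ⁅a, e⁆ ∈ Subgroup.upperCentralSeries V (3 - (i + 1))
    rcases Nat.lt_or_ge i 3 with hi | hi
    · have e1 : 3 - i = (3 - (i + 1)) + 1 := by omega
      have ha' : a ∈ Subgroup.upperCentralSeries V (3 - i) := ha
      rw [e1, Subgroup.mem_upperCentralSeries_succ_iff] at ha'
      exact ha' e
    · have ha' : a ∈ Subgroup.upperCentralSeries V (3 - i) := ha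
      rw [show 3 - i = 0 by omega, Subgroup.upperCentralSeries_zero, Subgroup.mem_bot] at ha'
      rw [ha', commutatorElement_one_left]
      exact one_mem _
  · intro i a _
    rw [h a]
    exact one_mem _
  · show Subgroup.upperCentralSeries V (3 - 3) ≤ ⊥
    rw [Nat.sub_self, Subgroup.upperCentralSeries_zero]

/-- the image of `lamp p V L` in `V ⧸ M` is in `lamp p (V ⧸ M) L = ⊥` (`lamp_map`), so
`lamp p V L ≤ M`; then `lamp_succ_le`. -/
theorem BL_ext {p : ℕ} {V : Type*} [Group V] (M : Subgroup V) [M.Normal]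
    (hc : ∀ m ∈ M, ∀ v : V, m * v = v * m) (hp : ∀ m ∈ M, m ^ p = 1) {L : ℕ}
    (h : BL p (V ⧸ M) L) : BL p V (L + 1) := by
  have hle : ∀ a ∈ lamp p V L, a ∈ M := by
    intro a ha
    have h1 := lamp_map (QuotientGroup.mk' M) L ha
    rw [show lamp p (V ⧸ M) L = ⊥ from h, Subgroup.mem_bot] at h1
    exact (QuotientGroup.eq_one_iff _).1 h1
  unfold BL
  rw [eq_bot_iff]
  refine lamp_succ_le ?_ ?_
  · intro a ha e
    rw [Subgroup.mem_bot]
    exact commutatorElement_eq_one_iff_mul_comm.2 (hc a (hle a ha) e)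
  · intro a ha
    rw [Subgroup.mem_bot]
    exact hp a (hle a ha)

end Pool.Agent.MPa0c355.B12
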