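import Pool.Agent.Lib.MP_a0c355_lc.B12.LampSer
import Pool.Agent.Lib.MP_a0c355_lc.B12.ThreeBL

/-! # The case `p = 3` -/

set_option autoImplicit false

namespace Pool.Agent.MPa0c355.B12

/-- a 3-element whose 12-th power is trivial has trivial cube -/
theorem StepThree_cube {Q : Type*} [Group Q] {x : Q} {k : ℕ} (h1 : x ^ 3 ^ k = 1)
    (h2 : x ^ 12 = 1) : x ^ 3 = 1 := by
  have o1 : orderOf x ∣ 3 ^ k := orderOf_dvd_of_pow_eq_one h1
  have o2 : orderOf x ∣ 3 * 4 := orderOf_dvd_of_pow_eq_one h2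
  have c : Nat.Coprime (orderOf x) 4 :=
    Nat.Coprime.coprime_dvd_left o1 (Nat.Coprime.pow_left k (by norm_num))
  exact orderOf_dvd_iff_pow_eq_one.1 (c.dvd_of_dvd_mul_right o2)

/-- `V / M` has exponent 3 (`x ^ d ∈ M`, so `x ^ 12 ∈ M`, and `x ∈ V` is a 3-element), so
`BL 3 (V ⧸ M') 3` by `BL_three` with `M' = M.subgroupOf V`, and `BL 3 V 4` by `BL_ext`.  As `¬ V ≤ Inv d V`
there are `t ∈ V` and `x` with `(t x)^d ≠ x^d`; `(t x)^d (x^d)⁻¹ ∈ M`, so its cube is 1.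
`density_of_BL` with `E = V`. -/
theorem step_three {d : ℕ} (hd : d ∣ 12) {G : Type*} [Group G] [Finite G] {M V : Subgroup G}
    (hm : Mono d 3 G M V) (hinv : ¬ V ≤ Inv d V) {n : ℕ} (hn : Nat.card G ≤ 2 ^ n) :
    Nat.card G ≤ 2 * (((n + 1) ^ (3 ^ 4)) ^ 2 + 1) ^ d * Nat.card {x : G // x ^ d ≠ 1} := by
  have hp3 : Fact (Nat.Prime 3) := ⟨Nat.prime_three⟩
  have hMn := hm.nM
  have hVn := hm.nV
  have hM' : (M.subgroupOf V).Normal := by
    refine ⟨fun u hu g => ?_⟩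
    rw [Subgroup.mem_subgroupOf] at hu ⊢
    exact hMn.conj_mem _ hu _
  have h3 : ∀ x : V ⧸ M.subgroupOf V, x ^ 3 = 1 := by
    intro x
    obtain ⟨v, rfl⟩ := QuotientGroup.mk_surjective x
    obtain ⟨k, hk⟩ := hm.pV v
    refine StepThree_cube (k := k) ?_ ?_
    · rw [← QuotientGroup.mk_pow, hk, QuotientGroup.mk_one]
    · obtain ⟨e, he⟩ := hd
      rw [← QuotientGroup.mk_pow, QuotientGroup.eq_one_iff, Subgroup.mem_subgroupOf,
        Subgroup.coe_pow, he, pow_mul]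
      exact pow_mem (hm.pow _) e
  have hBL : BL 3 V 4 := by
    refine BL_ext (M.subgroupOf V) ?_ ?_ (BL_three _ h3)
    · intro m hmm v
      exact Subtype.ext (hm.central _ (Subgroup.mem_subgroupOf.1 hmm) _ v.2)
    · intro m hmm
      exact Subtype.ext (hm.elem _ (Subgroup.mem_subgroupOf.1 hmm))
  obtain ⟨t, ht, htI⟩ := SetLike.not_le_iff_exists.1 hinv
  obtain ⟨x, hx⟩ : ∃ x : G, (t * x) ^ d ≠ x ^ d := by
    by_contra hc
    push Not at hc
    exact htI ⟨ht, hc⟩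
  exact density_of_BL 3 V hm.pV hBL d ht hx
    (hm.elem _ (mul_mem (hm.pow _) (inv_mem (hm.pow _)))) hn

end Pool.Agent.MPa0c355.B12
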