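import Pool.Agent.Lib.MP_a0c355_lc.B12.StepTwo
import Pool.Agent.Lib.MP_a0c355_lc.B12.StepThree
import Pool.Agent.Lib.MP_a0c355_lc.B12.MonoEx
import Pool.Agent.Lib.MP_a0c355_lc.B12.FrattStep
import Pool.Agent.Lib.MP_a0c355_lc.B12.QuotDens

/-! # The density theorem for groups of order `2^a 3^b` and `d` dividing 12 -/

set_option autoImplicit false

namespace Pool.Agent.MPa0c355.B12

/-- the bound -/
def bndB (n : ℕ) : ℕ := (3 * n ^ 19 + 1) ^ 12 * (2 * (((n + 1) ^ (2 ^ 468)) ^ 2 + 1) ^ 12)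

/-- the constant of `step_two` is at most `bndB n` -/
theorem densityB_le_two (d n e : ℕ) (hd : d ≤ 12) :
    (3 * n ^ 19) ^ 12 * (2 * (((n + 1) ^ e) ^ 2 + 1) ^ d) ≤
      (3 * n ^ 19 + 1) ^ 12 * (2 * (((n + 1) ^ e) ^ 2 + 1) ^ 12) := by
  refine Nat.mul_le_mul (Nat.pow_le_pow_left (Nat.le_succ _) 12) (Nat.mul_le_mul (le_refl 2) ?_)
  exact Nat.pow_le_pow_right (Nat.succ_pos _) hd

/-- the constant of `step_three` is at most `bndB n` -/
theorem densityB_le_three (d n e e' : ℕ) (hd : d ≤ 12) (he : e' ≤ e) :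
    2 * (((n + 1) ^ e') ^ 2 + 1) ^ d ≤
      (3 * n ^ 19 + 1) ^ 12 * (2 * (((n + 1) ^ e) ^ 2 + 1) ^ 12) := by
  have h1 : ((n + 1) ^ e') ^ 2 + 1 ≤ ((n + 1) ^ e) ^ 2 + 1 :=
    Nat.succ_le_succ (Nat.pow_le_pow_left (Nat.pow_le_pow_right (Nat.succ_pos _) he) 2)
  have h2 : (((n + 1) ^ e') ^ 2 + 1) ^ d ≤ (((n + 1) ^ e) ^ 2 + 1) ^ 12 :=
    le_trans (Nat.pow_le_pow_right (Nat.succ_pos _) hd) (Nat.pow_le_pow_left h1 12)
  have h3 : 1 ≤ (3 * n ^ 19 + 1) ^ 12 := Nat.one_le_pow _ _ (Nat.succ_pos _)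
  calc 2 * (((n + 1) ^ e') ^ 2 + 1) ^ d ≤ 2 * (((n + 1) ^ e) ^ 2 + 1) ^ 12 :=
        Nat.mul_le_mul (le_refl 2) h2
    _ = 1 * (2 * (((n + 1) ^ e) ^ 2 + 1) ^ 12) := (one_mul _).symm
    _ ≤ _ := Nat.mul_le_mul h3 (le_refl _)

/-- **Density theorem.**  Strong induction on the order.  If some normal `N ≠ ⊥` has `x ^ d ∉ N` for some
`x`, use the induction hypothesis for `G ⧸ N` and `quot_density`.  Otherwise `exists_mono`.  If
`V ≤ Inv d V`: `frattini_step` and the induction hypothesis for `L` (`|L| < |G|`; some `x ∈ L` has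
`x ^ d ≠ 1`, because the right side of the equation is positive).  Otherwise `step_two` or
`step_three`; `3 ^ 4 ≤ 2 ^ 468` and `d ≤ 12` (do not let Lean evaluate `2 ^ 468` in exponents: use
`Nat.pow_le_pow_right` and generalise it). -/
theorem densityB (d : ℕ) (hd : d ∣ 12) (N : ℕ) : ∀ (G : Type) [Group G] [Finite G],
    Nat.card G ≤ N → Is23 G → ∀ n, Nat.card G ≤ 2 ^ n → (∃ x : G, x ^ d ≠ 1) →
    Nat.card G ≤ bndB n * Nat.card {x : G // x ^ d ≠ 1} := by
  have hd12 : d ≤ 12 := Nat.le_of_dvd (by norm_num) hd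
  induction N with
  | zero =>
    intro G _ _ hG
    have h := Nat.card_pos (α := G)
    omega
  | succ N ih =>
    intro G _ _ hG h23 n hn hex
    by_cases hq : ∀ N' : Subgroup G, N'.Normal → N' ≠ ⊥ → ∀ x : G, x ^ d ∈ N'
    · obtain ⟨p, M, V, hp, hm⟩ := exists_mono h23 hex hq
      by_cases hinv : V ≤ Inv d V
      · obtain ⟨L, hL, hLeq⟩ := frattini_step hp h23 hm hinv hex
        have hLG : Nat.card L < Nat.card G := by
          refine lt_of_le_of_ne (Subgroup.card_le_card_group L) fun h => hL ?_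
          exact Subgroup.eq_top_of_card_eq L h
        have hGpos : 0 < Nat.card {x : G // x ^ d ≠ 1} := by
          obtain ⟨x, hx⟩ := hex
          have : Nonempty {x : G // x ^ d ≠ 1} := ⟨⟨x, hx⟩⟩
          exact Nat.card_pos
        have hLpos : 0 < Nat.card {x : L // x ^ d ≠ 1} := by
          rcases Nat.eq_zero_or_pos (Nat.card {x : L // x ^ d ≠ 1}) with h0 | h0
          · rw [h0, mul_zero] at hLeq
            have h1 : 0 < Nat.card L * Nat.card {x : G // x ^ d ≠ 1} :=
              Nat.mul_pos Nat.card_pos hGpos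
            omega
          · exact h0
        have hexL : ∃ x : L, x ^ d ≠ 1 := by
          have := (Nat.card_pos_iff.1 hLpos).1
          obtain ⟨x⟩ := this
          exact ⟨x.1, x.2⟩
        have h1 := ih L (by omega) (h23.subgroup L) n (le_trans hLG.le hn) hexL
        have h2 : Nat.card G * Nat.card {x : L // x ^ d ≠ 1} ≤
            (bndB n * Nat.card {x : G // x ^ d ≠ 1}) * Nat.card {x : L // x ^ d ≠ 1} := by
          rw [hLeq]
          calc Nat.card L * Nat.card {x : G // x ^ d ≠ 1} ≤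
              (bndB n * Nat.card {x : L // x ^ d ≠ 1}) * Nat.card {x : G // x ^ d ≠ 1} :=
                Nat.mul_le_mul h1 (le_refl _)
            _ = _ := by rw [mul_assoc, mul_assoc, mul_comm (Nat.card {x : L // x ^ d ≠ 1})]
        exact Nat.le_of_mul_le_mul_right h2 hLpos
      · rcases hp with rfl | rfl
        · refine le_trans (step_two hd h23 hm hinv hn) ?_
          refine Nat.mul_le_mul ?_ (le_refl _)
          exact densityB_le_two d n (2 ^ 468) hd12
        · refine le_trans (step_three hd hm hinv hn) ?_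
          refine Nat.mul_le_mul ?_ (le_refl _)
          have he : 3 ^ 4 ≤ 2 ^ 468 :=
            le_trans (by norm_num : 3 ^ 4 ≤ 2 ^ 7)
              (Nat.pow_le_pow_right (by norm_num) (by norm_num))
          exact densityB_le_three d n (2 ^ 468) (3 ^ 4) hd12 he
    · push Not at hq
      obtain ⟨N', hN', hne, x, hx⟩ := hq
      have := hN'
      have hcard : Nat.card G = Nat.card (G ⧸ N') * Nat.card N' :=
        Subgroup.card_eq_card_quotient_mul_card_subgroup N'
      have hN2 : 1 < Nat.card N' := by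
        rw [Subgroup.one_lt_card_iff_ne_bot]
        exact hne
      have hQpos : 0 < Nat.card (G ⧸ N') := Nat.card_pos
      have hlt : Nat.card (G ⧸ N') < Nat.card G := by
        rw [hcard]
        exact lt_mul_of_one_lt_right hQpos hN2
      have hexQ : ∃ y : G ⧸ N', y ^ d ≠ 1 := by
        refine ⟨(x : G ⧸ N'), fun h => hx ?_⟩
        rw [← QuotientGroup.mk_pow, QuotientGroup.eq_one_iff] at h
        exact h
      have h1 := ih (G ⧸ N') (by omega) (h23.quotient N') n (le_trans hlt.le hn) hexQ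
      have h2 := quot_density N' d
      calc Nat.card G = Nat.card (G ⧸ N') * Nat.card N' := hcard
        _ ≤ (bndB n * Nat.card {q : G ⧸ N' // q ^ d ≠ 1}) * Nat.card N' :=
            Nat.mul_le_mul h1 (le_refl _)
        _ = bndB n * (Nat.card {q : G ⧸ N' // q ^ d ≠ 1} * Nat.card N') := mul_assoc _ _ _
        _ ≤ _ := Nat.mul_le_mul (le_refl _) h2

end Pool.Agent.MPa0c355.B12
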