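import Pool.Agent.Lib.MP_a0c355_lc.PhaseB
import Pool.Agent.Lib.MP_a0c355_lc.Avg
import Pool.Agent.Lib.MP_a0c355_lc.B12.Defs

/-! # The program for `d` dividing 12

Rows of array 0: row `0` is the generating tuple, the entries of row `i + 1` are either commutators
`[u, v]` of random subproducts `u, v` of row `i` or conjugates `v h v⁻¹` of a random subproduct `h` of the
part of row `i + 1` which is already there by a random subproduct `v` of row `i`. -/

set_option autoImplicit false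

namespace Pool.Agent.MPa0c355.B12

open scoped ENNReal

/-- array length `40 (size + 2)` -/
noncomputable def KB : Polynomial ℕ := 40 * (Polynomial.X + 2)

/-- the row `i + 1` (counter 0) -/
def rn : Expr := .add (.var 0) (.const 1)

/-- random subproduct of a row of array `0`, in scratch cell `k` -/
noncomputable def subB (k : ℕ) (row : Expr) : Cmd :=
  .seq (.gone (sc k)) (.loop 2 KB (.seq (.coin 1)
    (.ite 1 (.gmul (sc k) (sc k) ⟨0, row, .var 2⟩) .skip)))

/-- the cell `tn` gets `v h v⁻¹`, `v` in scratch cell 0, `h` in scratch cell 1 -/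
def conjCmd : Cmd :=
  .seq (.ginv (sc 2) (sc 0)) (.seq (.gmul (sc 4) (sc 0) (sc 1)) (.gmul tn (sc 4) (sc 2)))

/-- one new cell, first kind: a commutator -/
noncomputable def bodyC : Cmd := .seq (subB 0 (.var 0)) (.seq (subB 1 (.var 0)) commCmd)

/-- one new cell, second kind: a conjugate -/
noncomputable def bodyD : Cmd := .seq (subB 0 (.var 0)) (.seq (subB 1 rn) conjCmd)

/-- one new cell of the next row -/
noncomputable def bodyB : Cmd := .seq (.coin 3) (.ite 3 bodyC bodyD)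

/-- one level -/
noncomputable def levelB : Cmd := .loop 1 KB bodyB

/-- phase A: compute the rows `1, …, size+1` -/
noncomputable def phaseAB : Cmd := .loop 0 Lp levelB

/-- scratch cell 6 gets the `d`-th power of the cell `a` -/
def powCmd (a : Addr) : ℕ → Cmd
  | 0 => .gone (sc 6)
  | d + 1 => .seq (powCmd a d) (.gmul (sc 6) (sc 6) a)

/-- test `x^d = 1` -/
def testP (d : ℕ) (a : Addr) : Cmd := .seq (powCmd a d) (testCmd (sc 6))

/-- phase B: deterministic tests -/
noncomputable def phaseBB (d : ℕ) : Cmd :=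
  .seq (.set 0 true) (.seq (.loop 0 Rp (.loop 1 KB (testP d tc)))
    (.loop 1 KB (testCmd ⟨0, .add .size (.const 1), .var 1⟩)))

/-- scratch cell 8 gets `t ^ e`, `t` the content of `tc`, `e` a random number with `Rb(size)` bits -/
noncomputable def powRand (Rb : Polynomial ℕ) : Cmd :=
  .seq (.gone (sc 8)) (.loop 2 Rb (.seq (.gmul (sc 8) (sc 8) (sc 8))
    (.seq (.coin 1) (.ite 1 (.gmul (sc 8) (sc 8) tc) .skip))))

/-- one factor of the random element -/
noncomputable def stepB (Rb : Polynomial ℕ) : Cmd := .seq (powRand Rb) (.gmul (sc 7) (sc 7) (sc 8))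

/-- a random element in scratch cell 7 -/
noncomputable def sampleB (Rb : Polynomial ℕ) : Cmd := .loop 0 Lp (.loop 1 KB (stepB Rb))

/-- phase C: `Np` random elements are tested -/
noncomputable def phaseCB (d : ℕ) (Rb Np : Polynomial ℕ) : Cmd :=
  .loop 3 Np (.seq (.gone (sc 7)) (.seq (sampleB Rb) (testP d (sc 7))))

/-- the whole program -/
noncomputable def progB (d : ℕ) (Rb Np : Polynomial ℕ) : Cmd :=
  .seq phaseAB (.seq (phaseBB d) (phaseCB d Rb Np))

theorem KB_eval (N : ℕ) : KB.eval N = 40 * (N + 2) := by simp [KB]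

variable {G : Type} [Group G] {N : ℕ}

/-- the subgroup generated by a row -/
def gen (N : ℕ) (r : ℕ → G) : Subgroup G := Subgroup.closure {g | ∃ a < 40 * (N + 2), g = r a}

/-- `τ` agrees with `σ` on array 0 outside the cell `tn`, and on the counters 0 and 1. -/
structure FrB (σ τ : St G) : Prop where
  mem : ∀ i j, ¬(i = σ.nv 0 + 1 ∧ j = σ.nv 1) → τ.mem 0 i j = σ.mem 0 i j
  nv : ∀ x, x ≠ 2 → τ.nv x = σ.nv x

open Classical in
/-- **random subproduct rule**, row length `40 (N + 2)`: a copy of `sub_rule` of `../Prog.lean` with `8`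
replaced by `40`. -/
theorem sub_ruleB (k : ℕ) (row : Expr) (hrow : RowOK row) (Hs Hb : Subgroup G) (c1 c2 : ℝ≥0∞)
    (hc : c2 ≤ c1) (σ : St G)
    (hb : ∀ a < 40 * (N + 2), σ.mem 0 (row.eval N σ.nv) a ∈ Hb) (f : St G → ℝ≥0∞)
    (hf : ∀ τ, Fr k σ τ → τ.mem 1 0 k ∈ Hb → f τ ≤ if τ.mem 1 0 k ∈ Hs then c1 else c2) :
    W N (subB k row) f σ ≤
      if ∃ a < 40 * (N + 2), σ.mem 0 (row.eval N σ.nv) a ∉ Hs then (c1 + c2) / 2 else c1 := by
  rw [subB, W_seq, W_gone]
  set K := 40 * (N + 2) with hK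
  set t : ℕ → G := fun a => σ.mem 0 (row.eval N σ.nv) a with ht
  let Φ : ℕ → St G → ℝ≥0∞ := fun a τ =>
    if Fr k σ τ ∧ τ.mem 1 0 k ∈ Hb then
      (if ∃ a', a ≤ a' ∧ a' < K ∧ t a' ∉ Hs then (c1 + c2) / 2 else
        (if τ.mem 1 0 k ∈ Hs then c1 else c2)) else ⊤
  have hhalf : ∀ c : ℝ≥0∞, (c + c) / 2 = c := by
    intro c
    rw [← two_mul, mul_comm, ENNReal.mul_div_cancel_right (by norm_num) (by norm_num)]
  have key := W_loop_le (N := N) 2 KB (.seq (.coin 1)
    (.ite 1 (.gmul (sc k) (sc k) ⟨0, row, .var 2⟩) .skip)) Φ f ?_ ?_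
    (σ.put N (sc k) 1).tick
  · refine key.trans ?_
    have h0 : Fr k σ (σ.put N (sc k) 1).tick := by
      constructor
      · intro p i j h
        simp only [St.put, St.tick, sc, Expr.eval]
        rw [if_neg h]
      · intro x _; rfl
    have h1 : (σ.put N (sc k) 1).tick.mem 1 0 k = 1 := by
      simp [St.put, St.tick, sc, Expr.eval]
    simp only [Φ]
    rw [if_pos ⟨h0, by rw [h1]; exact one_mem _⟩, h1, if_pos (one_mem Hs)]
    simp only [Nat.zero_le, true_and]
    exact le_rfl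
  · intro τ
    simp only [Φ, KB_eval]
    split_ifs with h1 h2 h3
    · obtain ⟨a', ha, hb', _⟩ := h2
      omega
    · have := hf τ h1.1 h1.2
      rwa [if_pos h3] at this
    · have := hf τ h1.1 h1.2
      rwa [if_neg h3] at this
    · exact le_top
  · intro a ha τ
    rw [KB_eval] at ha
    by_cases hτ : Fr k σ τ ∧ τ.mem 1 0 k ∈ Hb
    swap
    · have : Φ a τ = ⊤ := by simp only [Φ]; rw [if_neg hτ]
      rw [this]; exact le_top
    obtain ⟨hτ1, hτ2⟩ := hτ
    set τ0 := (τ.setn 2 a).tick with hτ0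
    have hm0 : τ0.mem = τ.mem := rfl
    have hn0 : ∀ x, x ≠ 2 → τ0.nv x = σ.nv x := by
      intro x hx
      rw [← hτ1.nv x hx]
      simp [τ0, St.setn, St.tick, Function.update_of_ne hx]
    have hval : τ0.get N ⟨0, row, .var 2⟩ = t a := by
      simp only [St.get, Expr.eval, ht]
      rw [hrow N σ.nv τ0.nv hn0, hm0]
      have : τ0.nv 2 = a := by simp [τ0, St.setn, St.tick]
      rw [this]
      exact hτ1.mem _ _ _ (by simp)
    have hFr : ∀ τ' : St G, (∀ p i j, ¬(p = 1 ∧ i = 0 ∧ j = k) → τ'.mem p i j = τ.mem p i j) →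
        τ'.nv = τ0.nv → Fr k σ τ' := by
      intro τ' h1 h2
      refine ⟨fun p i j h => (h1 p i j h).trans (hτ1.mem p i j h), fun x hx => ?_⟩
      rw [h2]; exact hn0 x hx
    have hta : t a ∈ Hb := hb a ha
    have hA : ∀ τ' : St G, τ'.mem = wr τ0.mem k (τ0.mem 1 0 k * τ0.get N ⟨0, row, .var 2⟩) →
        τ'.nv = τ0.nv → Fr k σ τ' ∧ τ'.mem 1 0 k = τ.mem 1 0 k * t a := by
      intro τ' h1 h2
      refine ⟨hFr τ' (fun p i j h => by rw [h1, wr_ne _ _ _ h, hm0]) h2, ?_⟩
      rw [h1, wr_self, hval, hm0]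
    have hB : ∀ τ' : St G, τ'.mem = τ0.mem → τ'.nv = τ0.nv → Fr k σ τ' ∧
        τ'.mem 1 0 k = τ.mem 1 0 k := by
      intro τ' h1 h2
      refine ⟨hFr τ' (fun p i j _ => by rw [h1, hm0]) h2, by rw [h1, hm0]⟩
    have hΦa : Φ a τ = (if ∃ a', a ≤ a' ∧ a' < K ∧ t a' ∉ Hs then (c1 + c2) / 2 else
        (if τ.mem 1 0 k ∈ Hs then c1 else c2)) := by
      simp only [Φ]; rw [if_pos ⟨hτ1, hτ2⟩]
    by_cases hlater : ∃ a', a + 1 ≤ a' ∧ a' < K ∧ t a' ∉ Hs
    · -- a bad element comes later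
      have hthis : ∃ a', a ≤ a' ∧ a' < K ∧ t a' ∉ Hs := by
        obtain ⟨a', h1, h2, h3⟩ := hlater
        exact ⟨a', by omega, h2, h3⟩
      rw [hΦa, if_pos hthis]
      refine (W_coin_mul k _ _ τ0 ((c1 + c2) / 2) ((c1 + c2) / 2) ?_ ?_).trans (hhalf _).le
      · intro τ' h1 h2 _
        obtain ⟨h3, h4⟩ := hA τ' h1 h2
        simp only [Φ]
        rw [if_pos ⟨h3, by rw [h4]; exact mul_mem hτ2 hta⟩, if_pos hlater]
      · intro τ' h1 h2 _
        obtain ⟨h3, h4⟩ := hB τ' h1 h2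
        simp only [Φ]
        rw [if_pos ⟨h3, by rw [h4]; exact hτ2⟩, if_pos hlater]
    · have hval1 : ∀ τ' : St G, τ'.mem = wr τ0.mem k (τ0.mem 1 0 k * τ0.get N ⟨0, row, .var 2⟩) →
          τ'.nv = τ0.nv → τ'.bv 0 = τ0.bv 0 → Φ (a+1) τ' ≤ if τ.mem 1 0 k * t a ∈ Hs then c1 else c2 := by
        intro τ' h1 h2 _
        obtain ⟨h3, h4⟩ := hA τ' h1 h2
        simp only [Φ]
        rw [if_pos ⟨h3, by rw [h4]; exact mul_mem hτ2 hta⟩, if_neg hlater, h4]
      have hval2 : ∀ τ' : St G, τ'.mem = τ0.mem → τ'.nv = τ0.nv → τ'.bv 0 = τ0.bv 0 →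
          Φ (a+1) τ' ≤ if τ.mem 1 0 k ∈ Hs then c1 else c2 := by
        intro τ' h1 h2 _
        obtain ⟨h3, h4⟩ := hB τ' h1 h2
        simp only [Φ]
        rw [if_pos ⟨h3, by rw [h4]; exact hτ2⟩, if_neg hlater, h4]
      refine (W_coin_mul k _ _ τ0 _ _ hval1 hval2).trans ?_
      rw [hΦa]
      by_cases hbad : t a ∈ Hs
      · have hno : ¬ ∃ a', a ≤ a' ∧ a' < K ∧ t a' ∉ Hs := by
          rintro ⟨a', h1, h2, h3⟩
          rcases Nat.eq_or_lt_of_le h1 with rfl | h
          · exact h3 hbad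
          · exact hlater ⟨a', h, h2, h3⟩
        rw [if_neg hno]
        have : τ.mem 1 0 k * t a ∈ Hs ↔ τ.mem 1 0 k ∈ Hs := Subgroup.mul_mem_cancel_right Hs hbad
        simp only [this]
        exact (hhalf _).le
      · have hyes : ∃ a', a ≤ a' ∧ a' < K ∧ t a' ∉ Hs := ⟨a, le_rfl, ha, hbad⟩
        rw [if_pos hyes]
        by_cases h1 : τ.mem 1 0 k ∈ Hs
        · have h2 : τ.mem 1 0 k * t a ∉ Hs := fun h => hbad ((Subgroup.mul_mem_cancel_left Hs h1).1 h)
          rw [if_neg h2, if_pos h1, add_comm]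
        · rw [if_neg h1]
          refine ENNReal.div_le_div_right (add_le_add ?_ le_rfl) 2
          split_ifs
          · exact le_rfl
          · exact hc

theorem rowOK_rn : RowOK rn := by
  intro N nv nv' h
  simp only [rn, Expr.eval]
  rw [h 0 (by norm_num)]

end Pool.Agent.MPa0c355.B12
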