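import Pool.Agent.Lib.MP_a0c355_lc.B12.FitA
import Pool.Agent.Lib.MP_a0c355_lc.B12.ProgB

/-! # The derived series of a finite group -/

set_option autoImplicit false

namespace Pool.Agent.MPa0c355.B12

open scoped commutatorElement

variable {G : Type} [Group G] {N : ℕ}

/-- every step before the series reaches `⊥` at least halves the order (see `Ga_eq_bot` in
`../Grp.lean`) -/
theorem derived_bot [Finite G] (hs : IsSolvable G) (hN : Nat.card G ≤ 2 ^ N) :
    derivedSeries G N = ⊥ := by
  have hs' : Group.IsSolvable G := hs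
  have key : ∀ i : ℕ, derivedSeries G i = ⊥ ∨ Nat.card (derivedSeries G i) * 2 ^ i ≤ 2 ^ N := by
    intro i
    induction i with
    | zero =>
      right
      rw [pow_zero, mul_one]
      exact le_trans (Subgroup.card_le_card_group _) hN
    | succ i ih =>
      rcases ih with h | h
      · left
        rw [derivedSeries_succ, h]
        exact Subgroup.commutator_bot_left _
      · by_cases hb : derivedSeries G i = ⊥
        · left
          rw [derivedSeries_succ, hb]
          exact Subgroup.commutator_bot_left _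
        · right
          have hlt : derivedSeries G (i + 1) < derivedSeries G i :=
            Group.IsSolvable.commutator_lt_of_ne_bot hb
          obtain ⟨k, hk⟩ := Subgroup.card_dvd_of_le hlt.le
          have hpos : 0 < Nat.card (derivedSeries G i) := Nat.card_pos
          have hk2 : 2 ≤ k := by
            by_contra hcon
            have hk1 : k = 0 ∨ k = 1 := by omega
            rcases hk1 with rfl | rfl
            · rw [mul_zero] at hk
              omega
            · rw [mul_one] at hk
              exact hlt.ne (Subgroup.eq_of_le_of_card_ge hlt.le hk.le)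
          calc Nat.card (derivedSeries G (i + 1)) * 2 ^ (i + 1)
              = (Nat.card (derivedSeries G (i + 1)) * 2) * 2 ^ i := by ring
            _ ≤ (Nat.card (derivedSeries G (i + 1)) * k) * 2 ^ i :=
                Nat.mul_le_mul (Nat.mul_le_mul (le_refl _) hk2) (le_refl _)
            _ = Nat.card (derivedSeries G i) * 2 ^ i := by rw [← hk]
            _ ≤ 2 ^ N := h
  rcases key N with h | h
  · exact h
  · have h2 : 0 < 2 ^ N := Nat.pos_of_ne_zero (by positivity)
    have h1 : Nat.card (derivedSeries G N) ≤ 1 := by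
      by_contra hcon
      have h3 : 2 * 2 ^ N ≤ Nat.card (derivedSeries G N) * 2 ^ N :=
        Nat.mul_le_mul (by omega) (le_refl _)
      omega
    have h3 : Nat.card (derivedSeries G N) = 1 := le_antisymm h1 Nat.card_pos
    exact Subgroup.card_eq_one.1 h3

/-- a prime dividing `|G|` is the order of an element; it divides `d` -/
theorem Is23_of_pow [Finite G] {d : ℕ} (hd : d ∣ 12) (h : ∀ x : G, x ^ d = 1) : Is23 G := by
  intro q hq hdvd
  have : Fact q.Prime := ⟨hq⟩
  obtain ⟨x, hx⟩ := exists_prime_orderOf_dvd_card' q hdvd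
  have h1 : q ∣ d := by
    rw [← hx]
    exact orderOf_dvd_of_pow_eq_one (h x)
  have h2 : q ∣ 2 * 2 * 3 := h1.trans hd
  rcases (Nat.Prime.dvd_mul hq).1 h2 with h3 | h3
  · left
    rcases (Nat.Prime.dvd_mul hq).1 h3 with h4 | h4
    · exact (Nat.prime_dvd_prime_iff_eq hq Nat.prime_two).1 h4
    · exact (Nat.prime_dvd_prime_iff_eq hq Nat.prime_two).1 h4
  · right
    exact (Nat.prime_dvd_prime_iff_eq hq Nat.prime_three).1 h3

/-- one step of the derived series -/
theorem Derived_step [Finite G] {d : ℕ} (hd : d ∣ 12) (i : ℕ) (S : Set G)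
    (hgen : Subgroup.closure S = derivedSeries G i) (hpow : ∀ g ∈ S, g ^ d = 1)
    (h23 : Is23 (derivedSeries G (i + 1))) : Is23 (derivedSeries G i) := by
  obtain ⟨K, hK⟩ : ∃ K : Subgroup (derivedSeries G i),
      K = (derivedSeries G (i + 1)).subgroupOf (derivedSeries G i) := ⟨_, rfl⟩
  have hKn : K.Normal := by
    rw [hK]
    infer_instance
  have hle : derivedSeries G (i + 1) ≤ derivedSeries G i :=
    derivedSeries_antitone G (Nat.le_succ i)
  have hcomm : ∀ a b : derivedSeries G i ⧸ K, a * b = b * a := by
    intro a b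
    obtain ⟨x, rfl⟩ := QuotientGroup.mk'_surjective K a
    obtain ⟨y, rfl⟩ := QuotientGroup.mk'_surjective K b
    rw [← map_mul, ← map_mul]
    refine (QuotientGroup.eq).2 ?_
    rw [hK, Subgroup.mem_subgroupOf]
    have h1 : ⁅(y : G)⁻¹, (x : G)⁻¹⁆ ∈ derivedSeries G (i + 1) :=
      Subgroup.commutator_mem_commutator (Subgroup.inv_mem _ y.2) (Subgroup.inv_mem _ x.2)
    have h2 : (((x * y)⁻¹ * (y * x) : derivedSeries G i) : G) = ⁅(y : G)⁻¹, (x : G)⁻¹⁆ := by
      rw [commutatorElement_def]
      simp [mul_assoc]
    rw [h2]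
    exact h1
  let T : Subgroup (derivedSeries G i ⧸ K) :=
    { carrier := {y | y ^ d = 1}
      one_mem' := one_pow d
      mul_mem' := by
        intro a b ha hb
        show (a * b) ^ d = 1
        rw [(show Commute a b from hcomm a b).mul_pow, show a ^ d = 1 from ha,
          show b ^ d = 1 from hb, one_mul]
      inv_mem' := by
        intro a ha
        show a⁻¹ ^ d = 1
        rw [inv_pow, show a ^ d = 1 from ha, inv_one] }
  have hT : Subgroup.closure S ≤
      (T.comap (QuotientGroup.mk' K)).map (derivedSeries G i).subtype := by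
    rw [Subgroup.closure_le]
    intro g hg
    have hgD : g ∈ derivedSeries G i := by
      rw [← hgen]
      exact Subgroup.subset_closure hg
    refine Subgroup.mem_map.2 ⟨⟨g, hgD⟩, ?_, rfl⟩
    show (QuotientGroup.mk' K ⟨g, hgD⟩) ^ d = 1
    rw [← map_pow]
    have h1 : (⟨g, hgD⟩ : derivedSeries G i) ^ d = 1 := Subtype.ext (hpow g hg)
    rw [h1, map_one]
  have hall : ∀ y : derivedSeries G i ⧸ K, y ^ d = 1 := by
    intro y
    obtain ⟨x, rfl⟩ := QuotientGroup.mk'_surjective K y
    obtain ⟨z, hz, hzx⟩ := Subgroup.mem_map.1 (hT (hgen.ge x.2))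
    have h1 : z = x := Subtype.ext hzx
    rw [h1] at hz
    exact hz
  have hQ : Is23 (derivedSeries G i ⧸ K) := Is23_of_pow hd hall
  intro q hq hdvd
  rw [Subgroup.card_eq_card_quotient_mul_card_subgroup K] at hdvd
  rcases (Nat.Prime.dvd_mul hq).1 hdvd with h | h
  · exact hQ q hq h
  · refine h23 q hq ?_
    have h1 : Nat.card K = Nat.card (derivedSeries G (i + 1)) := by
      rw [hK]
      exact Nat.card_congr (Subgroup.subgroupOfEquivOfLe hle).toEquiv
    rw [← h1]
    exact h

/-- `|G| = ∏ |D_i / D_(i+1)|`; the quotient `D_i / D_(i+1)` is abelian and generated by elements whose order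
divides 12, so its exponent divides 12. -/
theorem Is23_of_rows [Finite G] {d : ℕ} (hd : d ∣ 12) (r : ℕ → ℕ → G)
    (hgen : ∀ i ≤ N, gen N (r i) = derivedSeries G i) (hbot : derivedSeries G (N + 1) = ⊥)
    (hpow : ∀ i ≤ N, ∀ j < 40 * (N + 2), (r i j) ^ d = 1) : Is23 G := by
  have key : ∀ k : ℕ, k ≤ N + 1 → Is23 (derivedSeries G (N + 1 - k)) := by
    intro k
    induction k with
    | zero =>
      intro _ q hq hdvd
      rw [Nat.sub_zero, hbot, Subgroup.card_bot] at hdvd
      exact absurd (Nat.dvd_one.1 hdvd) hq.one_lt.ne'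
    | succ k ih =>
      intro hk
      have h1 := ih (by omega)
      have e : N + 1 - k = (N + 1 - (k + 1)) + 1 := by omega
      rw [e] at h1
      refine Derived_step hd (N + 1 - (k + 1)) {g | ∃ a < 40 * (N + 2), g = r (N + 1 - (k + 1)) a}
        (hgen _ (by omega)) ?_ h1
      rintro g ⟨a, ha, rfl⟩
      exact hpow _ (by omega) a ha
  have h0 := key (N + 1) (le_refl _)
  rw [Nat.sub_self, derivedSeries_zero] at h0
  intro q hq hdvd
  refine h0 q hq ?_
  rw [Subgroup.card_top]
  exact hdvd

end Pool.Agent.MPa0c355.B12
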