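import Pool.Agent.Lib.MP_a0c355_lc.B12.Defs

/-! # The filtration of `F_p[T]` attached to an `N_p`-series: the step

The general `p` version of `../Filt.lean` (there `p = 2`). -/

set_option autoImplicit false

namespace Pool.Agent.MPa0c355.B12

open MonoidAlgebra

variable {T : Type*} [Group T]

/-- the difference `y - 1` in the group algebra. -/
noncomputable def ddp (p : ℕ) (y : T) : MonoidAlgebra (ZMod p) T := single y 1 - 1

/-- the filtration -/
noncomputable def KKp (p : ℕ) (P : ℕ → Subgroup T) (H : Subgroup T) (a : ℕ) :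
    Submodule (ZMod p) (MonoidAlgebra (ZMod p) T) :=
  Submodule.span (ZMod p) {u | ∃ l : List (T × ℕ), (∀ q ∈ l, q.1 ∈ H ∧ q.1 ∈ P q.2) ∧
    a ≤ (l.map Prod.snd).sum ∧ u = (l.map fun q => ddp p q.1).prod}

theorem FiltP_anti (p : ℕ) (P : ℕ → Subgroup T) (H : Subgroup T) {a b : ℕ} (h : a ≤ b) :
    KKp p P H b ≤ KKp p P H a := by
  refine Submodule.span_mono ?_
  rintro u ⟨l, h1, h2, h3⟩
  exact ⟨l, h1, h.trans h2, h3⟩

theorem FiltP_mul_mem (p : ℕ) (P : ℕ → Subgroup T) (H : Subgroup T) {a v : ℕ} {y : T}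
    (hy : y ∈ H) (hv : y ∈ P v) {k : MonoidAlgebra (ZMod p) T} (hk : k ∈ KKp p P H a) :
    ddp p y * k ∈ KKp p P H (a + v) := by
  induction hk using Submodule.span_induction with
  | mem u hu =>
    obtain ⟨l, h1, h2, rfl⟩ := hu
    refine Submodule.subset_span ⟨(y, v) :: l, ?_, ?_, ?_⟩
    · intro q hq
      rcases List.mem_cons.1 hq with rfl | hq
      · exact ⟨hy, hv⟩
      · exact h1 q hq
    · simp only [List.map_cons, List.sum_cons]; omega
    · simp
  | zero => simp
  | add u v _ _ h1 h2 => rw [mul_add]; exact add_mem h1 h2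
  | smul c u _ h => rw [mul_smul_comm]; exact Submodule.smul_mem _ _ h

theorem FiltP_coeff_single (p : ℕ) (y g : T) (k : MonoidAlgebra (ZMod p) T) :
    (single y 1 * k).coeff g = k.coeff (y⁻¹ * g) := by
  rw [coeff_single_mul_apply, one_mul]

theorem FiltP_coeff_ddp (p : ℕ) (y g : T) (k : MonoidAlgebra (ZMod p) T) :
    (ddp p y * k).coeff g = k.coeff (y⁻¹ * g) - k.coeff g := by
  rw [ddp, sub_mul, one_mul, coeff_sub, Finsupp.sub_apply, FiltP_coeff_single]

/-- elements of `KKp P H a` are supported on `H`. -/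
theorem KKp_supp (p : ℕ) (P : ℕ → Subgroup T) (H : Subgroup T) {a : ℕ}
    {k : MonoidAlgebra (ZMod p) T} (hk : k ∈ KKp p P H a) {g : T} (hg : g ∉ H) :
    k.coeff g = 0 := by
  induction hk using Submodule.span_induction with
  | mem u hu =>
    obtain ⟨l, h1, -, rfl⟩ := hu
    induction l generalizing g with
    | nil =>
      have : g ≠ 1 := fun h => hg (h ▸ one_mem H)
      simp only [List.map_nil, List.prod_nil]
      rw [MonoidAlgebra.one_def, coeff_single]
      exact Finsupp.single_eq_of_ne this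
    | cons q l ih =>
      simp only [List.map_cons, List.prod_cons]
      have h2 := ih hg (fun r hr => h1 r (List.mem_cons_of_mem _ hr))
      have h3 := ih (g := q.1⁻¹ * g)
        (fun h => hg (by
          have := mul_mem (h1 q List.mem_cons_self).1 h
          rwa [mul_inv_cancel_left] at this)) (fun r hr => h1 r (List.mem_cons_of_mem _ hr))
      rw [FiltP_coeff_ddp, h2, h3, sub_zero]
  | zero => rfl
  | add u v _ _ h1 h2 => rw [coeff_add, Finsupp.add_apply, h1, h2, add_zero]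
  | smul c u _ h => rw [coeff_smul, Finsupp.smul_apply, h, smul_zero]

theorem KKp_single_mul_mem (p : ℕ) (P : ℕ → Subgroup T) (hP0 : P 0 = ⊤) (H : Subgroup T) {a : ℕ}
    {y : T} (hy : y ∈ H) {k : MonoidAlgebra (ZMod p) T} (hk : k ∈ KKp p P H a) :
    single y 1 * k ∈ KKp p P H a := by
  have h := FiltP_mul_mem p P H hy (v := 0) (by rw [hP0]; trivial) hk
  have e : single y 1 * k = ddp p y * k + k := by rw [ddp, sub_mul, one_mul, sub_add_cancel]
  rw [e]; exact add_mem h hk

/-- The sums `∑_{i < N} (e - 1)^i κ i` with `κ i ∈ KKp P H₁ (a - i w)`. -/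
noncomputable def FiltP_W (p : ℕ) (P : ℕ → Subgroup T) (H₁ : Subgroup T) (e : T) (w N a : ℕ) :
    Submodule (ZMod p) (MonoidAlgebra (ZMod p) T) where
  carrier := {k | ∃ κ : ℕ → MonoidAlgebra (ZMod p) T, (∀ i, κ i ∈ KKp p P H₁ (a - i * w)) ∧
    k = ∑ i ∈ Finset.range N, ddp p e ^ i * κ i}
  zero_mem' := ⟨0, fun i => zero_mem _, by simp⟩
  add_mem' := by
    rintro _ _ ⟨κ, hκ, rfl⟩ ⟨κ', hκ', rfl⟩
    refine ⟨κ + κ', fun i => add_mem (hκ i) (hκ' i), ?_⟩
    simp only [Pi.add_apply, mul_add, Finset.sum_add_distrib]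
  smul_mem' := by
    rintro c _ ⟨κ, hκ, rfl⟩
    refine ⟨c • κ, fun i => Submodule.smul_mem _ c (hκ i), ?_⟩
    simp only [Pi.smul_apply, mul_smul_comm, Finset.smul_sum]

section W

variable {p : ℕ} {P : ℕ → Subgroup T} {H₁ : Subgroup T} {e : T} {w : ℕ}

theorem FiltP_W_of {N a i : ℕ} (hi : i < N) {u : MonoidAlgebra (ZMod p) T}
    (hu : u ∈ KKp p P H₁ (a - i * w)) : ddp p e ^ i * u ∈ FiltP_W p P H₁ e w N a := by
  classical
  refine ⟨fun j => if j = i then u else 0, fun j => ?_, ?_⟩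
  · by_cases h : j = i
    · subst h
      simpa using! hu
    · simp only [if_neg h]
      exact zero_mem _
  · rw [Finset.sum_eq_single i]
    · simp
    · intro j _ hj
      simp only [if_neg hj, mul_zero]
    · intro h
      exact absurd (Finset.mem_range.2 hi) h

/-- To multiply all elements of `W` from the left it is enough to treat the single terms. -/
theorem FiltP_W_ind {N a : ℕ} (x : MonoidAlgebra (ZMod p) T)
    (V : Submodule (ZMod p) (MonoidAlgebra (ZMod p) T))
    (h : ∀ i < N, ∀ u ∈ KKp p P H₁ (a - i * w), x * (ddp p e ^ i * u) ∈ V) :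
    ∀ k ∈ FiltP_W p P H₁ e w N a, x * k ∈ V := by
  rintro _ ⟨κ, hκ, rfl⟩
  rw [Finset.mul_sum]
  exact Submodule.sum_mem _ fun i hi => h i (Finset.mem_range.1 hi) _ (hκ i)

theorem FiltP_W_anti {N a b : ℕ} (h : a ≤ b) :
    FiltP_W p P H₁ e w N b ≤ FiltP_W p P H₁ e w N a := by
  rintro _ ⟨κ, hκ, rfl⟩
  exact ⟨κ, fun i => FiltP_anti p P H₁ (Nat.sub_le_sub_right h _) (hκ i), rfl⟩

theorem FiltP_W_mono {N M a : ℕ} (h : N ≤ M) :
    FiltP_W p P H₁ e w N a ≤ FiltP_W p P H₁ e w M a := by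
  intro k hk
  have h1 := FiltP_W_ind (1 : MonoidAlgebra (ZMod p) T) (FiltP_W p P H₁ e w M a) (fun i hi u hu => by
    rw [one_mul]
    exact FiltP_W_of (hi.trans_le h) hu) k hk
  rwa [one_mul] at h1

theorem FiltP_W_D {N a : ℕ} {k : MonoidAlgebra (ZMod p) T} (hk : k ∈ FiltP_W p P H₁ e w N a) :
    ddp p e * k ∈ FiltP_W p P H₁ e w (N + 1) (a + w) := by
  refine FiltP_W_ind (ddp p e) _ (fun i hi u hu => ?_) k hk
  rw [← mul_assoc, ← pow_succ']
  refine FiltP_W_of (Nat.succ_lt_succ hi) ?_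
  have h1 : a + w - (i + 1) * w = a - i * w := by
    rw [Nat.succ_mul, Nat.add_sub_add_right]
  rwa [h1]

/-- multiplication by `y - 1`, `y ∈ H₁` -/
theorem FiltP_W_A
    (hcomm : ∀ i j x y, x ∈ P i → y ∈ P j → x⁻¹ * y⁻¹ * x * y ∈ P (i+j))
    (hnorm : ∀ y ∈ H₁, e⁻¹ * y * e ∈ H₁) (hew : e ∈ P w) (N : ℕ) :
    ∀ (v : ℕ) (y : T), y ∈ H₁ → y ∈ P v → ∀ (a : ℕ) (k : MonoidAlgebra (ZMod p) T),
      k ∈ FiltP_W p P H₁ e w N a → ddp p y * k ∈ FiltP_W p P H₁ e w N (a + v) := by
  induction N with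
  | zero =>
    rintro v y _ _ a _ ⟨κ, -, rfl⟩
    rw [Finset.range_zero, Finset.sum_empty, mul_zero]
    exact zero_mem _
  | succ N ih =>
    intro v y hy hyv a k hk
    refine FiltP_W_ind (ddp p y) _ (fun i hi u hu => ?_) k hk
    rcases Nat.lt_succ_iff_lt_or_eq.1 hi with hiN | rfl
    · exact FiltP_W_mono (Nat.le_succ N) (ih v y hy hyv a _ (FiltP_W_of hiN hu))
    rcases i with _ | M
    · have h1 : ddp p y * u ∈ KKp p P H₁ (a + v - 0 * w) := by
        rw [Nat.zero_mul, Nat.sub_zero]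
        rw [Nat.zero_mul, Nat.sub_zero] at hu
        exact FiltP_mul_mem p P H₁ hy hyv hu
      have h2 := FiltP_W_of (p := p) (P := P) (H₁ := H₁) (e := e) (w := w) hi h1
      rw [pow_zero, one_mul] at h2
      rw [pow_zero, one_mul]
      exact h2
    · -- the induction hypothesis for `D^M u`
      obtain ⟨c, hc⟩ : ∃ c : T, c = y⁻¹ * e⁻¹ * y * e := ⟨_, rfl⟩
      have hc1 : c ∈ P (v + w) := by
        rw [hc]
        exact hcomm v w y e hyv hew
      have hc2 : c ∈ H₁ := by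
        have h3 : c = y⁻¹ * (e⁻¹ * y * e) := by rw [hc]; simp only [mul_assoc]
        rw [h3]
        exact mul_mem (inv_mem hy) (hnorm y hy)
      obtain ⟨z, hz⟩ : ∃ z, z = ddp p e ^ M * u := ⟨_, rfl⟩
      have hzW : z ∈ FiltP_W p P H₁ e w (M + 1) (a - w) := by
        rw [hz]
        refine FiltP_W_of (Nat.lt_succ_self M) ?_
        have h3 : a - w - M * w = a - (M + 1) * w := by
          rw [Nat.sub_sub, Nat.succ_mul, Nat.add_comm w]
        rwa [h3]
      have hid : ddp p y * (ddp p e ^ (M + 1) * u) = ddp p e * (ddp p y * z) +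
          (ddp p c * z + ddp p y * (ddp p c * z) +
            ddp p e * (ddp p c * z + ddp p y * (ddp p c * z))) := by
        have h1 : (single e 1 * single y 1 * single c 1 : MonoidAlgebra (ZMod p) T)
            = single y 1 * single e 1 := by
          simp only [single_mul_single, mul_one]
          congr 1
          rw [hc]; group
        have h2 : ddp p e ^ (M + 1) * u = ddp p e * z := by
          rw [hz, ← mul_assoc, ← pow_succ']
        rw [h2]
        simp only [ddp]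
        have e1 : (single y 1 - 1) * ((single e 1 - 1) * z)
            = (single y 1 * single e 1) * z - single y 1 * z - single e 1 * z + z := by
          noncomm_ring
        have e2 : (single e 1 - 1) * ((single y 1 - 1) * z) +
            ((single c 1 - 1) * z + (single y 1 - 1) * ((single c 1 - 1) * z) +
              (single e 1 - 1) * ((single c 1 - 1) * z + (single y 1 - 1) * ((single c 1 - 1) * z)))
            = (single e 1 * single y 1 * single c 1) * z - single y 1 * z - single e 1 * z + z := by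
          noncomm_ring
        rw [e1, e2, h1]
      have h1 : ddp p y * z ∈ FiltP_W p P H₁ e w (M + 1) (a - w + v) := ih v y hy hyv _ _ hzW
      have h2 : ddp p e * (ddp p y * z) ∈ FiltP_W p P H₁ e w (M + 1 + 1) (a + v) :=
        FiltP_W_anti (by omega) (FiltP_W_D h1)
      have h3 : ddp p c * z ∈ FiltP_W p P H₁ e w (M + 1) (a + v) :=
        FiltP_W_anti (by omega) (ih (v + w) c hc2 hc1 _ _ hzW)
      have h4 : ddp p y * (ddp p c * z) ∈ FiltP_W p P H₁ e w (M + 1) (a + v) :=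
        FiltP_W_anti (by omega) (ih v y hy hyv _ _ h3)
      have h5 := add_mem h3 h4
      have h6 : ddp p e * (ddp p c * z + ddp p y * (ddp p c * z)) ∈
          FiltP_W p P H₁ e w (M + 1 + 1) (a + v) :=
        FiltP_W_anti (by omega) (FiltP_W_D h5)
      rw [hid]
      exact add_mem h2 (add_mem (FiltP_W_mono (Nat.le_succ _) h5) h6)

end W

/-- The step: adjoin `e` to `H₁`.  As in `KK_step` of `../Filt.lean`, with
`S a = {∑_{i < p} (e - 1)^i κ i | κ i ∈ KKp P H₁ (a - i w)}`: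
(A) `y ∈ H₁ ∩ P v`: `(y - 1) S a ⊆ S (a + v)`, by induction on `i` from
`(y-1)(e-1) = (e-1)(y-1) + e y (c-1)`, `c = y⁻¹ e⁻¹ y e ∈ H₁ ∩ P (v+w)`, `e = (e-1) + 1`;
(E) `(e - 1) S a ⊆ S (a + w)`, from `(e-1)^p = e^p - 1`, `e^p ∈ H₁ ∩ P (p w)`;
(B) `y ∈ H ∩ P v`, `y = e^i y₁` with `y₁ ∈ H₁`: if `i ≠ 0` mod `p` (i.e. `y ∉ H₁`) then `v ≤ w`,
so `y₁ ∈ P v`, and `y - 1 = (e^i - 1)(y₁ - 1) + (e^i - 1) + (y₁ - 1)`, where `e^i - 1` is a
combination of `(e-1)^j`, `1 ≤ j ≤ i`. -/
theorem KKp_step (p : ℕ) [Fact p.Prime] (P : ℕ → Subgroup T) (hP0 : P 0 = ⊤) (hanti : Antitone P)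
    (hcomm : ∀ i j x y, x ∈ P i → y ∈ P j → x⁻¹ * y⁻¹ * x * y ∈ P (i+j))
    (hpow : ∀ i x, x ∈ P i → x ^ p ∈ P (p*i))
    (H H₁ : Subgroup T) (hle : H₁ ≤ H) (e : T) (heH : e ∈ H)
    (hcos : ∀ y ∈ H, ∃ i : ℕ, i < p ∧ (e ^ i)⁻¹ * y ∈ H₁)
    (hnorm : ∀ y ∈ H₁, e⁻¹ * y * e ∈ H₁)
    (hep : e ^ p ∈ H₁) (w : ℕ) (hew : e ∈ P w)
    (hmax : ∀ v, ∀ y ∈ H, y ∈ P v → y ∉ H₁ → v ≤ w)
    (a : ℕ) (k : MonoidAlgebra (ZMod p) T) (hk : k ∈ KKp p P H a) :
    ∃ κ : ℕ → MonoidAlgebra (ZMod p) T, (∀ i, κ i ∈ KKp p P H₁ (a - i * w)) ∧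
      k = ∑ i ∈ Finset.range p, ddp p e ^ i * κ i := by
  have hp1 : 0 < p := (Fact.out : p.Prime).pos
  have hchar : CharP (MonoidAlgebra (ZMod p) T) p :=
    charP_of_injective_algebraMap (R := ZMod p) (by
      intro x y hxy
      have h1 := congrArg (fun z : MonoidAlgebra (ZMod p) T => z.coeff 1) hxy
      simpa [MonoidAlgebra.coe_algebraMap] using! h1) p
  have hA := FiltP_W_A (p := p) (P := P) (H₁ := H₁) (e := e) (w := w) hcomm hnorm hew p
  -- multiplication by `e - 1`
  have hE : ∀ a k, k ∈ FiltP_W p P H₁ e w p a → ddp p e * k ∈ FiltP_W p P H₁ e w p (a + w) := by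
    intro a k hk
    refine FiltP_W_ind (ddp p e) _ (fun i hi u hu => ?_) k hk
    by_cases hi' : i + 1 < p
    · have h1 := FiltP_W_D (FiltP_W_of (p := p) (P := P) (H₁ := H₁) (e := e) (w := w)
        (Nat.lt_succ_self i) hu)
      exact FiltP_W_mono hi' h1
    · have hip : i + 1 = p := by omega
      have h1 : ddp p e * (ddp p e ^ i * u) = ddp p (e ^ p) * u := by
        rw [← mul_assoc, ← pow_succ', hip, ddp, sub_pow_char_of_commute p (Commute.one_right _),
          one_pow, MonoidAlgebra.single_pow, one_pow, ddp]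
      rw [h1]
      have h2 : ddp p (e ^ p) * u ∈ KKp p P H₁ (a + w - 0 * w) := by
        refine FiltP_anti p P H₁ ?_ (FiltP_mul_mem p P H₁ hep (hpow w e hew) hu)
        have h3 : p * w = i * w + w := by rw [← hip, Nat.succ_mul]
        omega
      have h3 := FiltP_W_of (p := p) (P := P) (H₁ := H₁) (e := e) (w := w) hp1 h2
      rwa [pow_zero, one_mul] at h3
  -- multiplication by `e^i - 1`
  have hEi : ∀ (i : ℕ) (a : ℕ) (k : MonoidAlgebra (ZMod p) T), k ∈ FiltP_W p P H₁ e w p a →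
      ddp p (e ^ i) * k ∈ FiltP_W p P H₁ e w p (a + w) := by
    intro i
    induction i with
    | zero =>
      intro a k _
      rw [pow_zero, ddp, ← MonoidAlgebra.one_def, sub_self, zero_mul]
      exact zero_mem _
    | succ i ih =>
      intro a k hk
      have hid : ddp p (e ^ (i + 1)) * k = ddp p e * (ddp p (e ^ i) * k) + ddp p (e ^ i) * k +
          ddp p e * k := by
        have h3 : (single e 1 * single (e ^ i) 1 : MonoidAlgebra (ZMod p) T) =
            single (e ^ (i + 1)) 1 := by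
          simp only [single_mul_single, mul_one]
          congr 1
          rw [pow_succ']
        simp only [ddp, ← h3]
        noncomm_ring
      rw [hid]
      have h4 := ih a k hk
      exact add_mem (add_mem (FiltP_W_anti (by omega) (hE _ _ h4)) h4) (hE _ _ hk)
  -- multiplication by `y - 1`, `y ∈ H`
  have hB : ∀ v y, y ∈ H → y ∈ P v → ∀ a k, k ∈ FiltP_W p P H₁ e w p a →
      ddp p y * k ∈ FiltP_W p P H₁ e w p (a + v) := by
    intro v y hy hyv a k hk
    by_cases hy1 : y ∈ H₁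
    · exact hA v y hy1 hyv a k hk
    · have hvw : v ≤ w := hmax v y hy hyv hy1
      obtain ⟨i, -, hi⟩ := hcos y hy
      obtain ⟨y₁, hy₁⟩ : ∃ y₁ : T, y₁ = (e ^ i)⁻¹ * y := ⟨_, rfl⟩
      rw [← hy₁] at hi
      have h2 : y₁ ∈ P v := by
        rw [hy₁]
        exact mul_mem (inv_mem (pow_mem (hanti hvw hew) i)) hyv
      have hid : ddp p y * k = ddp p (e ^ i) * (ddp p y₁ * k) + ddp p (e ^ i) * k +
          ddp p y₁ * k := by
        have h3 : (single (e ^ i) 1 * single y₁ 1 : MonoidAlgebra (ZMod p) T) = single y 1 := by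
          simp only [single_mul_single, mul_one, hy₁]
          congr 1
          rw [mul_inv_cancel_left]
        simp only [ddp, ← h3]
        noncomm_ring
      rw [hid]
      have h4 := hA v y₁ hi h2 a k hk
      refine add_mem (add_mem ?_ ?_) h4
      · exact FiltP_W_anti (by omega) (hEi i _ _ h4)
      · exact FiltP_W_anti (by omega) (hEi i _ _ hk)
  -- conclusion
  have hS0 : (1 : MonoidAlgebra (ZMod p) T) ∈ FiltP_W p P H₁ e w p 0 := by
    have h1 : (1 : MonoidAlgebra (ZMod p) T) ∈ KKp p P H₁ (0 - 0 * w) :=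
      Submodule.subset_span ⟨[], by simp, by simp, by simp⟩
    have h2 := FiltP_W_of (p := p) (P := P) (H₁ := H₁) (e := e) (w := w) hp1 h1
    rwa [pow_zero, one_mul] at h2
  have hlist : ∀ l : List (T × ℕ), (∀ q ∈ l, q.1 ∈ H ∧ q.1 ∈ P q.2) →
      (l.map fun q => ddp p q.1).prod ∈ FiltP_W p P H₁ e w p (l.map Prod.snd).sum := by
    intro l
    induction l with
    | nil => intro _; simpa using! hS0
    | cons q l ih =>
      intro h1
      simp only [List.map_cons, List.prod_cons, List.sum_cons]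
      have := hB q.2 q.1 (h1 q List.mem_cons_self).1 (h1 q List.mem_cons_self).2 _ _
        (ih fun r hr => h1 r (List.mem_cons_of_mem _ hr))
      rwa [add_comm] at this
  have hle' : KKp p P H a ≤ FiltP_W p P H₁ e w p a := by
    refine Submodule.span_le.2 ?_
    rintro _ ⟨l, h1, h2, rfl⟩
    exact FiltP_W_anti h2 (hlist l h1)
  obtain ⟨κ, hκ, h⟩ := hle' hk
  exact ⟨κ, hκ, h⟩

end Pool.Agent.MPa0c355.B12
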