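import Pool.Agent.Lib.MP_a0c355_lc.B12.FiltP

/-! # An element of order `p` of a finite `p`-group survives in `F_p[T] / KKp P ⊤ m`

The general `p` version of `../FiltMain.lean`. -/

set_option autoImplicit false

namespace Pool.Agent.MPa0c355.B12

open MonoidAlgebra

variable {T : Type*} [Group T]

theorem FiltQ_ddp_one (p : ℕ) : ddp p (1 : T) = 0 := by
  rw [ddp, ← MonoidAlgebra.one_def, sub_self]

theorem FiltQ_coeff_ddp_mul (p : ℕ) (y g : T) (k : MonoidAlgebra (ZMod p) T) :
    (ddp p y * k).coeff g = k.coeff (y⁻¹ * g) - k.coeff g := by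
  rw [ddp, sub_mul, one_mul, coeff_sub, Finsupp.sub_apply, coeff_single_mul_apply, one_mul]

theorem FiltQ_ddp_pow (p : ℕ) (z : T) (k : ℕ) :
    ddp p (z ^ k) = ddp p z * ∑ i ∈ Finset.range k, (single z 1 : MonoidAlgebra (ZMod p) T) ^ i := by
  rw [ddp, ddp, mul_geom_sum, single_pow, one_pow]

theorem FiltQ_nilp (p : ℕ) [Fact p.Prime] {z : T} (hzp : z ^ p = 1) : ddp p z ^ p = 0 := by
  have hc : CharP (MonoidAlgebra (ZMod p) T) p :=
    charP_of_injective_algebraMap (algebraMap (ZMod p) (MonoidAlgebra (ZMod p) T)).injective p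
  rw [ddp, sub_pow_char_of_commute p (Commute.one_right _), single_pow, one_pow, one_pow, hzp,
    ← MonoidAlgebra.one_def, sub_self]

theorem FiltQ_ddp_ne (p : ℕ) [Fact p.Prime] {z : T} (hz1 : z ≠ 1) : ddp p z ≠ 0 := by
  intro h0
  rw [ddp, sub_eq_zero, MonoidAlgebra.one_def] at h0
  have := congrArg (fun k => k.coeff z) h0
  simp only [coeff_single, Finsupp.single_eq_same] at this
  rw [Finsupp.single_eq_of_ne hz1] at this
  exact one_ne_zero this

/-- The multiples of `(z - 1)^2` by elements commuting with `z - 1`. -/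
noncomputable def FiltQ_J (p : ℕ) (z : T) : Submodule (ZMod p) (MonoidAlgebra (ZMod p) T) where
  carrier := {x | ∃ u, Commute (ddp p z) u ∧ x = ddp p z * ddp p z * u}
  zero_mem' := ⟨0, Commute.zero_right _, by rw [mul_zero]⟩
  add_mem' := by
    rintro _ _ ⟨u, hu, rfl⟩ ⟨v, hv, rfl⟩
    exact ⟨u + v, hu.add_right hv, by rw [mul_add]⟩
  smul_mem' := by
    rintro c _ ⟨u, hu, rfl⟩
    exact ⟨c • u, hu.smul_right c, by rw [mul_smul_comm]⟩

theorem FiltQ_not_mem_J (p : ℕ) [Fact p.Prime] {z : T} (hz1 : z ≠ 1) (hzp : z ^ p = 1) :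
    ddp p z ∉ FiltQ_J p z := by
  rintro ⟨u, hu, h⟩
  have h1 : ∀ n : ℕ, ddp p z = ddp p z ^ (n + 1) * u ^ n := by
    intro n
    induction n with
    | zero => rw [zero_add, pow_one, pow_zero, mul_one]
    | succ n ih =>
      calc ddp p z = ddp p z ^ (n + 1) * u ^ n := ih
        _ = ddp p z ^ n * ddp p z * u ^ n := by rw [pow_succ]
        _ = ddp p z ^ n * (ddp p z * ddp p z * u) * u ^ n := by rw [← h]
        _ = ddp p z ^ (n + 1 + 1) * u ^ (n + 1) := by
          rw [pow_succ (ddp p z) (n + 1), pow_succ (ddp p z) n, pow_succ' u n]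
          simp only [mul_assoc]
  have h2 := h1 p
  rw [pow_succ, FiltQ_nilp p hzp, zero_mul, zero_mul] at h2
  exact FiltQ_ddp_ne p hz1 h2

theorem FiltQ_bottom (p : ℕ) [Fact p.Prime] (P : ℕ → Subgroup T) (hP0 : P 0 = ⊤) {m : ℕ}
    (hm : P m = ⊥) (hanti : Antitone P) {z : T} (hz1 : z ≠ 1) (hzp : z ^ p = 1)
    (H : Subgroup T) (hH : ∀ y ∈ H, ∃ k : ℕ, y = z ^ k) : ddp p z ∉ KKp p P H m := by
  have hgeo : ∀ k : ℕ, Commute (ddp p z)
      (∑ i ∈ Finset.range k, (single z 1 : MonoidAlgebra (ZMod p) T) ^ i) := by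
    intro k
    refine Commute.sum_right _ _ _ fun i _ => Commute.pow_right ?_ i
    rw [ddp]
    exact (Commute.refl _).sub_left (Commute.one_left _)
  have hcomm : ∀ y ∈ H, Commute (ddp p z) (ddp p y) := by
    intro y hy
    obtain ⟨k, rfl⟩ := hH y hy
    rw [FiltQ_ddp_pow]
    exact (Commute.refl _).mul_right (hgeo k)
  have hprod : ∀ l : List (T × ℕ), (∀ q ∈ l, q.1 ∈ H) →
      Commute (ddp p z) (l.map fun q => ddp p q.1).prod := by
    intro l hl
    induction l with
    | nil => simp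
    | cons q l ih =>
      rw [List.map_cons, List.prod_cons]
      exact (hcomm q.1 (hl q List.mem_cons_self)).mul_right
        (ih fun r hr => hl r (List.mem_cons_of_mem _ hr))
  have hbot : KKp p P H m ≤ FiltQ_J p z := by
    refine Submodule.span_le.2 ?_
    rintro _ ⟨l, h1, h2, rfl⟩
    have hm0 : m ≠ 0 := by
      rintro rfl
      rw [hP0] at hm
      have : z ∈ (⊥ : Subgroup T) := hm ▸ Subgroup.mem_top z
      exact hz1 (Subgroup.mem_bot.1 this)
    match l, h1, h2 with
    | [], _, h2 => simp only [List.map_nil, List.sum_nil] at h2; omega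
    | [q], h1, h2 =>
      have h3 : q.1 = 1 := by
        simp only [List.map_cons, List.map_nil, List.sum_cons, List.sum_nil, add_zero] at h2
        have h3 := hanti h2 (h1 q List.mem_cons_self).2
        rwa [hm, Subgroup.mem_bot] at h3
      simp only [List.map_cons, List.map_nil, List.prod_cons, List.prod_nil, h3, FiltQ_ddp_one,
        zero_mul]
      exact (FiltQ_J p z).zero_mem
    | q :: r :: l, h1, _ =>
      obtain ⟨k, hk⟩ := hH _ (h1 q List.mem_cons_self).1
      obtain ⟨k', hk'⟩ := hH _ (h1 r (List.mem_cons_of_mem _ List.mem_cons_self)).1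
      have h3 := hprod l fun s hs => (h1 s (List.mem_cons_of_mem _ (List.mem_cons_of_mem _ hs))).1
      simp only [List.map_cons, List.prod_cons]
      rw [hk, hk', FiltQ_ddp_pow, FiltQ_ddp_pow]
      refine ⟨(∑ i ∈ Finset.range k, (single z 1 : MonoidAlgebra (ZMod p) T) ^ i) *
        ((∑ i ∈ Finset.range k', (single z 1 : MonoidAlgebra (ZMod p) T) ^ i) *
          (l.map fun q => ddp p q.1).prod), (hgeo k).mul_right ((hgeo k').mul_right h3), ?_⟩
      have h4 := (hgeo k).eq
      calc _ = ddp p z * ((∑ i ∈ Finset.range k, (single z 1 : MonoidAlgebra (ZMod p) T) ^ i) *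
            ddp p z) * ((∑ i ∈ Finset.range k', (single z 1 : MonoidAlgebra (ZMod p) T) ^ i) *
            (l.map fun q => ddp p q.1).prod) := by simp only [mul_assoc]
        _ = _ := by
          rw [← h4]
          simp only [mul_assoc]
  exact fun h => FiltQ_not_mem_J p hz1 hzp (hbot h)

/-- The leading coefficient of `(e - 1)^i k` on the coset `e^j H₁`. -/
theorem FiltQ_lead (p : ℕ) (H₁ : Subgroup T) (e : T) (he : ∀ j, 1 ≤ j → j < p → e ^ j ∉ H₁)
    (k : MonoidAlgebra (ZMod p) T) (hk : ∀ g, g ∉ H₁ → k.coeff g = 0) (g : T) (hg : g ∈ H₁)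
    (i : ℕ) : ∀ j : ℕ, i ≤ j → j < p →
      (ddp p e ^ i * k).coeff (e ^ j * g) = if i = j then k.coeff g else 0 := by
  induction i with
  | zero =>
    intro j _ hjp
    rw [pow_zero, one_mul]
    rcases Nat.eq_zero_or_pos j with rfl | hj
    · rw [if_pos rfl, pow_zero, one_mul]
    · rw [if_neg (by omega)]
      apply hk
      intro h
      have h2 := mul_mem h (inv_mem hg)
      rw [mul_inv_cancel_right] at h2
      exact he j hj hjp h2
  | succ i ih =>
    intro j hij hjp
    obtain ⟨j', rfl⟩ : ∃ j', j = j' + 1 := ⟨j - 1, by omega⟩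
    rw [pow_succ', mul_assoc, FiltQ_coeff_ddp_mul]
    have h1 : e⁻¹ * (e ^ (j' + 1) * g) = e ^ j' * g := by
      rw [pow_succ']
      group
    rw [h1, ih j' (by omega) (by omega), ih (j' + 1) (by omega) hjp,
      if_neg (show i ≠ j' + 1 by omega), sub_zero]
    by_cases h : i = j'
    · rw [if_pos h, if_pos (by rw [h])]
    · rw [if_neg h, if_neg (by omega)]

theorem FiltQ_aux (p : ℕ) [Fact p.Prime] [Finite T] (P : ℕ → Subgroup T)
    (hP0 : P 0 = ⊤) (hanti : Antitone P)
    (hcomm : ∀ i j x y, x ∈ P i → y ∈ P j → x⁻¹ * y⁻¹ * x * y ∈ P (i+j))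
    (hpow : ∀ i x, x ∈ P i → x ^ p ∈ P (p*i)) {m : ℕ} (hm : P m = ⊥)
    {z : T} (hz1 : z ≠ 1) (hzp : z ^ p = 1) (n : ℕ) :
    ∀ H : Subgroup T, Nat.card H = p^(n+1) → z ∈ H → ddp p z ∉ KKp p P H m := by
  have hp : p.Prime := Fact.out
  have hord : orderOf z = p := orderOf_eq_prime hzp hz1
  induction n with
  | zero =>
    intro H hH hzH
    refine FiltQ_bottom p P hP0 hm hanti hz1 hzp H ?_
    have hle : Subgroup.zpowers z ≤ H := by rwa [Subgroup.zpowers_le]
    have heq : Subgroup.zpowers z = H := by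
      refine Subgroup.eq_of_le_of_card_ge hle ?_
      rw [hH, Nat.card_zpowers, hord, zero_add, pow_one]
    intro y hy
    rw [← heq, ← mem_powers_iff_mem_zpowers] at hy
    obtain ⟨k, hk⟩ := hy
    exact ⟨k, hk.symm⟩
  | succ n ih =>
    intro H hH hzH
    -- a subgroup of index `p` containing `z`
    obtain ⟨K, hK, hzK⟩ := Sylow.exists_subgroup_card_pow_prime_le (G := H) p (n := 1) (m := n+1)
      (by rw [hH]; exact pow_dvd_pow p (by omega)) (Subgroup.zpowers (⟨z, hzH⟩ : H))
      (by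
        rw [Nat.card_zpowers, pow_one, ← hord]
        exact Subgroup.orderOf_mk z hzH) (by omega)
    have hzK' : (⟨z, hzH⟩ : H) ∈ K := hzK (Subgroup.mem_zpowers _)
    have hindex : K.index = p := by
      have h1 := K.card_mul_index
      rw [hK, hH, pow_succ p (n+1)] at h1
      exact Nat.eq_of_mul_eq_mul_left (pow_pos hp.pos _) h1
    have hnK : K.Normal := by
      apply Subgroup.normal_of_index_eq_minFac_card
      rw [hindex, hH, hp.pow_minFac (by omega)]
    have hQcard : Nat.card (H ⧸ K) = p := hindex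
    let H₁ : Subgroup T := K.map H.subtype
    have hmem : ∀ y (hy : y ∈ H), y ∈ H₁ ↔ (⟨y, hy⟩ : H) ∈ K := by
      intro y hy
      constructor
      · rintro ⟨w, hw, hwy⟩
        have : w = ⟨y, hy⟩ := Subtype.ext hwy
        rwa [← this]
      · intro h; exact ⟨_, h, rfl⟩
    have hH₁le : H₁ ≤ H := by
      rintro _ ⟨w, _, rfl⟩; exact w.2
    have hcard : Nat.card H₁ = p^(n+1) := by
      rw [← hK]
      exact Subgroup.card_map_of_injective H.subtype_injective
    have hzH₁ : z ∈ H₁ := (hmem z hzH).2 hzK'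
    -- there is an element outside
    have hex : ∃ y ∈ H, y ∉ H₁ := by
      by_contra hcon
      push Not at hcon
      have : Nat.card H ≤ Nat.card H₁ := Subgroup.card_le_of_le hcon
      rw [hH, hcard] at this
      have := (Nat.pow_le_pow_iff_right hp.one_lt).1 this
      omega
    classical
    let Q : ℕ → Prop := fun v => ∃ y ∈ H, y ∈ P v ∧ y ∉ H₁
    have hQ0 : Q 0 := by
      obtain ⟨y, hy, hy1⟩ := hex
      exact ⟨y, hy, by rw [hP0]; trivial, hy1⟩
    set w := Nat.findGreatest Q m with hw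
    have hQw : Q w := Nat.findGreatest_spec (Nat.zero_le m) hQ0
    obtain ⟨e, heH, hew, heH₁⟩ := hQw
    have hmax : ∀ v, ∀ y ∈ H, y ∈ P v → y ∉ H₁ → v ≤ w := by
      intro v y hy hyv hy1
      rcases le_or_gt v m with h | h
      · exact Nat.le_findGreatest h ⟨y, hy, hyv, hy1⟩
      · exfalso
        have := hanti h.le hyv
        rw [hm, Subgroup.mem_bot] at this
        exact hy1 (this ▸ one_mem _)
    have heK : (⟨e, heH⟩ : H) ∉ K := fun h => heH₁ ((hmem e heH).2 h)
    have hebar : (QuotientGroup.mk' K) (⟨e, heH⟩ : H) ≠ 1 := by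
      intro h
      exact heK ((QuotientGroup.eq_one_iff _).1 h)
    have hpowp : ∀ x : H ⧸ K, x ^ p = 1 := by
      intro x
      rw [← hQcard]
      exact pow_card_eq_one'
    have hep : e ^ p ∈ H₁ := by
      refine (hmem _ (pow_mem heH p)).2 ?_
      have h1 := hpowp ((QuotientGroup.mk' K) (⟨e, heH⟩ : H))
      rw [← map_pow] at h1
      exact (QuotientGroup.eq_one_iff _).1 h1
    have heord : orderOf ((QuotientGroup.mk' K) (⟨e, heH⟩ : H)) = p :=
      orderOf_eq_prime (hpowp _) hebar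
    have hej : ∀ j, 1 ≤ j → j < p → e ^ j ∉ H₁ := by
      intro j hj hjp h
      have h1 : ((⟨e, heH⟩ : H) ^ j) ∈ K := (hmem _ (pow_mem heH j)).1 h
      have h2 : ((QuotientGroup.mk' K) (⟨e, heH⟩ : H)) ^ j = 1 := by
        rw [← map_pow]
        exact (QuotientGroup.eq_one_iff _).2 h1
      have h3 := orderOf_dvd_of_pow_eq_one h2
      rw [heord] at h3
      exact absurd (Nat.le_of_dvd hj h3) (by omega)
    have hcos : ∀ y ∈ H, ∃ i : ℕ, i < p ∧ (e ^ i)⁻¹ * y ∈ H₁ := by
      intro y hy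
      have h1 : (QuotientGroup.mk' K) (⟨y, hy⟩ : H) ∈
          Submonoid.powers ((QuotientGroup.mk' K) (⟨e, heH⟩ : H)) :=
        mem_powers_of_prime_card hQcard hebar
      obtain ⟨k, hk⟩ := h1
      beta_reduce at hk
      refine ⟨k % p, Nat.mod_lt _ hp.pos, ?_⟩
      have h2 : ((QuotientGroup.mk' K) (⟨e, heH⟩ : H)) ^ (k % p) =
          (QuotientGroup.mk' K) (⟨y, hy⟩ : H) := by
        rw [← hk]
        conv_rhs => rw [← Nat.mod_add_div k p]
        rw [pow_add, pow_mul, hpowp, one_pow, mul_one]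
      rw [← map_pow] at h2
      exact (hmem _ (mul_mem (inv_mem (pow_mem heH _)) hy)).2 (QuotientGroup.eq.1 h2)
    have hnorm : ∀ y ∈ H₁, e⁻¹ * y * e ∈ H₁ := by
      intro y hy
      have hyH := hH₁le hy
      refine (hmem _ (mul_mem (mul_mem (inv_mem heH) hyH) heH)).2 ?_
      have := hnK.conj_mem ⟨y, hyH⟩ ((hmem y hyH).1 hy) (⟨e, heH⟩ : H)⁻¹
      rw [inv_inv] at this
      exact this
    intro hzm
    obtain ⟨κ, hκ, hk⟩ := KKp_step p P hP0 hanti hcomm hpow H H₁ hH₁le e heH hcos hnorm hep w hew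
      hmax m _ hzm
    have hsupp : ∀ i g, g ∉ H₁ → (κ i).coeff g = 0 := fun i g hg => KKp_supp p P H₁ (hκ i) hg
    have hone : ∀ j, 1 ≤ j → j < p → (∀ i, j < i → i < p → κ i = 0) → κ j = 0 := by
      intro j hj hjp hi
      ext g
      rw [coeff_zero, Finsupp.zero_apply]
      by_cases hg : g ∈ H₁
      · have hout : e ^ j * g ∉ H₁ := by
          intro h
          have h2 := mul_mem h (inv_mem hg)
          rw [mul_inv_cancel_right] at h2
          exact hej j hj hjp h2
        have h1 := congrArg (fun k => k.coeff (e ^ j * g)) hk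
        beta_reduce at h1
        have h2 : (ddp p z).coeff (e ^ j * g) = 0 := by
          rw [ddp, coeff_sub, Finsupp.sub_apply, MonoidAlgebra.one_def, coeff_single, coeff_single,
            Finsupp.single_eq_of_ne, Finsupp.single_eq_of_ne, sub_zero]
          · rintro h; exact hout (h ▸ one_mem _)
          · rintro h; exact hout (h ▸ hzH₁)
        rw [h2, coeff_sum, Finsupp.finsetSum_apply, Finset.sum_eq_single j] at h1
        · rw [FiltQ_lead p H₁ e hej (κ j) (hsupp j) g hg j j le_rfl hjp, if_pos rfl] at h1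
          exact h1.symm
        · intro i hip hij
          rw [Finset.mem_range] at hip
          rcases lt_or_gt_of_ne hij with h | h
          · rw [FiltQ_lead p H₁ e hej (κ i) (hsupp i) g hg i j h.le hjp, if_neg hij]
          · rw [hi i h hip, mul_zero, coeff_zero, Finsupp.zero_apply]
        · intro h
          exact absurd (Finset.mem_range.2 hjp) h
      · exact hsupp j g hg
    have hall : ∀ d j, 1 ≤ j → j < p → p ≤ j + d + 1 → κ j = 0 := by
      intro d
      induction d with
      | zero =>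
        intro j hj hjp hd
        exact hone j hj hjp fun i hji hip => absurd hip (by omega)
      | succ d ihd =>
        intro j hj hjp hd
        exact hone j hj hjp fun i hji hip => ihd i (by omega) hip (by omega)
    have hfin : ddp p z = κ 0 := by
      rw [hk, Finset.sum_eq_single 0]
      · rw [pow_zero, one_mul]
      · intro i hi hi0
        rw [Finset.mem_range] at hi
        rw [hall p i (Nat.pos_of_ne_zero hi0) hi (by omega), mul_zero]
      · intro h
        exact absurd (Finset.mem_range.2 hp.pos) h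
    have h0 := hκ 0
    rw [zero_mul, Nat.sub_zero, ← hfin] at h0
    exact ih H₁ hcard hzH₁ h0

/-- As `not_mem_KK` in `../FiltMain.lean`: induction over subgroups `H ∋ z` of order `p^(n+1)`.
`H = ⟨z⟩`: let `w` be maximal with `z ∈ P w` (`w < m`); a product of total weight `≥ m` of factors
`z^i - 1` has two factors `≠ 0`, so it is in `(z-1)^2 F_p[H]`; if `z - 1 = (z-1)^2 u` then
`(z-1)(1 - (z-1)u) = 0` and `1 - (z-1) u` is a unit (`(z-1)^p = 0`, `H` commutative),
contradiction.  Step: `H₁ ∋ z` of index `p` in `H` (normal), `e ∈ H \ H₁` of maximal weight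
(`Nat.findGreatest`), `KKp_step`: `z - 1 = ∑_{i<p} (e-1)^i κ i`; comparing the supports on the
cosets `e^i H₁`, from `i = p - 1` downwards: `κ i = 0` for `1 ≤ i`, so `z - 1 = κ 0 ∈ KKp P H₁ m`. -/
theorem not_mem_KKp (p : ℕ) [Fact p.Prime] [Finite T] (hT : IsPGroup p T) (P : ℕ → Subgroup T)
    (hP0 : P 0 = ⊤) (hanti : Antitone P)
    (hcomm : ∀ i j x y, x ∈ P i → y ∈ P j → x⁻¹ * y⁻¹ * x * y ∈ P (i+j))
    (hpow : ∀ i x, x ∈ P i → x ^ p ∈ P (p*i)) {m : ℕ} (hm : P m = ⊥)
    {z : T} (hz1 : z ≠ 1) (hzp : z ^ p = 1) : ddp p z ∉ KKp p P ⊤ m := by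
  obtain ⟨k, hk⟩ := IsPGroup.iff_card.1 hT
  have hk0 : k ≠ 0 := by
    rintro rfl
    rw [pow_zero, Nat.card_eq_one_iff_unique] at hk
    have := hk.1
    exact hz1 (Subsingleton.elim _ _)
  obtain ⟨n, rfl⟩ := Nat.exists_eq_succ_of_ne_zero hk0
  exact FiltQ_aux p P hP0 hanti hcomm hpow hm hz1 hzp n ⊤ (by rw [Subgroup.card_top, hk])
    (Subgroup.mem_top z)

end Pool.Agent.MPa0c355.B12
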