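import Pool.Agent.Lib.MP_a0c355_lc.B12.MainB

/-! # The theorem -/

set_option autoImplicit false

namespace Pool.Agent.MPa0c355.B12

open scoped ENNReal

/-- the state over the group -/
theorem FinalB_exec_map {n m : ℕ} (P : Cmd) (B : BBGroup n) (s : Fin m → B.Code) (b : Bool) :
    ((B.exec P s).map fun τ => τ.bv 0) b =
      Ex (run (gO B.G) (n + m) P ((initSt B.oracle s).mapMem B.val))
        (fun τ => if τ.bv 0 = b then 1 else 0) := by
  rw [← map_apply_Ex, BBGroup.exec]
  have h := run_map B.oracle (gO B.G) B.val B.val_one B.val_mul B.val_inv (by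
    intro a b
    rw [Bool.eq_iff_iff, B.eqb_iff]
    simp only [gO, decide_eq_true_eq]) (n + m) P (initSt B.oracle s)
  rw [← h, PMF.map_comp]
  rfl

theorem FinalB_span {n m : ℕ} (B : BBGroup n) (s : Fin m → B.Code)
    (hs : Subgroup.closure (Set.range fun i => B.val (s i)) = ⊤) :
    gen (n + m) (((initSt B.oracle s).mapMem B.val).mem 0 0) = ⊤ := by
  rw [gen, eq_top_iff, ← hs, Subgroup.closure_le]
  rintro g ⟨i, rfl⟩
  refine Subgroup.subset_closure ⟨i, by have := i.2; omega, ?_⟩
  simp [St.mapMem, initSt, i.2]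

theorem FinalB_one {n m : ℕ} (B : BBGroup n) (s : Fin m → B.Code) :
    ∀ i, 1 ≤ i → ∀ j, ((initSt B.oracle s).mapMem B.val).mem 0 i j = 1 := by
  intro i hi j
  have hi0 : i ≠ 0 := by omega
  simp [St.mapMem, initSt, hi0, B.val_one]

/-- As `gDecidable_four` in `../Final.lean` (`exec_map`, `init_span` there for the new program and the row
length `40 (N + 2) ≥ m`; the rows `i ≥ 1` of the initial state contain the identity). -/
theorem gDecidable_B12 (d : ℕ) (hd : d ∣ 12) :
    GDecidable (fun G _ => ∀ x : G, x ^ d = 1) := by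
  obtain ⟨C, hC⟩ := cost_PB (progB d RbB NpB)
  refine ⟨progB d RbB NpB, C, ?_⟩
  intro n B m s hs
  have hcard : Nat.card B.G ≤ 2 ^ (n + m) :=
    (card_le_two_pow B).trans (Nat.pow_le_pow_right (by norm_num) (by omega))
  have hspan := FinalB_span B s hs
  have hone := FinalB_one B s
  refine ⟨?_, ?_, ?_⟩
  · intro τ hτ
    have h1 := run_time B.oracle (n + m) (progB d RbB NpB) (initSt B.oracle s) τ hτ
    have h2 := hC (n + m)
    have h3 : (initSt B.oracle s).time = 0 := rfl
    rw [h3, zero_add] at h1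
    exact h1.trans h2
  · intro hG
    refine two_thirds _ _ (bool_pmf _) ?_
    rw [FinalB_exec_map]
    refine (main_complB d hd hcard hG _ hone _ ?_).trans (by simp)
    intro τ
    cases τ.bv 0 <;> simp
  · intro hG
    push Not at hG
    refine two_thirds _ _ (by rw [add_comm]; exact bool_pmf _) ?_
    rw [FinalB_exec_map]
    refine main_soundB d hd hcard hG _ hspan hone _ ?_
    intro τ
    cases τ.bv 0 <;> simp

end Pool.Agent.MPa0c355.B12
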