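import Pool.Agent.Lib.MP_a0c355_lc.B12.Defs
import Pool.Agent.Lib.MP_3e83d2_al.Burnside

/-! # The Fitting subgroup of a group of order `2^a 3^b` -/

set_option autoImplicit false

namespace Pool.Agent.MPa0c355.B12

theorem FitA_card {n : ℕ} (hn : n ≠ 0) (h : ∀ q : ℕ, q.Prime → q ∣ n → q = 2 ∨ q = 3) :
    ∃ a b, n = 2 ^ a * 3 ^ b := by
  obtain ⟨a, n', h2, rfl⟩ := Nat.exists_eq_pow_mul_and_not_dvd hn 2 (by norm_num)
  have hn' : n' ≠ 0 := right_ne_zero_of_mul hn
  obtain ⟨b, n'', h3, rfl⟩ := Nat.exists_eq_pow_mul_and_not_dvd hn' 3 (by norm_num)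
  have h1 : n'' = 1 := by
    by_contra h1
    obtain ⟨q, hq, hd⟩ := Nat.exists_prime_and_dvd h1
    rcases h q hq ((hd.trans (Dvd.intro_left _ rfl)).trans (Dvd.intro_left _ rfl)) with rfl | rfl
    · exact h2 (hd.trans (Dvd.intro_left _ rfl))
    · exact h3 hd
  exact ⟨a, b, by rw [h1, mul_one]⟩

/-- Burnside's theorem `burnside_pq` (`Pool/Agent/Lib/MP_3e83d2_al/Burnside.lean`). -/
theorem Is23.solvable {G : Type*} [Group G] [Finite G] (h : Is23 G) : IsSolvable G := by
  obtain ⟨a, b, hab⟩ := FitA_card (n := Nat.card G) Nat.card_pos.ne' h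
  exact Pool.Agent.Lib.MP_3e83d2_al.Burnside.burnside_pq Nat.prime_two Nat.prime_three _ rfl hab

/-- the `q`-torsion of a commutative normal subgroup -/
theorem FitA_tors {G : Type*} [Group G] [Finite G] (A : Subgroup G) [hA : A.Normal]
    (hc : ∀ a ∈ A, ∀ b ∈ A, a * b = b * a) (q : ℕ) (hq : q.Prime) (hd : q ∣ Nat.card A) :
    Op q G ≠ ⊥ := by
  have : Fact q.Prime := ⟨hq⟩
  obtain ⟨x, hx⟩ := exists_prime_orderOf_dvd_card' (G := A) q hd
  let T : Subgroup G :=
    { carrier := {a | a ∈ A ∧ a ^ q = 1}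
      one_mem' := ⟨one_mem A, one_pow q⟩
      mul_mem' := by
        rintro a b ⟨ha, ha'⟩ ⟨hb, hb'⟩
        exact ⟨mul_mem ha hb, by rw [(show Commute a b from hc a ha b hb).mul_pow, ha', hb', one_mul]⟩
      inv_mem' := by
        rintro a ⟨ha, ha'⟩
        exact ⟨inv_mem ha, by rw [inv_pow, ha', inv_one]⟩ }
  have hT : T.Normal := by
    refine ⟨fun a ha g => ?_⟩
    exact ⟨hA.conj_mem a ha.1 g, by rw [conj_pow, ha.2, mul_one, mul_inv_cancel]⟩
  have hTp : IsPGroup q T := by
    intro a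
    refine ⟨1, ?_⟩
    rw [pow_one]
    exact Subtype.ext a.2.2
  have hle : T ≤ Op q G := le_Op hT hTp
  intro h
  rw [h, le_bot_iff] at hle
  have h1 : (x : G) ∈ T := ⟨x.2, by
    have h2 := pow_orderOf_eq_one x
    rw [hx] at h2
    exact congrArg Subtype.val h2⟩
  rw [hle, Subgroup.mem_bot] at h1
  have h2 : x = 1 := Subtype.ext h1
  rw [h2, orderOf_one] at hx
  exact hq.one_lt.ne hx

/-- A nontrivial group of order `2^a 3^b` has a nontrivial normal 2-subgroup or 3-subgroup: take the
last nontrivial term of the derived series (abelian, normal); its Sylow subgroups are characteristic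
in it. -/
theorem Op_ne_bot {G : Type*} [Group G] [Finite G] [Nontrivial G] (h : Is23 G) :
    Op 2 G ≠ ⊥ ∨ Op 3 G ≠ ⊥ := by
  have hs : Group.IsSolvable G := h.solvable
  classical
  have hex := (Group.isSolvable_def G).1 hs
  have hn := Nat.find_spec hex
  have hmin := fun k => Nat.find_min hex (m := k)
  rcases hk : Nat.find hex with _ | k
  · rw [hk, derivedSeries_zero] at hn
    exact absurd hn top_ne_bot
  · rw [hk] at hn
    have hA : derivedSeries G k ≠ ⊥ := hmin k (by omega)
    rw [derivedSeries_succ] at hn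
    have hc : ∀ a ∈ derivedSeries G k, ∀ b ∈ derivedSeries G k, a * b = b * a := by
      intro a ha b hb
      have h1 := Subgroup.commutator_mem_commutator ha hb
      rw [hn, Subgroup.mem_bot, commutatorElement_eq_one_iff_mul_comm] at h1
      exact h1
    have hcard : Nat.card (derivedSeries G k) ≠ 1 := by
      intro h1
      exact hA (Subgroup.card_eq_one.1 h1)
    obtain ⟨q, hq, hd⟩ := Nat.exists_prime_and_dvd hcard
    have h1 := FitA_tors (derivedSeries G k) hc q hq hd
    rcases h.subgroup _ q hq hd with rfl | rfl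
    · exact Or.inl h1
    · exact Or.inr h1

end Pool.Agent.MPa0c355.B12
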