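import Pool.Agent.Lib.MP_a0c355_lc.B12.Defs

/-! # A Sylow 3-subgroup of the stabiliser of a coset fixes a point of the coset -/

set_option autoImplicit false

namespace Pool.Agent.MPa0c355.B12

theorem fixed_mem {H : Type*} [Group H] (T1 : Subgroup H) [hT1 : T1.Normal] (t : H)
    (ht : ∀ h : H, h * t * h⁻¹ * t⁻¹ ∈ T1) (s x : H) (hx : x * t⁻¹ ∈ T1) :
    s * x * s⁻¹ * t⁻¹ ∈ T1 := by
  have e : s * x * s⁻¹ * t⁻¹ = s * (x * t⁻¹) * s⁻¹ * (s * t * s⁻¹ * t⁻¹) := by group
  rw [e]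
  exact mul_mem (hT1.conj_mem _ hx s) (ht s)

/-- `S` acts by conjugation on the coset `{t1 t | t1 ∈ T1}`, whose number of elements `|T1|` is a power
of 2, hence not divisible by 3 (`IsPGroup.card_modEq_card_fixedPoints`, or
`IsPGroup.nonempty_fixed_point_of_prime_not_dvd_card`). -/
theorem exists_fixed {H : Type*} [Group H] [Finite H] (T1 : Subgroup H) [T1.Normal]
    (h2 : IsPGroup 2 T1) (t : H) (ht : ∀ h : H, h * t * h⁻¹ * t⁻¹ ∈ T1) (S : Sylow 3 H) :
    ∃ t1 ∈ T1, ∀ s ∈ (S : Subgroup H), s * (t1 * t) = (t1 * t) * s := by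
  let α : Type _ := {x : H // x * t⁻¹ ∈ T1}
  let act : MulAction (S : Subgroup H) α :=
    { smul := fun s x => ⟨s * x.1 * (s : H)⁻¹, fixed_mem T1 t ht s x.1 x.2⟩
      one_smul := by
        intro x
        apply Subtype.ext
        show (((1 : (S : Subgroup H)) : H)) * x.1 * (((1 : (S : Subgroup H)) : H))⁻¹ = x.1
        rw [Subgroup.coe_one, one_mul, inv_one, mul_one]
      mul_smul := by
        intro a b x
        apply Subtype.ext
        show ((a * b : (S : Subgroup H)) : H) * x.1 * ((a * b : (S : Subgroup H)) : H)⁻¹ =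
          a * (b * x.1 * (b : H)⁻¹) * (a : H)⁻¹
        rw [Subgroup.coe_mul]
        group }
  have hfin : Finite α := Subtype.finite
  have hcard : Nat.card α = Nat.card T1 := by
    refine Nat.card_congr
      { toFun := fun x => ⟨x.1 * t⁻¹, x.2⟩
        invFun := fun y => ⟨y.1 * t, by rw [mul_inv_cancel_right]; exact y.2⟩
        left_inv := fun x => Subtype.ext (inv_mul_cancel_right _ _)
        right_inv := fun y => Subtype.ext (mul_inv_cancel_right _ _) }
  have h3 : ¬ 3 ∣ Nat.card α := by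
    rw [hcard]
    obtain ⟨n, hn⟩ := IsPGroup.iff_card.1 h2
    rw [hn]
    intro h
    have := Nat.Prime.dvd_of_dvd_pow (by norm_num) h
    omega
  have hS : IsPGroup 3 (S : Subgroup H) := S.isPGroup'
  obtain ⟨⟨x, hx⟩, hfix⟩ := hS.nonempty_fixed_point_of_prime_not_dvd_card α h3
  refine ⟨x * t⁻¹, hx, fun s hs => ?_⟩
  have h4 := congrArg Subtype.val (hfix ⟨s, hs⟩)
  have h5 : s * x * s⁻¹ = x := h4
  rw [inv_mul_cancel_right]
  exact mul_inv_eq_iff_eq_mul.1 h5

end Pool.Agent.MPa0c355.B12
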