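import Pool.Agent.Lib.MP_a0c355_lc.B12.Defs
import Pool.Agent.Lib.MP_a0c355_lc.Density

/-! # Normal closures of elements in 2-groups of exponent four modulo an abelian subgroup -/

set_option autoImplicit false

namespace Pool.Agent.MPa0c355.B12

open scoped commutatorElement

/-- comparison with the series `lam` of `../Chain.lean`: for `N` normal in `P` the image of
`lamp 2 N i` in `P` is in `lam N i` (induction on `i`). -/
theorem lamp_le_lam {P : Type*} [Group P] (N : Subgroup P) [N.Normal] (i : ℕ) {y : N}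
    (hy : y ∈ lamp 2 N i) : (y : P) ∈ lam N i := by
  have h := lamp_le_of_series (p := 2) (E := N) (fun i => (lam N i).subgroupOf N)
    (Subgroup.subgroupOf_self N) ?_ ?_ i hy
  · exact Subgroup.mem_subgroupOf.1 h
  · intro i a ha e
    exact comm_mem_lam (Subgroup.mem_subgroupOf.1 ha) e.2
  · intro i a ha
    rw [pow_two]
    exact sq_mem_lam (Subgroup.mem_subgroupOf.1 ha)

/-- `lam_38` in `P ⧸ M` gives `lam N 38 ≤ M` (`lam_le_comap`, as in `lam_39` of `../Density.lean`), so
`lamp 2 N 38` is contained in `M`, and `lamp 2 N 39 = ⊥` by `lamp_succ_le`. -/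
theorem BL_closure_four {P : Type*} [Group P] [Finite P] (M : Subgroup P) [M.Normal]
    (h4 : ∀ x : P, x ^ 4 ∈ M) (t : P)
    (hc : ∀ m ∈ M, ∀ y ∈ Subgroup.normalClosure {t}, m * y = y * m) (hM : ∀ m ∈ M, m ^ 2 = 1) :
    BL 2 (Subgroup.normalClosure {t} : Subgroup P) 39 := by
  let π := QuotientGroup.mk' M
  have hQ : ∀ q : P ⧸ M, q ^ 4 = 1 := by
    intro q
    obtain ⟨g, rfl⟩ := QuotientGroup.mk'_surjective M q
    rw [← map_pow]
    exact (QuotientGroup.eq_one_iff _).2 (h4 g)
  have h38 := lam_38 hQ (π t)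
  have hle : lam (Subgroup.normalClosure {t}) 38 ≤ M := by
    have h1 := lam_le_comap π (Subgroup.normalClosure {t}) (Subgroup.normalClosure {π t})
      (Subgroup.normalClosure_le_normal (by
        rintro _ rfl
        exact Subgroup.subset_normalClosure rfl)) 38
    rw [h38] at h1
    intro y hy
    have := h1 hy
    rw [Subgroup.mem_comap, Subgroup.mem_bot] at this
    exact (QuotientGroup.eq_one_iff _).1 this
  unfold BL
  rw [eq_bot_iff]
  refine lamp_succ_le ?_ ?_
  · intro a ha e
    rw [Subgroup.mem_bot, Subtype.ext_iff]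
    exact commutatorElement_eq_one_iff_mul_comm.2 (hc _ (hle (lamp_le_lam _ 38 ha)) e e.2)
  · intro a ha
    rw [Subgroup.mem_bot, Subtype.ext_iff]
    exact hM _ (hle (lamp_le_lam _ 38 ha))

end Pool.Agent.MPa0c355.B12
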