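import Pool.Agent.Lib.MP_a0c355_lc.B12.LampFit

/-! # From `H` to `Γ = H ⟨x⟩` -/

set_option autoImplicit false

namespace Pool.Agent.MPa0c355.B12

/-- `N = (normalClosure {t} in H).map H.subtype`, `f j = x^j N x^(-j)`, normal in `H` (as a subgroup of
`Γ` normalised by `H`).  The normal closure of `t` in `Γ` is `(Finset.range 12).sup f`, because that
subgroup is normalised by `H` and by `x` (`x^12 ∈ H` normalises `N`, so `f 12 = f 0`).  All `f j` are
subgroups of `H`; apply `BL_sup_range` in the group `H` (to the preimages of `f j` in `H`), and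
transfer with `BL.of_injective`.  `468 = 12 * 39`. -/
theorem BL_closure_Gamma {Γ : Type*} [Group Γ] (H : Subgroup Γ) [H.Normal] (x : Γ)
    (hx : H ⊔ Subgroup.zpowers x = ⊤) (hx12 : x ^ 12 ∈ H) (t : H)
    (hBL : BL 2 (Subgroup.normalClosure {t} : Subgroup H) 39) :
    BL 2 (Subgroup.normalClosure {(t : Γ)} : Subgroup Γ) 468 := by
  have hNn : (Subgroup.normalClosure {t} : Subgroup H).Normal := Subgroup.normalClosure_normal
  have htN : t ∈ (Subgroup.normalClosure {t} : Subgroup H) :=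
    Subgroup.subset_normalClosure (Set.mem_singleton t)
  generalize (Subgroup.normalClosure {t} : Subgroup H) = N at hBL hNn htN
  let φ : Γ →* MulAut H := MulAut.conjNormal
  have hφ : ∀ (g : Γ) (h : H), ((φ g h : H) : Γ) = g * h * g⁻¹ :=
    fun g h => MulAut.conjNormal_apply g h
  have hmul : ∀ (a b : Γ) (h : H), φ (a * b) h = φ a (φ b h) := fun a b h => by
    rw [map_mul, MulAut.mul_apply]
  have hinn : ∀ (a h : H), φ (a : Γ) h = a * h * a⁻¹ := fun a h => Subtype.ext (hφ a h)
  let f : ℕ → Subgroup H := fun j => N.map (φ (x ^ j)).toMonoidHom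
  have hmemf : ∀ j, ∀ n ∈ N, φ (x ^ j) n ∈ f j := fun j n hn => ⟨n, hn, rfl⟩
  have hfn : ∀ j, (f j).Normal := fun j => hNn.map _ (φ (x ^ j)).surjective
  have hfB : ∀ j, BL 2 (f j) 39 := fun j =>
    hBL.of_injective (N.equivMapOfInjective _ (φ (x ^ j)).injective).symm.toMonoidHom
      (MulEquiv.injective _)
  have hP := BL_sup_range f hfn hfB 12
  have hle : ∀ j < 12, f j ≤ (Finset.range 12).sup f :=
    fun j hj => Finset.le_sup (f := f) (Finset.mem_range.2 hj)
  have hkey : ∀ g : Γ, (∀ j < 12, ∀ y ∈ f j, φ g y ∈ (Finset.range 12).sup f) →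
      ∀ y ∈ (Finset.range 12).sup f, φ g y ∈ (Finset.range 12).sup f := by
    intro g h
    have h1 : (Finset.range 12).sup f ≤ ((Finset.range 12).sup f).comap (φ g).toMonoidHom :=
      Finset.sup_le fun j hj y hy => h j (Finset.mem_range.1 hj) y hy
    exact fun y hy => h1 hy
  generalize (Finset.range 12).sup f = P at hP hle hkey
  have hH : ∀ a : H, ∀ y ∈ P, φ (a : Γ) y ∈ P := fun a => hkey a fun j hj y hy => by
    rw [hinn]
    exact hle j hj ((hfn j).conj_mem y hy a)
  have hx1 : ∀ y ∈ P, φ x y ∈ P := hkey x fun j hj y hy => by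
    obtain ⟨n, hn, rfl⟩ := hy
    have e : φ x ((φ (x ^ j)).toMonoidHom n) = φ (x ^ (j + 1)) n := by
      rw [pow_succ', hmul]
      rfl
    rw [e]
    by_cases hj1 : j + 1 < 12
    · exact hle (j + 1) hj1 (hmemf (j + 1) n hn)
    · have hj2 : j + 1 = 12 := by omega
      rw [hj2]
      have e2 : φ (x ^ 12) n = (⟨x ^ 12, hx12⟩ : H) * n * (⟨x ^ 12, hx12⟩ : H)⁻¹ :=
        hinn ⟨x ^ 12, hx12⟩ n
      rw [e2]
      refine hle 0 (by norm_num) ?_
      have h3 := hmemf 0 _ (hNn.conj_mem n hn ⟨x ^ 12, hx12⟩)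
      rwa [pow_zero, map_one, MulAut.one_apply] at h3
  have hxr : ∀ r : ℕ, ∀ y ∈ P, φ (x ^ r) y ∈ P := by
    intro r
    induction r with
    | zero =>
      intro y hy
      rwa [pow_zero, map_one, MulAut.one_apply]
    | succ r ih =>
      intro y hy
      rw [pow_succ', hmul]
      exact hx1 _ (ih y hy)
  have hall : ∀ g : Γ, ∀ y ∈ P, φ g y ∈ P := by
    intro g y hy
    have hg : g ∈ H ⊔ Subgroup.zpowers x := by
      rw [hx]
      exact Subgroup.mem_top g
    rw [← SetLike.mem_coe, Subgroup.normal_mul] at hg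
    obtain ⟨a, ha, z, hz, rfl⟩ := hg
    obtain ⟨k, rfl⟩ := Subgroup.mem_zpowers_iff.1 hz
    have hr : 0 ≤ k % 12 := Int.emod_nonneg k (by norm_num)
    have e1 : x ^ k = (x ^ 12) ^ (k / 12) * x ^ (k % 12).toNat := by
      rw [← zpow_natCast x (k % 12).toNat, Int.toNat_of_nonneg hr, ← zpow_natCast x 12,
        ← zpow_mul, ← zpow_add]
      congr 1
      push_cast
      exact (Int.mul_ediv_add_emod k 12).symm
    have e2 : a * x ^ k = a * (x ^ 12) ^ (k / 12) * x ^ (k % 12).toNat := by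
      rw [e1, mul_assoc]
    change φ (a * x ^ k) y ∈ P
    rw [e2, hmul]
    exact hH ⟨a * (x ^ 12) ^ (k / 12), H.mul_mem ha (H.zpow_mem hx12 _)⟩ _
      (hxr (k % 12).toNat y hy)
  -- the image of `P` is normal in `Γ`
  have hQn : (P.map H.subtype).Normal := by
    refine ⟨?_⟩
    rintro _ ⟨y, hy, rfl⟩ g
    exact ⟨φ g y, hall g y hy, hφ g y⟩
  have htP : t ∈ P := by
    refine hle 0 (by norm_num) ?_
    have h3 := hmemf 0 t htN
    rwa [pow_zero, map_one, MulAut.one_apply] at h3
  have hcl : (Subgroup.normalClosure {(t : Γ)} : Subgroup Γ) ≤ P.map H.subtype := by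
    refine Subgroup.normalClosure_le_normal ?_
    rw [Set.singleton_subset_iff]
    exact ⟨t, htP, rfl⟩
  have hQ : BL 2 (P.map H.subtype : Subgroup Γ) (12 * 39) :=
    hP.of_injective (P.equivMapOfInjective _ H.subtype_injective).symm.toMonoidHom
      (MulEquiv.injective _)
  exact hQ.of_injective (Subgroup.inclusion hcl) (Subgroup.inclusion_injective hcl)

end Pool.Agent.MPa0c355.B12
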