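import Pool.Agent.Lib.MP_a0c355_lc.B12.Four

/-! # The same for a group `H` with a Sylow 3-subgroup which centralises the element -/

set_option autoImplicit false

namespace Pool.Agent.MPa0c355.B12

private theorem FourH_card {H : Type*} [Group H] [Finite H] (h23 : Is23 H) :
    2 ^ (Nat.card H).factorization 2 * 3 ^ (Nat.card H).factorization 3 = Nat.card H := by
  have hne : Nat.card H ≠ 0 := Nat.card_pos.ne'
  have hsub : (Nat.card H).factorization.support ⊆ ({2, 3} : Finset ℕ) := by
    intro q hq
    rw [Nat.support_factorization, Nat.mem_primeFactors] at hq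
    rcases h23 q hq.1 hq.2.1 with h | h
    · simp [h]
    · simp [h]
  have h := Nat.prod_factorization_pow_eq_self hne
  rw [Finsupp.prod_of_support_subset _ hsub _ (fun i _ => pow_zero i)] at h
  rw [Finset.prod_pair (by norm_num)] at h
  exact h

/-- `H = P S` as sets, for Sylow subgroups of a group of order `2^a 3^b`
(`P ∩ S = 1`, so `|P S| = |P| |S| = |H|`). -/
theorem exists_mul_sylow {H : Type*} [Group H] [Finite H] (h23 : Is23 H) (P : Sylow 2 H)
    (S : Sylow 3 H) (h : H) : ∃ x ∈ (P : Subgroup H), ∃ s ∈ (S : Subgroup H), h = x * s := by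
  have hP := P.card_eq_multiplicity
  have hS := S.card_eq_multiplicity
  have hc : Subgroup.IsComplement' (P : Subgroup H) (S : Subgroup H) := by
    refine Subgroup.isComplement'_of_coprime ?_ ?_
    · rw [hP, hS]
      exact FourH_card h23
    · rw [hP, hS]
      exact Nat.Coprime.pow _ _ (by norm_num)
  obtain ⟨⟨x, s⟩, hxs⟩ := hc.surjective h
  exact ⟨x, x.2, s, s.2, hxs.symm⟩

/-- Let `P` be a Sylow 2-subgroup of `H`; `V ≤ P` and `M ≤ V`.  As `H = P S` and `S` centralises `t`,
every conjugate of `t` is a conjugate by an element of `P`; so the normal closure of `t` in `H` is the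
image of the normal closure of `⟨t, _⟩` in `P`, which has length 39 by `BL_closure_four` (`x ^ 4 ∈ M`
for `x ∈ P`, because `x ^ 12 ∈ M` and the order of `x` is a power of 2); `BL.of_injective`. -/
theorem BL_closure_H {H : Type*} [Group H] [Finite H] (h23 : Is23 H) (S : Sylow 3 H)
    (M V : Subgroup H) [M.Normal] [V.Normal] (hMV : M ≤ V) (hV : IsPGroup 2 V)
    (hc : ∀ m ∈ M, ∀ v ∈ V, m * v = v * m) (hM : ∀ m ∈ M, m ^ 2 = 1)
    (h12 : ∀ x : H, x ^ 12 ∈ M) (t : H) (ht : t ∈ V)
    (hS : ∀ s ∈ (S : Subgroup H), s * t = t * s) :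
    BL 2 (Subgroup.normalClosure {t} : Subgroup H) 39 := by
  obtain ⟨P, hVP⟩ := hV.exists_le_sylow
  have htP : t ∈ (P : Subgroup H) := hVP ht
  set t' : (P : Subgroup H) := ⟨t, htP⟩ with ht'
  have hV' : Subgroup.normalClosure {t'} ≤ V.subgroupOf (P : Subgroup H) := by
    refine Subgroup.normalClosure_le_normal ?_
    rintro _ rfl
    exact ht
  have h4 : ∀ x : (P : Subgroup H), x ^ 4 ∈ M.subgroupOf (P : Subgroup H) := by
    intro x
    have hx12 : (x : H) ^ 12 ∈ M := h12 x
    have hx24 : (x : H) ^ 24 = 1 := by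
      have := hM _ hx12
      rw [← pow_mul] at this
      exact this
    obtain ⟨k, hk⟩ := P.isPGroup' x
    have hk' : (x : H) ^ 2 ^ k = 1 := by
      have := congrArg Subtype.val hk
      simpa using this
    have hd : orderOf (x : H) ∣ 8 := by
      have h1 : orderOf (x : H) ∣ 24 := orderOf_dvd_of_pow_eq_one hx24
      have h2 : orderOf (x : H) ∣ 2 ^ k := orderOf_dvd_of_pow_eq_one hk'
      have h3 : Nat.Coprime (orderOf (x : H)) 3 :=
        Nat.Coprime.coprime_dvd_left h2 (Nat.Coprime.pow_left _ (by norm_num))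
      exact h3.dvd_of_dvd_mul_right (show orderOf (x : H) ∣ 8 * 3 from h1)
    have hx8 : (x : H) ^ 8 = 1 := orderOf_dvd_iff_pow_eq_one.1 hd
    have he : (x : H) ^ 4 = (x : H) ^ 12 := by
      have : (x : H) ^ 12 = (x : H) ^ 8 * (x : H) ^ 4 := by rw [← pow_add]
      rw [this, hx8, one_mul]
    rw [Subgroup.mem_subgroupOf]
    show ((x ^ 4 : (P : Subgroup H)) : H) ∈ M
    rw [Subgroup.coe_pow, he]
    exact hx12
  have hB : BL 2 (Subgroup.normalClosure {t'} : Subgroup (P : Subgroup H)) 39 := by
    refine BL_closure_four (M.subgroupOf (P : Subgroup H)) h4 t' ?_ ?_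
    · intro m hm y hy
      apply Subtype.ext
      exact hc m hm y (hV' hy)
    · intro m hm
      apply Subtype.ext
      exact hM m hm
  have hle : Subgroup.normalClosure {t} ≤
      (Subgroup.normalClosure {t'}).map (P : Subgroup H).subtype := by
    unfold Subgroup.normalClosure
    rw [Subgroup.closure_le]
    intro y hy
    rw [Group.mem_conjugatesOfSet_iff] at hy
    obtain ⟨t1, ht1, hconj⟩ := hy
    rw [Set.mem_singleton_iff] at ht1
    subst ht1
    obtain ⟨h, hh⟩ := isConj_iff.1 hconj
    obtain ⟨x, hx, s, hs, rfl⟩ := exists_mul_sylow h23 P S h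
    refine ⟨⟨x, hx⟩ * t' * (⟨x, hx⟩ : (P : Subgroup H))⁻¹, ?_, ?_⟩
    · exact Subgroup.normalClosure_normal.conj_mem _
        (Subgroup.subset_normalClosure (Set.mem_singleton _)) _
    · rw [← hh]
      show x * t1 * x⁻¹ = x * s * t1 * (x * s)⁻¹
      have := hS s hs
      rw [mul_assoc x s t1, this]
      group
  refine BL.of_injective hB
    (((Subgroup.normalClosure {t'}).equivMapOfInjective (P : Subgroup H).subtype
      (Subgroup.subtype_injective _)).symm.toMonoidHom.comp (Subgroup.inclusion hle)) ?_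
  intro a b hab
  have h1 := ((Subgroup.normalClosure {t'}).equivMapOfInjective (P : Subgroup H).subtype
      (Subgroup.subtype_injective _)).symm.injective hab
  exact Subgroup.inclusion_injective hle h1

end Pool.Agent.MPa0c355.B12
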