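import Pool.Agent.Lib.MP_a0c355_lc.B12.CDefs

/-! # Independent operators: `|R / Z(R)| ≤ (dim Y)^2` -/

set_option autoImplicit false

namespace Pool.Agent.MPa0c355.B12

open Module
open scoped commutatorElement

/-- Common eigenvectors of the maps `v ↦ a_g v b_g` with different eigenvalues are linearly
independent. -/
theorem indep_linearIndependent {K V ι G : Type*} [Field K] [AddCommGroup V] [Module K V]
    (T : G → (V →ₗ[K] V)) (v : ι → V) (l : ι → G → K) (hv : ∀ i, v i ≠ 0)
    (hT : ∀ g i, T g (v i) = l i g • v i) (hne : ∀ i j, i ≠ j → ∃ g, l i g ≠ l j g) :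
    LinearIndependent K v := by
  classical
  rw [linearIndependent_iff']
  intro s
  induction s using Finset.induction_on with
  | empty =>
    intro c _ i hi
    exact absurd hi (Finset.notMem_empty i)
  | insert a s has ih =>
    intro c hc
    have h1 : ∀ j ∈ s, c j = 0 := by
      intro j hj
      have hja : j ≠ a := fun h => has (h ▸ hj)
      obtain ⟨g, hg⟩ := hne j a hja
      have h2 := congrArg (T g) hc
      rw [map_sum, map_zero] at h2
      have h3 : ∑ i ∈ s, (c i * (l i g - l a g)) • v i = 0 := by
        have h4 : ∑ i ∈ insert a s, (c i * (l i g - l a g)) • v i = 0 := by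
          calc ∑ i ∈ insert a s, (c i * (l i g - l a g)) • v i
              = ∑ i ∈ insert a s, T g (c i • v i) - l a g • ∑ i ∈ insert a s, c i • v i := by
                rw [Finset.smul_sum, ← Finset.sum_sub_distrib]
                refine Finset.sum_congr rfl fun i _ => ?_
                rw [map_smul, hT, smul_smul, smul_smul, ← sub_smul]
                congr 1
                ring
            _ = 0 := by rw [h2, hc, smul_zero, sub_zero]
        rw [Finset.sum_insert has, sub_self, mul_zero, zero_smul, zero_add] at h4
        exact h4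
      have h5 := ih (fun i => c i * (l i g - l a g)) h3 j hj
      exact (mul_eq_zero.1 h5).resolve_right (sub_ne_zero_of_ne hg)
    intro i hi
    rcases Finset.mem_insert.1 hi with h | h
    · rw [Finset.sum_insert has, Finset.sum_eq_zero, add_zero] at hc
      · rw [h]
        exact (smul_eq_zero.1 hc).resolve_right (hv a)
      · intro j hj
        rw [h1 j hj, zero_smul]
    · exact h1 i h

/-- `R` acts faithfully on `Y` and all commutators act by scalars.  Representatives `r` of the cosets of
the centre are linearly independent in `End_K(Y)`, whose dimension is `(dim Y)^2`: for `g ∈ R` the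
operator `f ↦ σ g ∘ f ∘ σ g⁻¹` of `End_K(Y)` has the eigenvector `σ r` with eigenvalue the scalar
of `⁅g, r⁆`; if `r r'⁻¹` is not central some `g` has different eigenvalues at `σ r` and `σ r'`
(faithfulness). A relation `∑ c_r σ r = 0` with the minimal number of nonzero `c_r`, at least two (as
`σ r ≠ 0`), conjugated by `g` and subtracted from a multiple of itself gives a shorter nontrivial
one. -/
theorem indep_bound {K R Y : Type*} [Field K] [Group R] [Finite R] [AddCommGroup Y] [Module K Y]
    [FiniteDimensional K Y] [Nontrivial Y] (σ : R →* (Y →ₗ[K] Y)) (hf : ∀ g, σ g = 1 → g = 1)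
    (hs : ∀ r s : R, ∃ c : K, σ ⁅r, s⁆ = c • (1 : Y →ₗ[K] Y)) :
    Nat.card R ≤ Nat.card (Subgroup.center R) * finrank K Y ^ 2 := by
  classical
  choose c hc using hs
  have hinj : ∀ a b : R, σ a = σ b → a = b := by
    intro a b hab
    have h1 : σ (a * b⁻¹) = 1 := by
      rw [map_mul, hab, ← map_mul, mul_inv_cancel, map_one]
    exact mul_inv_eq_one.1 (hf _ h1)
  let v : R ⧸ Subgroup.center R → (Y →ₗ[K] Y) := fun q => σ q.out
  have hli : LinearIndependent K v := by
    refine indep_linearIndependent (G := R)
      (fun g => LinearMap.mulLeft K (σ g) ∘ₗ LinearMap.mulRight K (σ g⁻¹)) v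
      (fun q g => c g q.out) ?_ ?_ ?_
    · intro q h0
      have h1 : (1 : Y →ₗ[K] Y) = 0 := by
        have h2 : σ (q.out) * σ (q.out)⁻¹ = 1 := by
          rw [← map_mul, mul_inv_cancel, map_one]
        rw [← h2, show σ q.out = 0 from h0, zero_mul]
      exact one_ne_zero h1
    · intro g q
      show σ g * (σ q.out * σ g⁻¹) = c g q.out • σ q.out
      have h1 : σ g * (σ q.out * σ g⁻¹) = σ ⁅g, q.out⁆ * σ q.out := by
        rw [← map_mul, ← map_mul, ← map_mul]
        congr 1
        rw [commutatorElement_def]
        group
      rw [h1, hc, smul_mul_assoc, one_mul]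
    · intro p q hpq
      by_contra hcon
      push Not at hcon
      apply hpq
      rw [← QuotientGroup.out_eq' p, ← QuotientGroup.out_eq' q, QuotientGroup.eq,
        Subgroup.mem_center_iff]
      intro g
      have h1 : ⁅g⁻¹, p.out⁆ = ⁅g⁻¹, q.out⁆ := by
        apply hinj
        rw [hc, hc, hcon g⁻¹]
      rw [commutatorElement_def, commutatorElement_def, mul_assoc, mul_assoc, mul_assoc,
        mul_assoc, mul_right_inj, inv_inv] at h1
      -- p g p⁻¹ = q g q⁻¹
      calc g * ((p.out)⁻¹ * q.out)
          = (p.out)⁻¹ * (p.out * (g * (p.out)⁻¹)) * q.out := by group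
        _ = (p.out)⁻¹ * (q.out * (g * (q.out)⁻¹)) * q.out := by rw [h1]
        _ = (p.out)⁻¹ * q.out * g := by group
  have hfin : Finite (R ⧸ Subgroup.center R) := inferInstance
  have := Fintype.ofFinite (R ⧸ Subgroup.center R)
  have h1 := hli.fintype_card_le_finrank
  rw [Module.finrank_linearMap, ← Nat.card_eq_fintype_card, ← pow_two] at h1
  rw [Subgroup.card_eq_card_quotient_mul_card_subgroup (Subgroup.center R), mul_comm]
  exact Nat.mul_le_mul_left _ h1

end Pool.Agent.MPa0c355.B12
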