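import Pool.Agent.Lib.MP_a0c355_lc.B12.Defs

/-! # Products of normal subgroups of bounded length -/

set_option autoImplicit false

namespace Pool.Agent.MPa0c355.B12

open scoped commutatorElement

variable {p : ℕ} {H : Type*} [Group H]

/-- the shifted series of `A`, as subgroups of `H` -/
def LampFitA (p : ℕ) {H : Type*} [Group H] (A : Subgroup H) : ℕ → Subgroup H
  | 0 => ⊤
  | i + 1 => (lamp p A i).map A.subtype

theorem LampFit_one (A : Subgroup H) : LampFitA p A 1 = A := by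
  show (lamp p A 0).map A.subtype = A
  rw [lamp_zero, ← MonoidHom.range_eq_map, Subgroup.range_subtype]

theorem LampFit_conj (A : Subgroup H) [hA : A.Normal] (i : ℕ) {y : H} (hy : y ∈ LampFitA p A i)
    (g : H) : g * y * g⁻¹ ∈ LampFitA p A i := by
  cases i with
  | zero => exact Subgroup.mem_top _
  | succ i =>
    obtain ⟨z, hz, rfl⟩ := hy
    refine ⟨MulAut.conjNormal g z, lamp_map (MulAut.conjNormal g).toMonoidHom i hz, ?_⟩
    exact MulAut.conjNormal_apply g z

theorem LampFit_comm (A : Subgroup H) [hA : A.Normal] (i : ℕ) {y a : H}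
    (hy : y ∈ LampFitA p A i) (ha : a ∈ A) : ⁅y, a⁆ ∈ LampFitA p A (i + 1) := by
  cases i with
  | zero =>
    rw [LampFit_one, commutatorElement_def]
    exact mul_mem (hA.conj_mem a ha y) (inv_mem ha)
  | succ i =>
    obtain ⟨z, hz, rfl⟩ := hy
    refine ⟨⁅z, ⟨a, ha⟩⁆, lamp_comm_mem hz _, ?_⟩
    rw [map_commutatorElement]
    rfl

theorem LampFit_pow (A : Subgroup H) (i : ℕ) {y : H} (hy : y ∈ LampFitA p A (i + 1)) :
    y ^ p ∈ LampFitA p A (i + 2) := by
  obtain ⟨z, hz, rfl⟩ := hy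
  exact ⟨z ^ p, lamp_pow_mem hz, map_pow _ _ _⟩

theorem LampFit_anti (A : Subgroup H) : Antitone (LampFitA p A) := by
  refine antitone_nat_of_succ_le fun i => ?_
  cases i with
  | zero => exact le_top
  | succ i => exact Subgroup.map_mono (lamp_succ_le_self i)

theorem LampFit_bot (A : Subgroup H) {a : ℕ} (h : BL p A a) : LampFitA p A (a + 1) = ⊥ := by
  show (lamp p A a).map A.subtype = ⊥
  rw [show lamp p A a = ⊥ from h, Subgroup.map_bot]

/-- the generators of the comparison series -/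
def LampFitS (p : ℕ) {H : Type*} [Group H] (A B : Subgroup H) (k : ℕ) : Set H :=
  {y | ∃ i j, i + j = k + 1 ∧ y ∈ LampFitA p A i ∧ y ∈ LampFitA p B j}

/-- the comparison series -/
def LampFitK (p : ℕ) {H : Type*} [Group H] (A B : Subgroup H) (k : ℕ) : Subgroup H :=
  Subgroup.closure (LampFitS p A B k)

theorem LampFit_Knormal (A B : Subgroup H) [A.Normal] [B.Normal] (k : ℕ) :
    (LampFitK p A B k).Normal := by
  refine ⟨fun n hn g => ?_⟩
  refine Subgroup.closure_induction (p := fun y _ => g * y * g⁻¹ ∈ LampFitK p A B k) ?_ ?_ ?_ ?_ hn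
  · rintro y ⟨i, j, hij, h1, h2⟩
    exact Subgroup.subset_closure ⟨i, j, hij, LampFit_conj A i h1 g, LampFit_conj B j h2 g⟩
  · rw [mul_one, mul_inv_cancel]
    exact one_mem _
  · intro x y _ _ hx hy
    have e : g * (x * y) * g⁻¹ = (g * x * g⁻¹) * (g * y * g⁻¹) := by group
    rw [e]
    exact mul_mem hx hy
  · intro x _ hx
    have e : g * x⁻¹ * g⁻¹ = (g * x * g⁻¹)⁻¹ := by group
    rw [e]
    exact inv_mem hx

theorem LampFit_Kle (A B : Subgroup H) (k : ℕ) : LampFitK p A B k ≤ A ⊔ B := by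
  refine (Subgroup.closure_le _).2 ?_
  rintro y ⟨i, j, hij, h1, h2⟩
  cases i with
  | zero =>
    have h : y ∈ LampFitA p B 1 := LampFit_anti B (by omega : 1 ≤ j) h2
    rw [LampFit_one] at h
    exact Subgroup.mem_sup_right h
  | succ i =>
    have h : y ∈ LampFitA p A 1 := LampFit_anti A (by omega : 1 ≤ i + 1) h1
    rw [LampFit_one] at h
    exact Subgroup.mem_sup_left h

theorem LampFit_Scomm (A B : Subgroup H) [A.Normal] [B.Normal] (k : ℕ) {y e : H}
    (hy : y ∈ LampFitS p A B k) (he : e ∈ A ⊔ B) : ⁅y, e⁆ ∈ LampFitK p A B (k + 1) := by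
  have hn := LampFit_Knormal (p := p) A B (k + 1)
  obtain ⟨i, j, hij, h1, h2⟩ := hy
  have hle : A ⊔ B ≤ (show Subgroup H from
      { carrier := {e | ⁅y, e⁆ ∈ LampFitK p A B (k + 1)}
        one_mem' := by
          show ⁅y, (1 : H)⁆ ∈ LampFitK p A B (k + 1)
          rw [commutatorElement_one_right]
          exact one_mem _
        mul_mem' := by
          intro a b ha hb
          show ⁅y, a * b⁆ ∈ LampFitK p A B (k + 1)
          have e : ⁅y, a * b⁆ = ⁅y, a⁆ * (a * ⁅y, b⁆ * a⁻¹) := by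
            simp only [commutatorElement_def]; group
          rw [e]
          exact mul_mem ha (hn.conj_mem _ hb a)
        inv_mem' := by
          intro a ha
          show ⁅y, a⁻¹⁆ ∈ LampFitK p A B (k + 1)
          have e : ⁅y, a⁻¹⁆ = a⁻¹ * ⁅y, a⁆⁻¹ * a⁻¹⁻¹ := by
            simp only [commutatorElement_def]; group
          rw [e]
          exact hn.conj_mem _ (inv_mem ha) _ }) := by
    refine sup_le ?_ ?_
    · intro a ha
      refine Subgroup.subset_closure ⟨i + 1, j, by omega, LampFit_comm A i h1 ha, ?_⟩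
      have e : ⁅y, a⁆ = y * (a * y * a⁻¹)⁻¹ := by
        simp only [commutatorElement_def]; group
      rw [e]
      exact mul_mem h2 (inv_mem (LampFit_conj B j h2 a))
    · intro b hb
      refine Subgroup.subset_closure ⟨i, j + 1, by omega, ?_, LampFit_comm B j h2 hb⟩
      have e : ⁅y, b⁆ = y * (b * y * b⁻¹)⁻¹ := by
        simp only [commutatorElement_def]; group
      rw [e]
      exact mul_mem h1 (inv_mem (LampFit_conj A i h1 b))
  exact hle he

theorem LampFit_Kcomm (A B : Subgroup H) [A.Normal] [B.Normal] (k : ℕ) {y e : H}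
    (hy : y ∈ LampFitK p A B k) (he : e ∈ A ⊔ B) : ⁅y, e⁆ ∈ LampFitK p A B (k + 1) := by
  have hn := LampFit_Knormal (p := p) A B (k + 1)
  refine Subgroup.closure_induction (p := fun y _ => ⁅y, e⁆ ∈ LampFitK p A B (k + 1)) ?_ ?_ ?_ ?_ hy
  · intro y hy
    exact LampFit_Scomm A B k hy he
  · rw [commutatorElement_one_left]
    exact one_mem _
  · intro x y _ _ hx hy
    have e' : ⁅x * y, e⁆ = (x * ⁅y, e⁆ * x⁻¹) * ⁅x, e⁆ := by
      simp only [commutatorElement_def]; group
    rw [e']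
    exact mul_mem (hn.conj_mem _ hy x) hx
  · intro x _ hx
    have e' : ⁅x⁻¹, e⁆ = x⁻¹ * ⁅x, e⁆⁻¹ * x⁻¹⁻¹ := by
      simp only [commutatorElement_def]; group
    rw [e']
    exact hn.conj_mem _ (inv_mem hx) _

theorem LampFit_Kpow (A B : Subgroup H) [A.Normal] [B.Normal] (k : ℕ) {y : H}
    (hy : y ∈ LampFitK p A B k) : y ^ p ∈ LampFitK p A B (k + 1) := by
  have hn := LampFit_Knormal (p := p) A B (k + 1)
  refine Subgroup.closure_induction (p := fun y _ => y ^ p ∈ LampFitK p A B (k + 1)) ?_ ?_ ?_ ?_ hy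
  · rintro y ⟨i, j, hij, h1, h2⟩
    cases i with
    | zero =>
      obtain ⟨j, rfl⟩ : ∃ j', j = j' + 1 := ⟨j - 1, by omega⟩
      exact Subgroup.subset_closure ⟨0, j + 2, by omega, Subgroup.mem_top _, LampFit_pow B j h2⟩
    | succ i =>
      exact Subgroup.subset_closure ⟨i + 2, j, by omega, LampFit_pow A i h1, pow_mem h2 p⟩
  · rw [one_pow]
    exact one_mem _
  · intro x y hx hy' hx1 hy1
    have hc : ⁅x, y⁆ ∈ LampFitK p A B (k + 1) :=
      LampFit_Kcomm A B k hx (LampFit_Kle A B k hy')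
    have h1 : Commute (x : H ⧸ LampFitK p A B (k + 1)) (y : H ⧸ LampFitK p A B (k + 1)) := by
      rw [← commutatorElement_eq_one_iff_commute]
      exact (QuotientGroup.eq_one_iff (N := LampFitK p A B (k + 1)) ⁅x, y⁆).2 hc
    rw [← QuotientGroup.eq_one_iff (N := LampFitK p A B (k + 1))] at hx1 hy1 ⊢
    rw [QuotientGroup.mk_pow] at hx1 hy1 ⊢
    rw [QuotientGroup.mk_mul, h1.mul_pow, hx1, hy1, one_mul]
  · intro x _ hx1
    rw [inv_pow]
    exact inv_mem hx1

theorem LampFit_Kbot (A B : Subgroup H) {a b : ℕ} (hA : BL p A a) (hB : BL p B b) :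
    LampFitK p A B (a + b) = ⊥ := by
  rw [eq_bot_iff]
  refine (Subgroup.closure_le _).2 ?_
  rintro y ⟨i, j, hij, h1, h2⟩
  rcases le_or_gt (a + 1) i with h | h
  · have h3 := LampFit_anti A h h1
    rw [LampFit_bot A hA] at h3
    exact h3
  · have h3 := LampFit_anti B (by omega : b + 1 ≤ j) h2
    rw [LampFit_bot B hB] at h3
    exact h3

/-- Put `A_0 = ⊤`, `A_(i+1) = (lamp p A i).map A.subtype` (normal in `H`: `lamp_map` for the
conjugations of `A`), the same for `B`, and
`K k = ⨆_{i + j = k + 1} (A_i ⊓ B_j)`, a normal subgroup of `H`.  For `y ∈ A_i ⊓ B_j`, `a ∈ A`: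
`⁅y, a⁆ ∈ A_(i+1) ⊓ B_j`; `b ∈ B`: `⁅y, b⁆ ∈ A_i ⊓ B_(j+1)`; so `⁅y, e⁆ ∈ K (k+1)` for
`e ∈ A ⊔ B` (the set of those `e` is a subgroup as `K (k+1)` is normal); and `y ^ p ∈ K (k+1)`: if
`i ≥ 1` then `y ^ p ∈ A_(i+1) ⊓ B_j`, otherwise `j ≥ 1`.  For products `y y' ...` use that modulo
`K (k+1)` the group `K k` is central in `A ⊔ B` (when `K k ≤ A ⊔ B`, true since `i ≥ 1` or `j ≥ 1`),
so that `(y y')^p ≡ y^p y'^p`.  Hence the image of `lamp p (A ⊔ B) k` in `H` is in `K k`
(`lamp_le_of_series`), and `K (a + b) = ⊥` as `A_(a+1) = ⊥`, `B_(b+1) = ⊥`. -/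
theorem BL_sup (A B : Subgroup H) [A.Normal] [B.Normal] {a b : ℕ} (hA : BL p A a)
    (hB : BL p B b) : BL p (A ⊔ B : Subgroup H) (a + b) := by
  unfold BL
  rw [eq_bot_iff]
  have h := lamp_le_of_series (p := p) (E := (A ⊔ B : Subgroup H))
    (fun k => (LampFitK p A B k).subgroupOf (A ⊔ B)) ?_ ?_ ?_ (a + b)
  · refine h.trans ?_
    show (LampFitK p A B (a + b)).subgroupOf (A ⊔ B) ≤ ⊥
    rw [LampFit_Kbot A B hA hB, Subgroup.bot_subgroupOf]
  · show (LampFitK p A B 0).subgroupOf (A ⊔ B) = ⊤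
    rw [Subgroup.subgroupOf_eq_top]
    refine sup_le ?_ ?_
    · intro y hy
      refine Subgroup.subset_closure ⟨1, 0, by omega, ?_, Subgroup.mem_top _⟩
      rw [LampFit_one]; exact hy
    · intro y hy
      refine Subgroup.subset_closure ⟨0, 1, by omega, Subgroup.mem_top _, ?_⟩
      rw [LampFit_one]; exact hy
  · intro i x hx e
    exact LampFit_Kcomm A B i (Subgroup.mem_subgroupOf.1 hx) e.2
  · intro i x hx
    exact LampFit_Kpow A B i (Subgroup.mem_subgroupOf.1 hx)

/-- induction on `m` with `BL_sup` -/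
theorem BL_sup_range (f : ℕ → Subgroup H) (hf : ∀ j, (f j).Normal) {L : ℕ}
    (h : ∀ j, BL p (f j) L) (m : ℕ) : BL p ((Finset.range m).sup f : Subgroup H) (m * L) := by
  suffices hs : ((Finset.range m).sup f).Normal ∧
      BL p ((Finset.range m).sup f : Subgroup H) (m * L) from hs.2
  induction m with
  | zero =>
    rw [Finset.range_zero, Finset.sup_empty, Nat.zero_mul]
    refine ⟨inferInstance, ?_⟩
    unfold BL
    exact Subsingleton.elim _ _
  | succ m ih =>
    obtain ⟨h1, h2⟩ := ih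
    rw [Finset.range_add_one, Finset.sup_insert]
    have h3 := hf m
    refine ⟨Subgroup.sup_normal _ _, ?_⟩
    have h4 := BL_sup (f m) ((Finset.range m).sup f) (h m) h2
    rw [show (m + 1) * L = L + m * L by ring]
    exact h4

end Pool.Agent.MPa0c355.B12
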