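import Pool.Agent.Lib.MP_a0c355_lc.B12.AbsP

/-! # Lemma 1: the density lemma for an element of a normal subgroup of bounded length -/

set_option autoImplicit false

namespace Pool.Agent.MPa0c355.B12

open scoped commutatorElement

/-- `nw` for the conjugation action on a normal subgroup is `(t x)^d x^(-d)`. -/
theorem nw_conj {Γ : Type*} [Group Γ] (E : Subgroup Γ) [E.Normal] (t : E) (x : Γ) (d : ℕ) :
    ((nw (MulAut.conjNormal : Γ →* MulAut E) t x d : E) : Γ) = ((t : Γ) * x) ^ d * (x ^ d)⁻¹ := by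
  induction d with
  | zero => simp [nw]
  | succ d ih =>
    rw [nw, Subgroup.coe_mul, MulAut.conjNormal_apply, ih, pow_succ' ((t : Γ) * x),
      pow_succ' x, mul_inv_rev]
    group

theorem lampSer_log {p : ℕ} (hp : 2 ≤ p) (i j : ℕ) (hi : 1 ≤ i) (hj : 1 ≤ j) :
    Nat.log p (i + j) ≤ max (Nat.log p i) (Nat.log p j) + 1 := by
  rcases le_total i j with h | h
  · have h1 : Nat.log p (i + j) ≤ Nat.log p (j * p) := Nat.log_mono_right (by nlinarith)
    rw [Nat.log_mul_base (by omega) (by omega)] at h1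
    exact h1.trans (Nat.add_le_add_right (le_max_right _ _) 1)
  · have h1 : Nat.log p (i + j) ≤ Nat.log p (i * p) := Nat.log_mono_right (by nlinarith)
    rw [Nat.log_mul_base (by omega) (by omega)] at h1
    exact h1.trans (Nat.add_le_add_right (le_max_left _ _) 1)

theorem lampSer_half {G : Type*} [Group G] [Finite G] (t : G) (d : ℕ) :
    Nat.card {x : G // (t * x) ^ d ≠ x ^ d} ≤ 2 * Nat.card {x : G // x ^ d ≠ 1} := by
  classical
  have := Fintype.ofFinite G
  simp only [Nat.card_eq_fintype_card, Fintype.card_subtype]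
  have h1 : (Finset.univ.filter fun x : G => (t * x) ^ d ≠ x ^ d) ⊆
      (Finset.univ.filter fun x : G => x ^ d ≠ 1) ∪
        (Finset.univ.filter fun x : G => (t * x) ^ d ≠ 1) := by
    intro x hx
    simp only [Finset.mem_filter, Finset.mem_univ, true_and, Finset.mem_union] at hx ⊢
    by_contra hcon
    push Not at hcon
    exact hx (by rw [hcon.1, hcon.2])
  have h2 : (Finset.univ.filter fun x : G => (t * x) ^ d ≠ 1).card
      = (Finset.univ.filter fun x : G => x ^ d ≠ 1).card := by
    refine Finset.card_bij (fun x _ => t * x) ?_ ?_ ?_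
    · intro x hx; simpa using hx
    · intro x _ y _ h; exact mul_left_cancel h
    · intro y hy
      exact ⟨t⁻¹ * y, by simpa using hy, by simp⟩
  refine (Finset.card_le_card h1).trans ((Finset.card_union_le _ _).trans ?_)
  rw [h2]; omega

/-- `P i = lamp p E (Nat.log p i)` is an `N_p`-series with `P (p ^ L) = ⊥`, invariant under all
automorphisms (`lamp_map`), because `log_p (i + j) ≤ max (log_p i) (log_p j) + 1` for `i, j ≥ 1` and
`log_p (p i) = log_p i + 1` for `i ≥ 1` (see `density_central` in `../Density.lean`).  Then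
`abs_density_p` for `c = MulAut.conjNormal`, `nw_conj`, and
`#{x | (t x)^d ≠ x^d} ≤ 2 #{x | x^d ≠ 1}` (see `half_bound` in `../Density.lean`). -/
theorem density_of_BL (p : ℕ) [Fact p.Prime] {Γ : Type*} [Group Γ] [Finite Γ] (E : Subgroup Γ)
    [E.Normal] (hE : IsPGroup p E) {L : ℕ} (hL : BL p E L) (d : ℕ) {t x : Γ} (ht : t ∈ E)
    (h1 : (t * x) ^ d ≠ x ^ d) (h2 : ((t * x) ^ d * (x ^ d)⁻¹) ^ p = 1) {n : ℕ}
    (hn : Nat.card Γ ≤ 2 ^ n) :
    Nat.card Γ ≤ 2 * (((n + 1) ^ (p ^ L)) ^ 2 + 1) ^ d * Nat.card {x : Γ // x ^ d ≠ 1} := by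
  have hp : 2 ≤ p := (Fact.out : p.Prime).two_le
  let c : Γ →* MulAut E := MulAut.conjNormal
  let P : ℕ → Subgroup E := fun i => lamp p E (Nat.log p i)
  let t' : E := ⟨t, ht⟩
  have hW : ∀ y, ((nw c t' y d : E) : Γ) = (t * y) ^ d * (y ^ d)⁻¹ := fun y => nw_conj E t' y d
  have hiff : ∀ y, nw c t' y d ≠ 1 ↔ (t * y) ^ d ≠ y ^ d := by
    intro y
    rw [Ne, Ne, not_iff_not, Subtype.ext_iff, hW]
    exact mul_inv_eq_one
  have key := abs_density_p p hE c P (by
      change lamp p E (Nat.log p 0) = ⊤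
      rw [Nat.log_zero_right]; rfl) (by
      change lamp p E (Nat.log p 1) = ⊤
      rw [Nat.log_one_right]; rfl)
    (fun i j hij => lamp_antitone (Nat.log_mono_right hij))
    (by
      intro i j a b ha hb
      change a ∈ lamp p E (Nat.log p i) at ha
      change b ∈ lamp p E (Nat.log p j) at hb
      change _ ∈ lamp p E (Nat.log p (i + j))
      have e1 : a⁻¹ * b⁻¹ * a * b = ⁅a⁻¹, b⁻¹⁆ := by
        rw [commutatorElement_def, inv_inv, inv_inv]
      rw [e1]
      have hcx : ∀ k, a ∈ lamp p E k → ⁅a⁻¹, b⁻¹⁆ ∈ lamp p E (k + 1) := fun k hk =>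
        lamp_comm_mem (inv_mem hk) _
      have hcy : ∀ k, b ∈ lamp p E k → ⁅a⁻¹, b⁻¹⁆ ∈ lamp p E (k + 1) := fun k hk => by
        rw [← commutatorElement_inv]
        exact inv_mem (lamp_comm_mem (inv_mem hk) _)
      rcases Nat.eq_zero_or_pos i with rfl | hi
      · rw [zero_add]
        exact lamp_antitone (Nat.le_succ _) (hcy _ hb)
      rcases Nat.eq_zero_or_pos j with rfl | hj
      · rw [add_zero]
        exact lamp_antitone (Nat.le_succ _) (hcx _ ha)
      refine lamp_antitone (lampSer_log hp i j hi hj) ?_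
      rcases le_total (Nat.log p i) (Nat.log p j) with h | h
      · rw [max_eq_right h]; exact hcy _ hb
      · rw [max_eq_left h]; exact hcx _ ha)
    (by
      intro i a ha
      change a ∈ lamp p E (Nat.log p i) at ha
      change _ ∈ lamp p E (Nat.log p (p * i))
      rcases Nat.eq_zero_or_pos i with rfl | hi
      · rw [mul_zero]
        exact pow_mem ha p
      · rw [mul_comm p i, Nat.log_mul_base (by omega) (by omega)]
        exact lamp_pow_mem ha)
    (m := p ^ L) (by
      change lamp p E (Nat.log p (p ^ L)) = ⊥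
      rw [Nat.log_pow (by omega)]
      exact hL)
    (by
      intro g i y hy
      change y ∈ lamp p E (Nat.log p i) at hy
      change _ ∈ lamp p E (Nat.log p i)
      exact lamp_map (MulEquiv.toMonoidHom (c g)) _ hy)
    t' d x (fun h => (hiff x).2 h1 h) (by
      apply Subtype.ext
      rw [Subgroup.coe_pow, hW]
      exact h2)
    (n := n) ((Subgroup.card_le_card_group E).trans hn)
  have hcard : Nat.card {y // nw c t' y d ≠ 1} = Nat.card {y // (t * y) ^ d ≠ y ^ d} :=
    Nat.card_congr (Equiv.subtypeEquivRight fun y => hiff y)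
  rw [hcard] at key
  calc Nat.card Γ ≤ (((n + 1) ^ (p ^ L)) ^ 2 + 1) ^ d *
        Nat.card {y // (t * y) ^ d ≠ y ^ d} := key
    _ ≤ (((n + 1) ^ (p ^ L)) ^ 2 + 1) ^ d * (2 * Nat.card {x : Γ // x ^ d ≠ 1}) :=
        Nat.mul_le_mul_left _ (lampSer_half t d)
    _ = _ := by ring

end Pool.Agent.MPa0c355.B12
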