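import Pool.Agent.Lib.MP_a0c355_lc.B12.ProgB

/-! # The potential -/

set_option autoImplicit false

namespace Pool.Agent.MPa0c355.B12

open scoped ENNReal

variable {G : Type} [Group G] {N : ℕ}

open Classical in
/-- the potential of a subgroup `H` of `D` -/
noncomputable def phi (D H : Subgroup G) : ℝ≥0∞ :=
  if D ≤ H then 0 else (Nat.card D : ℝ≥0∞) / Nat.card H

open Classical in
/-- if `g ∉ H` then `|H ⊔ ⟨g⟩| ≥ 2 |H|` (Lagrange) -/
theorem phi_step [Finite G] (D H : Subgroup G) (g : G) :
    phi D (H ⊔ Subgroup.closure {g}) ≤ if g ∈ H then phi D H else phi D H / 2 := by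
  by_cases hg : g ∈ H
  · have h1 : H ⊔ Subgroup.closure {g} = H := by
      rw [sup_eq_left, Subgroup.closure_le]
      intro x hx
      rw [Set.mem_singleton_iff] at hx
      rw [hx]
      exact hg
    rw [if_pos hg, h1]
  rw [if_neg hg]
  unfold phi
  by_cases h1 : D ≤ H ⊔ Subgroup.closure {g}
  · rw [if_pos h1]
    exact zero_le
  have h2 : ¬ D ≤ H := fun h => h1 (h.trans le_sup_left)
  rw [if_neg h1, if_neg h2]
  have h3 : 2 * Nat.card H ≤ Nat.card (H ⊔ Subgroup.closure {g} : Subgroup G) := by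
    have hle : H ≤ H ⊔ Subgroup.closure {g} := le_sup_left
    obtain ⟨m, hm⟩ := Subgroup.card_dvd_of_le hle
    have hpos : 0 < Nat.card H := Nat.card_pos
    have hpos' : 0 < Nat.card (H ⊔ Subgroup.closure {g} : Subgroup G) := Nat.card_pos
    have hm0 : m ≠ 0 := by
      intro h
      rw [h, mul_zero] at hm
      omega
    have hm1 : m ≠ 1 := by
      intro h
      rw [h, mul_one] at hm
      have h4 : H = H ⊔ Subgroup.closure {g} := Subgroup.eq_of_le_of_card_ge hle hm.le
      apply hg
      rw [h4]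
      exact Subgroup.mem_sup_right (Subgroup.subset_closure rfl)
    rw [hm, mul_comm 2]
    exact Nat.mul_le_mul_left _ (by omega)
  have h4 : ((2 : ℝ≥0∞) * Nat.card H) ≤
      (Nat.card (H ⊔ Subgroup.closure {g} : Subgroup G) : ℝ≥0∞) := by
    exact_mod_cast h3
  have h5 : (Nat.card D : ℝ≥0∞) / Nat.card H / 2 = (Nat.card D : ℝ≥0∞) / (2 * Nat.card H) := by
    rw [div_eq_mul_inv, div_eq_mul_inv, div_eq_mul_inv,
      ENNReal.mul_inv (Or.inl (by norm_num)) (Or.inl (by norm_num)), mul_assoc,
      mul_comm (Nat.card H : ℝ≥0∞)⁻¹]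
  rw [h5]
  exact ENNReal.div_le_div_left h4 _

/-- for `H ≤ D`, `H ≠ D` the potential is at least 1 -/
theorem one_le_phi [Finite G] {D H : Subgroup G} (h : H ≤ D) (hne : H ≠ D) : 1 ≤ phi D H := by
  have h1 : ¬ D ≤ H := fun h2 => hne (le_antisymm h h2)
  unfold phi
  rw [if_neg h1]
  have hpos : 0 < Nat.card H := Nat.card_pos
  rw [ENNReal.le_div_iff_mul_le (Or.inl (by exact_mod_cast hpos.ne')) (Or.inl (by simp)), one_mul]
  exact_mod_cast Nat.le_of_dvd Nat.card_pos (Subgroup.card_dvd_of_le h)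

theorem phi_bot_le [Finite G] (D : Subgroup G) : phi D ⊥ ≤ Nat.card G := by
  unfold phi
  split_ifs with h
  · exact zero_le
  · rw [Subgroup.card_bot, Nat.cast_one, div_one]
    exact_mod_cast Nat.le_of_dvd Nat.card_pos (Subgroup.card_subgroup_dvd_card D)

/-- changing the cell `j` from 1 to `g`: the row generates `gen N r ⊔ ⟨g⟩` (all other cells are the
same) -/
theorem gen_update (r r' : ℕ → G) (j : ℕ) (hj : j < 40 * (N + 2)) (h1 : r j = 1)
    (h : ∀ a, a ≠ j → r' a = r a) : gen N r' = gen N r ⊔ Subgroup.closure {r' j} := by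
  apply le_antisymm
  · unfold gen
    rw [Subgroup.closure_le]
    rintro _ ⟨a, ha, rfl⟩
    by_cases haj : a = j
    · rw [haj]
      exact Subgroup.mem_sup_right (Subgroup.subset_closure rfl)
    · rw [h a haj]
      exact Subgroup.mem_sup_left (Subgroup.subset_closure ⟨a, ha, rfl⟩)
  · refine sup_le ?_ ?_
    · unfold gen
      rw [Subgroup.closure_le]
      rintro _ ⟨a, ha, rfl⟩
      by_cases haj : a = j
      · rw [haj, h1]
        exact one_mem _
      · rw [← h a haj]
        exact Subgroup.subset_closure ⟨a, ha, rfl⟩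
    · rw [Subgroup.closure_le]
      intro x hx
      rw [Set.mem_singleton_iff] at hx
      rw [hx]
      exact Subgroup.subset_closure ⟨j, hj, rfl⟩

end Pool.Agent.MPa0c355.B12
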