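import Pool.Agent.Lib.MP_a0c355_lc.B12.BodyB
import Pool.Agent.Lib.MP_a0c355_lc.B12.Phi

/-! # One level -/

set_option autoImplicit false

namespace Pool.Agent.MPa0c355.B12

open scoped ENNReal commutatorElement

variable {G : Type} [Group G] {N : ℕ}

/-- `τ` agrees with `σ` outside the first `a` cells of the next row, and on all counters other than
`1` and `2` -/
structure FrLB (a : ℕ) (σ τ : St G) : Prop where
  mem : ∀ i j, ¬(i = σ.nv 0 + 1 ∧ j < a) → τ.mem 0 i j = σ.mem 0 i j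
  nv : ∀ x, x ≠ 1 → x ≠ 2 → τ.nv x = σ.nv x

omit [Group G] in
/-- one step of the loop preserves the invariant -/
theorem levelB_step (a : ℕ) (σ τ ρ : St G) (hF : FrLB a σ τ)
    (hρ : FrB (τ.setn 1 a).tick ρ) : FrLB (a + 1) σ ρ ∧
      ∀ j, j ≠ a → ρ.mem 0 (σ.nv 0 + 1) j = τ.mem 0 (σ.nv 0 + 1) j := by
  have hn0 : (τ.setn 1 a).tick.nv 0 = σ.nv 0 := by
    rw [← hF.nv 0 (by norm_num) (by norm_num)]; rfl
  have hn1 : (τ.setn 1 a).tick.nv 1 = a := by simp [St.setn, St.tick]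
  have hm : (τ.setn 1 a).tick.mem = τ.mem := rfl
  have hρm : ∀ i j, ¬(i = σ.nv 0 + 1 ∧ j = a) → ρ.mem 0 i j = τ.mem 0 i j := by
    intro i j h
    have := hρ.mem i j (by rw [hn0, hn1]; exact h)
    rw [this, hm]
  refine ⟨⟨?_, ?_⟩, ?_⟩
  · intro i j h
    rw [hρm i j (by omega)]
    exact hF.mem i j (by omega)
  · intro x hx1 hx2
    rw [hρ.nv x hx2, ← hF.nv x hx1 hx2]
    simp [St.setn, St.tick, Function.update_of_ne hx1]
  · intro j hj
    exact hρm _ _ (by omega)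

/-- `W_loop_le` with the invariant: `FrLB a σ τ` and all cells of the next row are in `⁅D, D⁆`
(`bodyB_supp`); see `level_rule` in `../PhaseA.lean`. -/
theorem levelB_supp (D : Subgroup G) (σ : St G)
    (hrow : ∀ a < 40 * (N + 2), σ.mem 0 (σ.nv 0) a ∈ D) (hone : ∀ j, σ.mem 0 (σ.nv 0 + 1) j = 1)
    (f : St G → ℝ≥0∞) (c : ℝ≥0∞)
    (hf : ∀ τ, FrLB (40 * (N + 2)) σ τ → (∀ j, τ.mem 0 (σ.nv 0 + 1) j ∈ ⁅D, D⁆) → f τ ≤ c) :
    W N levelB f σ ≤ c := by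
  classical
  rw [levelB]
  let Φ : ℕ → St G → ℝ≥0∞ := fun a τ =>
    if FrLB a σ τ ∧ (∀ j, τ.mem 0 (σ.nv 0 + 1) j ∈ ⁅D, D⁆) then c else ⊤
  have key := W_loop_le (N := N) 1 KB bodyB Φ f ?_ ?_ σ
  · refine key.trans ?_
    simp only [Φ]
    rw [if_pos ⟨⟨fun _ _ _ => rfl, fun _ _ _ => rfl⟩, fun j => by rw [hone]; exact one_mem _⟩]
  · intro τ
    rw [KB_eval]
    simp only [Φ]
    by_cases h : FrLB (40 * (N + 2)) σ τ ∧ (∀ j, τ.mem 0 (σ.nv 0 + 1) j ∈ ⁅D, D⁆)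
    · rw [if_pos h]
      exact hf τ h.1 h.2
    · rw [if_neg h]; exact le_top
  · intro a ha τ
    rw [KB_eval] at ha
    by_cases hJ : FrLB a σ τ ∧ (∀ j, τ.mem 0 (σ.nv 0 + 1) j ∈ ⁅D, D⁆)
    swap
    · have : Φ a τ = ⊤ := by simp only [Φ]; rw [if_neg hJ]
      rw [this]; exact le_top
    obtain ⟨hF, hC⟩ := hJ
    have hn0 : (τ.setn 1 a).tick.nv 0 = σ.nv 0 := by
      rw [← hF.nv 0 (by norm_num) (by norm_num)]; rfl
    have hn1 : (τ.setn 1 a).tick.nv 1 = a := by simp [St.setn, St.tick]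
    have hm : (τ.setn 1 a).tick.mem = τ.mem := rfl
    have hΦ : Φ a τ = c := by simp only [Φ]; rw [if_pos ⟨hF, hC⟩]
    rw [hΦ]
    refine bodyB_supp D _ ?_ ?_ _ _ ?_
    · intro a' ha'
      rw [hn0, hm, hF.mem _ _ (by omega)]
      exact hrow a' ha'
    · intro a' _
      rw [hn0, hm]
      exact hC a'
    · intro ρ hρ hcell
      obtain ⟨h1, h2⟩ := levelB_step a σ τ ρ hF hρ
      have h3 : ∀ j, ρ.mem 0 (σ.nv 0 + 1) j ∈ ⁅D, D⁆ := by
        intro j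
        by_cases hj : j = a
        · rw [hn0, hn1] at hcell
          rw [hj]; exact hcell
        · rw [h2 j hj]; exact hC j
      simp only [Φ]
      rw [if_pos ⟨h1, h3⟩]

open Classical in
/-- `W_loop_le` with `Φ a τ = e + phi ⁅D, D⁆ (gen N (row i + 1 of τ)) * (15/16)^(K - a)` if `FrLB a σ τ` and all
cells of the next row are in `⁅D, D⁆` (the cells with `j ≥ a` are 1), `⊤` otherwise; the step is
`bodyB_rule` with `H = gen N (row i + 1)`, `c = phi ⁅D, D⁆ H * (15/16)^(K - (a+1))`, `phi_step`,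
`gen_update`; if `⁅D, D⁆ ≤ H` then `phi = 0` (before and after).  At the end `one_le_phi`; at the start
`phi_bot_le` (all cells of the next row are 1). -/
theorem levelB_rule [Finite G] (D : Subgroup G) (σ : St G)
    (hgen : gen N (σ.mem 0 (σ.nv 0)) = D) (hone : ∀ j, σ.mem 0 (σ.nv 0 + 1) j = 1)
    (f : St G → ℝ≥0∞) (e : ℝ≥0∞)
    (hf : ∀ τ, FrLB (40 * (N + 2)) σ τ → (∀ j, τ.mem 0 (σ.nv 0 + 1) j ∈ ⁅D, D⁆) →
      f τ ≤ if gen N (τ.mem 0 (σ.nv 0 + 1)) = ⁅D, D⁆ then e else e + 1) :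
    W N levelB f σ ≤ e + Nat.card G * (15 / 16) ^ (40 * (N + 2)) := by
  rw [levelB]
  set K := 40 * (N + 2) with hK
  let Φ : ℕ → St G → ℝ≥0∞ := fun a τ =>
    if FrLB a σ τ ∧ (∀ j, τ.mem 0 (σ.nv 0 + 1) j ∈ ⁅D, D⁆) then
      e + phi ⁅D, D⁆ (gen N (τ.mem 0 (σ.nv 0 + 1))) * (15 / 16) ^ (K - a) else ⊤
  have hgenle : ∀ r : ℕ → G, (∀ j, r j ∈ ⁅D, D⁆) → gen N r ≤ ⁅D, D⁆ := by
    intro r hr
    rw [gen, Subgroup.closure_le]
    rintro g ⟨a, _, rfl⟩
    exact hr a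
  have key := W_loop_le (N := N) 1 KB bodyB Φ f ?_ ?_ σ
  · refine key.trans ?_
    simp only [Φ]
    rw [if_pos ⟨⟨fun _ _ _ => rfl, fun _ _ _ => rfl⟩, fun j => by rw [hone]; exact one_mem _⟩]
    have hbot : gen N (σ.mem 0 (σ.nv 0 + 1)) = ⊥ := by
      rw [gen, Subgroup.closure_eq_bot_iff]
      rintro g ⟨a, _, rfl⟩
      exact hone a
    rw [hbot, Nat.sub_zero]
    gcongr
    exact phi_bot_le _
  · intro τ
    rw [KB_eval]
    simp only [Φ]
    by_cases h : FrLB K σ τ ∧ (∀ j, τ.mem 0 (σ.nv 0 + 1) j ∈ ⁅D, D⁆)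
    · rw [if_pos h, Nat.sub_self, pow_zero, mul_one]
      refine (hf τ h.1 h.2).trans ?_
      split_ifs with h1
      · exact le_self_add
      · gcongr
        exact one_le_phi (hgenle _ h.2) h1
    · rw [if_neg h]; exact le_top
  · intro a ha τ
    rw [KB_eval] at ha
    by_cases hJ : FrLB a σ τ ∧ (∀ j, τ.mem 0 (σ.nv 0 + 1) j ∈ ⁅D, D⁆)
    swap
    · have : Φ a τ = ⊤ := by simp only [Φ]; rw [if_neg hJ]
      rw [this]; exact le_top
    obtain ⟨hF, hC⟩ := hJ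
    have hn0 : (τ.setn 1 a).tick.nv 0 = σ.nv 0 := by
      rw [← hF.nv 0 (by norm_num) (by norm_num)]; rfl
    have hn1 : (τ.setn 1 a).tick.nv 1 = a := by simp [St.setn, St.tick]
    have hm : (τ.setn 1 a).tick.mem = τ.mem := rfl
    set H := gen N (τ.mem 0 (σ.nv 0 + 1)) with hH
    set c : ℝ≥0∞ := phi ⁅D, D⁆ H * (15 / 16) ^ (K - (a + 1)) with hc
    have hΦ : Φ a τ = e + phi ⁅D, D⁆ H * (15 / 16) ^ (K - a) := by
      simp only [Φ]; rw [if_pos ⟨hF, hC⟩]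
    have hb0 := bodyB_rule (N := N) D H (τ.setn 1 a).tick
      (by
        rw [hn0, hm, ← hgen]
        congr 1
        funext j
        exact hF.mem _ _ (by omega))
      (by rw [hn0, hm]) (hgenle _ hC) (Φ (a + 1)) c e (by
        intro ρ hρ hcell
        rw [hn0, hn1] at hcell ⊢
        obtain ⟨h1, h2⟩ := levelB_step a σ τ ρ hF hρ
        have h3 : ∀ j, ρ.mem 0 (σ.nv 0 + 1) j ∈ ⁅D, D⁆ := by
          intro j
          by_cases hj : j = a
          · rw [hj]; exact hcell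
          · rw [h2 j hj]; exact hC j
        simp only [Φ]
        rw [if_pos ⟨h1, h3⟩]
        have h4 : gen N (ρ.mem 0 (σ.nv 0 + 1)) =
            H ⊔ Subgroup.closure {ρ.mem 0 (σ.nv 0 + 1) a} :=
          gen_update _ _ a ha (by rw [hF.mem _ _ (by omega)]; exact hone a) h2
        have h5 := phi_step ⁅D, D⁆ H (ρ.mem 0 (σ.nv 0 + 1) a)
        rw [← h4] at h5
        by_cases h6 : ρ.mem 0 (σ.nv 0 + 1) a ∈ H
        · rw [if_pos h6] at h5 ⊢
          rw [hc]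
          gcongr
        · rw [if_neg h6] at h5 ⊢
          have h7 : c / 2 = phi ⁅D, D⁆ H / 2 * (15 / 16) ^ (K - (a + 1)) := by
            rw [hc, ENNReal.div_eq_inv_mul, ENNReal.div_eq_inv_mul (b := 2), mul_assoc]
          rw [h7]
          gcongr)
    refine hb0.trans ?_
    rw [hΦ]
    by_cases h8 : ⁅D, D⁆ ≤ H
    · have h9 : phi ⁅D, D⁆ H = 0 := by rw [phi, if_pos h8]
      rw [if_pos h8, hc, h9, zero_mul, zero_mul]
    · rw [if_neg h8, hc, mul_assoc, ← pow_succ, show K - (a + 1) + 1 = K - a by omega]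

end Pool.Agent.MPa0c355.B12
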