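import Pool.Agent.Lib.MP_a0c355_lc.B12.LevelB

/-! # Phase A -/

set_option autoImplicit false

namespace Pool.Agent.MPa0c355.B12

open scoped ENNReal

variable {G : Type} [Group G] {N : ℕ}

/-- the support invariant after `i` levels -/
structure InvB (σ0 : St G) (i : ℕ) (τ : St G) : Prop where
  row0 : ∀ j, τ.mem 0 0 j = σ0.mem 0 0 j
  rows : ∀ i' ≤ i, ∀ j, τ.mem 0 i' j ∈ derivedSeries G i'
  ones : ∀ i', i < i' → ∀ j, τ.mem 0 i' j = 1

/-- the rows `≤ i` generate the terms of the derived series -/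
def GoodB (N : ℕ) (i : ℕ) (τ : St G) : Prop :=
  ∀ i' ≤ i, gen N (τ.mem 0 i') = derivedSeries G i'

/-- the invariant at the start -/
theorem phaseAB_init (σ0 : St G) (hone : ∀ i, 1 ≤ i → ∀ j, σ0.mem 0 i j = 1) : InvB σ0 0 σ0 := by
  refine ⟨fun _ => rfl, ?_, ?_⟩
  · intro i' hi' j
    rw [Nat.le_zero.1 hi', derivedSeries_zero]
    exact Subgroup.mem_top _
  · intro i' hi' j
    exact hone i' hi' j

/-- one level preserves the invariant -/
theorem phaseAB_step {K i : ℕ} {σ0 τ ρ : St G} (hI : InvB σ0 i τ)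
    (h1 : FrLB K (τ.setn 0 i).tick ρ)
    (h2 : ∀ j, ρ.mem 0 (i + 1) j ∈ derivedSeries G (i + 1)) :
    InvB σ0 (i + 1) ρ ∧ ∀ i' ≤ i, ρ.mem 0 i' = τ.mem 0 i' := by
  have hn0 : (τ.setn 0 i).tick.nv 0 = i := by simp [St.setn, St.tick]
  have hm : (τ.setn 0 i).tick.mem = τ.mem := rfl
  have h3 : ∀ i', i' ≠ i + 1 → ρ.mem 0 i' = τ.mem 0 i' := by
    intro i' hi'
    funext j
    have h4 := h1.mem i' j (by rw [hn0]; omega)
    rw [h4, hm]
  refine ⟨⟨?_, ?_, ?_⟩, fun i' hi' => h3 i' (by omega)⟩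
  · intro j
    rw [h3 0 (by omega)]
    exact hI.row0 j
  · intro i' hi' j
    rcases Nat.le_succ_iff.1 hi' with h | h
    · rw [h3 i' (by omega)]
      exact hI.rows i' h j
    · rw [h]
      exact h2 j
  · intro i' hi' j
    rw [h3 i' (by omega)]
    exact hI.ones i' (by omega) j

/-- `W_loop_le` with the invariant `InvB` and `levelB_supp` -/
theorem phaseAB_supp (σ0 : St G) (hone : ∀ i, 1 ≤ i → ∀ j, σ0.mem 0 i j = 1)
    (f : St G → ℝ≥0∞) (c : ℝ≥0∞) (hf : ∀ τ, InvB σ0 (N + 1) τ → f τ ≤ c) :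
    W N phaseAB f σ0 ≤ c := by
  classical
  rw [phaseAB]
  let Φ : ℕ → St G → ℝ≥0∞ := fun i τ => if InvB σ0 i τ then c else ⊤
  have key := W_loop_le (N := N) 0 Lp levelB Φ f ?_ ?_ σ0
  · refine key.trans ?_
    simp only [Φ]
    rw [if_pos (phaseAB_init σ0 hone)]
  · intro τ
    rw [Lp_eval]
    simp only [Φ]
    by_cases h : InvB σ0 (N + 1) τ
    · rw [if_pos h]
      exact hf τ h
    · rw [if_neg h]
      exact le_top
  · intro i hi τ
    by_cases hI : InvB σ0 i τ
    swap
    · have : Φ i τ = ⊤ := by simp only [Φ]; rw [if_neg hI]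
      rw [this]
      exact le_top
    have hn0 : (τ.setn 0 i).tick.nv 0 = i := by simp [St.setn, St.tick]
    have hm : (τ.setn 0 i).tick.mem = τ.mem := rfl
    have hΦ : Φ i τ = c := by simp only [Φ]; rw [if_pos hI]
    rw [hΦ]
    refine levelB_supp (derivedSeries G i) _ ?_ ?_ _ _ ?_
    · intro a _
      rw [hn0, hm]
      exact hI.rows i le_rfl a
    · intro j
      rw [hn0, hm]
      exact hI.ones (i + 1) (Nat.lt_succ_self i) j
    · intro ρ h1 h2
      rw [hn0] at h2
      have h3 := (phaseAB_step hI h1 (by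
        intro j
        rw [derivedSeries_succ]
        exact h2 j)).1
      simp only [Φ]
      rw [if_pos h3]

open Classical in
/-- `W_loop_le` with `Φ i τ = ⊤` if not `InvB σ0 i τ`, `(N + 1 - i) q + η` if `GoodB N i τ` and `η + 1` otherwise,
where `q = |G| (15/16)^(40 (N + 2))`: step from a good state by `levelB_rule` with
`e = (N + 1 - (i+1)) q + η`, from a bad one by `levelB_supp` (see `phaseA_rule` in `../PhaseA2.lean`).
If `q`-terms make the value of a good state larger than `η + 1` take the minimum, or note that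
`levelB_rule` needs `f τ ≤ e + 1` for the bad ones, where `e ≥ η`. -/
theorem phaseAB_rule [Finite G] (σ0 : St G) (hspan : gen N (σ0.mem 0 0) = ⊤)
    (hone : ∀ i, 1 ≤ i → ∀ j, σ0.mem 0 i j = 1) (f : St G → ℝ≥0∞) (η : ℝ≥0∞)
    (hf : ∀ τ, InvB σ0 (N + 1) τ → f τ ≤ if GoodB N (N + 1) τ then η else η + 1) :
    W N phaseAB f σ0 ≤
      ((N + 1 : ℕ) : ℝ≥0∞) * (Nat.card G * (15 / 16) ^ (40 * (N + 2))) + η := by
  rw [phaseAB]
  set K := 40 * (N + 2) with hK
  set q : ℝ≥0∞ := (Nat.card G : ℝ≥0∞) * (15 / 16) ^ K with hq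
  let Φ : ℕ → St G → ℝ≥0∞ := fun i τ =>
    if InvB σ0 i τ then
      (if GoodB N i τ then ((N + 1 - i : ℕ) : ℝ≥0∞) * q + η else η + 1) else ⊤
  have key := W_loop_le (N := N) 0 Lp levelB Φ f ?_ ?_ σ0
  · refine key.trans ?_
    have hG : GoodB N 0 σ0 := by
      intro i' hi'
      rw [Nat.le_zero.1 hi', derivedSeries_zero]
      exact hspan
    simp only [Φ]
    rw [if_pos (phaseAB_init σ0 hone), if_pos hG]
    exact le_rfl
  · intro τ
    rw [Lp_eval]
    simp only [Φ]
    by_cases h : InvB σ0 (N + 1) τ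
    · rw [if_pos h]
      refine (hf τ h).trans ?_
      rw [Nat.sub_self, Nat.cast_zero, zero_mul, zero_add]
    · rw [if_neg h]
      exact le_top
  · intro i hi τ
    rw [Lp_eval] at hi
    by_cases hI : InvB σ0 i τ
    swap
    · have : Φ i τ = ⊤ := by simp only [Φ]; rw [if_neg hI]
      rw [this]
      exact le_top
    have hn0 : (τ.setn 0 i).tick.nv 0 = i := by simp [St.setn, St.tick]
    have hm : (τ.setn 0 i).tick.mem = τ.mem := rfl
    by_cases hall : GoodB N i τ
    · have hΦi : Φ i τ = ((N + 1 - i : ℕ) : ℝ≥0∞) * q + η := by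
        simp only [Φ]; rw [if_pos hI, if_pos hall]
      have h0 := levelB_rule (N := N) (derivedSeries G i) (τ.setn 0 i).tick
        (by rw [hn0, hm]; exact hall i le_rfl)
        (by
          intro j
          rw [hn0, hm]
          exact hI.ones (i + 1) (Nat.lt_succ_self i) j)
        (Φ (i + 1)) (((N + 1 - (i + 1) : ℕ) : ℝ≥0∞) * q + η) (by
          intro ρ h1 h2
          rw [hn0] at h2 ⊢
          obtain ⟨h3, h4⟩ := phaseAB_step hI h1 (by
            intro j
            rw [derivedSeries_succ]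
            exact h2 j)
          simp only [Φ]
          rw [if_pos h3]
          by_cases h5 : GoodB N (i + 1) ρ
          · have h6 := h5 (i + 1) le_rfl
            rw [derivedSeries_succ] at h6
            rw [if_pos h5, if_pos h6]
          · have h6 : ¬ gen N (ρ.mem 0 (i + 1)) = ⁅derivedSeries G i, derivedSeries G i⁆ := by
              intro h6
              apply h5
              intro i' hi'
              rcases Nat.le_succ_iff.1 hi' with h | h
              · rw [h4 i' h]
                exact hall i' h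
              · rw [h, derivedSeries_succ]
                exact h6
            rw [if_neg h5, if_neg h6]
            gcongr
            exact le_add_self)
      refine h0.trans ?_
      rw [hΦi]
      have h7 : N + 1 - i = (N + 1 - (i + 1)) + 1 := by omega
      rw [h7]
      push_cast
      refine le_of_eq ?_
      rw [hq]
      ring
    · have hΦi : Φ i τ = η + 1 := by
        simp only [Φ]; rw [if_pos hI, if_neg hall]
      rw [hΦi]
      refine levelB_supp (derivedSeries G i) _ ?_ ?_ _ _ ?_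
      · intro a _
        rw [hn0, hm]
        exact hI.rows i le_rfl a
      · intro j
        rw [hn0, hm]
        exact hI.ones (i + 1) (Nat.lt_succ_self i) j
      · intro ρ h1 h2
        rw [hn0] at h2
        obtain ⟨h3, h4⟩ := phaseAB_step hI h1 (by
          intro j
          rw [derivedSeries_succ]
          exact h2 j)
        simp only [Φ]
        rw [if_pos h3, if_neg]
        intro h5
        apply hall
        intro i' hi'
        rw [← h4 i' hi']
        exact h5 i' (by omega)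

theorem phaseAB_real (N Q : ℕ) (hQ : Q ≤ 2 ^ N) :
    ((N : ℝ) + 1) * (Q * (15 / 16) ^ (40 * (N + 2))) ≤ 1 / 64 := by
  have h1 : (N : ℝ) + 1 ≤ 2 ^ N := by
    have : N + 1 ≤ 2 ^ N := Nat.lt_two_pow_self
    exact_mod_cast this
  have h2 : (Q : ℝ) ≤ 2 ^ N := by exact_mod_cast hQ
  have h3 : ((15 : ℝ) / 16) ^ (40 * (N + 2)) ≤ (1 / 8) ^ (N + 2) := by
    rw [pow_mul]
    exact pow_le_pow_left₀ (by positivity) (by norm_num) _
  calc ((N : ℝ) + 1) * (Q * (15 / 16) ^ (40 * (N + 2)))
      ≤ 2 ^ N * (2 ^ N * (1 / 8) ^ (N + 2)) := by gcongr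
    _ = 1 / 64 * (1 / 2) ^ N := by
        rw [pow_add, ← mul_assoc, ← mul_assoc, ← mul_pow, ← mul_pow]
        norm_num
        ring
    _ ≤ 1 / 64 * 1 := by
        gcongr
        exact pow_le_one₀ (by norm_num) (by norm_num)
    _ = 1 / 64 := by norm_num

/-- `(15/16)^40 ≤ 1/8`, see `num_real`, `num_enn` in `../PhaseA3.lean` -/
theorem numB (N Q : ℕ) (hQ : Q ≤ 2 ^ N) :
    ((N + 1 : ℕ) : ℝ≥0∞) * ((Q : ℝ≥0∞) * (15 / 16) ^ (40 * (N + 2))) ≤ 1 / 64 := by
  have hf : (15 : ℝ≥0∞) / 16 ≠ ⊤ := ENNReal.div_ne_top (by norm_num) (by norm_num)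
  have hne : ((N + 1 : ℕ) : ℝ≥0∞) * ((Q : ℝ≥0∞) * (15 / 16) ^ (40 * (N + 2))) ≠ ⊤ :=
    ENNReal.mul_ne_top (ENNReal.natCast_ne_top _)
      (ENNReal.mul_ne_top (ENNReal.natCast_ne_top _) (ENNReal.pow_ne_top hf))
  rw [← ENNReal.toReal_le_toReal hne (ENNReal.div_ne_top (by norm_num) (by norm_num))]
  simp only [ENNReal.toReal_mul, ENNReal.toReal_pow, ENNReal.toReal_div, ENNReal.toReal_natCast,
    ENNReal.toReal_ofNat, ENNReal.toReal_one]
  push_cast
  exact phaseAB_real N Q hQ

end Pool.Agent.MPa0c355.B12
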