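import Pool.Agent.Lib.MP_a0c355_lc.B12.ProgB

/-! # Phase B -/

set_option autoImplicit false

namespace Pool.Agent.MPa0c355.B12

open scoped ENNReal

variable {G : Type} [Group G] {N : ℕ}

/-- induction on `d` -/
theorem W_powCmd (a : Addr) (d : ℕ) (τ : St G)
    (ha : ¬(a.arr = 1 ∧ a.row.eval N τ.nv = 0 ∧ a.col.eval N τ.nv = 6)) (f : St G → ℝ≥0∞)
    (c : ℝ≥0∞)
    (hf : ∀ τ' : St G, τ'.mem = wr τ.mem 6 ((τ.get N a) ^ d) → τ'.nv = τ.nv → τ'.bv = τ.bv →
      f τ' ≤ c) : W N (powCmd a d) f τ ≤ c := by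
  induction d generalizing f c with
  | zero =>
    rw [powCmd, W_gone]
    refine hf _ ?_ rfl rfl
    rw [pow_zero]
    rfl
  | succ d ih =>
    rw [powCmd, W_seq]
    apply ih
    intro τ' h1 h2 h3
    rw [W_gmul]
    refine hf _ ?_ h2 h3
    have h4 : τ'.get N (sc 6) = (τ.get N a) ^ d := by
      simp only [St.get, sc, Expr.eval]
      rw [h1, wr_self]
      rfl
    have h5 : τ'.get N a = τ.get N a := by
      simp only [St.get]
      rw [h1, h2, wr_ne _ _ _ ha]
    rw [h4, h5, ← pow_succ]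
    funext k i j
    simp only [St.put, St.tick, sc, Expr.eval, wr, h1]
    by_cases h : k = 1 ∧ i = 0 ∧ j = 6
    · rw [if_pos h, if_pos h]
    · rw [if_neg h, if_neg h, if_neg h]

open Classical in
/-- `W_powCmd` and `W_test` of `../PhaseB.lean` -/
theorem W_testP (d : ℕ) (a : Addr) (τ : St G)
    (ha : ¬(a.arr = 1 ∧ a.row.eval N τ.nv = 0 ∧ a.col.eval N τ.nv = 6)) (f : St G → ℝ≥0∞)
    (c e : ℝ≥0∞)
    (hf : ∀ τ' : St G, (∀ i j, τ'.mem 0 i j = τ.mem 0 i j) → τ'.nv = τ.nv →
      f τ' ≤ if τ'.bv 0 = true then c else e) :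
    W N (testP d a) f τ ≤ if τ.bv 0 = true ∧ (τ.get N a) ^ d = 1 then c else e := by
  rw [testP, W_seq]
  apply W_powCmd a d τ ha
  intro τ' h1 h2 h3
  have hm : ∀ i j, τ'.mem 0 i j = τ.mem 0 i j := by
    intro i j
    rw [h1, wr_ne _ _ _ (by simp)]
  have key := W_test (N := N) (sc 6) τ' (by simp [sc, Expr.eval]) f c e (by
    intro ρ h4 h5
    exact hf ρ (fun i j => (h4 i j).trans (hm i j)) (h5.trans h2))
  have h6 : τ'.get N (sc 6) = (τ.get N a) ^ d := by
    simp only [St.get, sc, Expr.eval]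
    rw [h1, wr_self]
    rfl
  rw [h6, h3] at key
  exact key

open Classical in
/-- as `phaseB_rule` of `../PhaseB.lean` (`W_loop_test` from there) -/
theorem phaseBB_rule (d : ℕ) (σ : St G) (f : St G → ℝ≥0∞) (c e : ℝ≥0∞)
    (hf : ∀ τ', (∀ i j, τ'.mem 0 i j = σ.mem 0 i j) → f τ' ≤ if τ'.bv 0 = true then c else e) :
    W N (phaseBB d) f σ ≤ if (∀ i < N + 2, ∀ j < 40 * (N + 2), (σ.mem 0 i j) ^ d = 1) ∧
      (∀ j < 40 * (N + 2), σ.mem 0 (N + 1) j = 1) then c else e := by
  rw [phaseBB, W_seq, W_set, W_seq]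
  set τ0 := (σ.setb 0 true).tick with hτ0
  let Keep : St G → Prop := fun τ => ∀ i j, τ.mem 0 i j = σ.mem 0 i j
  set P1 : Prop := ∀ i < N + 2, ∀ j < 40 * (N + 2), (σ.mem 0 i j) ^ d = 1 with hP1
  set P2 : Prop := ∀ j < 40 * (N + 2), σ.mem 0 (N + 1) j = 1 with hP2
  -- the last loop
  have hlast : ∀ τ, Keep τ → W N (.loop 1 KB (testCmd ⟨0, .add .size (.const 1), .var 1⟩)) f τ ≤
      if τ.bv 0 = true then (if P2 then c else e) else e := by
    intro τ hτ
    have := W_loop_test (N := N) 1 KB (testCmd ⟨0, .add .size (.const 1), .var 1⟩) Keep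
      (fun j => σ.mem 0 (N + 1) j = 1) (by
        intro τ hτ j f c e hf
        have h1 := W_test (N := N) ⟨0, .add .size (.const 1), .var 1⟩ (τ.setn 1 j).tick (by simp)
          f c e (by
            intro τ' h1 _
            exact hf τ' (fun i j => (h1 i j).trans (hτ i j)))
        have h2 : ((τ.setn 1 j).tick).get N ⟨0, .add .size (.const 1), .var 1⟩
            = σ.mem 0 (N + 1) j := by
          simp only [St.get, St.setn, St.tick, Expr.eval, Function.update_self]
          exact hτ _ _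
        rw [h2] at h1
        exact h1) f c e (fun τ' h => hf τ' h) τ hτ
    rw [KB_eval] at this
    refine this.trans ?_
    by_cases h1 : τ.bv 0 = true
    · rw [if_pos h1]
      exact ite_le_ite' ⟨fun h => h.2, fun h => ⟨h1, h⟩⟩ c e
    · rw [if_neg h1, if_neg (fun h => h1 h.1)]
  have hmain := W_loop_test (N := N) 0 Rp (.loop 1 KB (testP d tc)) Keep
    (fun i => ∀ j < 40 * (N + 2), (σ.mem 0 i j) ^ d = 1) (by
      intro τ hτ i f c e hf
      have h1 := W_loop_test (N := N) 1 KB (testP d tc) (fun τ' => Keep τ' ∧ τ'.nv 0 = i)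
        (fun j => (σ.mem 0 i j) ^ d = 1) (by
          intro ρ hρ j f c e hf
          have h1 := W_testP (N := N) d tc (ρ.setn 1 j).tick (by simp [tc]) f c e (by
              intro τ' h1 h2
              refine hf τ' ⟨fun i j => (h1 i j).trans (hρ.1 i j), ?_⟩
              rw [h2]
              simp only [St.setn, St.tick]
              rw [Function.update_of_ne (by norm_num)]
              exact hρ.2)
          have h2 : ((ρ.setn 1 j).tick).get N tc = σ.mem 0 i j := by
            simp only [St.get, St.setn, St.tick, Expr.eval, tc, Function.update_self]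
            rw [Function.update_of_ne (by norm_num), hρ.2]
            exact hρ.1 _ _
          rw [h2] at h1
          exact h1) f c e (fun τ' h => hf τ' h.1) (τ.setn 0 i).tick ⟨hτ, by simp [St.setn, St.tick]⟩
      rw [KB_eval] at h1
      have h2 : (τ.setn 0 i).tick.bv 0 = τ.bv 0 := rfl
      rw [h2] at h1
      exact h1.trans (le_of_eq (by congr))) (fun τ => W N
        (.loop 1 KB (testCmd ⟨0, .add .size (.const 1), .var 1⟩)) f τ)
    (if P2 then c else e) e hlast τ0 (fun _ _ => rfl)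
  rw [Rp_eval] at hmain
  refine hmain.trans ?_
  have h0 : τ0.bv 0 = true := by simp [τ0, St.setb, St.tick]
  simp only [h0, true_and]
  by_cases h1 : P1
  · rw [if_pos h1]
    by_cases h2 : P2
    · rw [if_pos h2, if_pos ⟨h1, h2⟩]
    · rw [if_neg h2, if_neg (fun h => h2 h.2)]
  · rw [if_neg h1, if_neg (fun h => h1 h.1)]

end Pool.Agent.MPa0c355.B12
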