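import Pool.Agent.Lib.MP_a0c355_lc.B12.ProgB

/-! # A random power of a cell -/

set_option autoImplicit false

namespace Pool.Agent.MPa0c355.B12

open scoped ENNReal

variable {G : Type} [Group G] {N : ℕ}

/-- the invariant of the loop of `powRand` -/
structure RandPow_Good (N : ℕ) (τ ρ : St G) : Prop where
  mem : ∀ i j, ρ.mem 0 i j = τ.mem 0 i j
  w : ρ.mem 1 0 7 = τ.mem 1 0 7
  nv : ∀ x, x ≠ 2 → ρ.nv x = τ.nv x
  bv : ρ.bv 0 = τ.bv 0
  comm : Commute (ρ.mem 1 0 8) (τ.get N tc)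

theorem RandPow_get {τ ρ : St G} (h : RandPow_Good N τ ρ) : ρ.get N tc = τ.get N tc := by
  show ρ.mem 0 (ρ.nv 0) (ρ.nv 1) = τ.mem 0 (τ.nv 0) (τ.nv 1)
  rw [h.nv 0 (by norm_num), h.nv 1 (by norm_num), h.mem]

theorem RandPow_setn {τ ρ : St G} (h : RandPow_Good N τ ρ) (a : ℕ) :
    RandPow_Good N τ (ρ.setn 2 a).tick where
  mem := h.mem
  w := h.w
  nv := fun x hx => by
    show Function.update ρ.nv 2 a x = τ.nv x
    rw [Function.update_of_ne hx]
    exact h.nv x hx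
  bv := h.bv
  comm := h.comm

theorem RandPow_setb {τ ρ : St G} (h : RandPow_Good N τ ρ) (b : Bool) :
    RandPow_Good N τ (ρ.setb 1 b).tick where
  mem := h.mem
  w := h.w
  nv := h.nv
  bv := by
    show Function.update ρ.bv 1 b 0 = τ.bv 0
    rw [Function.update_of_ne (by norm_num)]
    exact h.bv
  comm := h.comm

theorem RandPow_tick {τ ρ : St G} (h : RandPow_Good N τ ρ) : RandPow_Good N τ ρ.tick where
  mem := h.mem
  w := h.w
  nv := h.nv
  bv := h.bv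
  comm := h.comm

omit [Group G] in
theorem RandPow_put8 {ρ : St G} (v : G) : (ρ.put N (sc 8) v).tick.mem 1 0 8 = v := by
  show (if (1 : ℕ) = 1 ∧ (0 : ℕ) = 0 ∧ (8 : ℕ) = 8 then v else ρ.mem 1 0 8) = v
  rw [if_pos ⟨rfl, rfl, rfl⟩]

theorem RandPow_put {τ ρ : St G} (h : RandPow_Good N τ ρ) (v : G)
    (hv : Commute v (τ.get N tc)) : RandPow_Good N τ (ρ.put N (sc 8) v).tick where
  mem := fun i j => by
    show (if (0 : ℕ) = 1 ∧ i = 0 ∧ j = 8 then v else ρ.mem 0 i j) = τ.mem 0 i j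
    rw [if_neg (by rintro ⟨h1, _⟩; exact absurd h1 (by norm_num))]
    exact h.mem i j
  w := by
    show (if (1 : ℕ) = 1 ∧ (0 : ℕ) = 0 ∧ (7 : ℕ) = 8 then v else ρ.mem 1 0 7) = τ.mem 1 0 7
    rw [if_neg (by rintro ⟨_, _, h1⟩; exact absurd h1 (by norm_num))]
    exact h.w
  nv := h.nv
  bv := h.bv
  comm := by
    rw [RandPow_put8]
    exact hv

open Classical in
/-- the potential -/
noncomputable def RandPow_phi (N r : ℕ) (τ : St G) (F' : G → ℝ≥0∞) (a : ℕ) (ρ : St G) : ℝ≥0∞ :=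
  if RandPow_Good N τ ρ then
    (∑ e ∈ Finset.range (2 ^ (r - a)),
      F' (τ.mem 1 0 7 * ((ρ.mem 1 0 8) ^ (2 ^ (r - a)) * (τ.get N tc) ^ e))) / 2 ^ (r - a)
  else ⊤

/-- one round on the level of sums -/
theorem RandPow_sum (F' : G → ℝ≥0∞) (w y t : G) (h : Commute y t) (s : ℕ) :
    ((∑ e ∈ Finset.range (2 ^ s), F' (w * ((y * y * t) ^ (2 ^ s) * t ^ e))) / 2 ^ s +
      (∑ e ∈ Finset.range (2 ^ s), F' (w * ((y * y) ^ (2 ^ s) * t ^ e))) / 2 ^ s) / 2 =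
    (∑ e ∈ Finset.range (2 ^ (s + 1)), F' (w * (y ^ (2 ^ (s + 1)) * t ^ e))) / 2 ^ (s + 1) := by
  have h1 : (y * y) ^ (2 ^ s) = y ^ (2 ^ (s + 1)) := by
    rw [← pow_two, ← pow_mul, ← pow_succ']
  have hc : Commute (y * y) t := h.mul_left h
  have h2 : (y * y * t) ^ (2 ^ s) = y ^ (2 ^ (s + 1)) * t ^ (2 ^ s) := by
    rw [hc.mul_pow, h1]
  have h3 : 2 ^ (s + 1) = 2 ^ s + 2 ^ s := by rw [pow_succ]; ring
  have h4 : ∀ e, F' (w * ((y * y * t) ^ (2 ^ s) * t ^ e)) =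
      F' (w * (y ^ (2 ^ (s + 1)) * t ^ (2 ^ s + e))) := by
    intro e
    rw [h2, mul_assoc (y ^ (2 ^ (s + 1))), ← pow_add]
  have h5 : ∀ g : ℕ → ℝ≥0∞, ∑ e ∈ Finset.range (2 ^ (s + 1)), g e =
      ∑ e ∈ Finset.range (2 ^ s), g e + ∑ e ∈ Finset.range (2 ^ s), g (2 ^ s + e) := by
    intro g
    rw [h3, Finset.sum_range_add]
  rw [h5]
  simp only [h1, h4]
  rw [← ENNReal.add_div, add_comm, div_eq_mul_inv, div_eq_mul_inv, div_eq_mul_inv, mul_assoc,
    pow_succ (2 : ℝ≥0∞), ENNReal.mul_inv (Or.inr (by norm_num)) (Or.inr (by norm_num))]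

theorem RandPow_init (τ : St G) : RandPow_Good N τ (τ.put N (sc 8) 1).tick where
  mem := fun i j => by
    show (if (0 : ℕ) = 1 ∧ i = 0 ∧ j = 8 then 1 else τ.mem 0 i j) = τ.mem 0 i j
    rw [if_neg (by rintro ⟨h1, _⟩; exact absurd h1 (by norm_num))]
  w := by
    show (if (1 : ℕ) = 1 ∧ (0 : ℕ) = 0 ∧ (7 : ℕ) = 8 then 1 else τ.mem 1 0 7) = τ.mem 1 0 7
    rw [if_neg (by rintro ⟨_, _, h1⟩; exact absurd h1 (by norm_num))]
  nv := fun x _ => rfl
  bv := rfl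
  comm := by
    rw [RandPow_put8]
    exact Commute.one_left _

/-- `W_loop_le` for the loop of `powRand`, `r = Rb.eval N`, `t = τ.get N tc`: after `a` rounds scratch cell 8
contains `y`, and `Φ a ρ = (∑ e < 2^(r-a), F' (w * (y ^ (2^(r-a)) * t^e))) / 2^(r-a)` if `ρ` agrees with
`τ` on array 0, on scratch cell 7 (`w`), on the counters `≠ 2` and on Boolean 0, and `y` commutes with `t`
(it is a power of `t`), `⊤` otherwise.  One round: `y ↦ y²` or `y² t`, and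
`{0,…,2^(s+1) - 1} = {e} ∪ {2^s + e}`, `e < 2^s`. -/
theorem W_stepB (Rb : Polynomial ℕ) (f : St G → ℝ≥0∞) (τ : St G) (F' : G → ℝ≥0∞)
    (hf : ∀ τ' : St G, (∀ i j, τ'.mem 0 i j = τ.mem 0 i j) → (∀ x, x ≠ 2 → τ'.nv x = τ.nv x) →
      τ'.bv 0 = τ.bv 0 → f τ' ≤ F' (τ'.mem 1 0 7)) :
    W N (stepB Rb) f τ ≤
      (∑ e ∈ Finset.range (2 ^ (Rb.eval N)), F' (τ.mem 1 0 7 * (τ.get N tc) ^ e)) /
        2 ^ (Rb.eval N) := by
  set r := Rb.eval N with hr
  have hτ0 : RandPow_Good N τ (τ.put N (sc 8) 1).tick := RandPow_init τ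
  rw [stepB, W_seq, powRand, W_seq, W_gone]
  refine (W_loop_le (N := N) 2 Rb _ (RandPow_phi N r τ F') _ ?_ ?_ _).trans ?_
  · -- the end
    intro ρ
    unfold RandPow_phi
    split_ifs with hρ
    · rw [← hr, Nat.sub_self, pow_zero, Finset.range_one, Finset.sum_singleton, pow_zero, pow_zero,
        pow_one, mul_one, div_one, W_gmul]
      refine (hf _ ?_ ?_ ?_).trans ?_
      · intro i j
        show (if (0 : ℕ) = 1 ∧ i = 0 ∧ j = 7 then ρ.mem 1 0 7 * ρ.mem 1 0 8 else ρ.mem 0 i j) =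
          τ.mem 0 i j
        rw [if_neg (by rintro ⟨h1, _⟩; exact absurd h1 (by norm_num))]
        exact hρ.mem i j
      · exact hρ.nv
      · exact hρ.bv
      · have h1 : (ρ.put N (sc 7) (ρ.get N (sc 7) * ρ.get N (sc 8))).tick.mem 1 0 7 =
            ρ.mem 1 0 7 * ρ.mem 1 0 8 := by
          show (if (1 : ℕ) = 1 ∧ (0 : ℕ) = 0 ∧ (7 : ℕ) = 7 then ρ.mem 1 0 7 * ρ.mem 1 0 8
            else ρ.mem 1 0 7) = ρ.mem 1 0 7 * ρ.mem 1 0 8
          rw [if_pos ⟨rfl, rfl, rfl⟩]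
        rw [h1, hρ.w]
    · exact le_top
  · -- one round
    intro a ha ρ
    by_cases hρ : RandPow_Good N τ ρ
    swap
    · have : RandPow_phi N r τ F' a ρ = ⊤ := by
        unfold RandPow_phi
        rw [if_neg hρ]
      rw [this]
      exact le_top
    obtain ⟨s, hs⟩ : ∃ s, r - a = s + 1 := ⟨r - a - 1, by omega⟩
    have hs' : r - (a + 1) = s := by omega
    have g1 := RandPow_setn hρ a
    have gy : ((ρ.setn 2 a).tick).get N (sc 8) = ρ.mem 1 0 8 := rfl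
    rw [W_seq, W_gmul, W_seq, W_coin, W_ite, W_ite, gy]
    have hcc : Commute (ρ.mem 1 0 8 * ρ.mem 1 0 8) (τ.get N tc) := hρ.comm.mul_left hρ.comm
    have g2 := RandPow_put g1 (ρ.mem 1 0 8 * ρ.mem 1 0 8) hcc
    set ρ2 := ((ρ.setn 2 a).tick.put N (sc 8) (ρ.mem 1 0 8 * ρ.mem 1 0 8)).tick with hρ2
    have g2y : ρ2.mem 1 0 8 = ρ.mem 1 0 8 * ρ.mem 1 0 8 := RandPow_put8 _
    have b1 : (ρ2.setb 1 true).tick.bv 1 = true := by
      show Function.update ρ2.bv 1 true 1 = true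
      rw [Function.update_self]
    have b2 : ¬ (ρ2.setb 1 false).tick.bv 1 = true := by
      show ¬ Function.update ρ2.bv 1 false 1 = true
      rw [Function.update_self]
      exact Bool.false_ne_true
    rw [if_pos b1, if_neg b2, W_gmul, W_skip]
    have g3 := RandPow_tick (RandPow_setb g2 true)
    have g4 := RandPow_tick (RandPow_setb g2 false)
    have e3 : ((ρ2.setb 1 true).tick.tick).get N (sc 8) = ρ.mem 1 0 8 * ρ.mem 1 0 8 := g2y
    have e3' := RandPow_get g3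
    rw [e3, e3']
    have hc5 : Commute (ρ.mem 1 0 8 * ρ.mem 1 0 8 * τ.get N tc) (τ.get N tc) :=
      hcc.mul_left (Commute.refl _)
    have g5 := RandPow_put g3 _ hc5
    have e5 : (((ρ2.setb 1 true).tick.tick).put N (sc 8)
      (ρ.mem 1 0 8 * ρ.mem 1 0 8 * τ.get N tc)).tick.mem 1 0 8 =
      ρ.mem 1 0 8 * ρ.mem 1 0 8 * τ.get N tc := RandPow_put8 _
    have e4 : ((ρ2.setb 1 false).tick.tick).mem 1 0 8 = ρ.mem 1 0 8 * ρ.mem 1 0 8 := g2y
    unfold RandPow_phi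
    rw [if_pos g5, if_pos g4, if_pos hρ, hs', hs, e5, e4]
    exact (RandPow_sum F' _ _ _ hρ.comm s).le
  · unfold RandPow_phi
    rw [if_pos hτ0, RandPow_put8, Nat.sub_zero]
    simp only [one_pow, one_mul]
    exact le_rfl

end Pool.Agent.MPa0c355.B12
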