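import Pool.Agent.Lib.MP_a0c355_lc.PhaseC
import Pool.Agent.Lib.MP_a0c355_lc.B12.AvgB
import Pool.Agent.Lib.MP_a0c355_lc.B12.RandPow

/-! # The random element -/

set_option autoImplicit false

namespace Pool.Agent.MPa0c355.B12

open scoped ENNReal commutatorElement

variable {G : Type} [Group G] {N : ℕ}

theorem SampleB_mean (r : ℕ) (a : ℕ → ℝ≥0∞) (x : ℝ≥0∞) :
    (∑ e ∈ Finset.range (2 ^ r), (a e + x)) / 2 ^ r =
      (∑ e ∈ Finset.range (2 ^ r), a e) / 2 ^ r + x := by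
  have h1 : ((2 : ℝ≥0∞) ^ r) ≠ 0 := pow_ne_zero _ (by norm_num)
  have h2 : ((2 : ℝ≥0∞) ^ r) ≠ ⊤ := ENNReal.pow_ne_top (by norm_num)
  rw [Finset.sum_add_distrib, Finset.sum_const, Finset.card_range, nsmul_eq_mul, ENNReal.add_div]
  congr 1
  rw [Nat.cast_pow, Nat.cast_ofNat, mul_comm, ENNReal.mul_div_cancel_right h1 h2]

/-- as `sample_supp` in `../PhaseC.lean` (`Keep` is defined there) -/
theorem sample_suppB (Rb : Polynomial ℕ) (σ : St G) (h : St G → ℝ≥0∞) (c : ℝ≥0∞)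
    (hh : ∀ τ, Keep σ τ → h τ ≤ c) : W N (sampleB Rb) h σ ≤ c := by
  classical
  let Φ : St G → ℝ≥0∞ := fun τ => if Keep σ τ then c else ⊤
  have hΦ1 : ∀ τ, Keep σ τ → Φ τ = c := by
    intro τ hτ; simp only [Φ]; rw [if_pos hτ]
  have hΦ2 : ∀ τ, ¬ Keep σ τ → Φ τ = ⊤ := by
    intro τ hτ; simp only [Φ]; rw [if_neg hτ]
  rw [sampleB]
  have key := W_loop_le (N := N) 0 Lp (.loop 1 KB (stepB Rb)) (fun _ => Φ) h ?_ ?_ σ
  · try beta_reduce at key
    rwa [hΦ1 σ ⟨fun _ _ => rfl, rfl⟩] at key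
  · intro τ
    by_cases hτ : Keep σ τ
    · rw [hΦ1 _ hτ]; exact hh τ hτ
    · rw [hΦ2 _ hτ]; exact le_top
  · intro i _ τ
    by_cases hτ : Keep σ τ
    swap
    · rw [hΦ2 _ hτ]; exact le_top
    rw [hΦ1 _ hτ]
    have key := W_loop_le (N := N) 1 KB (stepB Rb) (fun _ => Φ) Φ ?_ ?_ (τ.setn 0 i).tick
    · try beta_reduce at key
      rwa [hΦ1 (τ.setn 0 i).tick ⟨hτ.mem, hτ.bv⟩] at key
    · intro ρ; exact le_rfl
    · intro j _ ρ
      by_cases hρ : Keep σ ρ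
      swap
      · rw [hΦ2 _ hρ]; exact le_top
      rw [hΦ1 _ hρ]
      refine (W_stepB Rb _ _ (fun _ => c) ?_).trans ?_
      · intro τ' h1 _ h3
        rw [hΦ1 _ ⟨fun i j => (h1 i j).trans (hρ.mem i j), h3.trans hρ.bv⟩]
      · have h1 := SampleB_mean (Rb.eval N) (fun _ => 0) c
        simp only [zero_add, Finset.sum_const_zero, ENNReal.zero_div] at h1
        exact h1.le

/-- the subgroups between `D (i + 1)` and `D i` given by the tail of a row -/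
def SampleB_B (N : ℕ) (r : ℕ → G) (i j : ℕ) : Subgroup G :=
  Subgroup.closure {g | ∃ a, j ≤ a ∧ a < 40 * (N + 2) ∧ g = r a} ⊔ derivedSeries G (i + 1)

theorem SampleB_last (r : ℕ → G) (i : ℕ) :
    SampleB_B N r i (40 * (N + 2)) = derivedSeries G (i + 1) := by
  have : {g | ∃ a, 40 * (N + 2) ≤ a ∧ a < 40 * (N + 2) ∧ g = r a} = ∅ := by
    ext g
    simp only [Set.mem_ofPred_eq, Set.mem_empty_iff_false, iff_false]
    rintro ⟨a, h1, h2, -⟩
    omega
  rw [SampleB_B, this, Subgroup.closure_empty, bot_sup_eq]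

theorem SampleB_succ (r : ℕ → G) (i j : ℕ) (hj : j < 40 * (N + 2)) :
    SampleB_B N r i j = Subgroup.closure {r j} ⊔ SampleB_B N r i (j + 1) := by
  rw [SampleB_B, SampleB_B, ← sup_assoc, ← Subgroup.closure_union]
  congr 2
  ext g
  simp only [Set.mem_ofPred_eq, Set.mem_union, Set.mem_singleton_iff]
  constructor
  · rintro ⟨a, h1, h2, rfl⟩
    rcases Nat.eq_or_lt_of_le h1 with rfl | h3
    · exact Or.inl rfl
    · exact Or.inr ⟨a, h3, h2, rfl⟩
  · rintro (rfl | ⟨a, h1, h2, rfl⟩)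
    · exact ⟨j, le_rfl, hj, rfl⟩
    · exact ⟨a, by omega, h2, rfl⟩

theorem SampleB_mem (r : ℕ → G) (i : ℕ) (h : gen N r = derivedSeries G i) (j : ℕ)
    (hj : j < 40 * (N + 2)) : r j ∈ derivedSeries G i := by
  rw [← h]
  exact Subgroup.subset_closure ⟨j, hj, rfl⟩

theorem SampleB_le (r : ℕ → G) (i : ℕ) (h : gen N r = derivedSeries G i) (j : ℕ) :
    SampleB_B N r i j ≤ derivedSeries G i := by
  rw [SampleB_B, sup_le_iff, Subgroup.closure_le]
  refine ⟨?_, derivedSeries_antitone G (Nat.le_succ i)⟩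
  rintro g ⟨a, -, ha, rfl⟩
  exact SampleB_mem r i h a ha

theorem SampleB_zero (r : ℕ → G) (i : ℕ) (h : gen N r = derivedSeries G i) :
    SampleB_B N r i 0 = derivedSeries G i := by
  refine le_antisymm (SampleB_le r i h 0) ?_
  rw [← h, gen, Subgroup.closure_le]
  rintro g ⟨a, ha, rfl⟩
  exact Subgroup.mem_sup_left (Subgroup.subset_closure ⟨a, Nat.zero_le _, ha, rfl⟩)

theorem SampleB_norm (r : ℕ → G) (i : ℕ) (h : gen N r = derivedSeries G i) (j k : ℕ)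
    (hj : j < 40 * (N + 2)) : ∀ b ∈ SampleB_B N r i k, r j * b * (r j)⁻¹ ∈ SampleB_B N r i k := by
  intro b hb
  have h1 : ⁅r j, b⁆ ∈ derivedSeries G (i + 1) :=
    Subgroup.commutator_mem_commutator (SampleB_mem r i h j hj) (SampleB_le r i h k hb)
  have h2 : r j * b * (r j)⁻¹ = ⁅r j, b⁆ * b := by
    rw [commutatorElement_def, inv_mul_cancel_right]
  rw [h2]
  exact mul_mem (Subgroup.mem_sup_right h1) hb

/-- As `sample_rule` in `../PhaseC.lean`: `Bij i j` = the subgroup generated by the cells `a ≥ j` of row `i` and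
`derivedSeries G (i+1)`, which is normalised by the cell `j` (it lies between `derivedSeries G (i+1)` and
`derivedSeries G i`).  `W_loop_le` twice, with
`Φ i τ = avg (derivedSeries G i) F w + (N + 1 - i) K δ`, `Ψ j ρ = avg (Bij i j) F w + ((N - i) K + K - j) δ`,
`w` the content of scratch cell 7, `K = 40 (N + 2)`, `δ = 12 / 2^r * M`; one step: `W_stepB`, `avg_near`. -/
theorem sample_ruleB [Finite G] (Rb : Polynomial ℕ) (σ : St G)
    (hbot : derivedSeries G (N + 1) = ⊥)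
    (hgood : ∀ i ≤ N, gen N (σ.mem 0 i) = derivedSeries G i)
    (h12 : ∀ i ≤ N, ∀ j < 40 * (N + 2), (σ.mem 0 i j) ^ 12 = 1)
    (h : St G → ℝ≥0∞) (F : G → ℝ≥0∞) (M : ℝ≥0∞) (hF : ∀ x, F x ≤ M)
    (hh : ∀ τ, Keep σ τ → h τ ≤ F (τ.mem 1 0 7)) :
    W N (sampleB Rb) h σ ≤
      avg ⊤ F 1 + (((N + 1) * (40 * (N + 2)) : ℕ) : ℝ≥0∞) * (12 / 2 ^ (Rb.eval N)) * M := by
  classical
  set K := 40 * (N + 2) with hK
  set δ : ℝ≥0∞ := 12 / 2 ^ (Rb.eval N) * M with hδ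
  let Φ : ℕ → St G → ℝ≥0∞ := fun i τ => if Keep σ τ then
    avg (derivedSeries G i) F (τ.mem 1 0 7) + (((N + 1 - i) * K : ℕ) : ℝ≥0∞) * δ else ⊤
  have hΦ1 : ∀ i τ, Keep σ τ → Φ i τ =
      avg (derivedSeries G i) F (τ.mem 1 0 7) + (((N + 1 - i) * K : ℕ) : ℝ≥0∞) * δ := by
    intro i τ hτ; simp only [Φ]; rw [if_pos hτ]
  have hΦ2 : ∀ i τ, ¬ Keep σ τ → Φ i τ = ⊤ := by
    intro i τ hτ; simp only [Φ]; rw [if_neg hτ]
  rw [sampleB]
  have key := W_loop_le (N := N) 0 Lp (.loop 1 KB (stepB Rb)) Φ h ?_ ?_ σ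
  · rw [hΦ1 0 σ ⟨fun _ _ => rfl, rfl⟩] at key
    have e : avg (derivedSeries G 0) F (σ.mem 1 0 7) = avg ⊤ F 1 := by
      rw [derivedSeries_zero, avg_top, avg_top]
    rw [e, Nat.sub_zero, hδ, ← mul_assoc] at key
    exact key
  · intro τ
    by_cases hτ : Keep σ τ
    · rw [hΦ1 _ _ hτ, Lp_eval, hbot, avg_bot]
      exact (hh τ hτ).trans le_self_add
    · rw [hΦ2 _ _ hτ]; exact le_top
  · intro i hi τ
    rw [Lp_eval] at hi
    by_cases hτ : Keep σ τ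
    swap
    · rw [hΦ2 _ _ hτ]; exact le_top
    rw [hΦ1 _ _ hτ]
    have hiN : i ≤ N := by omega
    let Ψ : ℕ → St G → ℝ≥0∞ := fun j ρ => if Keep σ ρ ∧ ρ.nv 0 = i then
      avg (SampleB_B N (σ.mem 0 i) i j) F (ρ.mem 1 0 7) +
        (((N - i) * K + (K - j) : ℕ) : ℝ≥0∞) * δ else ⊤
    have hΨ1 : ∀ j ρ, Keep σ ρ → ρ.nv 0 = i → Ψ j ρ =
        avg (SampleB_B N (σ.mem 0 i) i j) F (ρ.mem 1 0 7) +
          (((N - i) * K + (K - j) : ℕ) : ℝ≥0∞) * δ := by
      intro j ρ h1 h2; simp only [Ψ]; rw [if_pos ⟨h1, h2⟩]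
    have hΨ2 : ∀ j ρ, ¬ (Keep σ ρ ∧ ρ.nv 0 = i) → Ψ j ρ = ⊤ := by
      intro j ρ hρ; simp only [Ψ]; rw [if_neg hρ]
    have key := W_loop_le (N := N) 1 KB (stepB Rb) Ψ (Φ (i + 1)) ?_ ?_ (τ.setn 0 i).tick
    · rw [hΨ1 0 (τ.setn 0 i).tick ⟨hτ.mem, hτ.bv⟩ (by simp [St.setn, St.tick]),
        SampleB_zero _ _ (hgood i hiN)] at key
      have e : (N + 1 - i) * K = (N - i) * K + (K - 0) := by
        rw [Nat.sub_zero, Nat.sub_add_comm hiN, Nat.add_mul, Nat.one_mul]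
      rw [e]
      exact key
    · intro ρ
      by_cases hρ : Keep σ ρ ∧ ρ.nv 0 = i
      · rw [KB_eval, hΨ1 _ _ hρ.1 hρ.2, hΦ1 _ _ hρ.1, SampleB_last]
        have e : (N + 1 - (i + 1)) * K = (N - i) * K + (K - 40 * (N + 2)) := by
          rw [← hK, Nat.sub_self, Nat.add_sub_add_right, Nat.add_zero]
        rw [e]
      · rw [hΨ2 _ _ hρ]; exact le_top
    · intro j hj ρ
      rw [KB_eval] at hj
      by_cases hρ : Keep σ ρ ∧ ρ.nv 0 = i
      swap
      · rw [hΨ2 _ _ hρ]; exact le_top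
      obtain ⟨hρ1, hρ2⟩ := hρ
      rw [hΨ1 _ _ hρ1 hρ2]
      have hn := SampleB_norm (N := N) (σ.mem 0 i) i (hgood i hiN) j (j + 1) hj
      have hget : (ρ.setn 1 j).tick.get N tc = σ.mem 0 i j := by
        simp only [St.get, St.setn, St.tick, tc, Expr.eval, Function.update_self]
        rw [Function.update_of_ne (by norm_num), hρ2]
        exact hρ1.mem _ _
      have key := W_stepB (N := N) Rb (Ψ (j + 1)) (ρ.setn 1 j).tick
        (fun y => avg (SampleB_B N (σ.mem 0 i) i (j + 1)) F y +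
          (((N - i) * K + (K - (j + 1)) : ℕ) : ℝ≥0∞) * δ) (by
          intro τ' h1 h2 h3
          rw [hΨ1 _ _ ⟨fun i j => (h1 i j).trans (hρ1.mem i j), h3.trans hρ1.bv⟩]
          rw [h2 0 (by norm_num)]
          simp only [St.setn, St.tick]
          rw [Function.update_of_ne (by norm_num)]
          exact hρ2)
      refine key.trans ?_
      rw [SampleB_mean, hget, SampleB_succ _ _ _ hj]
      have e0 : K - j = 1 + (K - (j + 1)) := by omega
      have e : (N - i) * K + (K - j) = 1 + ((N - i) * K + (K - (j + 1))) := by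
        rw [e0, ← add_assoc, ← add_assoc, add_comm _ 1]
      have e1 : (((N - i) * K + (K - j) : ℕ) : ℝ≥0∞) * δ =
          δ + (((N - i) * K + (K - (j + 1)) : ℕ) : ℝ≥0∞) * δ := by
        rw [e, Nat.cast_add 1, Nat.cast_one, add_mul, one_mul]
      rw [e1, ← add_assoc]
      exact add_le_add (avg_near (h12 i hiN j hj) _ hn F M hF (Rb.eval N) _) le_rfl

end Pool.Agent.MPa0c355.B12
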