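import Pool.Agent.Lib.MP_a0c355_lc.PhaseC2
import Pool.Agent.Lib.MP_a0c355_lc.B12.SampleB
import Pool.Agent.Lib.MP_a0c355_lc.B12.PhaseBB

/-! # Phase C -/

set_option autoImplicit false

namespace Pool.Agent.MPa0c355.B12

open scoped ENNReal

variable {G : Type} [Group G] {N : ℕ}

omit [Group G] in
theorem PhaseCB_addr (τ : St G) : ¬((sc 7).arr = 1 ∧ (sc 7).row.eval N τ.nv = 0 ∧
    (sc 7).col.eval N τ.nv = 6) := by
  simp [sc, Expr.eval]

/-- as `phaseC_gen` in `../PhaseC2.lean` -/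
theorem phaseCB_gen (d : ℕ) (Rb Np : Polynomial ℕ) (σ : St G) (f : St G → ℝ≥0∞)
    (hf : ∀ τ, f τ ≤ if τ.bv 0 = true then 1 else 0) :
    W N (phaseCB d Rb Np) f σ ≤ if σ.bv 0 = true then 1 else 0 := by
  classical
  rw [phaseCB]
  refine W_loop_le (N := N) 3 Np _ (fun _ τ => if τ.bv 0 = true then 1 else 0) f hf ?_ σ
  intro k _ τ
  rw [W_seq, W_gone, W_seq]
  refine sample_suppB _ _ _ _ ?_
  intro ρ hρ
  have h1 := W_testP (N := N) d (sc 7) ρ (PhaseCB_addr ρ)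
    (fun τ => if τ.bv 0 = true then (1 : ℝ≥0∞) else 0) 1 0 (fun τ' _ _ => le_rfl)
  refine h1.trans ?_
  have h2 : ρ.bv 0 = τ.bv 0 := hρ.bv
  rw [h2]
  by_cases h3 : τ.bv 0 = true
  · rw [if_pos h3]
    split_ifs <;> simp
  · rw [if_neg h3, if_neg (fun h => h3 h.1)]

/-- as `phaseC_compl` in `../PhaseC2.lean` -/
theorem phaseCB_compl (d : ℕ) (hG : ∀ x : G, x ^ d = 1) (Rb Np : Polynomial ℕ) (σ : St G)
    (f : St G → ℝ≥0∞) (hf : ∀ τ, f τ ≤ if τ.bv 0 = true then 0 else 1) :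
    W N (phaseCB d Rb Np) f σ ≤ if σ.bv 0 = true then 0 else 1 := by
  classical
  rw [phaseCB]
  refine W_loop_le (N := N) 3 Np _ (fun _ τ => if τ.bv 0 = true then 0 else 1) f hf ?_ σ
  intro k _ τ
  rw [W_seq, W_gone, W_seq]
  refine sample_suppB _ _ _ _ ?_
  intro ρ hρ
  have h1 := W_testP (N := N) d (sc 7) ρ (PhaseCB_addr ρ)
    (fun τ => if τ.bv 0 = true then (0 : ℝ≥0∞) else 1) 0 1 (fun τ' _ _ => le_rfl)
  refine h1.trans ?_
  have h2 : ρ.bv 0 = τ.bv 0 := hρ.bv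
  rw [h2]
  exact ite_le_ite' ⟨fun h => h.1, fun h => ⟨h, hG _⟩⟩ _ _

open Classical in
/-- as `phaseC_rule` in `../PhaseC2.lean`; in the step apply `sample_ruleB` with
`M = p ^ (n - (k + 1))` (or 0 if the answer is already `false`), so that the bound is
`p ^ (n - (k+1)) (avg + ε) ≤ p ^ (n - k)`. -/
theorem phaseCB_rule [Finite G] (d : ℕ) (hd : d ∣ 12) (Rb Np : Polynomial ℕ) (σ : St G)
    (hbot : derivedSeries G (N + 1) = ⊥)
    (hgood : ∀ i ≤ N, gen N (σ.mem 0 i) = derivedSeries G i)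
    (hpow : ∀ i ≤ N, ∀ j < 40 * (N + 2), (σ.mem 0 i j) ^ d = 1)
    (f : St G → ℝ≥0∞) (p : ℝ≥0∞)
    (hp : avg ⊤ (fun x : G => if x ^ d = 1 then 1 else 0) 1 +
      (((N + 1) * (40 * (N + 2)) : ℕ) : ℝ≥0∞) * (12 / 2 ^ (Rb.eval N)) ≤ p)
    (hf : ∀ τ, f τ ≤ if τ.bv 0 = true then 1 else 0) :
    W N (phaseCB d Rb Np) f σ ≤ if σ.bv 0 = true then p ^ (Np.eval N) else 0 := by
  set n := Np.eval N with hn
  let Same : St G → Prop := fun τ => ∀ i j, τ.mem 0 i j = σ.mem 0 i j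
  let Φ : ℕ → St G → ℝ≥0∞ := fun k τ =>
    if Same τ then (if τ.bv 0 = true then p ^ (n - k) else 0) else ⊤
  have hΦ1 : ∀ k τ, Same τ → Φ k τ = if τ.bv 0 = true then p ^ (n - k) else 0 := by
    intro k τ hτ; simp only [Φ]; rw [if_pos hτ]
  have hΦ2 : ∀ k τ, ¬ Same τ → Φ k τ = ⊤ := by
    intro k τ hτ; simp only [Φ]; rw [if_neg hτ]
  have hpow12 : ∀ i ≤ N, ∀ j < 40 * (N + 2), (σ.mem 0 i j) ^ 12 = 1 := by
    intro i hi j hj
    obtain ⟨c, hc⟩ := hd
    rw [hc, pow_mul, hpow i hi j hj, one_pow]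
  rw [phaseCB]
  have key := W_loop_le (N := N) 3 Np (.seq (.gone (sc 7)) (.seq (sampleB Rb) (testP d (sc 7))))
    Φ f ?_ ?_ σ
  · rwa [hΦ1 0 σ (fun _ _ => rfl), Nat.sub_zero] at key
  · intro τ
    by_cases hτ : Same τ
    · rw [hΦ1 _ _ hτ, ← hn, Nat.sub_self, pow_zero]; exact hf τ
    · rw [hΦ2 _ _ hτ]; exact le_top
  · intro k hk τ
    by_cases hτ : Same τ
    swap
    · rw [hΦ2 _ _ hτ]; exact le_top
    rw [hΦ1 _ _ hτ, W_seq, W_gone, W_seq]
    set τ1 := ((τ.setn 3 k).tick.put N (sc 7) 1).tick with hτ1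
    have hτ1m : ∀ i j, τ1.mem 0 i j = σ.mem 0 i j := by
      intro i j
      have : τ1.mem 0 i j = τ.mem 0 i j := by
        simp [τ1, St.put, St.tick, St.setn, sc]
      rw [this]; exact hτ i j
    have hrow : ∀ i, τ1.mem 0 i = σ.mem 0 i := fun i => funext (hτ1m i)
    have hτ1b : τ1.bv 0 = τ.bv 0 := rfl
    let F : G → ℝ≥0∞ := fun x => if τ.bv 0 = true ∧ x ^ d = 1 then p ^ (n - (k + 1)) else 0
    let M : ℝ≥0∞ := if τ.bv 0 = true then p ^ (n - (k + 1)) else 0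
    have hFM : ∀ x, F x ≤ M := by
      intro x
      simp only [F, M]
      by_cases h1 : τ.bv 0 = true
      · rw [if_pos h1]
        split_ifs
        · exact le_rfl
        · exact zero_le
      · rw [if_neg h1, if_neg (fun h => h1 h.1)]
    have key := sample_ruleB (N := N) Rb τ1 hbot (by simp only [hrow]; exact hgood)
      (by simp only [hrow]; exact hpow12)
      (fun ρ => W N (testP d (sc 7)) (Φ (k + 1)) ρ) F M hFM (by
        intro ρ hρ
        have h0 : ∀ i j, ρ.mem 0 i j = σ.mem 0 i j := fun i j => (hρ.mem i j).trans (hτ1m i j)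
        have h1 := W_testP (N := N) d (sc 7) ρ (PhaseCB_addr ρ) (Φ (k + 1))
          (p ^ (n - (k + 1))) 0 (by
            intro τ' h2 _
            rw [hΦ1 _ _ (fun i j => (h2 i j).trans (h0 i j))])
        refine h1.trans ?_
        rw [hρ.bv, hτ1b]
        exact le_rfl)
    refine key.trans ?_
    by_cases hb : τ.bv 0 = true
    · rw [if_pos hb]
      have e : F = fun x => p ^ (n - (k + 1)) * (if x ^ d = 1 then 1 else 0) := by
        funext x
        simp only [F, hb, true_and]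
        split_ifs <;> simp
      have e' : M = p ^ (n - (k + 1)) := by simp only [M, hb, if_true]
      rw [e, avg_smul, e', show n - k = (n - (k + 1)) + 1 by omega, pow_succ,
        mul_comm _ (p ^ (n - (k + 1))), ← mul_add]
      exact mul_le_mul_right hp _
    · rw [if_neg hb]
      have e : F = fun _ => 0 := by
        funext x
        simp only [F]
        rw [if_neg (fun h => hb h.1)]
      have e' : M = 0 := by simp only [M, hb]; rfl
      rw [e, avg_const, e', mul_zero, add_zero]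

end Pool.Agent.MPa0c355.B12
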