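import Pool.Agent.Lib.MP_a0c355_lc.B12.QuarterB

/-! # The final numerical estimate -/

set_option autoImplicit false

namespace Pool.Agent.MPa0c355.B12

open scoped ENNReal

variable {G : Type} [Group G] {N : ℕ}

theorem QuarterC_gen (M N g q r : ℕ) (hg : 0 < g) (h1 : q + r = g) (h2 : g ≤ bndM M N * r) :
    ((q : ℝ≥0∞) / g + (((N + 1) * (40 * (N + 2)) : ℕ) : ℝ≥0∞) *
      (12 / 2 ^ ((RbM M).eval N))) ^ ((NpM M).eval N) ≤ 1 / 4 := by
  have hbits := bits_enough M N
  have hb := QuarterB_pos M N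
  rw [NpM_eval]
  generalize (RbM M).eval N = R at hbits ⊢
  generalize bndM M N = b at h2 hbits hb ⊢
  generalize (N + 1) * (40 * (N + 2)) = K at hbits ⊢
  have hg' : (0 : ℝ) < g := by exact_mod_cast hg
  have hb' : (0 : ℝ) < b := by exact_mod_cast hb
  have hbits' : 2 * (b : ℝ) * (K * 12) ≤ 2 ^ R := by exact_mod_cast hbits
  have hR : (0 : ℝ) < 2 ^ R := by positivity
  have hε : (K : ℝ) * (12 / 2 ^ R) ≤ 1 / (2 * b) := by
    rw [← mul_div_assoc, div_le_div_iff₀ hR (by positivity)]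
    linarith
  have hr := real_boundB g q r b ((K : ℝ) * (12 / 2 ^ R)) hg hb h1 h2 (by positivity) hε
  have e : (q : ℝ≥0∞) / g + (K : ℝ≥0∞) * (12 / 2 ^ R) =
      ENNReal.ofReal ((q : ℝ) / g + K * (12 / 2 ^ R)) := by
    rw [ENNReal.ofReal_add (by positivity) (by positivity), ENNReal.ofReal_div_of_pos hg',
      ENNReal.ofReal_mul (by positivity), ENNReal.ofReal_div_of_pos hR,
      ENNReal.ofReal_pow (by norm_num), ENNReal.ofReal_natCast, ENNReal.ofReal_natCast,
      ENNReal.ofReal_natCast, ENNReal.ofReal_ofNat, ENNReal.ofReal_ofNat]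
  rw [e, ← ENNReal.ofReal_pow (by positivity)]
  refine (ENNReal.ofReal_le_ofReal hr).trans (le_of_eq ?_)
  rw [ENNReal.ofReal_div_of_pos (by norm_num), ENNReal.ofReal_one, ENNReal.ofReal_ofNat]

open Classical in
theorem QuarterC_avg [Finite G] (d : ℕ) :
    avg ⊤ (fun x : G => if x ^ d = 1 then (1 : ℝ≥0∞) else 0) 1
      = (Nat.card {x : G // x ^ d = 1} : ℝ≥0∞) / Nat.card G := by
  have := Fintype.ofFinite G
  rw [avg_top, tsum_fintype, Finset.sum_boole, ENNReal.div_eq_inv_mul]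
  congr 2
  rw [Nat.card_eq_fintype_card, Fintype.card_subtype]

theorem QuarterC_bnd (N : ℕ) : bndB N = bndM (2 ^ 468) N := by
  unfold bndB bndM
  exact Eq.refl _

/-- `avg_top` (see `avg_top_four` in `../PhaseC2.lean`), `densityB` with
`bndB N = bndM (2 ^ 468) N` (by `rfl` after `unfold`; never let Lean evaluate `2 ^ 468` as an exponent:
generalise `2 ^ 468 = M` first), `bits_enough`, `real_boundB`; see `quarter` in `../PhaseC2.lean`. -/
theorem quarterB [Finite G] (d : ℕ) (hd : d ∣ 12) (h23 : Is23 G) (hcard : Nat.card G ≤ 2 ^ N)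
    (hx : ∃ x : G, x ^ d ≠ 1) [DecidablePred fun x : G => x ^ d = 1] :
    (avg ⊤ (fun x : G => if x ^ d = 1 then (1 : ℝ≥0∞) else 0) 1 +
      (((N + 1) * (40 * (N + 2)) : ℕ) : ℝ≥0∞) * (12 / 2 ^ (RbB.eval N))) ^ (NpB.eval N) ≤ 1 / 4 := by
  have hd' := densityB d hd (Nat.card G) G le_rfl h23 N hcard hx
  rw [QuarterC_bnd] at hd'
  have hsum : Nat.card {x : G // x ^ d = 1} + Nat.card {x : G // x ^ d ≠ 1} = Nat.card G := by
    classical
    have := Fintype.ofFinite G
    rw [Nat.card_eq_fintype_card, Nat.card_eq_fintype_card, Nat.card_eq_fintype_card,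
      Fintype.card_subtype_compl]
    have := Fintype.card_subtype_le (fun x : G => x ^ d = 1)
    omega
  have key := QuarterC_gen (2 ^ 468) N (Nat.card G) (Nat.card {x : G // x ^ d = 1})
    (Nat.card {x : G // x ^ d ≠ 1}) Nat.card_pos hsum hd'
  have havg := QuarterC_avg (G := G) d
  unfold RbB NpB
  refine le_trans (le_of_eq ?_) key
  congr 2
  rw [← havg]
  congr 1
  funext x
  congr 1

end Pool.Agent.MPa0c355.B12
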