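import Pool.Agent.Lib.MP_a0c355_lc.Final
import Pool.Agent.Lib.MP_a0c355_lc.B12.PhaseAB
import Pool.Agent.Lib.MP_a0c355_lc.B12.Derived
import Pool.Agent.Lib.MP_a0c355_lc.B12.PhaseCB
import Pool.Agent.Lib.MP_a0c355_lc.B12.QuarterC

/-! # Soundness and completeness -/

set_option autoImplicit false

namespace Pool.Agent.MPa0c355.B12

open scoped ENNReal

variable {G : Type} [Group G] {N : ℕ}

/-- As `main_compl` in `../Final.lean`: `Is23_of_pow`, `Is23.solvable`, `derived_bot` (so the last row is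
trivial: `derivedSeries G (N+1) ≤ derivedSeries G N`), `phaseAB_supp`, `phaseBB_rule`, `phaseCB_compl`. -/
theorem main_complB [Finite G] (d : ℕ) (hd : d ∣ 12) (hcard : Nat.card G ≤ 2 ^ N)
    (hG : ∀ x : G, x ^ d = 1) (σ0 : St G) (hone : ∀ i, 1 ≤ i → ∀ j, σ0.mem 0 i j = 1)
    (f : St G → ℝ≥0∞) (hf : ∀ τ, f τ ≤ if τ.bv 0 = true then 0 else 1) :
    W N (progB d RbB NpB) f σ0 ≤ 0 := by
  have h23 : Is23 G := Is23_of_pow hd hG
  have hbot0 : derivedSeries G N = ⊥ := derived_bot h23.solvable hcard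
  have hbot : derivedSeries G (N + 1) = ⊥ := by
    rw [eq_bot_iff, ← hbot0]
    exact derivedSeries_antitone G (Nat.le_succ N)
  rw [progB, W_seq]
  refine phaseAB_supp σ0 hone _ 0 ?_
  intro τ hτ
  rw [W_seq]
  have key := phaseBB_rule (N := N) d τ (fun ρ => W N (phaseCB d RbB NpB) f ρ) 0 1
    (fun ρ _ => phaseCB_compl d hG RbB NpB ρ f hf)
  rwa [if_pos] at key
  refine ⟨fun i _ j _ => hG _, fun j _ => ?_⟩
  have := hτ.rows (N + 1) le_rfl j
  rwa [hbot, Subgroup.mem_bot] at this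

/-- As `main_sound` in `../Final.lean`.  `phaseAB_rule` with `η = 1/4` and `numB`; a state `τ` after phase A
with `GoodB`: if a test of phase B fails the value is 0 (`phaseBB_rule` with `c = 1`, `e = 0`,
`phaseCB_gen`); otherwise the last row is trivial, so `derivedSeries G (N+1) = ⊥`, and all entries satisfy
`x^d = 1`, so `Is23 G` by `Is23_of_rows`; `phaseCB_rule` and `quarterB`.  `1/64 + 1/4 ≤ 1/3` is
`sixtyfour`. -/
theorem main_soundB [Finite G] (d : ℕ) (hd : d ∣ 12) (hcard : Nat.card G ≤ 2 ^ N)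
    (hx : ∃ x : G, x ^ d ≠ 1) (σ0 : St G) (hspan : gen N (σ0.mem 0 0) = ⊤)
    (hone : ∀ i, 1 ≤ i → ∀ j, σ0.mem 0 i j = 1) (f : St G → ℝ≥0∞)
    (hf : ∀ τ, f τ ≤ if τ.bv 0 = true then 1 else 0) :
    W N (progB d RbB NpB) f σ0 ≤ 1 / 3 := by
  classical
  have hf1 : ∀ τ, f τ ≤ 1 := fun τ => (hf τ).trans (by split_ifs <;> simp)
  rw [progB, W_seq]
  -- if the tests fail, the answer is `false`
  have hfail : ∀ τ : St G, ¬ ((∀ i < N + 2, ∀ j < 40 * (N + 2), (τ.mem 0 i j) ^ d = 1) ∧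
      (∀ j < 40 * (N + 2), τ.mem 0 (N + 1) j = 1)) →
      W N (.seq (phaseBB d) (phaseCB d RbB NpB)) f τ ≤ 0 := by
    intro τ hτ
    rw [W_seq]
    have key := phaseBB_rule (N := N) d τ (fun ρ => W N (phaseCB d RbB NpB) f ρ) 1 0
      (fun ρ _ => phaseCB_gen d RbB NpB ρ f hf)
    rwa [if_neg hτ] at key
  refine le_trans (phaseAB_rule σ0 hspan hone _ (1 / 4) ?_)
    (le_trans (add_le_add (numB N _ hcard) le_rfl) sixtyfour)
  intro τ hτ
  split_ifs with h3
  swap
  · exact (W_le_one _ f hf1 τ).trans le_add_self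
  by_cases h4 : (∀ i < N + 2, ∀ j < 40 * (N + 2), (τ.mem 0 i j) ^ d = 1) ∧
      (∀ j < 40 * (N + 2), τ.mem 0 (N + 1) j = 1)
  swap
  · exact (hfail τ h4).trans (by simp)
  have hbot : derivedSeries G (N + 1) = ⊥ := by
    rw [← h3 (N + 1) le_rfl, gen, Subgroup.closure_eq_bot_iff]
    rintro g ⟨a, ha, rfl⟩
    exact h4.2 a ha
  have h23 : Is23 G := Is23_of_rows hd (fun i j => τ.mem 0 i j)
    (fun i hi => h3 i (by omega)) hbot (fun i hi j hj => h4.1 i (by omega) j hj)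
  rw [W_seq]
  have key := phaseBB_rule (N := N) d τ (fun ρ => W N (phaseCB d RbB NpB) f ρ) (1 / 4) 0 (by
    intro ρ hρ
    have hrow : ∀ i, ρ.mem 0 i = τ.mem 0 i := fun i => funext (hρ i)
    have h5 := phaseCB_rule (N := N) d hd RbB NpB ρ hbot
      (by simp only [hrow]; exact fun i hi => h3 i (by omega))
      (by simp only [hrow]; exact fun i hi j hj => h4.1 i (by omega) j hj) f _ le_rfl hf
    refine h5.trans ?_
    by_cases hb : ρ.bv 0 = true
    · rw [if_pos hb, if_pos hb]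
      exact quarterB d hd h23 hcard hx
    · rw [if_neg hb, if_neg hb])
  refine key.trans ?_
  rw [if_pos h4]

end Pool.Agent.MPa0c355.B12
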