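import Pool.Agent.Lib.MP_a0c355_lc.B12.WeightStep

/-! # A minimal pair is primitive -/

set_option autoImplicit false

namespace Pool.Agent.MPa0c355.B12

open Module

section

variable {K Q V : Type*} [Field K] [Group Q] [AddCommGroup V] [Module K V]

/-- the restriction of a representation to a subgroup and an invariant subspace -/
def minPairRes (ρ : Q →* (V →ₗ[K] V)) (H : Subgroup Q) (Y : Submodule K V)
    (hY : ∀ h ∈ H, ∀ y ∈ Y, ρ h y ∈ Y) : H →* (Y →ₗ[K] Y) where
  toFun h := (ρ h).restrict (fun y hy => hY h h.2 y hy)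
  map_one' := by
    ext y
    show ρ (1 : Q) (y : V) = y
    rw [map_one]
    rfl
  map_mul' a b := by
    ext y
    show ρ ((a : Q) * b) (y : V) = ρ a (ρ b (y : V))
    rw [map_mul]
    rfl

theorem minPairRes_coe (ρ : Q →* (V →ₗ[K] V)) (H : Subgroup Q) (Y : Submodule K V)
    (hY : ∀ h ∈ H, ∀ y ∈ Y, ρ h y ∈ Y) (h : H) (y : Y) :
    ((minPairRes ρ H Y hY h y : Y) : V) = ρ (h : Q) (y : V) := rfl

end

/-- Among the pairs `(H, Y)`, `H ≤ Q`, `Y ≠ ⊥` an `H`-invariant subspace of `V` with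
`|Q : H| dim Y ≤ dim V`, choose one with `dim Y` minimal (`(⊤, ⊤)` is such a pair).  Let `B` be the
quotient of `H` by the kernel of the action on `Y`.  Irreducible: an invariant subspace `W` of `Y`,
`⊥ ≠ W ≠ Y`, gives the pair `(H, W)`.  `scal`: an abelian normal 3-subgroup of `B` has a normal
preimage `A` in `H`, acting by commuting operators; the second alternative of `weight_step` gives a
pair `(H', W)` (as subgroup of `Q` and subspace of `V`) with smaller dimension and
`|Q : H'| dim W = |Q : H| |H : H'| dim W ≤ |Q : H| dim Y ≤ dim V`. -/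
theorem exists_prim {K : Type} [Field K] [IsAlgClosed K] [CharP K 2] {Q : Type} [Group Q]
    [Finite Q] {V : Type} [AddCommGroup V] [Module K V] [FiniteDimensional K V] [Nontrivial V]
    (ρ : Q →* (V →ₗ[K] V)) :
    ∃ (H : Subgroup Q) (Y : Submodule K V), Y ≠ ⊥ ∧ H.index * finrank K Y ≤ finrank K V ∧
      ∃ (B : Type) (_ : Group B) (_ : Finite B) (π : H →* B) (σ : B →* (Y →ₗ[K] Y)),
        Function.Surjective π ∧ (∀ (h : H) (y : Y), ((σ (π h) y : Y) : V) = ρ (h : Q) (y : V)) ∧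
        Prim σ := by
  classical
  have hex : ∃ n : ℕ, ∃ (H : Subgroup Q) (Y : Submodule K V), Y ≠ ⊥ ∧
      (∀ h ∈ H, ∀ y ∈ Y, ρ h y ∈ Y) ∧ H.index * finrank K Y ≤ finrank K V ∧
      finrank K Y = n :=
    ⟨finrank K V, ⊤, ⊤, top_ne_bot, fun _ _ _ _ => Submodule.mem_top, by
      rw [Subgroup.index_top, one_mul, finrank_top], by rw [finrank_top]⟩
  obtain ⟨H, Y, hY0, hinv, hidx, hn⟩ := Nat.find_spec hex
  have hmin : ∀ (H' : Subgroup Q) (Y' : Submodule K V), Y' ≠ ⊥ →
      (∀ h ∈ H', ∀ y ∈ Y', ρ h y ∈ Y') → H'.index * finrank K Y' ≤ finrank K V →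
      finrank K Y ≤ finrank K Y' := by
    intro H' Y' h1 h2 h3
    rw [hn]
    exact Nat.find_min' hex ⟨H', Y', h1, h2, h3, rfl⟩
  -- a submodule of `Y`
  have hsub : ∀ (H' : Subgroup Q) (W : Submodule K Y), W ≠ ⊥ →
      (∀ h ∈ H', ∀ y ∈ W, ∃ z ∈ W, (z : V) = ρ h (y : V)) →
      H'.index * finrank K W ≤ finrank K V → W = ⊤ := by
    intro H' W h1 h2 h3
    by_contra htop
    have e1 : finrank K (W.map Y.subtype) = finrank K W :=
      LinearEquiv.finrank_eq (Submodule.equivSubtypeMap Y W).symm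
    have h4 := hmin H' (W.map Y.subtype) ?_ ?_ ?_
    · rw [e1] at h4
      have h5 := Submodule.finrank_lt htop
      omega
    · intro h0
      apply h1
      rw [eq_bot_iff]
      intro w hw
      have h5 : (w : V) ∈ W.map Y.subtype := ⟨w, hw, rfl⟩
      rw [h0, Submodule.mem_bot] at h5
      rw [Submodule.mem_bot]
      exact Subtype.ext h5
    · rintro h hh _ ⟨y, hy, rfl⟩
      obtain ⟨z, hz, hz'⟩ := h2 h hh y hy
      exact ⟨z, hz, hz'⟩
    · rw [e1]
      exact h3
  set τ := minPairRes ρ H Y hinv with hτ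
  have : Nontrivial Y := Submodule.nontrivial_iff_ne_bot.2 hY0
  refine ⟨H, Y, hY0, hidx, H ⧸ τ.ker, inferInstance, inferInstance, QuotientGroup.mk' τ.ker,
    QuotientGroup.lift τ.ker τ le_rfl, QuotientGroup.mk'_surjective _, fun h y => rfl, ?_, ?_, ?_⟩
  · intro g hg
    obtain ⟨h, rfl⟩ := QuotientGroup.mk'_surjective _ g
    rw [← MonoidHom.mem_ker, QuotientGroup.ker_mk', MonoidHom.mem_ker]
    exact hg
  · intro W hW
    by_cases h0 : W = ⊥
    · exact Or.inl h0
    · refine Or.inr (hsub H W h0 ?_ ?_)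
      · intro h hh y hy
        exact ⟨_, hW (QuotientGroup.mk' τ.ker ⟨h, hh⟩) y hy, rfl⟩
      · exact le_trans (Nat.mul_le_mul_left _ (Submodule.finrank_le W)) hidx
  · intro A hA h3 hc
    have hA' : (A.comap (QuotientGroup.mk' τ.ker)).Normal := hA.comap _
    have hcc : ∀ a ∈ A.comap (QuotientGroup.mk' τ.ker), ∀ b ∈ A.comap (QuotientGroup.mk' τ.ker),
        τ a * τ b = τ b * τ a := by
      intro a ha b hb
      have h1 := congrArg (QuotientGroup.lift τ.ker τ le_rfl) (hc _ ha _ hb)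
      rw [map_mul, map_mul] at h1
      exact h1
    rcases weight_step τ (A.comap (QuotientGroup.mk' τ.ker)) hA' hcc with h | h
    · intro a ha
      obtain ⟨b, rfl⟩ := QuotientGroup.mk'_surjective _ a
      exact h b ha
    · exfalso
      obtain ⟨H', W, hW0, hWt, hWi, hWd⟩ := h
      apply hWt
      refine hsub (H'.map H.subtype) W hW0 ?_ ?_
      · rintro _ ⟨h, hh, rfl⟩ y hy
        exact ⟨τ h y, hWi h hh y hy, rfl⟩
      · rw [Subgroup.index_map_subtype, mul_comm H'.index, mul_assoc]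
        exact le_trans (Nat.mul_le_mul_left _ hWd) hidx

end Pool.Agent.MPa0c355.B12
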