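import Pool.Agent.Lib.MP_a0c355_lc.B12.Defs

/-! # Groups of exponent three, central extensions -/

set_option autoImplicit false

namespace Pool.Agent.MPa0c355.B12

open scoped commutatorElement

/-- In a group of exponent 3 an element commutes with its conjugates: from `(x g)^3 = 1` and
`(x g⁻¹)^3 = 1`, i.e. `x (g x g⁻¹) (g² x g⁻²) = 1` and `x (g⁻¹ x g) (g⁻² x g²) = 1`, where
`g² x g⁻² = g⁻¹ x g`, `g⁻² x g² = g x g⁻¹`; so with `a = g x g⁻¹`, `b = g⁻¹ x g`: `x a b = 1 = x b a`,
hence `a b = b a`, and `x = (a b)⁻¹` commutes with `a`. -/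
theorem three_conj_comm {V : Type*} [Group V] (h : ∀ x : V, x ^ 3 = 1) (x g : V) :
    x * (g * x * g⁻¹) = (g * x * g⁻¹) * x := by
  have hg : g ^ 3 = 1 := h g
  have hgg : g * g = g⁻¹ := by
    rw [eq_inv_iff_mul_eq_one, ← hg, pow_succ, pow_two]
  have hgi : g⁻¹ * g⁻¹ = g := by
    rw [← mul_inv_rev, hgg, inv_inv]
  have e1 : x * (g * x * g⁻¹) * (g⁻¹ * x * g) = 1 := by
    calc x * (g * x * g⁻¹) * (g⁻¹ * x * g)
        = x * g * x * (g⁻¹ * g⁻¹) * x * g := by group
      _ = (x * g) ^ 3 := by rw [hgi, pow_succ, pow_two]; group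
      _ = 1 := h _
  have e2 : x * (g⁻¹ * x * g) * (g * x * g⁻¹) = 1 := by
    calc x * (g⁻¹ * x * g) * (g * x * g⁻¹)
        = x * g⁻¹ * x * (g * g) * x * g⁻¹ := by group
      _ = (x * g⁻¹) ^ 3 := by rw [hgg, pow_succ, pow_two]; group
      _ = 1 := h _
  have e3 : (g * x * g⁻¹) * (g⁻¹ * x * g) = (g⁻¹ * x * g) * (g * x * g⁻¹) := by
    have h1 : (g * x * g⁻¹) * (g⁻¹ * x * g) = x⁻¹ := by
      rw [mul_assoc x] at e1
      exact (inv_eq_of_mul_eq_one_right e1).symm
    have h2 : (g⁻¹ * x * g) * (g * x * g⁻¹) = x⁻¹ := by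
      rw [mul_assoc x] at e2
      exact (inv_eq_of_mul_eq_one_right e2).symm
    rw [h1, h2]
  have h1 : x * (g * x * g⁻¹) = (g⁻¹ * x * g)⁻¹ := eq_inv_of_mul_eq_one_left e1
  have h2 : (g * x * g⁻¹) * x = (g⁻¹ * x * g)⁻¹ := by
    have h3 : x = (g⁻¹ * x * g)⁻¹ * (g * x * g⁻¹)⁻¹ := by
      rw [← mul_inv_rev]
      rw [mul_assoc x] at e1
      exact eq_inv_of_mul_eq_one_left e1
    have h4 : (g * x * g⁻¹) * x = (g * x * g⁻¹) * ((g⁻¹ * x * g)⁻¹ * (g * x * g⁻¹)⁻¹) :=
      congrArg _ h3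
    have h5 : (g * x * g⁻¹) * (g⁻¹ * x * g)⁻¹ = (g⁻¹ * x * g)⁻¹ * (g * x * g⁻¹) := by
      rw [eq_inv_mul_iff_mul_eq, ← mul_assoc, ← e3, mul_inv_cancel_right]
    rw [h4, ← mul_assoc, h5, mul_inv_cancel_right]
  rw [h1, h2]

/-- The ring part of `three_class`. -/
theorem three_ring {V R : Type*} [Group V] [Ring R] (h3 : ∀ r : R, r + r + r = 0)
    (s : V →* R) (hs : ∀ g, (s g - 1) * (s g - 1) = 0) (g h k : V) :
    (s g - 1) * (s h - 1) * (s k - 1) = 0 := by
  have hmul : ∀ g h : V, s (g * h) - 1 = (s g - 1) * (s h - 1) + (s g - 1) + (s h - 1) := by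
    intro g h
    rw [map_mul]
    noncomm_ring
  have key : ∀ g h : V, (s g - 1) * (s h - 1) * (s g - 1) = 0 := by
    intro g h
    have h1 := hs (g * h)
    rw [hmul] at h1
    have ha := hs g
    have hb := hs h
    have hsh : s h = (s h - 1) + 1 := by rw [sub_add_cancel]
    have hinv : s h * s h⁻¹ = 1 := by rw [← map_mul, mul_inv_cancel, map_one]
    generalize s g - 1 = a at *
    rw [hsh] at hinv
    generalize s h - 1 = b at *
    have e1 : a * (a * b + a + b) = a * b := by
      rw [mul_add, mul_add, ← mul_assoc, ha, zero_mul, zero_add, zero_add]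
    have e2 : a * b * a * (b + 1) = 0 := by
      have e3 := congrArg (fun r => a * r) h1
      simp only [mul_zero] at e3
      rw [← mul_assoc, e1, mul_add, mul_add, mul_assoc a b b, hb, mul_zero, add_zero,
        ← mul_assoc] at e3
      rw [mul_add, mul_one]
      exact e3
    calc a * b * a = a * b * a * ((b + 1) * s h⁻¹) := by rw [hinv, mul_one]
      _ = 0 := by rw [← mul_assoc, e2, zero_mul]
  have anti : ∀ g h : V, (s g - 1) * (s h - 1) = -((s h - 1) * (s g - 1)) := by
    intro g h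
    have h1 := hs (g * h)
    rw [hmul] at h1
    have ha := hs g
    have hb := hs h
    have k1 := key g h
    have k2 := key h g
    generalize s g - 1 = a at *
    generalize s h - 1 = b at *
    rw [eq_neg_iff_add_eq_zero]
    have e1 : (a * b + a + b) * (a * b + a + b) =
        a * b * a * b + a * b * a + a * (b * b) + (a * a) * b + a * a + a * b + b * a * b +
          b * a + b * b := by noncomm_ring
    rw [e1, k1, k2, ha, hb] at h1
    simpa using h1
  have h1 := anti g (h * k)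
  rw [hmul] at h1
  have h2 := anti g h
  have h4 := anti g k
  generalize s g - 1 = a at *
  generalize s h - 1 = b at *
  generalize s k - 1 = c at *
  have e1 : a * (b * c) = -((b * c) * a) := by
    rw [mul_add, mul_add, add_mul, add_mul, h2, h4] at h1
    have e2 : a * (b * c) = -(b * c * a + b * a + c * a) + b * a + c * a := by
      rw [← h1]
      abel
    rw [e2]
    abel
  have e2 : b * c * a = a * b * c := by
    calc b * c * a = -(b * (-(c * a))) := by rw [mul_neg, neg_neg, mul_assoc]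
      _ = -(b * (a * c)) := by rw [h4]
      _ = -(b * a) * c := by rw [← mul_assoc, neg_mul]
      _ = a * b * c := by rw [h2]
  rw [e2, ← mul_assoc] at e1
  have e3 := h3 (a * b * c)
  have e4 : a * b * c + a * b * c = 0 := by
    nth_rewrite 1 [e1]
    exact neg_add_cancel _
  rw [e4, zero_add] at e3
  exact e3

/-- The abstract form of `three_class`. -/
theorem three_abs {V A : Type*} [Group V] [CommGroup A] (hA : ∀ a : A, a * a * a = 1)
    (φ : V →* MulAut A) (hφ : ∀ g a, φ g (φ g a) * φ g a * a = 1) (g k l : V) (a : A) :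
    (a * (φ g a)⁻¹ * (φ k (a * (φ g a)⁻¹))⁻¹) *
      (φ l (a * (φ g a)⁻¹ * (φ k (a * (φ g a)⁻¹))⁻¹))⁻¹ = 1 := by
  let s : V →* AddMonoid.End (Additive A) :=
    { toFun := fun g => MonoidHom.toAdditive (φ g).toMonoidHom
      map_one' := by
        rw [map_one]
        rfl
      map_mul' := by
        intro a b
        rw [map_mul]
        rfl }
  have h3 : ∀ r : AddMonoid.End (Additive A), r + r + r = 0 := by
    intro r
    ext y
    exact congrArg Additive.ofMul (hA (Additive.toMul (r y)))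
  have hs : ∀ g, (s g - 1) * (s g - 1) = 0 := by
    intro g
    have h1 : (s g - 1) * (s g - 1) = s g * s g + s g + 1 - (s g + s g + s g) := by
      rw [mul_sub, sub_mul, mul_one, one_mul]
      abel
    rw [h1, h3, sub_zero]
    ext y
    exact congrArg Additive.ofMul (hφ g (Additive.toMul y))
  have key : ∀ (g : V) (a : A), (s g - 1) (Additive.ofMul a) =
      -Additive.ofMul (a * (φ g a)⁻¹) := by
    intro g a
    have h1 : (s g - 1) (Additive.ofMul a) = Additive.ofMul (φ g a / a) := rfl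
    rw [h1, ← ofMul_inv, mul_inv_rev, inv_inv, div_eq_mul_inv]
  have h4 := DFunLike.congr_fun (three_ring h3 s hs l k g) (Additive.ofMul a)
  have h5 : ((s l - 1) * (s k - 1) * (s g - 1)) (Additive.ofMul a) =
      (s l - 1) ((s k - 1) ((s g - 1) (Additive.ofMul a))) := rfl
  rw [h5, key, map_neg, key, neg_neg, key] at h4
  have h6 := neg_eq_zero.1 h4
  exact Additive.ofMul.injective h6

/-- `γ_4 = 1` in exponent 3.  Let `A` be the normal closure of `x`; it is abelian: two conjugates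
of `x` commute (`three_conj_comm`).  Write `A` additively, `V` acts by conjugation; in `End A` put
`a = g - 1`, `b = h - 1`, `c = k - 1`.  `a² = 0`: `⁅⁅y, g⁆, g⁆ = 1` for `y ∈ A` because `g` commutes with
`y g⁻¹ y⁻¹`, hence with `⁅y, g⁆ = (y g y⁻¹) g⁻¹`.  `(gh - 1)² = 0` with `gh - 1 = a + b + ab` gives
`ab + ba + aba + bab + abab = 0`; multiply by `a` on the left: `aba (1 + b) = 0`, so `aba = 0`
(`1 + b = h` is invertible), by symmetry `bab = 0`, so `ab = -ba`.  With `hk` for `h`
(`hk - 1 = b + c + bc`): `a (bc) = -(bc) a = -b (c a) = b a c = -a b c`, so `2 abc = 0` and `abc = 0`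
as `3 A = 0`. -/
theorem three_class {V : Type*} [Group V] (h : ∀ x : V, x ^ 3 = 1) (x g k l : V) :
    ⁅⁅⁅x, g⁆, k⁆, l⁆ = 1 := by
  let N : Subgroup V := Subgroup.normalClosure {x}
  have hN : N.Normal := Subgroup.normalClosure_normal
  have hx : x ∈ N := Subgroup.subset_normalClosure (Set.mem_singleton x)
  have hcomm : ∀ y ∈ Group.conjugatesOfSet {x}, ∀ z ∈ Group.conjugatesOfSet {x},
      y * z = z * y := by
    intro y hy z hz
    rw [Group.mem_conjugatesOfSet_iff] at hy hz
    obtain ⟨x1, hx1, hy⟩ := hy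
    obtain ⟨x2, hx2, hz⟩ := hz
    rw [Set.mem_singleton_iff] at hx1 hx2
    subst hx1
    subst hx2
    obtain ⟨c, hc⟩ := isConj_iff.1 hy
    obtain ⟨d, hd⟩ := isConj_iff.1 hz
    have h1 := three_conj_comm h x2 (c⁻¹ * d)
    rw [← hc, ← hd]
    calc c * x2 * c⁻¹ * (d * x2 * d⁻¹)
        = c * (x2 * (c⁻¹ * d * x2 * (c⁻¹ * d)⁻¹)) * c⁻¹ := by group
      _ = c * ((c⁻¹ * d * x2 * (c⁻¹ * d)⁻¹) * x2) * c⁻¹ := by rw [h1]
      _ = d * x2 * d⁻¹ * (c * x2 * c⁻¹) := by group
  have hc : IsMulCommutative N := Subgroup.isMulCommutative_closure hcomm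
  have hc' : ∀ a b : N, a * b = b * a := fun a b => mul_comm' a b
  let instC : CommGroup N := { (inferInstance : Group N) with mul_comm := hc' }
  have h1 := three_abs (A := N) ?_ MulAut.conjNormal ?_ g k l ⟨x, hx⟩
  · have e : ∀ a b : V, ⁅a, b⁆ = a * (b * a * b⁻¹)⁻¹ := by
      intro a b
      rw [commutatorElement_def]
      group
    rw [e, e, e]
    exact congrArg Subtype.val h1
  · intro z
    apply Subtype.ext
    have h2 := h z
    rw [pow_succ, pow_two] at h2
    exact h2
  · intro g y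
    apply Subtype.ext
    show g * (g * (y : V) * g⁻¹) * g⁻¹ * (g * (y : V) * g⁻¹) * (y : V) = 1
    have h2 := h ((y : V) * g⁻¹)
    have h3 := h g
    rw [pow_succ, pow_two] at h2 h3
    calc g * (g * (y : V) * g⁻¹) * g⁻¹ * (g * (y : V) * g⁻¹) * (y : V)
        = g * g * ((y : V) * g⁻¹ * ((y : V) * g⁻¹) * ((y : V) * g⁻¹)) * g := by group
      _ = 1 := by rw [h2, mul_one, h3]

end Pool.Agent.MPa0c355.B12
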