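import Pool.Agent.Lib.MP_a0c355_lc.B12.CDefs
import Pool.Agent.Lib.MP_a0c355_lc.B12.Three

/-! # First properties of primitive representations -/

set_option autoImplicit false

namespace Pool.Agent.MPa0c355.B12

open Module
open scoped commutatorElement

variable {K B Y : Type*} [Field K] [CharP K 2] [Group B] [Finite B] [AddCommGroup Y] [Module K Y]
  [Nontrivial Y]

/-- A finite 2-group acting linearly on a nonzero vector space of characteristic two has a nonzero
fixed vector. -/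
theorem primA_fixed (σ : B →* (Y →ₗ[K] Y)) (N : Subgroup B) (hN : IsPGroup 2 N) :
    ∃ w : Y, w ≠ 0 ∧ ∀ n ∈ N, σ n w = w := by
  classical
  have hfact : Fact (Nat.Prime 2) := ⟨Nat.prime_two⟩
  obtain ⟨v, hv⟩ := exists_ne (0 : Y)
  have h2 : ∀ y : Y, 2 • y = 0 := by
    intro y
    rw [← Nat.cast_smul_eq_nsmul K, CharP.cast_eq_zero, zero_smul]
  let _ : Module (ZMod 2) Y := AddCommGroup.zmodModule h2
  let S : Submodule (ZMod 2) Y := Submodule.span (ZMod 2) (Set.range fun n : N => σ n v)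
  have hS : ∀ n : N, ∀ y ∈ S, σ (n : B) y ∈ S := by
    intro n y hy
    induction hy using Submodule.span_induction with
    | mem x hx =>
      obtain ⟨k, rfl⟩ := hx
      refine Submodule.subset_span ⟨n * k, ?_⟩
      show σ ((n : B) * (k : B)) v = σ (n : B) (σ (k : B) v)
      rw [map_mul]
      rfl
    | zero =>
      rw [map_zero]
      exact S.zero_mem
    | add x y _ _ hx hy =>
      rw [map_add]
      exact S.add_mem hx hy
    | smul a x _ hx =>
      have h3 : σ (n : B) (a • x) = a • σ (n : B) x := by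
        have h4 := ZMod.map_smul (σ (n : B)).toAddMonoidHom a x
        exact h4
      rw [h3]
      exact S.smul_mem a hx
  have hfin : Module.Finite (ZMod 2) S := Module.Finite.span_of_finite _ (Set.finite_range _)
  have hfinS : Finite S := Module.finite_of_finite (ZMod 2)
  let act : MulAction N S :=
    { smul := fun n w => ⟨σ (n : B) w, hS n w w.2⟩
      one_smul := by
        intro w
        apply Subtype.ext
        show σ ((1 : N) : B) (w : Y) = w
        rw [Subgroup.coe_one, map_one]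
        rfl
      mul_smul := by
        intro a b w
        apply Subtype.ext
        show σ ((a * b : N) : B) (w : Y) = σ (a : B) (σ (b : B) w)
        rw [Subgroup.coe_mul, map_mul]
        rfl }
  have hsm : ∀ (n : N) (w : S), ((n • w : S) : Y) = σ (n : B) w := fun n w => rfl
  have hv' : v ∈ S := Submodule.subset_span ⟨1, by
    show σ ((1 : N) : B) v = v
    rw [Subgroup.coe_one, map_one]
    rfl⟩
  have hdvd : 2 ∣ Nat.card S := by
    have h3 : addOrderOf (⟨v, hv'⟩ : S) = 2 := by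
      apply addOrderOf_eq_prime
      · exact Subtype.ext (h2 v)
      · exact fun h => hv (congrArg Subtype.val h)
    have h4 := addOrderOf_dvd_natCard (⟨v, hv'⟩ : S)
    rwa [h3] at h4
  have h0 : (0 : S) ∈ MulAction.fixedPoints N S := by
    intro n
    apply Subtype.ext
    rw [hsm]
    exact map_zero _
  obtain ⟨w, hw, hw0⟩ := hN.exists_fixed_point_of_prime_dvd_card_of_fixed_point S hdvd h0
  refine ⟨w, fun h => hw0 (Subtype.ext h.symm), fun n hn => ?_⟩
  have h3 := hw ⟨n, hn⟩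
  exact (hsm ⟨n, hn⟩ w).symm.trans (congrArg Subtype.val h3)

/-- `O_2(B) = 1`: let `N` be a normal 2-subgroup, `v ≠ 0`; the additive group generated by the vectors
`σ g v` is finite (exponent 2) of even order, `N` acts on it, so `N` fixes a vector `≠ 0` of it
(`IsPGroup.exists_fixed_point_of_prime_dvd_card_of_fixed_point`).  The fixed vectors of `N` form a
nonzero invariant subspace, so it is `Y` and `N = 1` by faithfulness. -/
theorem prim_Op2 (σ : B →* (Y →ₗ[K] Y)) (hσ : Prim σ) : Op 2 B = ⊥ := by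
  obtain ⟨w, hw0, hw⟩ := primA_fixed σ (Op 2 B) (Op_isPGroup 2)
  let F : Submodule K Y :=
    { carrier := {y | ∀ n ∈ Op 2 B, σ n y = y}
      zero_mem' := fun n _ => map_zero _
      add_mem' := by
        intro x y hx hy n hn
        rw [map_add, hx n hn, hy n hn]
      smul_mem' := by
        intro c x hx n hn
        rw [map_smul, hx n hn] }
  have hF : F = ⊤ := by
    refine (hσ.irr F ?_).resolve_left ?_
    · intro g y hy n hn
      have h1 : g⁻¹ * n * g ∈ Op 2 B := by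
        have := (Op_normal (G := B) 2).conj_mem n hn g⁻¹
        rwa [inv_inv] at this
      have h2 := hy _ h1
      have h3 : n * g = g * (g⁻¹ * n * g) := by group
      calc σ n (σ g y) = σ (n * g) y := by rw [map_mul]; rfl
        _ = σ g (σ (g⁻¹ * n * g) y) := by rw [h3, map_mul]; rfl
        _ = σ g y := by rw [h2]
    · intro h
      have h1 : w ∈ F := hw
      rw [h, Submodule.mem_bot] at h1
      exact hw0 h1
  rw [eq_bot_iff]
  intro n hn
  rw [Subgroup.mem_bot]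
  apply hσ.faithful
  ext y
  have h1 : y ∈ F := hF ▸ Submodule.mem_top
  exact h1 n hn

omit [CharP K 2] [Finite B] [Nontrivial Y] in
theorem primA_inj (σ : B →* (Y →ₗ[K] Y)) (hσ : Prim σ) {a b : B} (h : σ a = σ b) : a = b := by
  have h1 : σ (a * b⁻¹) = 1 := by
    rw [map_mul, h, ← map_mul, mul_inv_cancel, map_one]
  exact mul_inv_eq_one.1 (hσ.faithful _ h1)

omit [Finite B] in
theorem primA_pow3 (h12 : ∀ x : B, x ^ 12 = 1) (A : Subgroup B) (h3 : IsPGroup 3 A) (a : B)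
    (ha : a ∈ A) : a ^ 3 = 1 := by
  obtain ⟨k, hk⟩ := h3 ⟨a, ha⟩
  have hk' : a ^ 3 ^ k = 1 := congrArg Subtype.val hk
  have h1 : orderOf a ∣ 3 ^ k := orderOf_dvd_of_pow_eq_one hk'
  have h2 : orderOf a ∣ 12 := orderOf_dvd_of_pow_eq_one (h12 a)
  have h4 : Nat.Coprime (orderOf a) 4 :=
    Nat.Coprime.coprime_dvd_left h1 (Nat.Coprime.pow_left k (by norm_num))
  have h5 : orderOf a ∣ 3 := by
    have h6 : (12 : ℕ) = 3 * 4 := rfl
    rw [h6] at h2
    exact h4.dvd_of_dvd_mul_right h2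
  exact orderOf_dvd_iff_pow_eq_one.1 h5

/-- an abelian normal 3-subgroup (of exponent 3) is central of order at most 3: its elements are
scalars `c` with `c^3 = 1`, and `σ` is injective; the polynomial `X^3 - 1` has at most 3 roots. -/
theorem prim_abel (σ : B →* (Y →ₗ[K] Y)) (hσ : Prim σ) (h12 : ∀ x : B, x ^ 12 = 1)
    (A : Subgroup B) (hA : A.Normal) (h3 : IsPGroup 3 A) (hc : ∀ a ∈ A, ∀ b ∈ A, a * b = b * a) :
    Nat.card A ≤ 3 ∧ ∀ a ∈ A, ∀ b : B, a * b = b * a := by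
  classical
  have hsc : ∀ a : A, ∃ c : K, σ (a : B) = c • (1 : Y →ₗ[K] Y) :=
    fun a => hσ.scal A hA h3 hc a a.2
  choose c hcs using hsc
  constructor
  · have h1 : ∀ a : A, c a ∈ (Polynomial.nthRoots 3 (1 : K)).toFinset := by
      intro a
      rw [Multiset.mem_toFinset, Polynomial.mem_nthRoots (by norm_num)]
      have h2 : (c a ^ 3) • (1 : Y →ₗ[K] Y) = (1 : K) • (1 : Y →ₗ[K] Y) := by
        calc (c a ^ 3) • (1 : Y →ₗ[K] Y) = (c a • (1 : Y →ₗ[K] Y)) ^ 3 := by
              rw [smul_pow, one_pow]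
          _ = σ ((a : B) ^ 3) := by rw [map_pow, hcs]
          _ = (1 : K) • (1 : Y →ₗ[K] Y) := by rw [primA_pow3 h12 A h3 a a.2, map_one, one_smul]
      exact smul_left_injective K (one_ne_zero (α := Y →ₗ[K] Y)) h2
    have h2 : Function.Injective fun a : A =>
        (⟨c a, h1 a⟩ : {x // x ∈ (Polynomial.nthRoots 3 (1 : K)).toFinset}) := by
      intro a b hab
      apply Subtype.ext
      apply primA_inj σ hσ
      have h := congrArg Subtype.val hab
      simp only at h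
      rw [hcs, hcs, h]
    have h4 := Nat.card_le_card_of_injective _ h2
    have h5 : Nat.card {x // x ∈ (Polynomial.nthRoots 3 (1 : K)).toFinset} =
        (Polynomial.nthRoots 3 (1 : K)).toFinset.card := by
      rw [Nat.card_eq_fintype_card, Fintype.card_coe]
    rw [h5] at h4
    exact h4.trans ((Multiset.toFinset_card_le _).trans (Polynomial.card_nthRoots 3 1))
  · intro a ha b
    apply primA_inj σ hσ
    rw [map_mul, map_mul, hcs ⟨a, ha⟩, smul_mul_assoc, one_mul, mul_smul_comm, mul_one]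

/-- `R = O_3(B)` has exponent 3 (`x^12 = 1` and `x` is a 3-element). -/
theorem prim_exp (h12 : ∀ x : B, x ^ 12 = 1) : ∀ r ∈ Op 3 B, r ^ 3 = 1 :=
  fun r hr => primA_pow3 h12 _ (Op_isPGroup 3) r hr

/-- The commutator subgroup of `R = O_3(B)` is normal in `B` and abelian: let `c = ⁅r, s⁆`; all
`⁅c, t⁆`, `t ∈ R`, are central in `R` by `three_class` (for the group `R`, `prim_exp`), so conjugation
by `t` multiplies `c` by a central element, and conjugation by `⁅t, u⁆` fixes `c`.  By `prim_abel` it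
is central in `B`, and acts by scalars by `hσ.scal`. -/
theorem prim_comm (σ : B →* (Y →ₗ[K] Y)) (hσ : Prim σ) (h12 : ∀ x : B, x ^ 12 = 1) :
    ∀ r ∈ Op 3 B, ∀ s ∈ Op 3 B, (∀ b : B, ⁅r, s⁆ * b = b * ⁅r, s⁆) ∧
      ∃ c : K, σ ⁅r, s⁆ = c • (1 : Y →ₗ[K] Y) := by
  have hexp : ∀ x : Op 3 B, x ^ 3 = 1 := fun x => Subtype.ext (prim_exp h12 x x.2)
  have hcc : ∀ r s t u : Op 3 B, ⁅r, s⁆ * ⁅t, u⁆ = ⁅t, u⁆ * ⁅r, s⁆ := by
    intro r s t u
    have hz : ∀ t : Op 3 B, ∀ l : Op 3 B, ⁅⁅r, s⁆, t⁆ * l = l * ⁅⁅r, s⁆, t⁆ := by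
      intro t l
      have h1 := three_class hexp r s t l
      exact commutatorElement_eq_one_iff_mul_comm.1 h1
    have hzt := hz t
    have hzu := hz u
    have ht : ⁅r, s⁆ * t * ⁅r, s⁆⁻¹ = ⁅⁅r, s⁆, t⁆ * t := by
      rw [commutatorElement_def ⁅r, s⁆ t]
      group
    have hu : ⁅r, s⁆ * u * ⁅r, s⁆⁻¹ = ⁅⁅r, s⁆, u⁆ * u := by
      rw [commutatorElement_def ⁅r, s⁆ u]
      group
    generalize ⁅⁅r, s⁆, t⁆ = z at *
    generalize ⁅⁅r, s⁆, u⁆ = y at *
    generalize ⁅r, s⁆ = c at *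
    have h1 : c * ⁅t, u⁆ * c⁻¹ = ⁅t, u⁆ := by
      calc c * ⁅t, u⁆ * c⁻¹
          = (c * t * c⁻¹) * (c * u * c⁻¹) * (c * t * c⁻¹)⁻¹ * (c * u * c⁻¹)⁻¹ := by
            rw [commutatorElement_def]
            group
        _ = z * t * (y * u) * (z * t)⁻¹ * (y * u)⁻¹ := by rw [ht, hu]
        _ = z * (t * y) * u * t⁻¹ * z⁻¹ * u⁻¹ * y⁻¹ := by group
        _ = z * (y * t) * u * t⁻¹ * z⁻¹ * u⁻¹ * y⁻¹ := by rw [hzu t]
        _ = (z * (y * (t * u * t⁻¹))) * z⁻¹ * u⁻¹ * y⁻¹ := by group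
        _ = ((y * (t * u * t⁻¹)) * z) * z⁻¹ * u⁻¹ * y⁻¹ := by rw [hzt]
        _ = y * (t * u * t⁻¹ * u⁻¹) * y⁻¹ := by group
        _ = (t * u * t⁻¹ * u⁻¹) * y * y⁻¹ := by rw [hzu]
        _ = ⁅t, u⁆ := by rw [mul_inv_cancel_right, commutatorElement_def]
    rw [mul_inv_eq_iff_eq_mul] at h1
    exact h1
  have hab : ∀ a ∈ ⁅Op 3 B, Op 3 B⁆, ∀ b ∈ ⁅Op 3 B, Op 3 B⁆, a * b = b * a := by
    have hcl : IsMulCommutative (Subgroup.closure
        {g | ∃ g₁ ∈ Op 3 B, ∃ g₂ ∈ Op 3 B, ⁅g₁, g₂⁆ = g}) := by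
      apply Subgroup.isMulCommutative_closure
      rintro x ⟨r, hr, s, hs, rfl⟩ y ⟨t, ht, u, hu, rfl⟩
      exact congrArg Subtype.val (hcc ⟨r, hr⟩ ⟨s, hs⟩ ⟨t, ht⟩ ⟨u, hu⟩)
    intro a ha b hb
    rw [Subgroup.commutator_def] at ha hb
    exact congrArg Subtype.val (mul_comm' (⟨a, ha⟩ : Subgroup.closure
        {g | ∃ g₁ ∈ Op 3 B, ∃ g₂ ∈ Op 3 B, ⁅g₁, g₂⁆ = g}) ⟨b, hb⟩)
  have hle : ⁅Op 3 B, Op 3 B⁆ ≤ Op 3 B := Subgroup.commutator_le_left _ _
  have h3 : IsPGroup 3 (⁅Op 3 B, Op 3 B⁆ : Subgroup B) := (Op_isPGroup (G := B) 3).to_le hle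
  have hn : (⁅Op 3 B, Op 3 B⁆ : Subgroup B).Normal := inferInstance
  intro r hr s hs
  have hmem : ⁅r, s⁆ ∈ ⁅Op 3 B, Op 3 B⁆ := Subgroup.commutator_mem_commutator hr hs
  exact ⟨(prim_abel σ hσ h12 _ hn h3 hab).2 _ hmem, hσ.scal _ hn h3 hab _ hmem⟩

end Pool.Agent.MPa0c355.B12
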