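import Pool.Agent.Lib.MP_a0c355_lc.B12.PrimK
import Pool.Agent.Lib.MP_a0c355_lc.B12.Indep
import Pool.Agent.Lib.MP_a0c355_lc.B12.BoundJ

/-! # The order of a group with a primitive representation -/

set_option autoImplicit false

namespace Pool.Agent.MPa0c355.B12

open Module
open scoped commutatorElement

variable {K B Y : Type*} [Field K] [CharP K 2] [Group B] [Finite B] [AddCommGroup Y] [Module K Y]
  [Nontrivial Y]

/-- the centre of `O_3(B)` as a subgroup of `B` -/
def primBZ (B : Type*) [Group B] : Subgroup B :=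
  Op 3 B ⊓ Subgroup.centralizer (Op 3 B : Set B)

instance primBZ_normal (B : Type*) [Group B] : (primBZ B).Normal :=
  inferInstanceAs (Op 3 B ⊓ Subgroup.centralizer (Op 3 B : Set B)).Normal

/-- `R / Z(R)` as a subgroup of `B / Z(R)` -/
def primBW (B : Type*) [Group B] : Subgroup (B ⧸ primBZ B) :=
  (Op 3 B).map (QuotientGroup.mk' (primBZ B))

instance primBW_normal (B : Type*) [Group B] : (primBW B).Normal :=
  Subgroup.Normal.map (Op_normal 3) _ (QuotientGroup.mk'_surjective _)

theorem primB_comm_mem {B : Type*} [Group B] {r s : B} (hr : r ∈ Op 3 B) (hs : s ∈ Op 3 B) :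
    ⁅r, s⁆ ∈ Op 3 B := by
  rw [commutatorElement_def]
  exact (Op 3 B).mul_mem ((Op 3 B).mul_mem ((Op 3 B).mul_mem hr hs) ((Op 3 B).inv_mem hr))
    ((Op 3 B).inv_mem hs)

/-- the action on `R / Z(R)` -/
def primBphi (B : Type*) [Group B] : B →* MulAut (primBW B) :=
  (MulAut.conjNormal : B ⧸ primBZ B →* MulAut (primBW B)).comp (QuotientGroup.mk' (primBZ B))

omit [Finite B] in
theorem primB_mem_ker (n : B) : n ∈ (primBphi B).ker ↔ ∀ r ∈ Op 3 B, ⁅n, r⁆ ∈ primBZ B := by
  have h1 : ∀ (w : primBW B), ((primBphi B n w : primBW B) : B ⧸ primBZ B) =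
      (n : B ⧸ primBZ B) * w * (n : B ⧸ primBZ B)⁻¹ := fun w => MulAut.conjNormal_apply _ w
  have h2 : ∀ r : B, ⁅n, r⁆ ∈ primBZ B ↔
      (n : B ⧸ primBZ B) * (r : B ⧸ primBZ B) * (n : B ⧸ primBZ B)⁻¹ = (r : B ⧸ primBZ B) := by
    intro r
    rw [← QuotientGroup.eq_one_iff, commutatorElement_def, QuotientGroup.mk_mul,
      QuotientGroup.mk_mul, QuotientGroup.mk_mul, QuotientGroup.mk_inv, QuotientGroup.mk_inv,
      mul_inv_eq_one]
  rw [MonoidHom.mem_ker]
  constructor
  · intro h r hr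
    rw [h2]
    have h3 := h1 ⟨(r : B ⧸ primBZ B), ⟨r, hr, rfl⟩⟩
    rw [h] at h3
    exact h3.symm
  · intro h
    apply MulEquiv.ext
    rintro ⟨_, r, hr, rfl⟩
    apply Subtype.ext
    rw [h1]
    exact (h2 r).1 (h r hr)

omit [Finite B] in
theorem primB_card_center : Nat.card (Subgroup.center (Op 3 B)) = Nat.card (primBZ B) := by
  have h1 : Subgroup.center (Op 3 B) = (primBZ B).subgroupOf (Op 3 B) := by
    ext x
    rw [Subgroup.mem_center_iff, Subgroup.mem_subgroupOf]
    constructor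
    · intro h
      refine ⟨x.2, Subgroup.mem_centralizer_iff.2 fun s hs => ?_⟩
      exact congrArg Subtype.val (h ⟨s, hs⟩)
    · intro h s
      exact Subtype.ext (Subgroup.mem_centralizer_iff.1 h.2 s s.2)
  rw [h1]
  exact Nat.card_congr (Subgroup.subgroupOfEquivOfLe inf_le_left).toEquiv

omit [Finite B] in
theorem primB_card_R : Nat.card (Op 3 B) = Nat.card (primBW B) * Nat.card (primBZ B) := by
  let g : Op 3 B →* B ⧸ primBZ B := (QuotientGroup.mk' (primBZ B)).comp (Op 3 B).subtype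
  have h1 : g.ker = (primBZ B).subgroupOf (Op 3 B) := by
    ext x
    rw [MonoidHom.mem_ker, Subgroup.mem_subgroupOf]
    exact QuotientGroup.eq_one_iff (x : B)
  have h2 : g.range = primBW B := by
    ext y
    constructor
    · rintro ⟨x, rfl⟩
      exact ⟨x, x.2, rfl⟩
    · rintro ⟨x, hx, rfl⟩
      exact ⟨⟨x, hx⟩, rfl⟩
  rw [Subgroup.card_eq_card_quotient_mul_card_subgroup g.ker]
  congr 1
  · rw [← h2]
    exact Nat.card_congr (QuotientGroup.quotientKerEquivRange g).toEquiv
  · rw [h1]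
    exact Nat.card_congr (Subgroup.subgroupOfEquivOfLe inf_le_left).toEquiv

/-- `R = O_3(B)`, `Z` its centre (order at most 3 by `prim_abel`), `W = R / Z`: a commutative group
of exponent 3 (`prim_comm`, `prim_exp`) of order at most `(dim Y)^2` (`indep_bound` for the
restriction of `σ` to `R`).  `J = B / R` acts on `W` by conjugation, faithfully by `prim_kernel`;
`O_3(J) = 1`.  `bound_J`: `|J| ≤ |W|^8`.  So
`|B| = |J| |W| |Z| ≤ 3 |W|^9 ≤ 3 (dim Y)^18`. -/
theorem prim_bound [FiniteDimensional K Y] (h23 : Is23 B) (h12 : ∀ x : B, x ^ 12 = 1)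
    (σ : B →* (Y →ₗ[K] Y)) (hσ : Prim σ) : Nat.card B ≤ 3 * finrank K Y ^ 18 := by
  -- the kernel
  have hker : (primBphi B).ker = Op 3 B := by
    ext n
    rw [primB_mem_ker]
    constructor
    · intro h
      refine prim_kernel h23 h12 σ hσ n fun r hr => ⟨(h r hr).1, fun s hs => ?_⟩
      exact (Subgroup.mem_centralizer_iff.1 (h r hr).2 s hs).symm
    · intro hn r hr
      have h1 := (prim_comm σ hσ h12 n hn r hr).1
      exact ⟨primB_comm_mem hn hr, Subgroup.mem_centralizer_iff.2 fun s _ => (h1 s).symm⟩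
  -- the centre
  have hZ : Nat.card (primBZ B) ≤ 3 := by
    refine (prim_abel σ hσ h12 (primBZ B) inferInstance
      ((Op_isPGroup (G := B) 3).to_le inf_le_left) ?_).1
    intro a ha b hb
    exact (Subgroup.mem_centralizer_iff.1 ha.2 b hb.1).symm
  have hZpos : 0 < Nat.card (primBZ B) := Nat.card_pos
  -- `W`
  have hWc : ∀ a b : primBW B, a * b = b * a := by
    rintro ⟨_, r, hr, rfl⟩ ⟨_, s, hs, rfl⟩
    apply Subtype.ext
    show ((r * s : B) : B ⧸ primBZ B) = ((s * r : B) : B ⧸ primBZ B)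
    rw [QuotientGroup.eq]
    have h1 := (prim_comm σ hσ h12 s⁻¹ (inv_mem hs) r⁻¹ (inv_mem hr)).1
    have e : (r * s)⁻¹ * (s * r) = ⁅s⁻¹, r⁻¹⁆ := by
      rw [commutatorElement_def]
      group
    rw [e]
    exact ⟨primB_comm_mem (inv_mem hs) (inv_mem hr),
      Subgroup.mem_centralizer_iff.2 fun s _ => (h1 s).symm⟩
  have hW3 : ∀ w : primBW B, w ^ 3 = 1 := by
    rintro ⟨_, r, hr, rfl⟩
    apply Subtype.ext
    show ((r : B) : B ⧸ primBZ B) ^ 3 = 1
    rw [← QuotientGroup.mk_pow, prim_exp h12 r hr]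
    rfl
  -- the order of `R`
  have hR : Nat.card (Op 3 B) ≤ Nat.card (primBZ B) * finrank K Y ^ 2 := by
    rw [← primB_card_center]
    refine indep_bound (σ.comp (Op 3 B).subtype) ?_ ?_
    · intro g hg
      exact Subtype.ext (hσ.faithful g hg)
    · intro r s
      exact (prim_comm σ hσ h12 r r.2 s s.2).2
  have hWle : Nat.card (primBW B) ≤ finrank K Y ^ 2 := by
    rw [primB_card_R, mul_comm] at hR
    exact Nat.le_of_mul_le_mul_left hR hZpos
  -- `J`
  have hJ3 : Op 3 (B ⧸ (primBphi B).ker) = ⊥ := by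
    have h1 : ((Op 3 (B ⧸ (primBphi B).ker)).comap (QuotientGroup.mk' (primBphi B).ker)) ≤
        Op 3 B := by
      refine le_Op inferInstance ?_
      refine (Op_isPGroup 3).comap_of_ker_isPGroup _ ?_
      rw [QuotientGroup.ker_mk', hker]
      exact Op_isPGroup 3
    rw [eq_bot_iff]
    intro x hx
    obtain ⟨b, rfl⟩ := QuotientGroup.mk_surjective x
    have h2 : b ∈ Op 3 B := h1 hx
    rw [← hker] at h2
    rw [Subgroup.mem_bot]
    exact (QuotientGroup.eq_one_iff b).2 h2
  let _ : CommGroup (primBW B) := { (inferInstance : Group (primBW B)) with mul_comm := hWc }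
  have hJ : Nat.card (B ⧸ (primBphi B).ker) ≤ Nat.card (primBW B) ^ 8 :=
    bound_J (h23.quotient _) hJ3 (primBW B) hW3 (QuotientGroup.kerLift (primBphi B))
      (QuotientGroup.kerLift_injective (primBphi B))
  -- conclusion
  calc Nat.card B = Nat.card (B ⧸ (primBphi B).ker) * Nat.card (primBphi B).ker :=
        Subgroup.card_eq_card_quotient_mul_card_subgroup _
    _ = Nat.card (B ⧸ (primBphi B).ker) * (Nat.card (primBW B) * Nat.card (primBZ B)) := by
        rw [← primB_card_R, hker]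
    _ ≤ (finrank K Y ^ 2) ^ 8 * (finrank K Y ^ 2 * 3) :=
        Nat.mul_le_mul (hJ.trans (Nat.pow_le_pow_left hWle 8)) (Nat.mul_le_mul hWle hZ)
    _ = 3 * finrank K Y ^ 18 := by ring

end Pool.Agent.MPa0c355.B12
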