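import Pool.Agent.Lib.MP_a0c355_lc.B12.PrimA
import Pool.Agent.Lib.MP_a0c355_lc.B12.FitSub

/-! # The kernel of the action on `R / Z(R)` -/

set_option autoImplicit false

namespace Pool.Agent.MPa0c355.B12

open Module
open scoped commutatorElement

variable {K B Y : Type*} [Field K] [CharP K 2] [Group B] [Finite B] [AddCommGroup Y] [Module K Y]
  [Nontrivial Y]

/-- the elements which centralise `R` modulo the central subgroup `Z` -/
def primKN (R Z : Subgroup B) [hR : R.Normal] [hZ : Z.Normal] : Subgroup B where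
  carrier := {n | ∀ r ∈ R, ⁅n, r⁆ ∈ Z}
  one_mem' := by
    intro r _
    rw [commutatorElement_one_left]
    exact Z.one_mem
  mul_mem' := by
    intro n m hn hm r hr
    have e : ⁅n * m, r⁆ = (n * ⁅m, r⁆ * n⁻¹) * ⁅n, r⁆ := by
      rw [commutatorElement_def, commutatorElement_def, commutatorElement_def]
      group
    rw [e]
    exact Z.mul_mem (hZ.conj_mem _ (hm r hr) n) (hn r hr)
  inv_mem' := by
    intro n hn r hr
    have e : ⁅n⁻¹, r⁆ = n⁻¹ * ⁅n, r⁆⁻¹ * n⁻¹⁻¹ := by
      rw [commutatorElement_def, commutatorElement_def]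
      group
    rw [e]
    exact hZ.conj_mem _ (Z.inv_mem (hn r hr)) _

omit [Finite B] in
theorem primKN_normal (R Z : Subgroup B) [hR : R.Normal] [hZ : Z.Normal] :
    (primKN R Z).Normal := by
  refine ⟨fun n hn g r hr => ?_⟩
  have e : ⁅g * n * g⁻¹, r⁆ = g * ⁅n, g⁻¹ * r * g⁻¹⁻¹⁆ * g⁻¹ := by
    rw [commutatorElement_def, commutatorElement_def]
    group
  rw [e]
  exact hZ.conj_mem _ (hn _ (hR.conj_mem r hr g⁻¹)) g

/-- An element `n` of `B` which centralises `R = O_3(B)` modulo the centre of `R` is in `R`.  The set `N0` of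
these elements is a normal subgroup of `B`, contains `R` (`prim_comm`).  The centre `Z` of `R` is normal
in `B`, abelian, so central in `B` (`prim_abel`).  For `n ∈ N0` the map `r ↦ ⁅n, r⁆ ∈ Z` is a
homomorphism, and `n ↦ (r ↦ ⁅n, r⁆)` is a homomorphism with kernel `C_B(R) ≤ R`
(`centralizer_Op_le`, `prim_Op2`); `⁅n^3, r⁆ = ⁅n, r⁆^3 = 1`, so `n^3 ∈ C_B(R) ≤ R`: `N0` is a 3-group,
hence `N0 ≤ R`. -/
theorem prim_kernel (h23 : Is23 B) (h12 : ∀ x : B, x ^ 12 = 1) (σ : B →* (Y →ₗ[K] Y))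
    (hσ : Prim σ) (n : B)
    (hn : ∀ r ∈ Op 3 B, ⁅n, r⁆ ∈ Op 3 B ∧ ∀ s ∈ Op 3 B, ⁅n, r⁆ * s = s * ⁅n, r⁆) : n ∈ Op 3 B := by
  let Z : Subgroup B := Op 3 B ⊓ Subgroup.centralizer (Op 3 B : Set B)
  have hZn : Z.Normal := inferInstance
  have hZ3 : IsPGroup 3 Z := (Op_isPGroup (G := B) 3).to_le inf_le_left
  have hZc : ∀ a ∈ Z, ∀ b : B, a * b = b * a := by
    refine (prim_abel σ hσ h12 Z hZn hZ3 ?_).2
    intro a ha b hb
    exact (Subgroup.mem_centralizer_iff.1 ha.2 b hb.1).symm
  have hnN : n ∈ primKN (Op 3 B) Z := by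
    intro r hr
    refine ⟨(hn r hr).1, Subgroup.mem_centralizer_iff.2 fun s hs => ?_⟩
    exact ((hn r hr).2 s hs).symm
  have hN3 : IsPGroup 3 (primKN (Op 3 B) Z) := by
    rintro ⟨x, hx⟩
    refine ⟨2, Subtype.ext ?_⟩
    show x ^ 3 ^ 2 = 1
    have h1 : x ^ 3 ∈ Op 3 B := by
      apply centralizer_Op_le h23 3 2 (Or.inr ⟨rfl, rfl⟩) (prim_Op2 σ hσ)
      rw [Subgroup.mem_centralizer_iff]
      intro r hr
      have hz := hx r hr
      have hzc := hZc _ hz
      have hz3 : ⁅x, r⁆ ^ 3 = 1 := prim_exp h12 _ hz.1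
      have e1 : x * r = ⁅x, r⁆ * (r * x) := by
        rw [commutatorElement_def]
        group
      generalize ⁅x, r⁆ = z at *
      rw [pow_succ, pow_two] at hz3 ⊢
      have e2 : x * x * x * r = z * z * z * (r * (x * x * x)) := by
        calc x * x * x * r = x * x * (x * r) := by group
          _ = x * (x * z) * (r * x) := by rw [e1]; group
          _ = x * (z * x) * (r * x) := by rw [hzc x]
          _ = (x * z) * (x * r) * x := by group
          _ = (z * x) * (z * (r * x)) * x := by rw [hzc x, e1]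
          _ = z * (x * z) * r * x * x := by group
          _ = z * (z * x) * r * x * x := by rw [hzc x]
          _ = z * z * (x * r) * x * x := by group
          _ = z * z * z * (r * (x * x * x)) := by rw [e1]; group
      rw [e2, hz3, one_mul]
    have h2 := prim_exp h12 _ h1
    rw [← pow_mul] at h2
    exact h2
  exact le_Op (primKN_normal _ _) hN3 hnN

end Pool.Agent.MPa0c355.B12
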