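import Pool.Agent.Lib.MP_a0c355_lc.PhaseC2
import Pool.Agent.Lib.MP_a0c355_lc.B12.DensityB

/-! # The number of repetitions and of random bits -/

set_option autoImplicit false

namespace Pool.Agent.MPa0c355.B12

open scoped ENNReal

/-- the bound with a variable exponent -/
def bndM (M n : ℕ) : ℕ := (3 * n ^ 19 + 1) ^ 12 * (2 * (((n + 1) ^ M) ^ 2 + 1) ^ 12)

/-- number of repetitions, variable exponent -/
noncomputable def NpM (M : ℕ) : Polynomial ℕ :=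
  Polynomial.C 4 * ((Polynomial.C 3 * Polynomial.X ^ 19 + Polynomial.C 1) ^ 12 *
    (Polynomial.C 2 * (((Polynomial.X + Polynomial.C 1) ^ M) ^ 2 + Polynomial.C 1) ^ 12))

/-- number of random bits, variable exponent -/
noncomputable def RbM (M : ℕ) : Polynomial ℕ :=
  Polynomial.C (100 * (M + 10)) * (Polynomial.X + Polynomial.C 1)

/-- number of repetitions -/
noncomputable def NpB : Polynomial ℕ := NpM (2 ^ 468)

/-- number of random bits -/
noncomputable def RbB : Polynomial ℕ := RbM (2 ^ 468)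

theorem NpM_eval (M N : ℕ) : (NpM M).eval N = 4 * bndM M N := by
  simp only [NpM, bndM, Polynomial.eval_mul, Polynomial.eval_C, Polynomial.eval_pow,
    Polynomial.eval_add, Polynomial.eval_X]

theorem RbM_eval (M N : ℕ) : (RbM M).eval N = 100 * (M + 10) * (N + 1) := by
  simp only [RbM, Polynomial.eval_mul, Polynomial.eval_C, Polynomial.eval_add, Polynomial.eval_X]

theorem QuarterB_one (n : ℕ) : 3 * n ^ 19 + 1 ≤ 2 ^ (2 + 19 * n) := by
  have h1 : n ^ 19 ≤ 2 ^ (19 * n) := by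
    rw [mul_comm, pow_mul]
    exact Nat.pow_le_pow_left (Nat.lt_two_pow_self).le 19
  have h2 : 1 ≤ 2 ^ (19 * n) := Nat.one_le_two_pow
  rw [pow_add]
  omega

theorem QuarterB_two (M n : ℕ) : ((n + 1) ^ M) ^ 2 + 1 ≤ 2 ^ (2 * M * n + 1) := by
  have h1 : ((n + 1) ^ M) ^ 2 ≤ 2 ^ (2 * M * n) := by
    have h4 : n + 1 ≤ 2 ^ n := Nat.lt_two_pow_self
    calc ((n + 1) ^ M) ^ 2 ≤ ((2 ^ n) ^ M) ^ 2 :=
          Nat.pow_le_pow_left (Nat.pow_le_pow_left h4 M) 2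
      _ = 2 ^ (2 * M * n) := by
          rw [← pow_mul, ← pow_mul]
          congr 1
          ring
  have h2 : 1 ≤ 2 ^ (2 * M * n) := Nat.one_le_two_pow
  have h3 : 2 ^ (2 * M * n + 1) = 2 ^ (2 * M * n) * 2 := pow_succ _ _
  generalize ((n + 1) ^ M) ^ 2 = u at *
  generalize 2 ^ (2 * M * n) = v at *
  omega

theorem QuarterB_bnd (M n : ℕ) : bndM M n ≤ 2 ^ (37 + 228 * n + 24 * M * n) := by
  have h1 := Nat.pow_le_pow_left (QuarterB_one n) 12
  have h2 := Nat.pow_le_pow_left (QuarterB_two M n) 12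
  have h3 := Nat.mul_le_mul h1 (Nat.mul_le_mul (le_refl 2) h2)
  refine h3.trans (le_of_eq ?_)
  rw [← pow_mul, ← pow_mul, ← pow_succ', ← pow_add]
  congr 1
  ring

theorem QuarterB_pos (M n : ℕ) : 0 < bndM M n := by
  unfold bndM
  exact Nat.mul_pos (Nat.pow_pos (Nat.succ_pos _))
    (Nat.mul_pos (Nat.succ_pos _) (Nat.pow_pos (Nat.succ_pos _)))

/-- `N + 1 ≤ 2^N`, `3 N^19 + 1 ≤ 2^(2 + 19 N)`, `((N+1)^M)^2 + 1 ≤ 2^(2 M N + 1)`, so
`bndM M N ≤ 2^(37 + N (228 + 24 M))`, and `24 * 40 (N + 1) (N + 2) ≤ 2^(11 + 2 N)`. -/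
theorem bits_enough (M N : ℕ) :
    2 * bndM M N * ((N + 1) * (40 * (N + 2)) * 12) ≤ 2 ^ ((RbM M).eval N) := by
  have h1 : N + 1 ≤ 2 ^ N := Nat.lt_two_pow_self
  have h2 : N + 2 ≤ 2 ^ (N + 1) := Nat.lt_two_pow_self
  have h3 : (N + 1) * (40 * (N + 2)) * 12 ≤ 2 ^ (10 + 2 * N) := by
    calc (N + 1) * (40 * (N + 2)) * 12 ≤ 2 ^ N * (40 * 2 ^ (N + 1)) * 12 :=
          Nat.mul_le_mul (Nat.mul_le_mul h1 (Nat.mul_le_mul (le_refl 40) h2)) (le_refl 12)
      _ = 480 * (2 ^ N * 2 ^ (N + 1)) := by ring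
      _ ≤ 2 ^ 9 * (2 ^ N * 2 ^ (N + 1)) := Nat.mul_le_mul (by norm_num) (le_refl _)
      _ = 2 ^ (10 + 2 * N) := by
        rw [← pow_add, ← pow_add]
        congr 1
        ring
  calc 2 * bndM M N * ((N + 1) * (40 * (N + 2)) * 12)
      ≤ 2 * 2 ^ (37 + 228 * N + 24 * M * N) * 2 ^ (10 + 2 * N) :=
        Nat.mul_le_mul (Nat.mul_le_mul (le_refl 2) (QuarterB_bnd M N)) h3
    _ = 2 ^ (48 + 230 * N + 24 * M * N) := by
        rw [← pow_succ', ← pow_add]
        congr 1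
        ring
    _ ≤ 2 ^ ((RbM M).eval N) := by
        rw [RbM_eval]
        refine Nat.pow_le_pow_right (by norm_num) ?_
        nlinarith [Nat.zero_le (M * N), Nat.zero_le M, Nat.zero_le N]

/-- the real inequality, cf. `real_bound` in `../PhaseC2.lean` (`b ≥ 1`):
`q/g + ε ≤ 1 - 1/b + 1/(2b) = 1 - 1/(2b)`, `(1 - 1/(2b))^(4b) ≤ exp(-2) ≤ 1/4`. -/
theorem real_boundB (g q r b : ℕ) (ε : ℝ) (hg : 0 < g) (hb : 0 < b) (h1 : q + r = g)
    (h2 : g ≤ b * r) (hε0 : 0 ≤ ε) (hε : ε ≤ 1 / (2 * b)) :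
    ((q : ℝ) / g + ε) ^ (4 * b) ≤ 1 / 4 := by
  have hg' : (0 : ℝ) < g := by exact_mod_cast hg
  have hb' : (0 : ℝ) < b := by exact_mod_cast hb
  have h1' : (q : ℝ) + r = g := by exact_mod_cast h1
  have h2' : (g : ℝ) ≤ b * r := by exact_mod_cast h2
  have h3 : (q : ℝ) / g ≤ 1 - 1 / b := by
    rw [div_le_iff₀ hg']
    have h : (g : ℝ) / b ≤ r := by
      rw [div_le_iff₀ hb']
      linarith
    have e : (1 - 1 / (b : ℝ)) * g = g - g / b := by ring
    rw [e]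
    linarith
  have h3' : (q : ℝ) / g + ε ≤ 1 - 1 / (2 * b) := by
    have e : (1 : ℝ) / b = 1 / (2 * b) + 1 / (2 * b) := by
      field_simp
      norm_num
    linarith
  have h4 : (1 : ℝ) - 1 / (2 * b) ≤ Real.exp (-(1 / (2 * b))) := by
    have := Real.add_one_le_exp (-(1 / (2 * (b : ℝ))))
    linarith
  have h5 : ((q : ℝ) / g + ε) ^ (4 * b) ≤ (Real.exp (-(1 / (2 * b)))) ^ (4 * b) :=
    pow_le_pow_left₀ (by positivity) (h3'.trans h4) _
  have h6 : (Real.exp (-(1 / (2 * (b : ℝ))))) ^ (4 * b) = Real.exp (-2) := by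
    rw [← Real.exp_nat_mul]
    congr 1
    push_cast
    field_simp
    norm_num
  rw [h6] at h5
  have h7 : Real.exp (-2) ≤ 1 / 4 := by
    have e1 : (2 : ℝ) ≤ Real.exp 1 := by
      have := Real.add_one_le_exp (1 : ℝ)
      linarith
    have e2 : (4 : ℝ) ≤ Real.exp 2 := by
      have : Real.exp 2 = Real.exp 1 * Real.exp 1 := by rw [← Real.exp_add]; norm_num
      rw [this]
      nlinarith
    rw [Real.exp_neg, one_div]
    exact inv_anti₀ (by norm_num) e2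
  exact h5.trans h7

end Pool.Agent.MPa0c355.B12
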