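import Pool.Agent.Lib.MP_a0c355_lc.B12.SmallTwo

/-! # Small orbits, group form -/

set_option autoImplicit false

namespace Pool.Agent.MPa0c355.B12

open Module

/-- automorphisms of an elementary abelian 2-group as linear maps -/
noncomputable def smallOrbitLin (W : Type) [CommGroup W] [Module (ZMod 2) (Additive W)] :
    MulAut W →* (Additive W →ₗ[ZMod 2] Additive W) where
  toFun α := AddMonoidHom.toZModLinearMap 2 (MonoidHom.toAdditive α.toMonoidHom)
  map_one' := by
    ext x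
    rfl
  map_mul' a b := by
    ext x
    rfl

/-- the version for a group acting through automorphisms -/
theorem smallOrbit_aux (W : Type) [CommGroup W] [Finite W] [Nontrivial W] (hW : ∀ x : W, x ^ 2 = 1)
    (Q : Type) [Group Q] [Finite Q] (h23 : Is23 Q) (h12 : ∀ x : Q, x ^ 12 = 1)
    (φ : Q →* MulAut W) {n : ℕ} (hn : Nat.card W ≤ 2 ^ n) :
    ∃ x : W, x ≠ 1 ∧ ∃ S : Subgroup Q, (∀ g, g ∈ S ↔ φ g x = x) ∧ S.index ≤ 3 * n ^ 19 := by
  letI : Module (ZMod 2) (Additive W) := AddCommGroup.zmodModule (n := 2) (fun x => hW x.toMul)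
  have : Finite (Additive W) := inferInstanceAs (Finite W)
  have : Nontrivial (Additive W) := inferInstanceAs (Nontrivial W)
  obtain ⟨x, hx, hS⟩ := small_orbit_two h23 h12 ((smallOrbitLin W).comp φ)
  refine ⟨x.toMul, hx, stabV ((smallOrbitLin W).comp φ) x, fun g => Iff.rfl, hS.trans ?_⟩
  have f2 : Fact (Nat.Prime 2) := ⟨Nat.prime_two⟩
  have hf : Module.Finite (ZMod 2) (Additive W) := Module.Finite.of_finite
  have h1 : Nat.card (Additive W) = Nat.card (ZMod 2) ^ finrank (ZMod 2) (Additive W) :=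
    Module.natCard_eq_pow_finrank
  have h2 : Nat.card (Additive W) = Nat.card W := rfl
  rw [Nat.card_zmod, h2] at h1
  rw [h1] at hn
  have h3 := (Nat.pow_le_pow_iff_right (by norm_num)).1 hn
  exact Nat.mul_le_mul_left _ (Nat.pow_le_pow_left h3 19)

/-- `X = Additive (T / (T1 ∩ T))` is a nonzero vector space over `ZMod 2` (`hcomm`, `hsq`) of dimension at
most `n`; `Q = G ⧸ V` acts on it by conjugation (`hV`), `Is23 Q`, `x^12 = 1` in `Q`.
`small_orbit_two`: a vector `x ≠ 0`, the class of `t ∈ T`, `t ∉ T1`; the preimage in `G` of its stabiliser is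
`stabC T1 t` (as `T1 ≤ T`).  `|X| = 2^D ≤ |T| ≤ |G| ≤ 2^n`. -/
theorem small_orbit {G : Type} [Group G] [Finite G] (h23 : Is23 G) (V T T1 : Subgroup G)
    [V.Normal] [T.Normal] [T1.Normal] (h12 : ∀ g : G, g ^ 12 ∈ V) (h1 : T1 ≤ T)
    (hne : ¬ T ≤ T1) (hV : ∀ v ∈ V, ∀ t ∈ T, v * t * v⁻¹ * t⁻¹ ∈ T1)
    (hcomm : ∀ s ∈ T, ∀ t ∈ T, s * t * s⁻¹ * t⁻¹ ∈ T1) (hsq : ∀ t ∈ T, t * t ∈ T1)
    {n : ℕ} (hn : Nat.card G ≤ 2 ^ n) :
    ∃ t ∈ T, t ∉ T1 ∧ (stabC T1 t).index ≤ 3 * n ^ 19 := by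
  classical
  let π := QuotientGroup.mk' T1
  have hπ : ∀ a : G, π a = 1 ↔ a ∈ T1 := fun a => QuotientGroup.eq_one_iff a
  have hT' : (T.map π).Normal := Subgroup.Normal.map ‹_› _ (QuotientGroup.mk'_surjective T1)
  letI : CommGroup (T.map π) :=
    { (inferInstance : Group (T.map π)) with
      mul_comm := by
        rintro ⟨_, s, hs, rfl⟩ ⟨_, t, ht, rfl⟩
        apply Subtype.ext
        show π s * π t = π t * π s
        have h := (hπ _).2 (hcomm s hs t ht)
        rw [map_mul, map_mul, map_mul, map_inv, map_inv, mul_inv_eq_one, mul_inv_eq_iff_eq_mul] at h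
        exact h }
  let φ : G →* MulAut (T.map π) := (MulAut.conjNormal (H := T.map π)).comp π
  have hφ : ∀ (g : G) (t : G) (ht : t ∈ T),
      ((φ g ⟨π t, Subgroup.mem_map_of_mem π ht⟩ : T.map π) : G ⧸ T1) = π (g * t * g⁻¹) := by
    intro g t ht
    rw [map_mul, map_mul, map_inv]
    rfl
  have hnt : Nontrivial (T.map π) := by
    rw [Subgroup.nontrivial_iff_ne_bot]
    intro h
    apply hne
    intro t ht
    have h2 : π t ∈ T.map π := Subgroup.mem_map_of_mem π ht
    rw [h, Subgroup.mem_bot] at h2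
    exact (hπ t).1 h2
  have hsq' : ∀ x : T.map π, x ^ 2 = 1 := by
    rintro ⟨_, t, ht, rfl⟩
    apply Subtype.ext
    show (π t) ^ 2 = 1
    rw [pow_two, ← map_mul]
    exact (hπ _).2 (hsq t ht)
  have hvt : ∀ v ∈ V, φ v = 1 := by
    intro v hv
    ext ⟨x, t, ht, rfl⟩
    rw [hφ v t ht]
    have h := (hπ _).2 (hV v hv t ht)
    rw [map_mul, map_inv, mul_inv_eq_one] at h
    exact h
  have hcard : Nat.card (T.map π) ≤ 2 ^ n := by
    refine le_trans (Subgroup.card_le_card_group _) (le_trans ?_ hn)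
    exact Nat.card_le_card_of_surjective π (QuotientGroup.mk'_surjective T1)
  obtain ⟨x, hx, S, hS, hi⟩ := smallOrbit_aux (T.map π) hsq' φ.range
    (h23.of_surjective φ.rangeRestrict φ.rangeRestrict_surjective) (by
      rintro ⟨_, g, rfl⟩
      apply Subtype.ext
      show (φ g) ^ 12 = 1
      rw [← map_pow]
      exact hvt _ (h12 g)) φ.range.subtype hcard
  obtain ⟨_, t, ht, rfl⟩ := x
  refine ⟨t, ht, fun h => hx (Subtype.ext ((hπ t).2 h)), ?_⟩
  have he : stabC T1 t = S.comap φ.rangeRestrict := by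
    ext g
    rw [Subgroup.mem_comap, hS, mem_stabC, ← hπ, map_mul, map_inv, mul_inv_eq_one, ← hφ g t ht]
    constructor
    · intro h
      exact Subtype.ext h
    · intro h
      exact congrArg Subtype.val h
  rw [he, Subgroup.index_comap_of_surjective _ φ.rangeRestrict_surjective]
  exact hi

end Pool.Agent.MPa0c355.B12
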