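import Pool.Agent.Lib.MP_a0c355_lc.B12.MinPair
import Pool.Agent.Lib.MP_a0c355_lc.B12.PrimB

/-! # Small orbits over an algebraically closed field -/

set_option autoImplicit false

namespace Pool.Agent.MPa0c355.B12

open Module

/-- `exists_prim` and `prim_bound`; for any `v ≠ 0` in `Y` the stabiliser contains the image in `Q` of
the kernel of `π`, so its index is at most `|Q : H| |B| ≤ D * 3 D^18`, `D = dim V`. -/
theorem small_orbit_rep {K : Type} [Field K] [IsAlgClosed K] [CharP K 2] {Q : Type} [Group Q]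
    [Finite Q] (h23 : Is23 Q) (h12 : ∀ x : Q, x ^ 12 = 1) {V : Type} [AddCommGroup V]
    [Module K V] [FiniteDimensional K V] [Nontrivial V] (ρ : Q →* (V →ₗ[K] V)) :
    ∃ v : V, v ≠ 0 ∧ (stabV ρ v).index ≤ 3 * finrank K V ^ 19 := by
  obtain ⟨H, Y, hY0, hidx, B, hB, hBf, π, σ, hπ, hσ, hP⟩ := exists_prim ρ
  have : Nontrivial Y := Submodule.nontrivial_iff_ne_bot.2 hY0
  have hB23 : Is23 B := (h23.subgroup H).of_surjective π hπ
  have hB12 : ∀ x : B, x ^ 12 = 1 := by
    intro x
    obtain ⟨h, rfl⟩ := hπ x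
    have h1 : h ^ 12 = 1 := Subtype.ext (h12 h)
    rw [← map_pow, h1, map_one]
  have hb := prim_bound hB23 hB12 σ hP
  obtain ⟨v, hv0⟩ := exists_ne (0 : Y)
  refine ⟨(v : V), fun h => hv0 (Subtype.ext h), ?_⟩
  have hle : π.ker.map H.subtype ≤ stabV ρ (v : V) := by
    rintro _ ⟨h, hh, rfl⟩
    show ρ (h : Q) (v : V) = v
    rw [← hσ h v]
    have h1 : π h = 1 := hh
    rw [h1, map_one]
    rfl
  have h1 : (stabV ρ (v : V)).index ≤ (π.ker.map H.subtype).index :=
    Nat.le_of_dvd (Nat.pos_of_ne_zero Subgroup.index_ne_zero_of_finite)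
      (Subgroup.index_dvd_of_le hle)
  have h2 : π.ker.index = Nat.card B := by
    rw [Subgroup.index_ker, MonoidHom.range_eq_top.2 hπ, Subgroup.card_top]
  have hYV : finrank K Y ≤ finrank K V := Submodule.finrank_le Y
  have hY1 : 0 < finrank K Y := finrank_pos
  have hH : H.index ≤ finrank K V := le_trans (Nat.le_mul_of_pos_right _ hY1) hidx
  calc (stabV ρ (v : V)).index ≤ (π.ker.map H.subtype).index := h1
    _ = Nat.card B * H.index := by rw [Subgroup.index_map_subtype, h2]
    _ ≤ (3 * finrank K V ^ 18) * finrank K V :=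
        Nat.mul_le_mul (hb.trans (Nat.mul_le_mul_left _ (Nat.pow_le_pow_left hYV 18))) hH
    _ = 3 * finrank K V ^ 19 := by ring

end Pool.Agent.MPa0c355.B12
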