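import Pool.Agent.Lib.MP_a0c355_lc.B12.SmallRep

/-! # Small orbits over the field with two elements -/

set_option autoImplicit false

namespace Pool.Agent.MPa0c355.B12

open Module

/-- Choose a basis of `X`: `ρ g` becomes a matrix `A g` over `ZMod 2` acting on `Fin D → ZMod 2`.  Let
`K = AlgebraicClosure (ZMod 2)` and let `Q` act on `Fin D → K` by the matrices
`(A g).map (algebraMap _ K)`.  `small_orbit_rep` gives `w ≠ 0`, `w i ≠ 0` for some `i`; choose a
`ZMod 2`-linear map `φ : K → ZMod 2` with `φ (w i) ≠ 0` and put `x j = φ (w j)`: `x ≠ 0`, and `φ`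
commutes with the matrices over `ZMod 2`, so the stabiliser of `w` fixes `x`
(`Subgroup.index_antitone`). -/
theorem small_orbit_two {Q : Type} [Group Q] [Finite Q] (h23 : Is23 Q)
    (h12 : ∀ x : Q, x ^ 12 = 1) {X : Type} [AddCommGroup X] [Module (ZMod 2) X] [Finite X]
    [Nontrivial X] (ρ : Q →* (X →ₗ[ZMod 2] X)) :
    ∃ x : X, x ≠ 0 ∧ (stabV ρ x).index ≤ 3 * finrank (ZMod 2) X ^ 19 := by
  classical
  have hfact : Fact (Nat.Prime 2) := ⟨Nat.prime_two⟩
  have hfin : FiniteDimensional (ZMod 2) X := Module.Finite.of_finite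
  let D := finrank (ZMod 2) X
  let b : Basis (Fin D) (ZMod 2) X := finBasis (ZMod 2) X
  let K := AlgebraicClosure (ZMod 2)
  have hchar : CharP K 2 := inferInstance
  let i2 : ZMod 2 →+* K := algebraMap (ZMod 2) K
  -- the representation over `K`
  let A : Q → Matrix (Fin D) (Fin D) (ZMod 2) := fun g => LinearMap.toMatrix b b (ρ g)
  have hA1 : A 1 = 1 := by
    simp only [A]
    rw [map_one]
    exact LinearMap.toMatrix_one b
  have hAm : ∀ g h, A (g * h) = A g * A h := by
    intro g h
    simp only [A]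
    rw [map_mul]
    exact LinearMap.toMatrix_mul b (ρ g) (ρ h)
  let ρK : Q →* ((Fin D → K) →ₗ[K] (Fin D → K)) :=
    { toFun := fun g => Matrix.toLin' ((A g).map i2)
      map_one' := by
        rw [hA1, Matrix.map_one i2 (map_zero i2) (map_one i2), Matrix.toLin'_one]
        rfl
      map_mul' := by
        intro g h
        rw [hAm, Matrix.map_mul, Matrix.toLin'_mul]
        rfl }
  have hD : 0 < D := Module.finrank_pos
  have hne : Nonempty (Fin D) := ⟨⟨0, hD⟩⟩
  obtain ⟨w, hw0, hw⟩ := small_orbit_rep h23 h12 ρK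
  obtain ⟨i, hi⟩ := Function.ne_iff.1 hw0
  -- a functional
  obtain ⟨φ, hφ⟩ : ∃ φ : K →ₗ[ZMod 2] ZMod 2, φ (w i) ≠ 0 := by
    by_contra hcon
    push Not at hcon
    exact hi ((Module.forall_dual_apply_eq_zero_iff (ZMod 2) (w i)).1 hcon)
  let x0 : Fin D → ZMod 2 := fun j => φ (w j)
  let x : X := b.equivFun.symm x0
  have hx0 : x ≠ 0 := by
    intro h
    have h1 : x0 = 0 := by
      have h2 := congrArg b.equivFun h
      rw [LinearEquiv.apply_symm_apply, map_zero] at h2
      exact h2
    exact hφ (congrFun h1 i)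
  refine ⟨x, hx0, ?_⟩
  have hle : stabV ρK w ≤ stabV ρ x := by
    intro g hg
    have h1 : Matrix.toLin' ((A g).map i2) w = w := hg
    show ρ g x = x
    apply b.equivFun.injective
    have h2 : b.equivFun (ρ g x) = (A g).mulVec (b.equivFun x) := by
      have h3 := LinearMap.toMatrix_mulVec_repr b b (ρ g) x
      exact h3.symm
    rw [h2, LinearEquiv.apply_symm_apply]
    funext j
    have h4 := congrFun h1 j
    rw [Matrix.toLin'_apply] at h4
    show (A g).mulVec x0 j = φ (w j)
    rw [← h4, Matrix.mulVec, Matrix.mulVec, dotProduct, dotProduct, map_sum]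
    refine Finset.sum_congr rfl fun k _ => ?_
    rw [Matrix.map_apply]
    have h5 : i2 (A g j k) * w k = (A g j k) • w k := (Algebra.smul_def _ _).symm
    rw [h5, map_smul, smul_eq_mul]
  have h6 : finrank K (Fin D → K) = D := by
    rw [Module.finrank_fin_fun]
  rw [h6] at hw
  exact (Nat.le_of_dvd (Nat.pos_of_ne_zero Subgroup.FiniteIndex.index_ne_zero)
    (Subgroup.index_dvd_of_le hle)).trans hw

end Pool.Agent.MPa0c355.B12
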