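import Pool.Agent.Lib.MP_a0c355_lc.B12.Defs

/-! # The case `p = 2`: the subgroup `H` -/

set_option autoImplicit false

namespace Pool.Agent.MPa0c355.B12

theorem twob_conj {G : Type*} [Group G] (T1 : Subgroup G) [hT1 : T1.Normal] (t c g : G) :
    c * g * c⁻¹ ∈ stabC T1 (c * t * c⁻¹) ↔ g ∈ stabC T1 t := by
  rw [mem_stabC, mem_stabC]
  have e : c * g * c⁻¹ * (c * t * c⁻¹) * (c * g * c⁻¹)⁻¹ * (c * t * c⁻¹)⁻¹ =
      c * (g * t * g⁻¹ * t⁻¹) * c⁻¹ := by group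
  rw [e]
  constructor
  · intro h
    have h1 := hT1.conj_mem _ h c⁻¹
    have e1 : c⁻¹ * (c * (g * t * g⁻¹ * t⁻¹) * c⁻¹) * c⁻¹⁻¹ = g * t * g⁻¹ * t⁻¹ := by group
    rwa [e1] at h1
  · intro h
    exact hT1.conj_mem _ h c

theorem twob_coset {G : Type*} [Group G] (T1 : Subgroup G) [hT1 : T1.Normal] (t t' : G)
    (h : t' * t⁻¹ ∈ T1) (g : G) (hg : g ∈ stabC T1 t') : g ∈ stabC T1 t := by
  rw [mem_stabC] at hg ⊢
  have e : g * t * g⁻¹ * t⁻¹ =
      (g * (t' * t⁻¹) * g⁻¹)⁻¹ * (g * t' * g⁻¹ * t'⁻¹) * (t' * t⁻¹) := by group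
  rw [e]
  exact mul_mem (mul_mem (inv_mem (hT1.conj_mem _ h g)) hg) h

theorem twob_index {G : Type*} [Group G] (T1 : Subgroup G) [hT1 : T1.Normal] (t c : G) :
    (stabC T1 (c * t * c⁻¹)).index = (stabC T1 t).index := by
  have h : stabC T1 (c * t * c⁻¹) = (stabC T1 t).map (MulAut.conj c).toMonoidHom := by
    ext g
    rw [Subgroup.mem_map]
    constructor
    · intro hg
      refine ⟨c⁻¹ * g * c, ?_, ?_⟩
      · rw [← twob_conj T1 t c]
        have e : c * (c⁻¹ * g * c) * c⁻¹ = g := by group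
        rwa [e]
      · show c * (c⁻¹ * g * c) * c⁻¹ = g
        group
    · rintro ⟨k, hk, rfl⟩
      exact (twob_conj T1 t c k).2 hk
  rw [h]
  exact Subgroup.index_map_of_bijective (MulAut.conj c).bijective _

/-- `H = ⨅ j < 12, stabC T1 (x^j t x^(-j))`.  `stabC T1 (x^j t x^(-j))` is the conjugate by `x^j` of
`stabC T1 t`, so it has the same index (`Subgroup.index_iInf_le` or `Subgroup.index_inf_le`).
`x H x⁻¹ ≤ H`: conjugation by `x` maps the stabiliser for `j` to the one for `j + 1`, and the one for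
`12` is the one for `0`, because `x^12 ∈ V` commutes with `t` modulo `T1`
(`x^12 t x^(-12) t⁻¹ ∈ T1`, and `stabC T1 t' = stabC T1 t` if `t' t⁻¹ ∈ T1`). -/
theorem exists_H {G : Type*} [Group G] [Finite G] (V T T1 : Subgroup G) [V.Normal] [T.Normal]
    [T1.Normal] (hV : ∀ v ∈ V, ∀ t ∈ T, v * t * v⁻¹ * t⁻¹ ∈ T1) (t x : G) (ht : t ∈ T)
    (hx : x ^ 12 ∈ V) :
    ∃ H : Subgroup G, V ≤ H ∧ H ≤ stabC T1 t ∧ H.index ≤ (stabC T1 t).index ^ 12 ∧
      (∀ h ∈ H, x * h * x⁻¹ ∈ H) := by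
  have hTn : T.Normal := inferInstance
  refine ⟨⨅ j : Fin 12, stabC T1 (x ^ (j : ℕ) * t * (x ^ (j : ℕ))⁻¹), ?_, ?_, ?_, ?_⟩
  · refine le_iInf fun j v hv => ?_
    exact hV v hv _ (hTn.conj_mem t ht _)
  · refine (iInf_le _ (0 : Fin 12)).trans (le_of_eq ?_)
    simp
  · refine (Subgroup.index_iInf_le _).trans (le_of_eq ?_)
    have h1 : ∀ j : Fin 12, (stabC T1 (x ^ (j : ℕ) * t * (x ^ (j : ℕ))⁻¹)).index =
        (stabC T1 t).index := fun j => twob_index T1 t (x ^ (j : ℕ))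
    simp only [h1, Finset.prod_const, Finset.card_univ, Fintype.card_fin]
  · intro h hh
    rw [Subgroup.mem_iInf] at hh ⊢
    intro j
    rcases j with ⟨j, hj⟩
    rcases j with _ | j
    · have h1 := hh ⟨11, by norm_num⟩
      have h2 := (twob_conj T1 _ x h).2 h1
      have e : x * (x ^ (11 : ℕ) * t * (x ^ (11 : ℕ))⁻¹) * x⁻¹ = x ^ 12 * t * (x ^ 12)⁻¹ := by
        group
      change x * h * x⁻¹ ∈ stabC T1 (x * (x ^ (11 : ℕ) * t * (x ^ (11 : ℕ))⁻¹) * x⁻¹) at h2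
      rw [e] at h2
      change x * h * x⁻¹ ∈ stabC T1 (x ^ 0 * t * (x ^ 0)⁻¹)
      rw [pow_zero, one_mul, inv_one, mul_one]
      exact twob_coset T1 t _ (hV _ hx t ht) _ h2
    · have h1 := hh ⟨j, by omega⟩
      have h2 := (twob_conj T1 _ x h).2 h1
      have e : x * (x ^ j * t * (x ^ j)⁻¹) * x⁻¹ = x ^ (j + 1) * t * (x ^ (j + 1))⁻¹ := by
        rw [pow_succ']
        group
      change x * h * x⁻¹ ∈ stabC T1 (x * (x ^ j * t * (x ^ j)⁻¹) * x⁻¹) at h2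
      rw [e] at h2
      exact h2

end Pool.Agent.MPa0c355.B12
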