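import Pool.Agent.Lib.MP_a0c355_lc.B12.LampSer
import Pool.Agent.Lib.MP_a0c355_lc.B12.FourH
import Pool.Agent.Lib.MP_a0c355_lc.B12.FourG
import Pool.Agent.Lib.MP_a0c355_lc.B12.Fixed
import Pool.Agent.Lib.MP_a0c355_lc.B12.QuotDens

/-! # The case `p = 2`: the density in `Γ = H ⟨x⟩` -/

set_option autoImplicit false

namespace Pool.Agent.MPa0c355.B12

/-- the elements which normalise `H`, with their inverses -/
def TwoC_K {G : Type*} [Group G] (H : Subgroup G) : Subgroup G where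
  carrier := {g | ∀ h ∈ H, g * h * g⁻¹ ∈ H ∧ g⁻¹ * h * g ∈ H}
  one_mem' := by
    intro h hh
    simpa using hh
  mul_mem' := by
    intro a b ha hb h hh
    refine ⟨?_, ?_⟩
    · have h1 := (ha _ (hb h hh).1).1
      have e : a * b * h * (a * b)⁻¹ = a * (b * h * b⁻¹) * a⁻¹ := by group
      rw [e]
      exact h1
    · have h1 := (hb _ (ha h hh).2).2
      have e : (a * b)⁻¹ * h * (a * b) = b⁻¹ * (a⁻¹ * h * a) * b := by group
      rw [e]
      exact h1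
  inv_mem' := by
    intro a ha h hh
    rw [inv_inv]
    exact ⟨(ha h hh).2, (ha h hh).1⟩

theorem TwoC_sup_le {G : Type*} [Group G] [Finite G] (H : Subgroup G) (x : G)
    (hxH : ∀ h ∈ H, x * h * x⁻¹ ∈ H) : H ⊔ Subgroup.zpowers x ≤ TwoC_K H := by
  refine sup_le ?_ ?_
  · intro g hg h hh
    exact ⟨H.mul_mem (H.mul_mem hg hh) (H.inv_mem hg), H.mul_mem (H.mul_mem (H.inv_mem hg) hh) hg⟩
  · rw [Subgroup.zpowers_le]
    intro h hh
    refine ⟨hxH h hh, ?_⟩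
    have hpow : ∀ k : ℕ, ∀ h ∈ H, x ^ k * h * (x ^ k)⁻¹ ∈ H := by
      intro k
      induction k with
      | zero =>
        intro h hh
        simpa using hh
      | succ k ih =>
        intro h hh
        have h1 := hxH _ (ih h hh)
        have e : x ^ (k + 1) * h * (x ^ (k + 1))⁻¹ = x * (x ^ k * h * (x ^ k)⁻¹) * x⁻¹ := by
          rw [pow_succ']
          group
        rw [e]
        exact h1
    obtain ⟨k, hk⟩ := (isOfFinOrder_of_finite x).mem_powers_iff_mem_zpowers.2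
      (Subgroup.inv_mem _ (Subgroup.mem_zpowers x))
    have h1 := hpow k h hh
    have hk' : x ^ k = x⁻¹ := hk
    rw [hk', inv_inv] at h1
    exact h1

theorem TwoC_normal {G : Type*} [Group G] [Finite G] (H : Subgroup G) (x : G)
    (hxH : ∀ h ∈ H, x * h * x⁻¹ ∈ H) :
    (H.subgroupOf (H ⊔ Subgroup.zpowers x)).Normal := by
  refine ⟨fun n hn g => ?_⟩
  have h1 := TwoC_sup_le H x hxH g.2
  exact (h1 n.1 hn).1

theorem TwoC_sup {G : Type*} [Group G] (H : Subgroup G) (x : G)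
    (hx : x ∈ H ⊔ Subgroup.zpowers x) :
    H.subgroupOf (H ⊔ Subgroup.zpowers x) ⊔
      Subgroup.zpowers (⟨x, hx⟩ : (H ⊔ Subgroup.zpowers x : Subgroup G)) = ⊤ := by
  apply Subgroup.map_injective (H ⊔ Subgroup.zpowers x).subtype_injective
  rw [Subgroup.map_sup, Subgroup.map_subgroupOf_eq_of_le le_sup_left, MonoidHom.map_zpowers,
    ← MonoidHom.range_eq_map, Subgroup.range_subtype]
  rfl

/-- a subgroup of `H` inside a subgroup containing `H` -/
theorem TwoC_BL {G : Type*} [Group G] (H Γ : Subgroup G) (hH : H ≤ Γ) (t : H)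
    (hBL : BL 2 (Subgroup.normalClosure {t} : Subgroup H) 39) (t' : H.subgroupOf Γ)
    (ht' : (((t' : Γ) : G)) = t) :
    BL 2 (Subgroup.normalClosure {t'} : Subgroup (H.subgroupOf Γ)) 39 := by
  have hle : (Subgroup.normalClosure {t'} : Subgroup (H.subgroupOf Γ)) ≤
      (Subgroup.normalClosure {t} : Subgroup H).comap
        (Subgroup.subgroupOfEquivOfLe hH).toMonoidHom := by
    refine Subgroup.normalClosure_le_normal ?_
    rintro y hy
    rw [Set.mem_singleton_iff] at hy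
    subst hy
    have e : (Subgroup.subgroupOfEquivOfLe hH).toMonoidHom y = t := Subtype.ext ht'
    show (Subgroup.subgroupOfEquivOfLe hH).toMonoidHom y ∈ Subgroup.normalClosure {t}
    rw [e]
    exact Subgroup.subset_normalClosure (Set.mem_singleton t)
  let f : (Subgroup.normalClosure {t'} : Subgroup (H.subgroupOf Γ)) →*
      (Subgroup.normalClosure {t} : Subgroup H) :=
    MonoidHom.codRestrict ((Subgroup.subgroupOfEquivOfLe hH).toMonoidHom.comp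
      (Subgroup.normalClosure {t'} : Subgroup (H.subgroupOf Γ)).subtype) _ (fun y => hle y.2)
  refine BL.of_injective hBL f ?_
  intro a b hab
  have h1 : (Subgroup.subgroupOfEquivOfLe hH) a.1 = (Subgroup.subgroupOfEquivOfLe hH) b.1 :=
    congrArg Subtype.val hab
  exact Subtype.ext ((Subgroup.subgroupOfEquivOfLe hH).injective h1)

/-- 2-groups -/
theorem TwoC_pgroup {G : Type*} [Group G] (V K L : Subgroup G) (hV : IsPGroup 2 V) (hK : K ≤ V) :
    IsPGroup 2 (K.subgroupOf L) := by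
  intro y
  obtain ⟨k, hk⟩ := hV ⟨((y : L) : G), hK y.2⟩
  refine ⟨k, ?_⟩
  have h1 : (((y : L) : G)) ^ (2 ^ k) = 1 := congrArg Subtype.val hk
  exact Subtype.ext (Subtype.ext h1)

/-- `S` a Sylow 3-subgroup of `H`.  `exists_fixed` in the group `H` (for `T1 = T ∩ Inv d V`, a 2-group
contained in `H`): there is `t1 ∈ T1` such that `S` centralises `t' = t1 t`; as `t1 ∈ Inv d V`,
`(t' x)^d = (t1 (t x))^d = (t x)^d ≠ x^d`.  `t' ∈ V`.  `BL_closure_H` in `H` (`x ^ d ∈ M` gives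
`x ^ 12 ∈ M`). `Γ = H ⊔ zpowers x`; `H` is normal in `Γ` (`hxH`, finiteness), `x ^ 12 ∈ M ≤ V ≤ H`;
`BL_closure_Gamma` for the subgroup `H` of `Γ`.  `E` = the normal closure of `t'` in `Γ` is contained in
`V`, so it is a 2-group.  `density_of_BL` in `Γ`, `sub_density`, `|G| ≤ |G : H| |Γ|`. -/
theorem two_gamma {d : ℕ} (hd : d ∣ 12) {G : Type*} [Group G] [Finite G] (h23 : Is23 G)
    {M V : Subgroup G} (hm : Mono d 2 G M V) (T : Subgroup G) (hTn : T.Normal) (hT : T ≤ V)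
    (H : Subgroup G) (hVH : V ≤ H) (t x : G) (ht : t ∈ T)
    (hHt : ∀ h ∈ H, h * t * h⁻¹ * t⁻¹ ∈ T ⊓ Inv d V) (hxH : ∀ h ∈ H, x * h * x⁻¹ ∈ H)
    (hne : (t * x) ^ d ≠ x ^ d) {n : ℕ} (hn : Nat.card G ≤ 2 ^ n) :
    Nat.card G ≤ H.index * (2 * (((n + 1) ^ (2 ^ 468)) ^ 2 + 1) ^ d) *
      Nat.card {x : G // x ^ d ≠ 1} := by
  have hVn := hm.nV
  have hMn := hm.nM
  have h12 : ∀ g : G, g ^ 12 ∈ M := by
    intro g
    obtain ⟨k, hk⟩ := hd
    rw [hk, pow_mul]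
    exact M.pow_mem (hm.pow g) k
  have hT1n : (T ⊓ Inv d V).Normal := Subgroup.normal_inf_normal T (Inv d V)
  have hT1V : T ⊓ Inv d V ≤ V := le_trans inf_le_left hT
  obtain ⟨S⟩ : Nonempty (Sylow 3 H) := inferInstance
  have htH : t ∈ H := hVH (hT ht)
  obtain ⟨t1, ht1, hS⟩ := exists_fixed ((T ⊓ Inv d V).subgroupOf H)
    (TwoC_pgroup V _ H hm.pV hT1V) ⟨t, htH⟩ (fun h => hHt h.1 h.2) S
  have ht1' : ((t1 : H) : G) ∈ T ⊓ Inv d V := ht1
  -- the new element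
  obtain ⟨t', ht'⟩ : ∃ t' : H, t' = t1 * ⟨t, htH⟩ := ⟨_, rfl⟩
  rw [← ht'] at hS
  have ht'G : (t' : G) = (t1 : G) * t := by
    rw [ht']
    rfl
  have ht'V : (t' : G) ∈ V := by
    rw [ht'G]
    exact V.mul_mem (hT1V ht1') (hT ht)
  have hne' : ((t' : G) * x) ^ d ≠ x ^ d := by
    rw [ht'G, mul_assoc, (mem_Inv.1 (Subgroup.mem_inf.1 ht1').2).2]
    exact hne
  have hBL1 : BL 2 (Subgroup.normalClosure {t'} : Subgroup H) 39 := by
    refine BL_closure_H (h23.subgroup H) S (M.subgroupOf H) (V.subgroupOf H) ?_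
      (TwoC_pgroup V V H hm.pV (le_refl _)) ?_ ?_ ?_ t' ht'V hS
    · intro y hy
      exact hm.le hy
    · intro m hm' v hv
      exact Subtype.ext (hm.central m.1 hm' v.1 hv)
    · intro m hm'
      exact Subtype.ext (hm.elem m.1 hm')
    · intro y
      exact h12 y.1
  -- the group Γ
  have hHΓ : H ≤ H ⊔ Subgroup.zpowers x := le_sup_left
  have hxΓ : x ∈ H ⊔ Subgroup.zpowers x :=
    (le_sup_right : Subgroup.zpowers x ≤ H ⊔ Subgroup.zpowers x) (Subgroup.mem_zpowers x)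
  have hHn := TwoC_normal H x hxH
  have hsup := TwoC_sup H x hxΓ
  obtain ⟨Γ, hΓ⟩ : ∃ Γ : Subgroup G, Γ = H ⊔ Subgroup.zpowers x := ⟨_, rfl⟩
  rw [← hΓ] at hHn hHΓ
  have hxΓ' : x ∈ Γ := by rw [hΓ]; exact hxΓ
  have hsup' : H.subgroupOf Γ ⊔ Subgroup.zpowers (⟨x, hxΓ'⟩ : Γ) = ⊤ := by
    subst hΓ
    exact hsup
  have hBL2 := TwoC_BL H Γ hHΓ t' hBL1 ⟨⟨(t' : G), hHΓ t'.2⟩, t'.2⟩ rfl
  have hx12 : (⟨x, hxΓ'⟩ : Γ) ^ 12 ∈ H.subgroupOf Γ := hVH (hm.le (h12 x))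
  have hBL3 := BL_closure_Gamma (H.subgroupOf Γ) ⟨x, hxΓ'⟩ hsup' hx12
    ⟨⟨(t' : G), hHΓ t'.2⟩, t'.2⟩ hBL2
  have hE : IsPGroup 2 (Subgroup.normalClosure {(⟨(t' : G), hHΓ t'.2⟩ : Γ)} : Subgroup Γ) := by
    have hle : (Subgroup.normalClosure {(⟨(t' : G), hHΓ t'.2⟩ : Γ)} : Subgroup Γ) ≤
        V.subgroupOf Γ := by
      refine Subgroup.normalClosure_le_normal ?_
      rintro y hy
      rw [Set.mem_singleton_iff] at hy
      subst hy
      exact ht'V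
    exact (TwoC_pgroup V V Γ hm.pV (le_refl _)).to_le hle
  have hfact : Fact (Nat.Prime 2) := ⟨Nat.prime_two⟩
  have hcardΓ : Nat.card Γ ≤ 2 ^ n := le_trans (Subgroup.card_le_card_group Γ) hn
  have hne'' : ((⟨(t' : G), hHΓ t'.2⟩ : Γ) * ⟨x, hxΓ'⟩) ^ d ≠ (⟨x, hxΓ'⟩ : Γ) ^ d := by
    intro h
    exact hne' (congrArg Subtype.val h)
  have hsq : (((⟨(t' : G), hHΓ t'.2⟩ : Γ) * ⟨x, hxΓ'⟩) ^ d * ((⟨x, hxΓ'⟩ : Γ) ^ d)⁻¹) ^ 2 = 1 := by
    apply Subtype.ext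
    show ((((t' : G) * x) ^ d) * (x ^ d)⁻¹) ^ 2 = 1
    exact hm.elem _ (M.mul_mem (hm.pow _) (M.inv_mem (hm.pow _)))
  have h1 := density_of_BL 2 (Subgroup.normalClosure {(⟨(t' : G), hHΓ t'.2⟩ : Γ)} : Subgroup Γ)
    hE hBL3 d (Subgroup.subset_normalClosure (Set.mem_singleton _)) hne'' hsq hcardΓ
  have h2 := sub_density Γ d
  have h3 : Γ.index ≤ H.index := by
    have h4 : Γ.index ∣ H.index := Subgroup.index_dvd_of_le hHΓ
    exact Nat.le_of_dvd (Nat.pos_of_ne_zero Subgroup.index_ne_zero_of_finite) h4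
  calc Nat.card G = Γ.index * Nat.card Γ := (Subgroup.index_mul_card Γ).symm
    _ ≤ H.index * (2 * (((n + 1) ^ (2 ^ 468)) ^ 2 + 1) ^ d * Nat.card {x : Γ // x ^ d ≠ 1}) :=
        Nat.mul_le_mul h3 h1
    _ = H.index * (2 * (((n + 1) ^ (2 ^ 468)) ^ 2 + 1) ^ d) * Nat.card {x : Γ // x ^ d ≠ 1} :=
        (mul_assoc _ _ _).symm
    _ ≤ _ := Nat.mul_le_mul (le_refl _) h2

end Pool.Agent.MPa0c355.B12
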