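import Pool.Agent.Lib.MP_a0c355_lc.B12.TwoA
import Pool.Agent.Lib.MP_a0c355_lc.B12.TwoB
import Pool.Agent.Lib.MP_a0c355_lc.B12.TwoC
import Pool.Agent.Lib.MP_a0c355_lc.B12.SmallOrbit

/-! # The case `p = 2` -/

set_option autoImplicit false

namespace Pool.Agent.MPa0c355.B12

/-- `exists_T`, `small_orbit` with `T1 = T ⊓ Inv d V` (gives `t ∈ T`, `t ∉ Inv d V`, so there is `x` with
`(t x)^d ≠ x^d`), `exists_H`, `two_gamma`. -/
theorem step_two {d : ℕ} (hd : d ∣ 12) {G : Type} [Group G] [Finite G] (h23 : Is23 G)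
    {M V : Subgroup G} (hm : Mono d 2 G M V) (hinv : ¬ V ≤ Inv d V) {n : ℕ}
    (hn : Nat.card G ≤ 2 ^ n) :
    Nat.card G ≤ (3 * n ^ 19) ^ 12 * (2 * (((n + 1) ^ (2 ^ 468)) ^ 2 + 1) ^ d) *
      Nat.card {x : G // x ^ d ≠ 1} := by
  obtain ⟨T, hTn, hTV, hTI, hTc, hTs⟩ := exists_T hm hinv
  have := hm.nV
  have h12 : ∀ g : G, g ^ 12 ∈ V := by
    intro g
    obtain ⟨k, hk⟩ := hd
    rw [hk, pow_mul]
    exact V.pow_mem (hm.le (hm.pow g)) k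
  have hT1n : (T ⊓ Inv d V).Normal := Subgroup.normal_inf_normal T (Inv d V)
  obtain ⟨t, ht, ht1, hidx⟩ := small_orbit h23 V T (T ⊓ Inv d V) h12 inf_le_left
    (fun h => hTI (le_trans h inf_le_right)) hTc (fun s hs t ht => hTc s (hTV hs) t ht) hTs hn
  have hex : ∃ x : G, (t * x) ^ d ≠ x ^ d := by
    by_contra hcon
    push Not at hcon
    exact ht1 (Subgroup.mem_inf.2 ⟨ht, mem_Inv.2 ⟨hTV ht, hcon⟩⟩)
  obtain ⟨x, hx⟩ := hex
  obtain ⟨H, hVH, hHs, hHi, hHx⟩ := exists_H V T (T ⊓ Inv d V) hTc t x ht (h12 x)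
  have h1 := two_gamma hd h23 hm T hTn hTV H hVH t x ht (fun h hh => mem_stabC.1 (hHs hh)) hHx
    hx hn
  refine le_trans h1 (Nat.mul_le_mul (Nat.mul_le_mul ?_ (le_refl _)) (le_refl _))
  exact le_trans hHi (Nat.pow_le_pow_left hidx 12)

end Pool.Agent.MPa0c355.B12
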