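import Pool.Agent.Lib.MP_a0c355_lc.B12.Defs
import Pool.Agent.Lib.MP_a0c355_lc.B12.AutCard

/-! # A 3-group acting faithfully on a 2-group `B` has order at most `|B|^3` -/

set_option autoImplicit false

namespace Pool.Agent.MPa0c355.B12

open scoped commutatorElement

/-- the elements of `S` which act trivially on `B / B1` -/
theorem stab_trivial {J : Type*} [Group J] [Finite J] (S B B1 : Subgroup J) (hB1 : B1 ≤ B)
    (hS : IsPGroup 3 S) (hB : IsPGroup 2 B) (s : J) (hs : s ∈ S)
    (h1 : ∀ b ∈ B, s * b * s⁻¹ * b⁻¹ ∈ B1) (h2 : ∀ b ∈ B1, s * b = b * s) :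
    ∀ b ∈ B, s * b = b * s := by
  intro b hb
  set c : J := s * b * s⁻¹ * b⁻¹ with hc
  have hcB : c ∈ B1 := h1 b hb
  have hsc : s * c = c * s := h2 c hcB
  have hsb : s * b = c * b * s := by rw [hc]; group
  have hn : ∀ n : ℕ, s ^ n * b = c ^ n * b * s ^ n := by
    intro n
    induction n with
    | zero => simp
    | succ n ih =>
      have hcom : Commute s (c ^ n) := (show Commute s c from hsc).pow_right n
      calc s ^ (n + 1) * b = s * (s ^ n * b) := by rw [pow_succ' s n, mul_assoc]
        _ = s * (c ^ n * b * s ^ n) := by rw [ih]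
        _ = (s * c ^ n) * (b * s ^ n) := by simp only [mul_assoc]
        _ = (c ^ n * s) * (b * s ^ n) := by rw [hcom.eq]
        _ = c ^ n * (s * b) * s ^ n := by simp only [mul_assoc]
        _ = c ^ n * (c * b * s) * s ^ n := by rw [hsb]
        _ = c ^ (n + 1) * b * s ^ (n + 1) := by
          rw [pow_succ c n, pow_succ' s n]; simp only [mul_assoc]
  obtain ⟨m, hm⟩ := hS ⟨s, hs⟩
  have hm' : s ^ 3 ^ m = 1 := by
    have := congrArg Subtype.val hm
    simpa using this
  obtain ⟨k, hk⟩ := hB ⟨c, hB1 hcB⟩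
  have hk' : c ^ 2 ^ k = 1 := by
    have := congrArg Subtype.val hk
    simpa using this
  have h3 : c ^ 3 ^ m = 1 := by
    have h := hn (3 ^ m)
    rw [hm', one_mul, mul_one] at h
    exact (mul_eq_right.1 h.symm)
  have hc1 : c = 1 := by
    have hd1 : orderOf c ∣ 3 ^ m := orderOf_dvd_of_pow_eq_one h3
    have hd2 : orderOf c ∣ 2 ^ k := orderOf_dvd_of_pow_eq_one hk'
    have hcop : Nat.Coprime (3 ^ m) (2 ^ k) := Nat.Coprime.pow _ _ (by norm_num)
    have : orderOf c = 1 := Nat.eq_one_of_dvd_coprimes hcop hd1 hd2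
    exact orderOf_eq_one_iff.1 this
  rw [hsb, hc1, one_mul]

private theorem ThreeOnTwo_proper {B : Type*} [Group B] [Finite B] [Nontrivial B]
    (hB : IsPGroup 2 B) : lamp 2 B 1 ≠ ⊤ := by
  have : Fact (Nat.Prime 2) := ⟨Nat.prime_two⟩
  obtain ⟨n, hn⟩ := IsPGroup.iff_card.1 hB
  have hn0 : n ≠ 0 := by
    rintro rfl
    rw [pow_zero] at hn
    exact absurd hn (Finite.one_lt_card (α := B)).ne'
  obtain ⟨m, rfl⟩ := Nat.exists_eq_succ_of_ne_zero hn0
  obtain ⟨K, hK⟩ := Sylow.exists_subgroup_card_pow_prime 2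
    (show 2 ^ m ∣ Nat.card B by rw [hn]; exact pow_dvd_pow 2 (Nat.le_succ m))
  have hidx : K.index = 2 := by
    have h := K.card_mul_index
    rw [hK, hn, Nat.succ_eq_add_one, pow_succ] at h
    exact Nat.eq_of_mul_eq_mul_left (by positivity) h
  have hle : lamp 2 B 1 ≤ K := by
    refine lamp_succ_le ?_ ?_
    · intro a _ e
      rw [commutatorElement_def, Subgroup.mul_mem_iff_of_index_two hidx,
        Subgroup.mul_mem_iff_of_index_two hidx, Subgroup.mul_mem_iff_of_index_two hidx,
        inv_mem_iff, inv_mem_iff]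
      tauto
    · intro a _
      exact Subgroup.sq_mem_of_index_two hidx a
  intro htop
  rw [htop, top_le_iff] at hle
  rw [hle, Subgroup.index_top] at hidx
  exact absurd hidx (by norm_num)

/-- the action of the automorphisms of `B` on the quotient by the characteristic subgroup -/
private def ThreeOnTwo_act (B : Type*) [Group B] : MulAut B →* MulAut (B ⧸ lamp 2 B 1) where
  toFun e := QuotientGroup.congr (lamp 2 B 1) (lamp 2 B 1) e (by
    apply le_antisymm
    · rintro _ ⟨a, ha, rfl⟩
      exact lamp_map e.toMonoidHom 1 ha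
    · intro a ha
      exact ⟨e.symm a, lamp_map e.symm.toMonoidHom 1 ha, e.apply_symm_apply a⟩)
  map_one' := by
    ext x
    induction x using QuotientGroup.induction_on with
    | H x => rfl
  map_mul' a b := by
    ext x
    induction x using QuotientGroup.induction_on with
    | H x => rfl

private theorem ThreeOnTwo_act_mk (B : Type*) [Group B] (e : MulAut B) (b : B) :
    ThreeOnTwo_act B e (b : B ⧸ lamp 2 B 1) = ((e b : B) : B ⧸ lamp 2 B 1) := rfl

/-- Strong induction on `|B|` (for all 3-subgroups `S` of `J`).  `B = ⊥`: `S = ⊥`.  Otherwise let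
`B1` be the image in `J` of `lamp 2 B 1` (generated by the commutators and the squares of `B`); it is
normal in `J` and proper in the 2-group `B` (there is a subgroup of index 2), and
`W = B / B1` is elementary abelian.  `S` acts on it by conjugation with kernel `S1`, and
`|S : S1| ≤ |B / B1|^3` by `card_three_le`.  `S1` acts faithfully on `B1` by `stab_trivial` and
`hf`; induction: `|S1| ≤ |B1|^3`. -/
theorem card_three_on_two {J : Type*} [Group J] [Finite J] (S B : Subgroup J) [B.Normal]
    (hS : IsPGroup 3 S) (hB : IsPGroup 2 B)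
    (hf : ∀ s ∈ S, (∀ b ∈ B, s * b = b * s) → s = 1) : Nat.card S ≤ Nat.card B ^ 3 := by
  suffices H : ∀ n : ℕ, ∀ (S B : Subgroup J), B.Normal → IsPGroup 3 S → IsPGroup 2 B →
      (∀ s ∈ S, (∀ b ∈ B, s * b = b * s) → s = 1) → Nat.card B = n → Nat.card S ≤ n ^ 3 from
    H _ S B inferInstance hS hB hf rfl
  clear hf hB hS S
  intro n
  induction n using Nat.strong_induction_on with
  | _ n ih =>
  intro S B hN hS hB hf hcard
  have := hN
  rcases eq_or_ne B ⊥ with hbot | hne
  · have hSb : S = ⊥ := by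
      rw [eq_bot_iff]
      intro s hs
      rw [Subgroup.mem_bot]
      refine hf s hs ?_
      intro b hb
      rw [hbot, Subgroup.mem_bot] at hb
      rw [hb, mul_one, one_mul]
    rw [← hcard, hSb, hbot]
    simp
  · have : Nontrivial B := (Subgroup.nontrivial_iff_ne_bot B).2 hne
    have hprop := ThreeOnTwo_proper hB
    set L : Subgroup B := lamp 2 B 1 with hL
    let B1 : Subgroup J := L.map B.subtype
    have hB1B : B1 ≤ B := by
      rintro _ ⟨a, _, rfl⟩
      exact a.2
    have hB1N : B1.Normal := by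
      refine ⟨?_⟩
      rintro _ ⟨a, ha, rfl⟩ g
      exact ⟨MulAut.conjNormal g a, lamp_map (MulAut.conjNormal g : B ≃* B).toMonoidHom 1 ha,
        MulAut.conjNormal_apply g a⟩
    have hcB1 : Nat.card B1 = Nat.card L :=
      (Nat.card_congr (L.equivMapOfInjective B.subtype (Subgroup.subtype_injective B)).toEquiv).symm
    have hmul : Nat.card (B ⧸ L) * Nat.card L = n := by
      rw [← hcard]
      exact (Subgroup.card_eq_card_quotient_mul_card_subgroup L).symm
    have hlt : Nat.card B1 < n := by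
      have h1 : 1 < Nat.card (B ⧸ L) := by
        rw [← Subgroup.index_eq_card]
        exact Subgroup.one_lt_index_of_ne_top hprop
      have h2 : 0 < Nat.card L := Nat.card_pos
      rw [hcB1, ← hmul]
      nlinarith
    -- the quotient
    letI : CommGroup (B ⧸ L) :=
      { (inferInstance : Group (B ⧸ L)) with
        mul_comm := by
          intro x y
          induction x using QuotientGroup.induction_on with
          | H x =>
          induction y using QuotientGroup.induction_on with
          | H y =>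
          rw [← QuotientGroup.mk_mul, ← QuotientGroup.mk_mul, QuotientGroup.eq]
          have h : ⁅y⁻¹, x⁻¹⁆ ∈ L := lamp_comm_mem (p := 2) (i := 0) (Subgroup.mem_top _) _
          have e : (x * y)⁻¹ * (y * x) = ⁅y⁻¹, x⁻¹⁆ := by
            rw [commutatorElement_def]; group
          rw [e]
          exact h }
    have hW : ∀ x : B ⧸ L, x ^ 2 = 1 := by
      intro x
      induction x using QuotientGroup.induction_on with
      | H x =>
      rw [← QuotientGroup.mk_pow, QuotientGroup.eq_one_iff]
      exact lamp_pow_mem (p := 2) (i := 0) (Subgroup.mem_top x)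
    let φ : S →* MulAut (B ⧸ L) :=
      (ThreeOnTwo_act B).comp ((MulAut.conjNormal : J →* MulAut B).comp S.subtype)
    have hq : Nat.card (S ⧸ φ.ker) ≤ Nat.card (B ⧸ L) ^ 3 :=
      card_three_le (hS.to_quotient φ.ker) (B ⧸ L) hW (QuotientGroup.kerLift φ)
        (QuotientGroup.kerLift_injective φ)
    let S1 : Subgroup J := φ.ker.map S.subtype
    have hS1S : S1 ≤ S := by
      rintro _ ⟨a, _, rfl⟩
      exact a.2
    have hcS1 : Nat.card S1 = Nat.card φ.ker :=
      (Nat.card_congr
        (φ.ker.equivMapOfInjective S.subtype (Subgroup.subtype_injective S)).toEquiv).symm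
    have hS1 : ∀ s ∈ S1, ∀ b ∈ B, s * b * s⁻¹ * b⁻¹ ∈ B1 := by
      rintro _ ⟨s, hs, rfl⟩ b hb
      have h := DFunLike.congr_fun (MonoidHom.mem_ker.1 hs) ((⟨b, hb⟩ : B) : B ⧸ L)
      have h' : ((MulAut.conjNormal (s : J) ⟨b, hb⟩ : B) : B ⧸ L) = ((⟨b, hb⟩ : B) : B ⧸ L) := h
      rw [eq_comm, QuotientGroup.eq] at h'
      have h2 : MulAut.conjNormal (s : J) ⟨b, hb⟩ * (⟨b, hb⟩ : B)⁻¹ ∈ L := by
        have h3 := (lamp_normal (p := 2) (E := B) 1).conj_mem _ h' (⟨b, hb⟩ : B)
        have e : (⟨b, hb⟩ : B) * ((⟨b, hb⟩ : B)⁻¹ * MulAut.conjNormal (s : J) ⟨b, hb⟩) *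
            (⟨b, hb⟩ : B)⁻¹ = MulAut.conjNormal (s : J) ⟨b, hb⟩ * (⟨b, hb⟩ : B)⁻¹ := by group
        rw [e] at h3
        exact h3
      exact ⟨_, h2, rfl⟩
    have hf1 : ∀ s ∈ S1, (∀ b ∈ B1, s * b = b * s) → s = 1 := by
      intro s hs hb
      exact hf s (hS1S hs)
        (stab_trivial S B B1 hB1B hS hB s (hS1S hs) (hS1 s hs) hb)
    have hi := ih (Nat.card B1) hlt S1 B1 hB1N (hS.to_le hS1S) (hB.to_le hB1B) hf1 rfl
    have hSc : Nat.card S = Nat.card (S ⧸ φ.ker) * Nat.card φ.ker :=
      Subgroup.card_eq_card_quotient_mul_card_subgroup φ.ker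
    rw [hSc, ← hcS1, ← hmul, ← hcB1, mul_pow]
    exact Nat.mul_le_mul hq hi

end Pool.Agent.MPa0c355.B12
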