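import Pool.Agent.Lib.MP_a0c355_lc.B12.Defs

/-! # The case `p = 2`: the subgroup `T` -/

set_option autoImplicit false

namespace Pool.Agent.MPa0c355.B12

open scoped commutatorElement

/-- The subgroup generated by the commutators and the squares is proper. -/
theorem twoa_ne {G : Type*} [Group G] [Finite G] (V T : Subgroup G) [V.Normal] [T.Normal]
    (hV : IsPGroup 2 V) (hTV : T ≤ V) (hT : T ≠ ⊥) :
    ⁅V, T⁆ ⊔ Subgroup.closure {y | ∃ t ∈ T, y = t * t} ≠ T := by
  intro heq
  have hTn : T.Normal := inferInstance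
  have hCT : ⁅V, T⁆ ≤ T := Subgroup.commutator_le_right V T
  -- it is enough to show that `T ≤ ⁅V, T⁆`
  suffices hTC : T ≤ ⁅V, T⁆ by
    have hnil : Group.IsNilpotent V := hV.isNilpotent
    obtain ⟨n, hn⟩ := (Subgroup.isNilpotent_iff_lowerCentralSeries V).1 hnil
    have hle : ∀ i, T ≤ V.lowerCentralSeries i := by
      intro i
      induction i with
      | zero => exact hTV
      | succ i ih =>
        refine hTC.trans ?_
        rw [Subgroup.commutator_comm]
        exact Subgroup.commutator_mono ih le_rfl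
    apply hT
    rw [eq_bot_iff]
    exact (hle n).trans (le_of_eq hn)
  have hN : ((⁅V, T⁆ : Subgroup G).subgroupOf T).Normal := inferInstance
  let A := T ⧸ ((⁅V, T⁆ : Subgroup G).subgroupOf T)
  have hcomm : ∀ a b : A, a * b = b * a := by
    intro a b
    obtain ⟨a, rfl⟩ := QuotientGroup.mk_surjective a
    obtain ⟨b, rfl⟩ := QuotientGroup.mk_surjective b
    rw [← QuotientGroup.mk_mul, ← QuotientGroup.mk_mul, QuotientGroup.eq, Subgroup.mem_subgroupOf]
    have h1 : ((a * b)⁻¹ * (b * a) : T) = ⁅b⁻¹, a⁻¹⁆ := by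
      rw [commutatorElement_def]
      group
    rw [h1]
    exact Subgroup.commutator_mem_commutator (hTV (b⁻¹).2) (a⁻¹).2
  let sq : A →* A :=
    { toFun := fun a => a * a
      map_one' := one_mul 1
      map_mul' := fun a b => by
        rw [mul_assoc, ← mul_assoc b, hcomm b a, mul_assoc, mul_assoc] }
  have hsurj : Function.Surjective sq := by
    intro a
    obtain ⟨a, rfl⟩ := QuotientGroup.mk_surjective a
    have h1 : T ≤ ((sq.range).comap (QuotientGroup.mk' _)).map T.subtype := by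
      conv_lhs => rw [← heq]
      refine sup_le ?_ ((Subgroup.closure_le _).2 ?_)
      · intro c hc
        refine ⟨⟨c, hCT hc⟩, ?_, rfl⟩
        have h2 : (QuotientGroup.mk' ((⁅V, T⁆ : Subgroup G).subgroupOf T)) ⟨c, hCT hc⟩ = 1 := by
          rw [QuotientGroup.mk'_apply, QuotientGroup.eq_one_iff]
          exact hc
        show (QuotientGroup.mk' ((⁅V, T⁆ : Subgroup G).subgroupOf T)) ⟨c, hCT hc⟩ ∈ sq.range
        rw [h2]
        exact one_mem _
      · rintro _ ⟨t, ht, rfl⟩
        exact ⟨⟨t, ht⟩ * ⟨t, ht⟩, ⟨QuotientGroup.mk' _ ⟨t, ht⟩, rfl⟩, rfl⟩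
    obtain ⟨a', ⟨b, hb⟩, h3⟩ := h1 a.2
    have h4 : a' = a := Subtype.ext h3
    subst h4
    exact ⟨b, hb⟩
  have hinj : Function.Injective sq := Finite.injective_iff_surjective.2 hsurj
  have hA : IsPGroup 2 A := (hV.to_le hTV).to_quotient _
  have hone : ∀ (k : ℕ) (a : A), a ^ 2 ^ k = 1 → a = 1 := by
    intro k
    induction k with
    | zero => intro a ha; simpa using ha
    | succ k ih =>
      intro a ha
      apply ih
      apply hinj
      show a ^ 2 ^ k * a ^ 2 ^ k = sq 1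
      rw [map_one, ← pow_add, ← two_mul, ← pow_succ']
      exact ha
  intro t ht
  obtain ⟨k, hk⟩ := hA (QuotientGroup.mk ⟨t, ht⟩)
  have h1 := hone k _ hk
  rw [QuotientGroup.eq_one_iff] at h1
  exact h1

/-- `T` is minimal among the normal subgroups of `G` contained in `V` and not in `Inv d V` (`V` is one);
every normal subgroup of `G` properly contained in `T` is in `Inv d V`.  The subgroup generated by the
`v t v⁻¹ t⁻¹` is normal in `G`, contained in `T`, and proper: the 2-group `V` acts on the nontrivial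
2-group `T`, so `[T, V] < T` (`V` is nilpotent; e.g. `⁅T, V⁆ = T` would give `T ≤` every term of the lower
central series of `V`).  The subgroup generated by `⁅T, V⁆` and the squares of `T` is also normal and
proper: `T / ⁅T, V⁆` is a nontrivial abelian 2-group, whose subgroup of squares is proper. -/
theorem exists_T {d : ℕ} {G : Type*} [Group G] [Finite G] {M V : Subgroup G}
    (hm : Mono d 2 G M V) (hinv : ¬ V ≤ Inv d V) :
    ∃ T : Subgroup G, T.Normal ∧ T ≤ V ∧ ¬ T ≤ Inv d V ∧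
      (∀ v ∈ V, ∀ t ∈ T, v * t * v⁻¹ * t⁻¹ ∈ T ⊓ Inv d V) ∧ (∀ t ∈ T, t * t ∈ T ⊓ Inv d V) := by
  have hVn : V.Normal := hm.nV
  obtain ⟨T, hT, hmin⟩ : ∃ T : Subgroup G, (T.Normal ∧ T ≤ V ∧ ¬ T ≤ Inv d V) ∧
      ∀ W : Subgroup G, (W.Normal ∧ W ≤ V ∧ ¬ W ≤ Inv d V) → W ≤ T → W = T := by
    have hfin : {W : Subgroup G | W.Normal ∧ W ≤ V ∧ ¬ W ≤ Inv d V}.Finite := Set.toFinite _
    obtain ⟨T, hT⟩ := hfin.exists_minimal ⟨V, hVn, le_rfl, hinv⟩
    exact ⟨T, hT.prop, fun W hW hWT => hT.eq_of_le hW hWT⟩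
  obtain ⟨hTn, hTV, hTI⟩ := hT
  have hTbot : T ≠ ⊥ := by
    rintro rfl
    exact hTI bot_le
  have hne := twoa_ne V T hm.pV hTV hTbot
  set N : Subgroup G := ⁅V, T⁆ ⊔ Subgroup.closure {y | ∃ t ∈ T, y = t * t} with hN
  have hNT : N ≤ T := by
    refine sup_le (Subgroup.commutator_le_right V T) ((Subgroup.closure_le _).2 ?_)
    rintro _ ⟨t, ht, rfl⟩
    exact mul_mem ht ht
  have hsqn : (Subgroup.closure {y : G | ∃ t ∈ T, y = t * t}).Normal := by
    refine ⟨fun n hn g => ?_⟩
    have h1 : Subgroup.closure {y : G | ∃ t ∈ T, y = t * t} ≤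
        (Subgroup.closure {y : G | ∃ t ∈ T, y = t * t}).comap (MulAut.conj g).toMonoidHom := by
      refine (Subgroup.closure_le _).2 ?_
      rintro _ ⟨t, ht, rfl⟩
      refine Subgroup.subset_closure ⟨g * t * g⁻¹, hTn.conj_mem t ht g, ?_⟩
      show g * (t * t) * g⁻¹ = g * t * g⁻¹ * (g * t * g⁻¹)
      group
    exact h1 hn
  have hNn : N.Normal := by
    rw [hN]
    infer_instance
  have hNI : N ≤ Inv d V := by
    by_contra h
    exact hne (hmin N ⟨hNn, hNT.trans hTV, h⟩ hNT)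
  refine ⟨T, hTn, hTV, hTI, ?_, ?_⟩
  · intro v hv t ht
    have h1 : v * t * v⁻¹ * t⁻¹ ∈ N :=
      Subgroup.mem_sup_left (Subgroup.commutator_mem_commutator hv ht)
    exact ⟨hNT h1, hNI h1⟩
  · intro t ht
    have h1 : t * t ∈ N := Subgroup.mem_sup_right (Subgroup.subset_closure ⟨t, ht, rfl⟩)
    exact ⟨hNT h1, hNI h1⟩

end Pool.Agent.MPa0c355.B12
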