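import Mathlib

/-! # The 2-part of `|GL(w, 3)|` and the 3-part of `|GL(b, 2)|` -/

set_option autoImplicit false

namespace Pool.Agent.MPa0c355.B12

theorem Val2_step (j : ℕ) (hj : j ≠ 0) : padicValNat 2 (3 ^ j - 1) ≤ 2 + padicValNat 2 j := by
  have : Fact (Nat.Prime 2) := ⟨Nat.prime_two⟩
  rcases Nat.even_or_odd j with he | ho
  · have h := padicValNat.pow_two_sub_pow (x := 3) (y := 1) (by norm_num) (by norm_num)
      (by norm_num) hj he
    rw [one_pow] at h
    have h4 : padicValNat 2 (3 + 1) = 2 := by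
      have : (3 + 1 : ℕ) = 2 ^ 2 := by norm_num
      rw [this, padicValNat.prime_pow]
    have h2 : padicValNat 2 (3 - 1) = 1 := by
      have : (3 - 1 : ℕ) = 2 ^ 1 := by norm_num
      rw [this, padicValNat.prime_pow]
    omega
  · have h1 : ¬ 2 ^ 2 ∣ 3 ^ j - 1 := by
      obtain ⟨m, rfl⟩ := ho
      have h3 : 3 ^ (2 * m + 1) % 4 = 3 := by
        rw [pow_succ, pow_mul, Nat.mul_mod, Nat.pow_mod]
        norm_num
      have h5 := Nat.one_le_pow (2 * m + 1) 3 (by norm_num)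
      generalize 3 ^ (2 * m + 1) = y at h3 h5 ⊢
      omega
    have h6 : 3 ^ j - 1 ≠ 0 := by
      have := Nat.one_lt_pow hj (show 1 < 3 by norm_num)
      omega
    rw [padicValNat_dvd_iff_le h6] at h1
    omega

theorem Val2_prod (w : ℕ) : ∏ i ∈ Finset.range w, (3 ^ (i + 1) - 1) ≠ 0 ∧
    padicValNat 2 (∏ i ∈ Finset.range w, (3 ^ (i + 1) - 1)) ≤ 2 * w + padicValNat 2 w.factorial := by
  have : Fact (Nat.Prime 2) := ⟨Nat.prime_two⟩
  induction w with
  | zero => simp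
  | succ w ih =>
    have h1 : 3 ^ (w + 1) - 1 ≠ 0 := by
      have := Nat.one_lt_pow (Nat.succ_ne_zero w) (show 1 < 3 by norm_num)
      omega
    rw [Finset.prod_range_succ]
    refine ⟨mul_ne_zero ih.1 h1, ?_⟩
    rw [padicValNat.mul ih.1 h1, Nat.factorial_succ,
      padicValNat.mul (show w + 1 ≠ 0 by omega) (Nat.factorial_ne_zero w)]
    have h2 := Val2_step (w + 1) (Nat.succ_ne_zero w)
    have h3 := ih.2
    omega

/-- The product of the `q^w - q^i`. -/
theorem Val2_split (q w : ℕ) : ∏ i ∈ Finset.range w, (q ^ w - q ^ i) =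
    (∏ i ∈ Finset.range w, q ^ i) * ∏ i ∈ Finset.range w, (q ^ (i + 1) - 1) := by
  rw [← Finset.prod_range_reflect (fun i => q ^ (i + 1) - 1), ← Finset.prod_mul_distrib]
  refine Finset.prod_congr rfl fun i hi => ?_
  rw [Finset.mem_range] at hi
  rw [Nat.mul_sub, mul_one, ← pow_add]
  congr 2
  omega

/-- `v_2(3^w - 3^i) = v_2(3^(w-i) - 1) ≤ 2 + v_2(w - i)` (odd exponent `j`: `3^j - 1 ≡ 2` mod 4; even:
lifting the exponent, `Nat.two_pow_sub_pow` / `padicValNat.pow_two_sub_pow`), and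
`∑ v_2(j) = v_2(w!) ≤ w`; so the 2-part is at most `8^w ≤ 9^w`. -/
theorem two_part_le (w c : ℕ) (h : 2 ^ c ∣ ∏ i ∈ Finset.range w, (3 ^ w - 3 ^ i)) :
    2 ^ c ≤ 9 ^ w := by
  have : Fact (Nat.Prime 2) := ⟨Nat.prime_two⟩
  rw [Val2_split] at h
  have hco : Nat.Coprime (2 ^ c) (∏ i ∈ Finset.range w, 3 ^ i) :=
    Nat.Coprime.prod_right fun i _ => Nat.Coprime.pow _ _ (by norm_num)
  have h1 := hco.dvd_of_dvd_mul_left h
  obtain ⟨h2, h3⟩ := Val2_prod w
  rw [padicValNat_dvd_iff_le h2] at h1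
  have h4 := sub_one_mul_padicValNat_factorial (p := 2) w
  have h5 : padicValNat 2 w.factorial ≤ w := by
    have : (2 - 1) * padicValNat 2 w.factorial ≤ w := by rw [h4]; exact Nat.sub_le _ _
    omega
  calc 2 ^ c ≤ 2 ^ (3 * w) := Nat.pow_le_pow_right (by norm_num) (by omega)
    _ = 8 ^ w := by rw [pow_mul]; norm_num
    _ ≤ 9 ^ w := Nat.pow_le_pow_left (by norm_num) w

end Pool.Agent.MPa0c355.B12
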