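import Pool.Agent.Lib.MP_a0c355_lc.B12.CDefs

/-! # Weight spaces -/

set_option autoImplicit false

namespace Pool.Agent.MPa0c355.B12

open Module

/-- the weight space of the function `χ` on `A` -/
def wt {K H Y : Type*} [Field K] [Group H] [AddCommGroup Y] [Module K Y]
    (σ : H →* (Y →ₗ[K] Y)) (A : Subgroup H) (χ : A → K) : Submodule K Y where
  carrier := {y | ∀ a : A, σ (a : H) y = χ a • y}
  zero_mem' := fun a => by rw [map_zero, smul_zero]
  add_mem' := by
    intro x y hx hy a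
    rw [map_add, hx a, hy a, smul_add]
  smul_mem' := by
    intro c x hx a
    rw [map_smul, hx a, smul_comm]

variable {K H Y : Type*} [Field K] [Group H] [AddCommGroup Y] [Module K Y]
  [FiniteDimensional K Y]

theorem weight_aux [IsAlgClosed K] (σ : H →* (Y →ₗ[K] Y)) (A : Subgroup H)
    (hc : ∀ a ∈ A, ∀ b ∈ A, σ a * σ b = σ b * σ a) (n : ℕ) : ∀ W : Submodule K Y,
    finrank K W ≤ n → W ≠ ⊥ → (∀ a ∈ A, ∀ w ∈ W, σ a w ∈ W) →
    ∃ χ : A → K, ∃ w, w ≠ 0 ∧ w ∈ wt σ A χ := by
  induction n with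
  | zero =>
    intro W hW hne _
    exact absurd (Submodule.finrank_eq_zero.1 (Nat.le_zero.1 hW)) hne
  | succ n ih =>
    intro W hW hne hinv
    by_cases hsc : ∀ a : A, ∃ c : K, ∀ w ∈ W, σ (a : H) w = c • w
    · choose χ hχ using hsc
      obtain ⟨w, hw, hw0⟩ := (Submodule.ne_bot_iff W).1 hne
      exact ⟨χ, w, hw0, fun a => hχ a w hw⟩
    · push Not at hsc
      obtain ⟨a, ha⟩ := hsc
      have hnt : Nontrivial W := Submodule.nontrivial_iff_ne_bot.2 hne
      let f : W →ₗ[K] W := (σ (a : H)).restrict (hinv a a.2)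
      obtain ⟨μ, hμ⟩ := Module.End.exists_eigenvalue f
      obtain ⟨v, hv⟩ := hμ.exists_hasEigenvector
      have hv1 : σ (a : H) (v : Y) = μ • (v : Y) := by
        have h1 := hv.apply_eq_smul
        exact congrArg Subtype.val h1
      let W' : Submodule K Y :=
        { carrier := {w | w ∈ W ∧ σ (a : H) w = μ • w}
          zero_mem' := ⟨W.zero_mem, by rw [map_zero, smul_zero]⟩
          add_mem' := by
            rintro x y ⟨hx, hx'⟩ ⟨hy, hy'⟩
            exact ⟨W.add_mem hx hy, by rw [map_add, hx', hy', smul_add]⟩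
          smul_mem' := by
            rintro c x ⟨hx, hx'⟩
            exact ⟨W.smul_mem c hx, by rw [map_smul, hx', smul_comm]⟩ }
      have hlt : W' < W := by
        refine lt_of_le_of_ne (fun w hw => hw.1) fun heq => ?_
        obtain ⟨w, hw, hw'⟩ := ha μ
        rw [← heq] at hw
        exact hw' hw.2
      refine ih W' ?_ ?_ ?_
      · have h1 := Submodule.finrank_lt_finrank_of_lt hlt
        omega
      · rw [Submodule.ne_bot_iff]
        refine ⟨v, ⟨v.2, hv1⟩, fun h0 => hv.2 (Subtype.ext h0)⟩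
      · rintro b hb w ⟨hw, hw'⟩
        refine ⟨hinv b hb w hw, ?_⟩
        have h1 := LinearMap.congr_fun (hc a a.2 b hb) w
        have h2 : σ (a : H) (σ b w) = σ b (σ (a : H) w) := h1
        rw [h2, hw', map_smul]

/-- Commuting operators on a nonzero finite-dimensional space over an algebraically closed field
have a common eigenvector (induction on the dimension: if some `σ a` is not a scalar on the
invariant subspace, pass to an eigenspace of it). -/
theorem exists_wt [IsAlgClosed K] [Nontrivial Y] (σ : H →* (Y →ₗ[K] Y)) (A : Subgroup H)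
    (hc : ∀ a ∈ A, ∀ b ∈ A, σ a * σ b = σ b * σ a) : ∃ χ : A → K, wt σ A χ ≠ ⊥ := by
  obtain ⟨χ, w, hw0, hw⟩ := weight_aux σ A hc _ ⊤ le_rfl top_ne_bot
    fun a _ w _ => Submodule.mem_top
  exact ⟨χ, (Submodule.ne_bot_iff _).2 ⟨w, hw, hw0⟩⟩

theorem weight_sum_zero (σ : H →* (Y →ₗ[K] Y)) (A : Subgroup H) (s : Finset (A → K)) :
    ∀ w : (A → K) → Y, (∀ χ ∈ s, w χ ∈ wt σ A χ) → ∑ χ ∈ s, w χ = 0 → ∀ χ ∈ s, w χ = 0 := by
  classical
  induction s using Finset.induction_on with
  | empty =>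
    intro w _ _ χ hχ
    exact absurd hχ (Finset.notMem_empty χ)
  | insert χ0 s h0 ih =>
    intro w hw hsum
    have h1 : ∀ χ ∈ s, w χ = 0 := by
      intro χ hχ
      have hne : χ ≠ χ0 := fun h => h0 (h ▸ hχ)
      obtain ⟨a, ha⟩ := Function.ne_iff.1 hne
      have h2 := congrArg (σ (a : H)) hsum
      rw [map_sum, map_zero] at h2
      have h3 : ∑ ψ ∈ s, (ψ a - χ0 a) • w ψ = 0 := by
        have h4 : ∑ ψ ∈ insert χ0 s, (ψ a - χ0 a) • w ψ = 0 := by
          calc ∑ ψ ∈ insert χ0 s, (ψ a - χ0 a) • w ψ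
              = ∑ ψ ∈ insert χ0 s, σ (a : H) (w ψ) - χ0 a • ∑ ψ ∈ insert χ0 s, w ψ := by
                rw [Finset.smul_sum, ← Finset.sum_sub_distrib]
                refine Finset.sum_congr rfl fun ψ hψ => ?_
                rw [hw ψ hψ a, sub_smul]
            _ = 0 := by rw [h2, hsum, smul_zero, sub_zero]
        rw [Finset.sum_insert h0, sub_self, zero_smul, zero_add] at h4
        exact h4
      have h5 := ih (fun ψ => (ψ a - χ0 a) • w ψ)
        (fun ψ hψ => Submodule.smul_mem _ _ (hw ψ (Finset.mem_insert_of_mem hψ))) h3 χ hχ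
      exact (smul_eq_zero.1 h5).resolve_left (sub_ne_zero_of_ne ha)
    intro χ hχ
    rcases Finset.mem_insert.1 hχ with h | h
    · rw [Finset.sum_insert h0, Finset.sum_eq_zero h1, add_zero] at hsum
      rw [h]
      exact hsum
    · exact h1 χ h

/-- weight spaces of different `χ` are independent: for a finite set `s` of weights
`∑_{χ ∈ s} dim wt χ ≤ dim Y` (`Module.End.independent_iInf_maxGenEigenspace_of_forall_mapsTo`, or
directly by induction on `s`). -/
theorem sum_wt_le (σ : H →* (Y →ₗ[K] Y)) (A : Subgroup H) (s : Finset (A → K)) :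
    ∑ χ ∈ s, finrank K (wt σ A χ) ≤ finrank K Y := by
  classical
  let f : (∀ χ : s, wt σ A χ.1) →ₗ[K] Y :=
    ∑ χ : s, (wt σ A χ.1).subtype ∘ₗ LinearMap.proj χ
  have hfw : ∀ w : ∀ χ : s, wt σ A χ.1, f w = ∑ χ : s, (w χ : Y) := by
    intro w
    simp only [f, LinearMap.sum_apply]
    rfl
  have hinj : Function.Injective f := by
    rw [← LinearMap.ker_eq_bot, LinearMap.ker_eq_bot']
    intro w hw
    rw [hfw] at hw
    let w' : (A → K) → Y := fun χ => if h : χ ∈ s then (w ⟨χ, h⟩ : Y) else 0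
    have h1 : ∀ χ : s, w' χ.1 = (w χ : Y) := fun χ => dif_pos χ.2
    have h2 : ∑ χ ∈ s, w' χ = 0 := by
      rw [← Finset.sum_coe_sort s w', ← hw]
      exact Finset.sum_congr rfl fun χ _ => h1 χ
    have h3 := weight_sum_zero σ A s w' (fun χ hχ => by
      rw [h1 ⟨χ, hχ⟩]
      exact (w ⟨χ, hχ⟩).2) h2
    funext χ
    apply Subtype.ext
    rw [← h1 χ, h3 χ.1 χ.2]
    rfl
  have h1 := LinearMap.finrank_le_finrank_of_injective hinj
  rw [Module.finrank_pi_fintype] at h1
  rw [← Finset.sum_coe_sort s fun χ => finrank K (wt σ A χ)]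
  exact h1

end Pool.Agent.MPa0c355.B12
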