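import Pool.Agent.Lib.MP_a0c355_lc.B12.Weight

/-! # The weight space of one weight and its stabiliser -/

set_option autoImplicit false

namespace Pool.Agent.MPa0c355.B12

open Module

section

variable {K H Y : Type*} [Field K] [Group H] [AddCommGroup Y] [Module K Y]

/-- the conjugation action on the functions on a normal subgroup -/
def weightStepAct (K : Type*) (A : Subgroup H) (hA : A.Normal) : MulAction H (A → K) where
  smul h f a := f ⟨h⁻¹ * a * h, by simpa using hA.conj_mem a a.2 h⁻¹⟩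
  one_smul f := by
    funext a
    show f _ = f a
    congr 1
    apply Subtype.ext
    show (1 : H)⁻¹ * a * 1 = a
    group
  mul_smul h k f := by
    funext a
    show f _ = f _
    congr 1
    apply Subtype.ext
    show (h * k)⁻¹ * a * (h * k) = k⁻¹ * (h⁻¹ * a * h) * k
    group

theorem weightStep_map (σ : H →* (Y →ₗ[K] Y)) (A : Subgroup H) (hA : A.Normal) (χ : A → K)
    (h : H) (y : Y) (hy : y ∈ wt σ A χ) :
    σ h y ∈ wt σ A ((weightStepAct K A hA).smul h χ) := by
  intro a
  have hmem : h⁻¹ * a * h ∈ A := by simpa using hA.conj_mem a a.2 h⁻¹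
  have h1 : σ (h⁻¹ * a * h) y = χ ⟨h⁻¹ * a * h, hmem⟩ • y := hy ⟨h⁻¹ * a * h, hmem⟩
  have h2 : σ (a : H) (σ h y) = σ h (σ (h⁻¹ * a * h) y) := by
    show (σ (a : H) * σ h) y = (σ h * σ (h⁻¹ * a * h)) y
    rw [← map_mul, ← map_mul]
    congr 2
    group
  rw [h2, h1, map_smul]
  rfl

theorem weightStep_inj (σ : H →* (Y →ₗ[K] Y)) (h : H) : Function.Injective (σ h) := by
  intro x y hxy
  have h1 : ∀ z : Y, σ h⁻¹ (σ h z) = z := by
    intro z
    show (σ h⁻¹ * σ h) z = z
    rw [← map_mul, inv_mul_cancel, map_one]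
    rfl
  rw [← h1 x, hxy, h1]

theorem weightStep_finrank [FiniteDimensional K Y] (σ : H →* (Y →ₗ[K] Y)) (A : Subgroup H)
    (hA : A.Normal) (χ : A → K) (h : H) :
    finrank K (wt σ A χ) ≤ finrank K (wt σ A ((weightStepAct K A hA).smul h χ)) := by
  refine LinearMap.finrank_le_finrank_of_injective
    (f := ((σ h).comp (wt σ A χ).subtype).codRestrict _
      (fun y => weightStep_map σ A hA χ h y y.2)) ?_
  intro x y hxy
  apply Subtype.ext
  exact weightStep_inj σ h (congrArg Subtype.val hxy)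

end

variable {K H Y : Type*} [Field K] [IsAlgClosed K] [Group H] [Finite H]
  [AddCommGroup Y] [Module K Y] [FiniteDimensional K Y] [Nontrivial Y]

/-- `A` is normal in `H` and its elements act by commuting operators on `Y`.  Take a weight `χ` with `W = wt σ A χ ≠ ⊥`.  `H` permutes the weights, `σ h` maps `wt χ` onto
`wt (χ^h)`, `χ^h(a) = χ(h⁻¹ a h)`; let `H'` be the stabiliser of `χ`: it maps `W` to itself and
`|H : H'|` is the number of different `χ^h`, whose weight spaces have the same dimension, so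
`|H : H'| dim W ≤ dim Y` by `sum_wt_le`.  If `W = Y` then the elements of `A` act by scalars.  -/
theorem weight_step (σ : H →* (Y →ₗ[K] Y)) (A : Subgroup H) (hA : A.Normal)
    (hc : ∀ a ∈ A, ∀ b ∈ A, σ a * σ b = σ b * σ a) :
    (∀ a ∈ A, ∃ c : K, σ a = c • (1 : Y →ₗ[K] Y)) ∨
      ∃ (H' : Subgroup H) (W : Submodule K Y), W ≠ ⊥ ∧ W ≠ ⊤ ∧
        (∀ h ∈ H', ∀ y ∈ W, σ h y ∈ W) ∧ H'.index * finrank K W ≤ finrank K Y := by
  obtain ⟨χ, hχ⟩ := exists_wt σ A hc
  by_cases htop : wt σ A χ = ⊤
  · left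
    intro a ha
    refine ⟨χ ⟨a, ha⟩, ?_⟩
    ext y
    have hy : y ∈ wt σ A χ := by rw [htop]; exact Submodule.mem_top
    exact hy ⟨a, ha⟩
  · right
    letI := weightStepAct K A hA
    refine ⟨MulAction.stabilizer H χ, wt σ A χ, hχ, htop, ?_, ?_⟩
    · intro h hh y hy
      have h1 := weightStep_map σ A hA χ h y hy
      have h2 : (weightStepAct K A hA).smul h χ = χ := MulAction.mem_stabilizer_iff.1 hh
      rwa [h2] at h1
    · have hfin : (MulAction.orbit H χ).Finite := Set.finite_range _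
      have h1 : (MulAction.stabilizer H χ).index = hfin.toFinset.card := by
        rw [MulAction.index_stabilizer, Set.ncard_eq_toFinset_card _ hfin]
      rw [h1, ← smul_eq_mul, ← Finset.sum_const]
      refine le_trans (Finset.sum_le_sum fun χ' hχ' => ?_) (sum_wt_le σ A hfin.toFinset)
      rw [Set.Finite.mem_toFinset] at hχ'
      obtain ⟨h, rfl⟩ := hχ'
      exact weightStep_finrank σ A hA χ h

end Pool.Agent.MPa0c355.B12
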